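import Mathlib

open scoped BigOperators InnerProductSpace ComplexOrder ComplexConjugate
open MeasureTheory ProbabilityTheory Filter Topology

namespace Pool.Agent.KG

variable {𝕜 : Type} [RCLike 𝕜]

lemma exists_simple {n : ℕ} (hn : 0 < n) {Ω : Type}
    [MeasurableSpace Ω] (P : Measure Ω) [IsProbabilityMeasure P]
    (X : Ω → EuclideanSpace 𝕜 (Fin n)) (hX : Measurable X)
    (hint : Integrable (fun ω => ‖X ω‖) P)
    (τ : ℝ) (hτ : τ < ∫ ω, ‖X ω‖ ∂P) :
    ∃ Y : SimpleFunc Ω (EuclideanSpace 𝕜 (Fin n)), (∀ ω, ‖Y ω‖ = 1) ∧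
      τ < ∫ ω, RCLike.re ⟪Y ω, X ω⟫_𝕜 ∂P := by
  classical
  set e0 : EuclideanSpace 𝕜 (Fin n) := EuclideanSpace.single ⟨0, hn⟩ 1 with he0
  have he0n : ‖e0‖ = 1 := by simp [he0]
  set D : Ω → EuclideanSpace 𝕜 (Fin n) := fun ω =>
    if X ω = 0 then e0 else ((‖X ω‖ : 𝕜))⁻¹ • X ω with hD
  have hDm : Measurable D := by
    refine Measurable.ite (hX (measurableSet_singleton 0)) measurable_const ?_
    exact (((RCLike.measurable_ofReal (𝕜 := 𝕜)).comp hX.norm).inv).smul hX
  have hDn : ∀ ω, ‖D ω‖ = 1 := by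
    intro ω
    simp only [hD]
    split_ifs with h
    · exact he0n
    · rw [norm_smul, norm_inv, RCLike.norm_ofReal, abs_norm]
      exact inv_mul_cancel₀ (norm_ne_zero_iff.2 h)
  have hDX : ∀ ω, RCLike.re ⟪D ω, X ω⟫_𝕜 = ‖X ω‖ := by
    intro ω
    simp only [hD]
    split_ifs with h
    · simp [h]
    · rw [inner_smul_left, map_inv₀, RCLike.conj_ofReal, inner_self_eq_norm_sq_to_K]
      have : (‖X ω‖ : 𝕜) ≠ 0 := by
        simpa using h
      rw [sq, ← mul_assoc, inv_mul_cancel₀ this, one_mul, RCLike.ofReal_re]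
  set s : Set (EuclideanSpace 𝕜 (Fin n)) := Metric.sphere 0 1 with hs
  have h0 : e0 ∈ s := by simp [hs, he0n]
  let Y : ℕ → SimpleFunc Ω (EuclideanSpace 𝕜 (Fin n)) := fun k =>
    SimpleFunc.approxOn D hDm s e0 h0 k
  have hYn : ∀ k ω, ‖Y k ω‖ = 1 := by
    intro k ω
    have := SimpleFunc.approxOn_mem hDm h0 k ω
    simpa [hs] using this
  have hlim : Tendsto (fun k => ∫ ω, RCLike.re ⟪Y k ω, X ω⟫_𝕜 ∂P) atTop
      (𝓝 (∫ ω, ‖X ω‖ ∂P)) := by
    refine tendsto_integral_of_dominated_convergence (fun ω => ‖X ω‖) (fun k => ?_) hint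
      (fun k => Eventually.of_forall fun ω => ?_) (Eventually.of_forall fun ω => ?_)
    · exact (RCLike.measurable_re.comp
        ((Y k).measurable.inner hX)).aestronglyMeasurable
    · refine (RCLike.norm_re_le_norm _).trans ((norm_inner_le_norm _ _).trans ?_)
      rw [hYn, one_mul]
    · have h1 : Tendsto (fun k => Y k ω) atTop (𝓝 (D ω)) := by
        refine SimpleFunc.tendsto_approxOn hDm h0 ?_
        apply subset_closure
        simp [hs, hDn]
      have h2 : Tendsto (fun k => RCLike.re ⟪Y k ω, X ω⟫_𝕜) atTop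
          (𝓝 (RCLike.re ⟪D ω, X ω⟫_𝕜)) :=
        (RCLike.continuous_re.tendsto _).comp (h1.inner tendsto_const_nhds)
      rwa [hDX] at h2
  obtain ⟨k, hk⟩ := ((tendsto_order.1 hlim).1 τ hτ).exists
  exact ⟨Y k, hYn k, hk⟩

/-- Decomposition of an integral along the level sets of a simple function. -/
lemma integral_cells {E : Type*} [NormedAddCommGroup E] [NormedSpace ℝ E] {V : Type*} {Ω : Type}
    [MeasurableSpace Ω] (P : Measure Ω) (Y : SimpleFunc Ω V) {k : ℕ} (e : Y.range ≃ Fin k)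
    (g : Ω → E) (hg : Integrable g P) :
    ∫ ω, g ω ∂P = ∑ i : Fin k, ∫ ω in Y ⁻¹' {(e.symm i : V)}, g ω ∂P := by
  have hU : (⋃ i : Fin k, Y ⁻¹' {(e.symm i : V)}) = Set.univ := by
    ext ω
    simp only [Set.mem_iUnion, Set.mem_preimage, Set.mem_singleton_iff, Set.mem_univ, iff_true]
    exact ⟨e ⟨Y ω, Y.mem_range_self ω⟩, by simp⟩
  rw [← integral_iUnion_fintype (fun i => Y.measurableSet_preimage _) ?_
    (fun i => hg.integrableOn), hU, Measure.restrict_univ]
  intro i j hij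
  rw [Function.onFun, Set.disjoint_left]
  intro ω hi hj
  simp only [Set.mem_preimage, Set.mem_singleton_iff] at hi hj
  apply hij
  have : (e.symm i) = (e.symm j) := Subtype.ext (hi.symm.trans hj)
  exact e.symm.injective this

end Pool.Agent.KG
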