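import Pool.Agent.KG.Defs
import Pool.Agent.KG.Discretize

/-! From a bound for the form `B ε` on bounded functions to a lower bound for the real
Grothendieck constant. -/

open MeasureTheory ProbabilityTheory Real Filter Topology

namespace Pool.Agent.KG

variable {n : ℕ}

lemma memLp_id_gam : MemLp (fun x : Ev n => x) 2 (gam n) :=
  IsGaussian.memLp_id (gam n) 2 (by norm_num)

lemma integrable_smul_id (f : L2 n) : Integrable (fun x : Ev n => f x • x) (gam n) := by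
  have h := MemLp.smul (p := 2) (q := 2) (r := 1) memLp_id_gam (Lp.memLp f)
  exact memLp_one_iff_integrable.1 h

/-- the barycentre as a linear map -/
noncomputable def barL : L2 n →ₗ[ℝ] Ev n where
  toFun := bar
  map_add' f g := by
    unfold bar
    rw [← integral_add (integrable_smul_id f) (integrable_smul_id g)]
    refine integral_congr_ae ?_
    filter_upwards [Lp.coeFn_add f g] with x hx
    rw [hx, Pi.add_apply, add_smul]
  map_smul' c f := by
    unfold bar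
    rw [RingHom.id_apply, ← integral_smul]
    refine integral_congr_ae ?_
    filter_upwards [Lp.coeFn_smul c f] with x hx
    rw [hx, Pi.smul_apply, smul_eq_mul, mul_smul]

lemma bar_eq (f : L2 n) : bar f = barL f := rfl

lemma B_sum {ι : Type*} (s : Finset ι) (ε : ℝ) (p q : ι → ℝ) (χ : ι → L2 n) :
    B ε (∑ c ∈ s, p c • χ c) (∑ d ∈ s, q d • χ d) =
      ∑ c ∈ s, ∑ d ∈ s, B ε (χ c) (χ d) * p c * q d := by
  unfold B
  rw [bar_eq, bar_eq, map_sum, map_sum, map_sum, map_sum, sum_inner, sum_inner, Finset.mul_sum,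
    ← Finset.sum_sub_distrib]
  refine Finset.sum_congr rfl fun c _ => ?_
  rw [inner_sum, inner_sum, Finset.mul_sum, ← Finset.sum_sub_distrib]
  refine Finset.sum_congr rfl fun d _ => ?_
  rw [map_smul, map_smul, map_smul, map_smul, inner_smul_left, inner_smul_right, inner_smul_left,
    inner_smul_right, bar_eq, bar_eq]
  simp only [conj_trivial]
  ring

lemma B_neg_left (ε : ℝ) (f g : L2 n) : B ε (-f) g = -B ε f g := by
  unfold B
  rw [bar_eq, bar_eq, bar_eq, map_neg, map_neg, inner_neg_left, inner_neg_left]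
  ring

section Cells

variable {E : Type} (Y : SimpleFunc (Ev n) E) {k : ℕ} (e : Y.range ≃ Fin k)

/-- the index of the cell of a point -/
noncomputable def cell (x : Ev n) : Fin k := e ⟨Y x, Y.mem_range_self x⟩

open Classical in
/-- a function constant on cells, as a simple function -/
noncomputable def cellFun (p : Fin k → ℝ) : SimpleFunc (Ev n) ℝ :=
  Y.map (fun v => if h : v ∈ Y.range then p (e ⟨v, h⟩) else 0)

lemma cellFun_apply (p : Fin k → ℝ) (x : Ev n) : cellFun Y e p x = p (cell Y e x) := by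
  unfold cellFun cell
  rw [SimpleFunc.map_apply, dif_pos (Y.mem_range_self x)]

lemma memLp_cell (p : Fin k → ℝ) : MemLp (fun x => p (cell Y e x)) 2 (gam n) := by
  have h : (fun x => p (cell Y e x)) = cellFun Y e p := funext fun x => (cellFun_apply Y e p x).symm
  rw [h]
  exact SimpleFunc.memLp_of_isFiniteMeasure _ _ _

/-- functions constant on cells, as elements of `L²` -/
noncomputable def Phi : (Fin k → ℝ) →ₗ[ℝ] L2 n where
  toFun p := (memLp_cell Y e p).toLp _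
  map_add' p q := by
    rw [← MemLp.toLp_add]
    rfl
  map_smul' c p := by
    rw [RingHom.id_apply, ← MemLp.toLp_const_smul]
    rfl

lemma Phi_coe (p : Fin k → ℝ) : ∀ᵐ x ∂(gam n), Phi Y e p x = p (cell Y e x) :=
  (memLp_cell Y e p).coeFn_toLp

/-- the indicator functions of the cells -/
noncomputable def chi (c : Fin k) : L2 n := Phi Y e (fun j => if c = j then 1 else 0)

lemma Phi_eq (p : Fin k → ℝ) : Phi Y e p = ∑ c, p c • chi Y e c :=
  LinearMap.pi_apply_eq_sum_univ (Phi Y e) p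

lemma B_Phi (ε : ℝ) (p q : Fin k → ℝ) :
    B ε (Phi Y e p) (Phi Y e q) = ∑ c, ∑ d, B ε (chi Y e c) (chi Y e d) * p c * q d := by
  rw [Phi_eq, Phi_eq, B_sum]

lemma abs_Phi_le (p : Fin k → ℝ) (hp : ∀ c, |p c| ≤ 1) : ∀ᵐ x ∂(gam n), |Phi Y e p x| ≤ 1 := by
  filter_upwards [Phi_coe Y e p] with x hx
  rw [hx]
  exact hp _

end Cells

/-- the main inequality in dimension `n` -/
lemma lower_dim (ε β0 : ℝ)
    (hB : ∀ (n : ℕ), 0 < n → ∀ f g : L2 n, (∀ᵐ x ∂(gam n), |f x| ≤ 1) → (∀ᵐ x ∂(gam n), |g x| ≤ 1) →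
      B ε f g ≤ β0)
    (hnum : ∀ (n : ℕ) (F : Fin n → L2 n), (∀ᵐ x ∂(gam n), ∑ i, F i x ^ 2 ≤ 1) → 0 < n →
      ∀ τ : ℝ, 0 ≤ τ → τ ≤ ∫ x, ∑ i, F i x * x i ∂(gam n) →
      (1 + ε) * (τ ^ 2 / n) - ε ≤ ∑ i, B ε (F i) (F i))
    (K : ℝ) (hK : 0 < K) (h : IsGrothendieckBound K) (n : ℕ) (hn : 0 < n) (τ : ℝ) (hτ0 : 0 ≤ τ)
    (hτ : τ < ∫ x, ‖x‖ ∂(gam n)) :
    (1 + ε) * (τ ^ 2 / n) - ε ≤ K * β0 := by
  classical
  obtain ⟨Y, hY1, hY2⟩ := exists_simple (𝕜 := ℝ) hn (gam n) (fun x : Ev n => x) measurable_id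
    (by simpa using integrable_norm_pow (E := Ev n) 1) τ hτ
  obtain ⟨k, ⟨e⟩⟩ := Finite.exists_equiv_fin Y.range
  set v : Fin k → Ev n := fun c => (e.symm c : Ev n) with hv
  have hvY : ∀ x, v (cell Y e x) = Y x := by
    intro x
    simp [hv, cell]
  have hv1 : ∀ c, ‖v c‖ = 1 := by
    intro c
    obtain ⟨x, hx⟩ := SimpleFunc.mem_range.1 (e.symm c).2
    simp only [hv]
    rw [← hx]
    exact hY1 x
  set F : Fin n → L2 n := fun i => Phi Y e (fun c => v c i) with hF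
  have hFc : ∀ᵐ x ∂(gam n), ∀ i, F i x = Y x i := by
    rw [ae_all_iff]
    intro i
    filter_upwards [Phi_coe Y e (fun c => v c i)] with x hx
    simp only [hF]
    rw [hx, hvY]
  have hF1 : ∀ᵐ x ∂(gam n), ∑ i, F i x ^ 2 ≤ 1 := by
    filter_upwards [hFc] with x hx
    simp_rw [hx]
    have h1 := EuclideanSpace.real_norm_sq_eq (Y x)
    rw [← h1, hY1]
    norm_num
  have hF2 : τ ≤ ∫ x, ∑ i, F i x * x i ∂(gam n) := by
    refine hY2.le.trans (le_of_eq ?_)
    refine integral_congr_ae ?_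
    filter_upwards [hFc] with x hx
    simp_rw [hx]
    rw [PiLp.inner_apply]
    simp [mul_comm]
  have h1 := hnum n F hF1 hn τ hτ0 hF2
  set A : Matrix (Fin k) (Fin k) ℝ := Matrix.of fun c d => B ε (chi Y e c) (chi Y e d) with hA
  have h2 : ∑ i, B ε (F i) (F i) = ∑ c, ∑ d, A c d * (inner ℝ (v c) (v d) : ℝ) := by
    simp only [hF]
    simp_rw [B_Phi]
    rw [Finset.sum_comm]
    refine Finset.sum_congr rfl fun c _ => ?_
    rw [Finset.sum_comm]
    refine Finset.sum_congr rfl fun d _ => ?_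
    rw [PiLp.inner_apply, Finset.mul_sum]
    refine Finset.sum_congr rfl fun i _ => ?_
    simp [hA]
    ring
  have h3 : beta A ≤ β0 := by
    unfold beta
    refine csSup_le ⟨_, 0, 0, by simp, by simp, rfl⟩ ?_
    rintro r ⟨p, q, hp, hq, rfl⟩
    have h4 : ∑ i, ∑ j, A i j * p i * q j = B ε (Phi Y e p) (Phi Y e q) := by
      rw [B_Phi]
      rfl
    rw [h4, abs_le']
    refine ⟨hB n hn _ _ (abs_Phi_le Y e p hp) (abs_Phi_le Y e q hq), ?_⟩
    rw [← B_neg_left, ← map_neg]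
    exact hB n hn _ _ (abs_Phi_le Y e (-p) (by simpa using hp)) (abs_Phi_le Y e q hq)
  have h5 := h k k A (Ev n) v v (fun c => (hv1 c).le) (fun c => (hv1 c).le)
  calc (1 + ε) * (τ ^ 2 / n) - ε ≤ ∑ i, B ε (F i) (F i) := h1
    _ = ∑ c, ∑ d, A c d * (inner ℝ (v c) (v d) : ℝ) := h2
    _ ≤ |∑ c, ∑ d, A c d * (inner ℝ (v c) (v d) : ℝ)| := le_abs_self _
    _ ≤ K * beta A := h5
    _ ≤ K * β0 := mul_le_mul_of_nonneg_left h3 hK.le

/-- M4b: from the bound of the form `B ε` to a lower bound for the Grothendieck constant. -/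
theorem lower_of (ε β0 : ℝ) (hβ0 : 0 < β0)
    (hB : ∀ (n : ℕ), 0 < n → ∀ f g : L2 n, (∀ᵐ x ∂(gam n), |f x| ≤ 1) → (∀ᵐ x ∂(gam n), |g x| ≤ 1) →
      B ε f g ≤ β0)
    (hnum : ∀ (n : ℕ) (F : Fin n → L2 n), (∀ᵐ x ∂(gam n), ∑ i, F i x ^ 2 ≤ 1) → 0 < n →
      ∀ τ : ℝ, 0 ≤ τ → τ ≤ ∫ x, ∑ i, F i x * x i ∂(gam n) →
      (1 + ε) * (τ ^ 2 / n) - ε ≤ ∑ i, B ε (F i) (F i))
    (K : ℝ) (hK : 0 < K) (h : IsGrothendieckBound K) : 1 / β0 ≤ K := by
  rw [div_le_iff₀ hβ0]
  have key : ∀ m : ℕ, 2 ≤ m → (1 + ε) * (1 - 2 / (m : ℝ)) ^ 2 - ε ≤ K * β0 := by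
    intro m hm
    have hm0 : (0 : ℝ) < m := by exact_mod_cast (by omega : 0 < m)
    have hm2 : (2 : ℝ) ≤ m := by exact_mod_cast hm
    have hs : 0 < √(m : ℝ) := Real.sqrt_pos.2 hm0
    have h1 : (0 : ℝ) ≤ 1 - 2 / m := by
      rw [sub_nonneg, div_le_one hm0]
      exact hm2
    have h2 := integral_norm_ge (ι := Fin m) (by simpa using (by omega : 0 < m))
    rw [Fintype.card_fin] at h2
    have h3 : √(m : ℝ) * (1 - 2 / m) < ∫ x, ‖x‖ ∂(gam m) := by
      refine lt_of_lt_of_le ?_ h2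
      apply mul_lt_mul_of_pos_left _ hs
      have : (1 : ℝ) / m < 2 / m := by
        apply div_lt_div_of_pos_right _ hm0
        norm_num
      linarith
    have h4 := lower_dim ε β0 hB hnum K hK h m (by omega) (√(m : ℝ) * (1 - 2 / m))
      (mul_nonneg hs.le h1) h3
    have h5 : (√(m : ℝ) * (1 - 2 / m)) ^ 2 / m = (1 - 2 / m) ^ 2 := by
      rw [mul_pow, Real.sq_sqrt hm0.le]
      field_simp
    rwa [h5] at h4
  have hlim : Tendsto (fun m : ℕ => (1 + ε) * (1 - 2 / (m : ℝ)) ^ 2 - ε) atTop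
      (𝓝 ((1 + ε) * (1 - 0) ^ 2 - ε)) := by
    refine ((Tendsto.pow ?_ 2).const_mul _).sub_const _
    exact tendsto_const_nhds.sub (tendsto_const_div_atTop_nhds_zero_nat 2)
  have h6 := le_of_tendsto hlim (eventually_atTop.2 ⟨2, key⟩)
  linarith

end Pool.Agent.KG
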