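import Pool.Agent.KG.Gauss1D

/-! Cubic polynomials in the Hermite basis and their Gaussian moments. -/

open MeasureTheory ProbabilityTheory Real

namespace Pool.Agent.KG

/-- the cubic polynomial with Hermite coefficients `c0, c1, c2, c3` -/
noncomputable def cub (c0 c1 c2 c3 t : ℝ) : ℝ :=
  c0 + c1 * t + c2 * ((t ^ 2 - 1) / √2) + c3 * ((t ^ 3 - 3 * t) / √6)

lemma continuous_cub : Continuous (fun p : ℝ × ℝ × ℝ × ℝ × ℝ =>
    cub p.1 p.2.1 p.2.2.1 p.2.2.2.1 p.2.2.2.2) := by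
  unfold cub
  fun_prop

/-- Gaussian integral of a polynomial of degree at most 6 -/
lemma integral_poly6 (b0 b1 b2 b3 b4 b5 b6 : ℝ) :
    ∫ t, (b0 + b1 * t + b2 * t ^ 2 + b3 * t ^ 3 + b4 * t ^ 4 + b5 * t ^ 5 + b6 * t ^ 6) ∂g1 =
      b0 + b2 + 3 * b4 + 15 * b6 := by
  have i1 : Integrable (fun t : ℝ => b1 * t) g1 := by
    simpa using (integrable_pow_g1 1).const_mul b1
  have m1 : ∫ t : ℝ, b1 * t ∂g1 = 0 := by
    rw [integral_const_mul]
    have := moment_one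
    simp only [pow_one] at this
    rw [this, mul_zero]
  have i2 := (integrable_pow_g1 2).const_mul b2
  have i3 := (integrable_pow_g1 3).const_mul b3
  have i4 := (integrable_pow_g1 4).const_mul b4
  have i5 := (integrable_pow_g1 5).const_mul b5
  have i6 := (integrable_pow_g1 6).const_mul b6
  have i0 : Integrable (fun _ : ℝ => b0) g1 := integrable_const _
  rw [integral_add (by exact ((((i0.add i1).add i2).add i3).add i4).add i5) i6,
    integral_add (by exact (((i0.add i1).add i2).add i3).add i4) i5,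
    integral_add (by exact ((i0.add i1).add i2).add i3) i4,
    integral_add (by exact (i0.add i1).add i2) i3,
    integral_add (by exact i0.add i1) i2, integral_add i0 i1, m1]
  simp only [integral_const_mul, moment_two, moment_three, moment_four, moment_five, moment_six]
  simp
  ring

lemma integral_cub (c0 c1 c2 c3 : ℝ) : ∫ t, cub c0 c1 c2 c3 t ∂g1 = c0 := by
  have h : ∀ t : ℝ, cub c0 c1 c2 c3 t = (c0 - c2 / √2) + (c1 - 3 * c3 / √6) * t +
      (c2 / √2) * t ^ 2 + (c3 / √6) * t ^ 3 + 0 * t ^ 4 + 0 * t ^ 5 + 0 * t ^ 6 := by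
    intro t
    unfold cub
    ring
  simp_rw [h]
  rw [integral_poly6]
  ring

lemma integral_cub_mul (c0 c1 c2 c3 : ℝ) : ∫ t, cub c0 c1 c2 c3 t * t ∂g1 = c1 := by
  have h : ∀ t : ℝ, cub c0 c1 c2 c3 t * t = 0 + (c0 - c2 / √2) * t +
      (c1 - 3 * c3 / √6) * t ^ 2 +
      (c2 / √2) * t ^ 3 + (c3 / √6) * t ^ 4 + 0 * t ^ 5 + 0 * t ^ 6 := by
    intro t
    unfold cub
    ring
  simp_rw [h]
  rw [integral_poly6]
  ring

lemma integral_cub_sq (c0 c1 c2 c3 : ℝ) :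
    ∫ t, cub c0 c1 c2 c3 t ^ 2 ∂g1 = c0 ^ 2 + c1 ^ 2 + c2 ^ 2 + c3 ^ 2 := by
  have h2 : √2 ^ 2 = 2 := Real.sq_sqrt (by norm_num)
  have h6 : √6 ^ 2 = 6 := Real.sq_sqrt (by norm_num)
  have h : ∀ t : ℝ, cub c0 c1 c2 c3 t ^ 2 = (c0 - c2 / √2) ^ 2 +
      (2 * (c0 - c2 / √2) * (c1 - 3 * c3 / √6)) * t +
      ((c1 - 3 * c3 / √6) ^ 2 + 2 * (c0 - c2 / √2) * (c2 / √2)) * t ^ 2 +
      (2 * (c0 - c2 / √2) * (c3 / √6) + 2 * (c1 - 3 * c3 / √6) * (c2 / √2)) * t ^ 3 +
      ((c2 / √2) ^ 2 + 2 * (c1 - 3 * c3 / √6) * (c3 / √6)) * t ^ 4 +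
      (2 * (c2 / √2) * (c3 / √6)) * t ^ 5 + (c3 / √6) ^ 2 * t ^ 6 := by
    intro t
    unfold cub
    ring
  simp_rw [h]
  rw [integral_poly6]
  have hs2 : (√2)⁻¹ ^ 2 = 1 / 2 := by rw [inv_pow, h2]; norm_num
  have hs6 : (√6)⁻¹ ^ 2 = 1 / 6 := by rw [inv_pow, h6]; norm_num
  simp only [div_eq_mul_inv] at *
  generalize (√2)⁻¹ = a at *
  generalize (√6)⁻¹ = b at *
  linear_combination (2 * c2 ^ 2) * hs2 + (6 * c3 ^ 2) * hs6

lemma integrable_cub_sq (c0 c1 c2 c3 : ℝ) : Integrable (fun t => cub c0 c1 c2 c3 t) g1 := by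
  have i0 : Integrable (fun _ : ℝ => c0) g1 := integrable_const _
  have i1 : Integrable (fun t : ℝ => c1 * t) g1 := by
    simpa using (integrable_pow_g1 1).const_mul c1
  have i2 : Integrable (fun t : ℝ => c2 * ((t ^ 2 - 1) / √2)) g1 :=
    (((integrable_pow_g1 2).sub (integrable_const (1 : ℝ))).div_const _).const_mul c2
  have i3 : Integrable (fun t : ℝ => c3 * ((t ^ 3 - 3 * t) / √6)) g1 := by
    have : Integrable (fun t : ℝ => 3 * t) g1 := by
      simpa using (integrable_pow_g1 1).const_mul 3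
    exact (((integrable_pow_g1 3).sub this).div_const _).const_mul c3
  exact ((i0.add i1).add i2).add i3

end Pool.Agent.KG
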