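import Pool.Agent.KG.Rot
import Pool.Agent.KG.Cub

/-! From the one-dimensional slice inequality to the third Wiener chaos. -/

open MeasureTheory ProbabilityTheory Real

namespace Pool.Agent.KG

variable {n : ℕ}

/-- polynomials of degree at most `k` as functions -/
noncomputable def VF (n k : ℕ) : Submodule ℝ (Ev n → ℝ) :=
  Submodule.span ℝ (Set.range (mono : (Fin k → Option (Fin n)) → Ev n → ℝ))

/-- continuous functions of polynomial growth -/
def PG (f : Ev n → ℝ) : Prop := Continuous f ∧ ∃ (C : ℝ) (k : ℕ), ∀ x, |f x| ≤ C * (1 + ‖x‖) ^ k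

lemma PG.continuous {f : Ev n → ℝ} (h : PG f) : Continuous f := h.1

lemma PG.integrable {f : Ev n → ℝ} (h : PG f) : Integrable f (gam n) := by
  obtain ⟨hc, C, k, hk⟩ := h
  exact integrable_of_growth hc.aestronglyMeasurable hk

lemma PG.memLp {f : Ev n → ℝ} (h : PG f) : MemLp f 2 (gam n) := by
  obtain ⟨hc, C, k, hk⟩ := h
  exact memLp_of_growth hc.aestronglyMeasurable hk

lemma PG.const (c : ℝ) : PG (fun _ : Ev n => c) :=
  ⟨continuous_const, |c|, 0, fun x => by simp⟩

lemma PG.mul {f g : Ev n → ℝ} (hf : PG f) (hg : PG g) : PG (fun x => f x * g x) := by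
  obtain ⟨hc, C, k, hk⟩ := hf
  obtain ⟨hc', C', k', hk'⟩ := hg
  refine ⟨hc.mul hc', C * C', k + k', fun x => ?_⟩
  rw [abs_mul, pow_add]
  calc |f x| * |g x| ≤ (C * (1 + ‖x‖) ^ k) * (C' * (1 + ‖x‖) ^ k') :=
        mul_le_mul (hk x) (hk' x) (abs_nonneg _) ((abs_nonneg _).trans (hk x))
    _ = _ := by ring

lemma PG.add {f g : Ev n → ℝ} (hf : PG f) (hg : PG g) : PG (fun x => f x + g x) := by
  obtain ⟨hc, C, k, hk⟩ := hf
  obtain ⟨hc', C', k', hk'⟩ := hg
  have h1 : ∀ x : Ev n, (1 : ℝ) ≤ 1 + ‖x‖ := fun x => by linarith [norm_nonneg x]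
  have hC : 0 ≤ C := by
    have := (abs_nonneg _).trans (hk 0)
    simpa using this
  have hC' : 0 ≤ C' := by
    have := (abs_nonneg _).trans (hk' 0)
    simpa using this
  refine ⟨hc.add hc', C + C', max k k', fun x => ?_⟩
  refine (abs_add_le _ _).trans ?_
  rw [add_mul]
  refine add_le_add ((hk x).trans ?_) ((hk' x).trans ?_)
  · exact mul_le_mul_of_nonneg_left (pow_le_pow_right₀ (h1 x) (le_max_left _ _)) hC
  · exact mul_le_mul_of_nonneg_left (pow_le_pow_right₀ (h1 x) (le_max_right _ _)) hC'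

lemma PG.coord (m : Option (Fin n)) : PG (coord m : Ev n → ℝ) :=
  ⟨continuous_coord m, 1, 1, fun x => by simpa using abs_coord_le m x⟩

lemma PG.inner (a : Ev n) : PG (fun x : Ev n => (inner ℝ a x : ℝ)) := by
  refine ⟨by fun_prop, ‖a‖, 1, fun x => ?_⟩
  rw [pow_one]
  refine (abs_real_inner_le_norm a x).trans ?_
  exact mul_le_mul_of_nonneg_left (by linarith [norm_nonneg x]) (norm_nonneg a)

/-- projection on the orthogonal complement of `e` -/
noncomputable def prj (e x : Ev n) : Ev n := x - (inner ℝ e x : ℝ) • e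

lemma continuous_prj (e : Ev n) : Continuous (prj e) := by
  unfold prj
  fun_prop

lemma norm_prj_le {e : Ev n} (he : ‖e‖ = 1) (x : Ev n) : ‖prj e x‖ ≤ ‖x‖ := by
  have h2 : ‖prj e x‖ ^ 2 = ‖x‖ ^ 2 - (inner ℝ e x : ℝ) ^ 2 := by
    unfold prj
    rw [norm_sub_sq_real, inner_smul_right, norm_smul, he, real_inner_comm, Real.norm_eq_abs,
      mul_one, sq_abs]
    ring
  refine le_of_sq_le_sq ?_ (norm_nonneg _)
  nlinarith [sq_nonneg (inner ℝ e x : ℝ)]

lemma PG.comp_prj {e : Ev n} (he : ‖e‖ = 1) {f : Ev n → ℝ} (hf : PG f) :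
    PG (fun x => f (prj e x)) := by
  obtain ⟨hc, C, k, hk⟩ := hf
  have hC : 0 ≤ C := by
    have := (abs_nonneg _).trans (hk 0)
    simpa using this
  refine ⟨hc.comp (continuous_prj e), C, k, fun x => (hk _).trans ?_⟩
  refine mul_le_mul_of_nonneg_left ?_ hC
  exact pow_le_pow_left₀ (by positivity) (by linarith [norm_prj_le he x]) k

lemma slp_eq (e : Ev n) (t : ℝ) (y : Ev n) : slp e (t, y) = t • e + prj e y := rfl

lemma inner_slp {e : Ev n} (he : ‖e‖ = 1) (t : ℝ) (y : Ev n) :
    (inner ℝ e (slp e (t, y)) : ℝ) = t := by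
  rw [slp_eq, prj, inner_add_right, inner_sub_right, inner_smul_right, inner_smul_right,
    real_inner_self_eq_norm_sq, he]
  ring

lemma prj_slp {e : Ev n} (he : ‖e‖ = 1) (t : ℝ) (y : Ev n) : prj e (slp e (t, y)) = prj e y := by
  rw [prj, inner_slp he, slp_eq]
  abel

/-- the `e`-coefficient of the coordinate functions -/
noncomputable def dir (e : Ev n) (m : Option (Fin n)) : ℝ :=
  match m with
  | none => 0
  | some i => e i

lemma coord_line (e : Ev n) (m : Option (Fin n)) (t : ℝ) (y : Ev n) :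
    coord m (t • e + y) = dir e m * t + coord m y := by
  cases m with
  | none => simp [coord, dir]
  | some i => simp [coord, dir, mul_comm]

lemma coord_affine (m : Option (Fin n)) :
    ∃ (α : ℝ) (β : Ev n), ∀ y, coord m y = α + inner ℝ β y := by
  classical
  cases m with
  | none => exact ⟨1, 0, fun y => by simp [coord]⟩
  | some i =>
    refine ⟨0, EuclideanSpace.single i (1 : ℝ), fun y => ?_⟩
    rw [← coord_eq_inner]
    simp [coord]

/-- expansion of a cubic polynomial along a line -/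
def Exp (e : Ev n) (f : Ev n → ℝ) : Prop :=
  ∃ (q0 q1 : Ev n → ℝ) (α : ℝ) (β : Ev n) (q3 : ℝ), PG q0 ∧ PG q1 ∧
    ∀ (t : ℝ) (y : Ev n), f (t • e + y) =
      q0 y + q1 y * t + (α + inner ℝ β y) * t ^ 2 + q3 * t ^ 3

lemma exp_of_mem (e : Ev n) {f : Ev n → ℝ} (hf : f ∈ VF n 3) : Exp e f := by
  unfold VF at hf
  induction hf using Submodule.span_induction with
  | mem x h =>
    obtain ⟨m, rfl⟩ := h
    obtain ⟨α0, β0, h0⟩ := coord_affine (m 0)
    obtain ⟨α1, β1, h1⟩ := coord_affine (m 1)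
    obtain ⟨α2, β2, h2⟩ := coord_affine (m 2)
    set a0 := dir e (m 0)
    set a1 := dir e (m 1)
    set a2 := dir e (m 2)
    refine ⟨fun y => coord (m 0) y * (coord (m 1) y * coord (m 2) y),
      fun y => a0 * (coord (m 1) y * coord (m 2) y) + (a1 * (coord (m 0) y * coord (m 2) y) +
        a2 * (coord (m 0) y * coord (m 1) y)),
      a0 * a1 * α2 + a0 * a2 * α1 + a1 * a2 * α0,
      (a0 * a1) • β2 + (a0 * a2) • β1 + (a1 * a2) • β0, a0 * a1 * a2, ?_, ?_, ?_⟩
    · exact (PG.coord _).mul ((PG.coord _).mul (PG.coord _))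
    · exact ((PG.const _).mul ((PG.coord _).mul (PG.coord _))).add
        (((PG.const _).mul ((PG.coord _).mul (PG.coord _))).add
          ((PG.const _).mul ((PG.coord _).mul (PG.coord _))))
    · intro t y
      unfold mono
      rw [Fin.prod_univ_three, coord_line, coord_line, coord_line, inner_add_left, inner_add_left,
        inner_smul_left, inner_smul_left, inner_smul_left]
      simp only [conj_trivial]
      have e0 : (inner ℝ β0 y : ℝ) = coord (m 0) y - α0 := by rw [h0]; ring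
      have e1 : (inner ℝ β1 y : ℝ) = coord (m 1) y - α1 := by rw [h1]; ring
      have e2 : (inner ℝ β2 y : ℝ) = coord (m 2) y - α2 := by rw [h2]; ring
      rw [e0, e1, e2]
      ring
  | zero =>
    exact ⟨fun _ => 0, fun _ => 0, 0, 0, 0, PG.const 0, PG.const 0, fun t y => by simp⟩
  | add f g _ _ hf hg =>
    obtain ⟨q0, q1, α, β, q3, h0, h1, h⟩ := hf
    obtain ⟨q0', q1', α', β', q3', h0', h1', h'⟩ := hg
    refine ⟨fun y => q0 y + q0' y, fun y => q1 y + q1' y, α + α', β + β', q3 + q3', h0.add h0',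
      h1.add h1', fun t y => ?_⟩
    rw [Pi.add_apply, h, h', inner_add_left]
    ring
  | smul c f _ hf =>
    obtain ⟨q0, q1, α, β, q3, h0, h1, h⟩ := hf
    refine ⟨fun y => c * q0 y, fun y => c * q1 y, c * α, c • β, c * q3, (PG.const c).mul h0,
      (PG.const c).mul h1, fun t y => ?_⟩
    rw [Pi.smul_apply, h, inner_smul_left, smul_eq_mul]
    simp only [conj_trivial]
    ring

/-- elements of `V n k` are represented by polynomials -/
lemma exists_rep {k : ℕ} {Q : L2 n} (hQ : Q ∈ V n k) :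
    ∃ f ∈ VF n k, Q =ᵐ[gam n] f := by
  unfold V at hQ
  induction hQ using Submodule.span_induction with
  | mem x h =>
    obtain ⟨m, rfl⟩ := h
    exact ⟨mono m, Submodule.subset_span ⟨m, rfl⟩, MemLp.coeFn_toLp _⟩
  | zero => exact ⟨0, Submodule.zero_mem _, Lp.coeFn_zero _ _ _⟩
  | add f g _ _ hf hg =>
    obtain ⟨f', hf', h⟩ := hf
    obtain ⟨g', hg', h'⟩ := hg
    exact ⟨f' + g', Submodule.add_mem _ hf' hg', (Lp.coeFn_add f g).trans (h.add h')⟩
  | smul c f _ hf =>
    obtain ⟨f', hf', h⟩ := hf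
    refine ⟨c • f', Submodule.smul_mem _ c hf', (Lp.coeFn_smul c f).trans ?_⟩
    exact h.const_smul c

lemma pg_of_mem {k : ℕ} {f : Ev n → ℝ} (hf : f ∈ VF n k) : PG f := by
  unfold VF at hf
  induction hf using Submodule.span_induction with
  | mem x h =>
    obtain ⟨m, rfl⟩ := h
    exact ⟨continuous_mono m, 1, k, abs_mono_le m⟩
  | zero => exact PG.const 0
  | add f g _ _ hf hg => exact hf.add hg
  | smul c f _ hf => exact (PG.const c).mul hf

/-- polynomials give elements of `V n k` -/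
lemma toLp_mem {k : ℕ} {f : Ev n → ℝ} (hf : f ∈ VF n k) (h : MemLp f 2 (gam n)) :
    h.toLp f ∈ V n k := by
  suffices H : ∃ h : MemLp f 2 (gam n), h.toLp f ∈ V n k by
    obtain ⟨h', H⟩ := H
    exact H
  clear h
  unfold VF at hf
  induction hf using Submodule.span_induction with
  | mem x h =>
    obtain ⟨m, rfl⟩ := h
    exact ⟨memLp_mono m, Submodule.subset_span ⟨m, rfl⟩⟩
  | zero => exact ⟨MemLp.zero', by simp⟩
  | add f g _ _ hf hg =>
    obtain ⟨hf, Hf⟩ := hf
    obtain ⟨hg, Hg⟩ := hg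
    exact ⟨hf.add hg, by rw [MemLp.toLp_add hf hg]; exact Submodule.add_mem _ Hf Hg⟩
  | smul c f _ hf =>
    obtain ⟨hf, Hf⟩ := hf
    exact ⟨hf.const_smul c, by rw [MemLp.toLp_const_smul c hf]; exact Submodule.smul_mem _ c Hf⟩

/-- affine functions are polynomials of degree at most 2 -/
lemma affine_mem (α : ℝ) (β : Ev n) : (fun x => α + (inner ℝ β x : ℝ)) ∈ VF n 2 := by
  classical
  have h1 : (fun _ : Ev n => (1 : ℝ)) ∈ VF n 2 := by
    refine Submodule.subset_span ⟨fun _ => none, ?_⟩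
    ext x
    simp [mono, coord]
  have h2 : ∀ i : Fin n, (fun x : Ev n => x i) ∈ VF n 2 := by
    intro i
    refine Submodule.subset_span ⟨![some i, none], ?_⟩
    ext x
    simp [mono, coord, Fin.prod_univ_two]
  have h3 : (fun x => α + (inner ℝ β x : ℝ)) =
      α • (fun _ : Ev n => (1 : ℝ)) + ∑ i, β i • (fun x : Ev n => x i) := by
    ext x
    simp [PiLp.inner_apply, Finset.sum_apply, mul_comm]
  rw [h3]
  exact Submodule.add_mem _ (Submodule.smul_mem _ _ h1)
    (Submodule.sum_mem _ fun i _ => Submodule.smul_mem _ _ (h2 i))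

/-- M2c: from the one-dimensional inequality to the third chaos. -/
theorem star (s : ℝ) (hs : 0 ≤ s) (W : ℝ → ℝ) (hWm : Measurable W) (hW0 : ∀ t, 0 ≤ W t)
    (n02 n13 : ℝ)
    (h : ∀ c0 c1 c2 c3 : ℝ, ∫ t, max (s * |cub c0 c1 c2 c3 t| - W t) 0 ∂g1 ≤
      c0 ^ 2 + c1 ^ 2 + c2 ^ 2 + c3 ^ 2 + n02 * (c0 * c2) + n13 * (c1 * c3))
    (e : Ev n) (he : ‖e‖ = 1) (Q : L2 n) (hQ : Q ∈ H3 n) :
    ∫ x, max (s * |Q x| - W (inner ℝ e x)) 0 ∂(gam n) ≤ ‖Q‖ ^ 2 := by
  obtain ⟨hQ3, hQ2⟩ := hQ
  obtain ⟨q, hq, hQq⟩ := exists_rep hQ3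
  obtain ⟨q0, q1, α, β, q3, hq0, hq1, hexp⟩ := exp_of_mem e hq
  have hqPG := pg_of_mem hq
  have hmp := measurePreserving_slp e he
  have h2 : √2 ^ 2 = 2 := Real.sq_sqrt (by norm_num)
  have h6 : √6 ^ 2 = 6 := Real.sq_sqrt (by norm_num)
  have h2p : 0 < √2 := by positivity
  have h6p : 0 < √6 := by positivity
  -- Hermite coefficients
  set q2 : Ev n → ℝ := fun y => α + inner ℝ β y with hq2def
  have hq2 : PG q2 := (PG.const α).add (PG.inner β)
  set C0 : Ev n → ℝ := fun y => q0 (prj e y) + q2 (prj e y) with hC0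
  set C1 : Ev n → ℝ := fun y => q1 (prj e y) + 3 * q3 with hC1
  set C2 : Ev n → ℝ := fun y => √2 * q2 (prj e y) with hC2
  set c3 : ℝ := √6 * q3 with hc3
  have pC0 : PG C0 := (hq0.comp_prj he).add (hq2.comp_prj he)
  have pC1 : PG C1 := (hq1.comp_prj he).add (PG.const _)
  have pC2 : PG C2 := (PG.const _).mul (hq2.comp_prj he)
  have hcub : ∀ t y, q (slp e (t, y)) = cub (C0 y) (C1 y) (C2 y) c3 t := by
    intro t y
    rw [slp_eq, hexp]
    unfold cub
    simp only [hC0, hC1, hC2, hc3, hq2def]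
    field_simp
    ring_nf
  -- Fubini
  have fub : ∀ F : Ev n → ℝ, Integrable F (gam n) →
      ∫ x, F x ∂(gam n) = ∫ y, ∫ t, F (slp e (t, y)) ∂g1 ∂(gam n) := by
    intro F hF
    have h1 : Integrable (fun p => F (slp e p)) (g1.prod (gam n)) :=
      (hmp.integrable_comp hF.aestronglyMeasurable).2 hF
    rw [← integral_prod_symm _ h1]
    conv_lhs => rw [← hmp.map_eq]
    rw [integral_map hmp.measurable.aemeasurable]
    rw [hmp.map_eq]
    exact hF.aestronglyMeasurable
  -- inner products of `Q`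
  have hinner : ∀ (g : Ev n → ℝ) (hg : g ∈ VF n 2), ∫ x, q x * g x ∂(gam n) = 0 := by
    intro g hg
    have hm := (pg_of_mem hg).memLp
    have h0 : inner ℝ Q (hm.toLp g) = (0 : ℝ) := by
      rw [real_inner_comm]
      exact (Submodule.mem_orthogonal _ _).1 hQ2 _ (toLp_mem hg hm)
    rw [L2.inner_def] at h0
    rw [← h0]
    refine integral_congr_ae ?_
    filter_upwards [hQq, hm.coeFn_toLp] with x hx hx'
    rw [hx, hx']
    simp [mul_comm]
  have hQn : ‖Q‖ ^ 2 = ∫ x, q x ^ 2 ∂(gam n) := by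
    rw [← real_inner_self_eq_norm_sq, L2.inner_def]
    refine integral_congr_ae ?_
    filter_upwards [hQq] with x hx
    rw [hx]
    simp [sq]
  -- the three identities
  have E02 : ∫ y, C0 y * C2 y ∂(gam n) = 0 := by
    have hmem : (fun x => (√2 * α) + (inner ℝ (√2 • (β - (inner ℝ e β : ℝ) • e)) x : ℝ)) ∈ VF n 2 :=
      affine_mem _ _
    have heq : (fun x => (√2 * α) + (inner ℝ (√2 • (β - (inner ℝ e β : ℝ) • e)) x : ℝ)) = C2 := by
      ext x
      simp only [hC2, hq2def, prj]
      rw [inner_smul_left, inner_sub_left, inner_smul_left, inner_sub_right, inner_smul_right,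
        real_inner_comm e β]
      simp only [conj_trivial]
      ring
    rw [heq] at hmem
    have h0 := hinner C2 hmem
    rw [fub _ (hqPG.mul pC2).integrable] at h0
    rw [← h0]
    refine integral_congr_ae (Filter.Eventually.of_forall fun y => ?_)
    have hC2s : ∀ t, C2 (slp e (t, y)) = C2 y := by
      intro t
      simp only [hC2, prj_slp he]
    simp only [hcub, hC2s]
    rw [integral_mul_const, integral_cub]
  have E1 : ∫ y, C1 y ∂(gam n) = 0 := by
    have hmem : (fun x => (0 : ℝ) + (inner ℝ e x : ℝ)) ∈ VF n 2 := affine_mem _ _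
    have h0 := hinner _ hmem
    rw [fub _ (hqPG.mul (pg_of_mem hmem)).integrable] at h0
    rw [← h0]
    refine integral_congr_ae (Filter.Eventually.of_forall fun y => ?_)
    simp only [hcub, inner_slp he, zero_add]
    rw [integral_cub_mul]
  have Esq : ‖Q‖ ^ 2 = ∫ y, (C0 y ^ 2 + C1 y ^ 2 + C2 y ^ 2 + c3 ^ 2) ∂(gam n) := by
    have hqq : Integrable (fun x => q x ^ 2) (gam n) := by
      simpa [sq] using (hqPG.mul hqPG).integrable
    rw [hQn, fub _ hqq]
    refine integral_congr_ae (Filter.Eventually.of_forall fun y => ?_)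
    simp only [hcub]
    rw [integral_cub_sq]
  -- the main inequality
  have hWx : Measurable (fun x : Ev n => W (inner ℝ e x)) := hWm.comp (by fun_prop)
  have hFi : Integrable (fun x => max (s * |q x| - W (inner ℝ e x)) 0) (gam n) := by
    have hqi : Integrable (fun x => s * |q x|) (gam n) := hqPG.integrable.abs.const_mul s
    refine hqi.mono' ?_ (Filter.Eventually.of_forall fun x => ?_)
    · have : Measurable (fun x => max (s * |q x| - W (inner ℝ e x)) 0) := by
        have hqm : Measurable q := hqPG.continuous.measurable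
        have h1 : Measurable (fun x => |q x|) := hqPG.continuous.abs.measurable
        exact ((h1.const_mul s).sub hWx).max measurable_const
      exact this.aestronglyMeasurable
    · rw [Real.norm_eq_abs, abs_of_nonneg (le_max_right _ _)]
      refine max_le ?_ (by positivity)
      linarith [hW0 (inner ℝ e x)]
  have hL : ∫ x, max (s * |Q x| - W (inner ℝ e x)) 0 ∂(gam n) =
      ∫ x, max (s * |q x| - W (inner ℝ e x)) 0 ∂(gam n) := by
    refine integral_congr_ae ?_
    filter_upwards [hQq] with x hx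
    rw [hx]
  rw [hL, fub _ hFi, Esq]
  have i0 : Integrable (fun y => C0 y ^ 2) (gam n) := by simpa [sq] using (pC0.mul pC0).integrable
  have i1 : Integrable (fun y => C1 y ^ 2) (gam n) := by simpa [sq] using (pC1.mul pC1).integrable
  have i2 : Integrable (fun y => C2 y ^ 2) (gam n) := by simpa [sq] using (pC2.mul pC2).integrable
  have i3 : Integrable (fun _ : Ev n => c3 ^ 2) (gam n) := integrable_const _
  have i02 : Integrable (fun y => n02 * (C0 y * C2 y)) (gam n) :=
    ((pC0.mul pC2).integrable).const_mul _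
  have i13 : Integrable (fun y => n13 * (C1 y * c3)) (gam n) :=
    ((pC1.mul (PG.const c3)).integrable).const_mul _
  have i0123 : Integrable (fun y => C0 y ^ 2 + C1 y ^ 2 + C2 y ^ 2 + c3 ^ 2) (gam n) :=
    ((i0.add i1).add i2).add i3
  have hR : ∫ y, (C0 y ^ 2 + C1 y ^ 2 + C2 y ^ 2 + c3 ^ 2) ∂(gam n) =
      ∫ y, (C0 y ^ 2 + C1 y ^ 2 + C2 y ^ 2 + c3 ^ 2 + n02 * (C0 y * C2 y) +
        n13 * (C1 y * c3)) ∂(gam n) := by
    rw [integral_add (by exact i0123.add i02) i13, integral_add i0123 i02, integral_const_mul,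
      integral_const_mul, E02, integral_mul_const, E1]
    ring
  rw [hR]
  have hLi : Integrable (fun y => ∫ t, max (s * |q (slp e (t, y))| -
      W (inner ℝ e (slp e (t, y)))) 0 ∂g1) (gam n) := by
    have h1 : Integrable (fun p => max (s * |q (slp e p)| - W (inner ℝ e (slp e p))) 0)
        (g1.prod (gam n)) :=
      (hmp.integrable_comp hFi.aestronglyMeasurable).2 hFi
    exact h1.integral_prod_right
  refine integral_mono hLi ((i0123.add i02).add i13) fun y => ?_
  simp only [hcub, inner_slp he]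
  exact h (C0 y) (C1 y) (C2 y) c3

end Pool.Agent.KG
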