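import Pool.Agent.KG.Chaos
import Pool.Agent.KG.Star
import Pool.Agent.KG.Final

/-! Reduction of the bound for the form `B ε` to one-parameter inequalities. -/

open MeasureTheory ProbabilityTheory Real

namespace Pool.Agent.KG

variable {n : ℕ}

/-! ### inner products -/

lemma inner_L2 (f g : L2 n) : (inner ℝ f g : ℝ) = ∫ x, f x * g x ∂(gam n) := by
  rw [L2.inner_def]
  refine integral_congr_ae (Filter.Eventually.of_forall fun x => ?_)
  simp [mul_comm]

lemma integrable_mul_L2 (f g : L2 n) : Integrable (fun x => f x * g x) (gam n) := by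
  have h := L2.integrable_inner (𝕜 := ℝ) f g
  refine h.congr (Filter.Eventually.of_forall fun x => ?_)
  simp [mul_comm]

lemma integrable_L2 (f : L2 n) : Integrable (fun x => f x) (gam n) :=
  (Lp.memLp f).integrable one_le_two

lemma norm_sq_L2 (f : L2 n) : ‖f‖ ^ 2 = ∫ x, f x ^ 2 ∂(gam n) := by
  rw [← real_inner_self_eq_norm_sq, inner_L2]
  refine integral_congr_ae (Filter.Eventually.of_forall fun x => ?_)
  simp [sq]

lemma inner_bar (a : Ev n) (f : L2 n) : (inner ℝ a (bar f) : ℝ) = inner ℝ (lin a) f := by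
  unfold bar
  rw [← _root_.integral_inner (integrable_smul_id f) a, inner_L2]
  refine integral_congr_ae ?_
  filter_upwards [(memLp_lin a).coeFn_toLp] with x hx
  unfold lin
  rw [hx, inner_smul_right, mul_comm]

lemma bar_add (f g : L2 n) : bar (f + g) = bar f + bar g := by
  refine ext_inner_left ℝ fun a => ?_
  rw [inner_add_right, inner_bar, inner_bar, inner_bar, inner_add_right]

lemma bar_smul (c : ℝ) (f : L2 n) : bar (c • f) = c • bar f := by
  refine ext_inner_left ℝ fun a => ?_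
  rw [inner_smul_right, inner_bar, inner_bar, inner_smul_right]

lemma bar_sub (f g : L2 n) : bar (f - g) = bar f - bar g := by
  refine ext_inner_left ℝ fun a => ?_
  rw [inner_sub_right, inner_bar, inner_bar, inner_bar, inner_sub_right]

/-! ### the projection -/

lemma P3_mem (f : L2 n) : P3 n f ∈ H3 n := Submodule.starProjection_apply_mem _ _

lemma inner_P3_of_mem {h : L2 n} (hh : h ∈ H3 n) (f : L2 n) :
    (inner ℝ h (P3 n f) : ℝ) = inner ℝ h f := by
  have := Submodule.starProjection_inner_eq_zero (K := H3 n) f h hh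
  rw [inner_sub_left, real_inner_comm, real_inner_comm h] at this
  unfold P3
  linarith

lemma inner_P3_self (f : L2 n) : (inner ℝ f (P3 n f) : ℝ) = ‖P3 n f‖ ^ 2 := by
  rw [real_inner_comm, ← real_inner_self_eq_norm_sq, inner_P3_of_mem (P3_mem f)]

lemma norm_P3_le (f : L2 n) : ‖P3 n f‖ ≤ ‖f‖ := Submodule.norm_starProjection_apply_le _ _

lemma P3_lin (a : Ev n) : P3 n (lin a) = 0 := by
  have h : P3 n (lin a) ∈ (V n 2)ᗮ := (Submodule.mem_inf.1 (P3_mem (lin a))).2
  have h2 : ‖P3 n (lin a)‖ ^ 2 = 0 := by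
    rw [← inner_P3_self]
    exact (Submodule.mem_orthogonal _ _).1 h _ (lin_mem a)
  rw [← norm_eq_zero]
  exact pow_eq_zero_iff (two_ne_zero) |>.1 h2

lemma sq_inner_herm_le (f : L2 n) (e : Ev n) (he : ‖e‖ = 1) :
    (inner ℝ (herm e) f : ℝ) ^ 2 ≤ ‖P3 n f‖ ^ 2 := by
  rw [← inner_P3_of_mem (herm_mem e he)]
  have h := abs_real_inner_le_norm (herm e) (P3 n f)
  rw [norm_herm e he, one_mul] at h
  rw [← sq_abs]
  exact pow_le_pow_left₀ (abs_nonneg _) h 2

lemma norm_lin (a : Ev n) : ‖lin a‖ ^ 2 = ‖a‖ ^ 2 := by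
  rw [norm_sq_L2]
  have h : ∫ x, (lin a : L2 n) x ^ 2 ∂(gam n) = ∫ x, (inner ℝ a x : ℝ) ^ 2 ∂(gam n) := by
    refine integral_congr_ae ?_
    filter_upwards [(memLp_lin a).coeFn_toLp] with x hx
    unfold lin
    rw [hx]
  rw [h, integral_inner_pow, moment_two, mul_one]

/-! ### polarisation -/

/-- first reduction -/
theorem B_le_uv (ε : ℝ) (f g : L2 n) (hf : ∀ᵐ x ∂(gam n), |f x| ≤ 1)
    (hg : ∀ᵐ x ∂(gam n), |g x| ≤ 1) :
    ∃ u v : L2 n, (∀ᵐ x ∂(gam n), |u x| + |v x| ≤ 1) ∧
      B ε f g = ‖bar u‖ ^ 2 - ‖bar v‖ ^ 2 - ε * ‖P3 n u‖ ^ 2 + ε * ‖P3 n v‖ ^ 2 := by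
  refine ⟨(1 / 2 : ℝ) • (f + g), (1 / 2 : ℝ) • (f - g), ?_, ?_⟩
  · filter_upwards [hf, hg, Lp.coeFn_add f g, Lp.coeFn_sub f g,
      Lp.coeFn_smul (1 / 2 : ℝ) (f + g), Lp.coeFn_smul (1 / 2 : ℝ) (f - g)] with x h1 h2 h3 h4 h5 h6
    rw [h5, h6, Pi.smul_apply, Pi.smul_apply, h3, h4, Pi.add_apply, Pi.sub_apply, smul_eq_mul,
      smul_eq_mul, abs_mul, abs_mul, abs_of_pos (by norm_num : (0 : ℝ) < 1 / 2)]
    rw [abs_le] at h1 h2
    rcases abs_cases (f x + g x) with ⟨h7, _⟩ | ⟨h7, _⟩ <;>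
    rcases abs_cases (f x - g x) with ⟨h8, _⟩ | ⟨h8, _⟩ <;> rw [h7, h8] <;> linarith
  · unfold B
    have e1 : bar f = bar ((1 / 2 : ℝ) • (f + g)) + bar ((1 / 2 : ℝ) • (f - g)) := by
      rw [← bar_add]
      congr 1
      module
    have e2 : bar g = bar ((1 / 2 : ℝ) • (f + g)) - bar ((1 / 2 : ℝ) • (f - g)) := by
      rw [← bar_sub]
      congr 1
      module
    have e3 : P3 n f = P3 n ((1 / 2 : ℝ) • (f + g)) + P3 n ((1 / 2 : ℝ) • (f - g)) := by
      rw [← map_add]
      congr 1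
      module
    have e4 : P3 n g = P3 n ((1 / 2 : ℝ) • (f + g)) - P3 n ((1 / 2 : ℝ) • (f - g)) := by
      rw [← map_sub]
      congr 1
      module
    rw [e1, e2, e3, e4]
    generalize bar ((1 / 2 : ℝ) • (f + g)) = a
    generalize bar ((1 / 2 : ℝ) • (f - g)) = b
    generalize P3 n ((1 / 2 : ℝ) • (f + g)) = c
    generalize P3 n ((1 / 2 : ℝ) • (f - g)) = d
    rw [inner_add_left, inner_sub_right, inner_sub_right, inner_add_left, inner_sub_right,
      inner_sub_right, real_inner_self_eq_norm_sq, real_inner_self_eq_norm_sq,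
      real_inner_self_eq_norm_sq, real_inner_self_eq_norm_sq, real_inner_comm a b,
      real_inner_comm c d]
    ring

/-- direction of the barycentre -/
lemma exists_dir (hn : 0 < n) (u : L2 n) (hu : ∀ᵐ x ∂(gam n), |u x| ≤ 1) :
    ∃ e : Ev n, ‖e‖ = 1 ∧ ‖bar u‖ = inner ℝ (lin e) u ∧ ‖bar u‖ ≤ a0 := by
  have key : ∃ e : Ev n, ‖e‖ = 1 ∧ ‖bar u‖ = inner ℝ e (bar u) := by
    by_cases h : bar u = 0
    · refine ⟨EuclideanSpace.single ⟨0, hn⟩ 1, by simp, ?_⟩
      rw [h]
      simp
    · refine ⟨(‖bar u‖)⁻¹ • bar u, ?_, ?_⟩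
      · rw [norm_smul, norm_inv, norm_norm]
        exact inv_mul_cancel₀ (norm_ne_zero_iff.2 h)
      · rw [real_inner_smul_left, real_inner_self_eq_norm_sq]
        have := norm_ne_zero_iff.2 h
        field_simp
  obtain ⟨e, he, h⟩ := key
  refine ⟨e, he, h.trans (inner_bar e u), ?_⟩
  rw [h, inner_bar, inner_L2]
  have h1 : ∫ x, (lin e : L2 n) x * u x ∂(gam n) ≤ ∫ x, |(inner ℝ e x : ℝ)| ∂(gam n) := by
    refine integral_mono_ae (integrable_mul_L2 _ _) ?_ ?_
    · exact (((memLp_lin e).integrable one_le_two)).abs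
    · filter_upwards [(memLp_lin e).coeFn_toLp, hu] with x hx hux
      unfold lin
      rw [hx]
      calc (inner ℝ e x : ℝ) * u x ≤ |(inner ℝ e x : ℝ) * u x| := le_abs_self _
        _ = |(inner ℝ e x : ℝ)| * |u x| := abs_mul _ _
        _ ≤ |(inner ℝ e x : ℝ)| * 1 := mul_le_mul_of_nonneg_left hux (abs_nonneg _)
        _ = _ := mul_one _
  rw [integral_abs_inner, he, mul_one] at h1
  exact h1

lemma continuous_h3 : Continuous h3 := by
  unfold h3
  fun_prop

lemma integrable_h3 : Integrable h3 g1 := by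
  have h : h3 = fun t => (1 / √6) * t ^ 3 - (3 / √6) * t ^ 1 := by
    funext t
    unfold h3
    ring
  rw [h]
  exact ((integrable_pow_g1 3).const_mul _).sub ((integrable_pow_g1 1).const_mul _)

/-- the test function -/
noncomputable def wt (ε lam b0 t : ℝ) : ℝ := lam * t - 2 * ε * b0 * h3 t

lemma continuous_wt (ε lam b0 : ℝ) : Continuous (wt ε lam b0) := by
  have := continuous_h3
  unfold wt
  fun_prop

lemma integrable_wt (ε lam b0 : ℝ) : Integrable (wt ε lam b0) g1 := by
  have h1 : Integrable (fun t : ℝ => t) g1 := by simpa using integrable_pow_g1 1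
  exact (h1.const_mul lam).sub (integrable_h3.const_mul _)

/-- **main reduction** -/
theorem reduce (hn : 0 < n) (ε : ℝ) (hε : 0 < ε) (f g : L2 n) (hf : ∀ᵐ x ∂(gam n), |f x| ≤ 1)
    (hg : ∀ᵐ x ∂(gam n), |g x| ≤ 1) :
    ∃ (α : ℝ) (e : Ev n) (Q : L2 n), 0 ≤ α ∧ α ≤ a0 ∧ ‖e‖ = 1 ∧ Q ∈ H3 n ∧
      (∀ lam b0 : ℝ, B ε f g ≤ α ^ 2 - lam * α + ε * b0 ^ 2 + ∫ t, |wt ε lam b0 t| ∂g1 +
        ∫ x, max (2 * √ε * |Q x| - |wt ε lam b0 (inner ℝ e x)|) 0 ∂(gam n) - ‖Q‖ ^ 2) ∧
      (∀ lam : ℝ, B ε f g ≤ α ^ 2 - lam * α + ∫ t, max (|lam * t|) ε ∂g1) := by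
  obtain ⟨u, v, huv, hB⟩ := B_le_uv ε f g hf hg
  have hu : ∀ᵐ x ∂(gam n), |u x| ≤ 1 := by
    filter_upwards [huv] with x hx
    linarith [abs_nonneg (v x)]
  obtain ⟨e, he, hα, hαa⟩ := exists_dir hn u hu
  have hsε : √ε ^ 2 = ε := Real.sq_sqrt hε.le
  have hsε0 : 0 < √ε := Real.sqrt_pos.2 hε
  refine ⟨‖bar u‖, e, √ε • P3 n v, norm_nonneg _, hαa, he,
    Submodule.smul_mem _ _ (P3_mem v), ?_, ?_⟩
  · intro lam b0
    set Q : L2 n := √ε • P3 n v with hQ
    have hv : ε * ‖P3 n v‖ ^ 2 = 2 * √ε * inner ℝ Q v - ‖Q‖ ^ 2 := by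
      rw [hQ, norm_smul, real_inner_smul_left, real_inner_comm, inner_P3_self, mul_pow,
        Real.norm_eq_abs, sq_abs, hsε]
      have : √ε * √ε = ε := by rw [← sq, hsε]
      linear_combination (-2 * ‖P3 n v‖ ^ 2) * this
    have hb := sq_inner_herm_le u e he
    set b : ℝ := inner ℝ (herm e) u with hbdef
    have hw : ‖bar u‖ ^ 2 - ε * ‖P3 n u‖ ^ 2 ≤ ‖bar u‖ ^ 2 - lam * ‖bar u‖ + ε * b0 ^ 2 +
        (lam * inner ℝ (lin e) u - 2 * ε * b0 * b) := by
      rw [← hα]
      nlinarith [sq_nonneg (b - b0), mul_le_mul_of_nonneg_left hb hε.le,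
        mul_nonneg hε.le (sq_nonneg (b - b0))]
    have hlin := (memLp_lin e).coeFn_toLp
    have hherm := (memLp_herm e).coeFn_toLp
    have hwi : Integrable (fun x : Ev n => wt ε lam b0 (inner ℝ e x)) (gam n) := by
      refine integrable_inner e (f := wt ε lam b0) (continuous_wt ε lam b0).measurable ?_
      simpa [he] using integrable_wt ε lam b0
    have hmax : Integrable (fun x => max (2 * √ε * |Q x| - |wt ε lam b0 (inner ℝ e x)|) 0)
        (gam n) := by
      have h1 : Integrable (fun x => 2 * √ε * |Q x| - |wt ε lam b0 (inner ℝ e x)|) (gam n) :=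
        (((integrable_L2 Q).abs).const_mul _).sub hwi.abs
      exact h1.pos_part
    -- the integral inequality
    have hint : lam * inner ℝ (lin e) u - 2 * ε * b0 * b + 2 * √ε * inner ℝ Q v ≤
        ∫ t, |wt ε lam b0 t| ∂g1 +
        ∫ x, max (2 * √ε * |Q x| - |wt ε lam b0 (inner ℝ e x)|) 0 ∂(gam n) := by
      have e1 : ∫ t, |wt ε lam b0 t| ∂g1 = ∫ x, |wt ε lam b0 (inner ℝ e x)| ∂(gam n) := by
        rw [integral_inner e (f := fun t => |wt ε lam b0 t|)
          (continuous_wt ε lam b0).abs.measurable, he]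
        simp
      have e2 : lam * inner ℝ (lin e) u - 2 * ε * b0 * b + 2 * √ε * inner ℝ Q v =
          ∫ x, (wt ε lam b0 (inner ℝ e x) * u x + 2 * √ε * (Q x * v x)) ∂(gam n) := by
        have e3 : ∫ x, (wt ε lam b0 (inner ℝ e x) * u x + 2 * √ε * (Q x * v x)) ∂(gam n) =
            ∫ x, (lam * ((lin e : L2 n) x * u x) - 2 * ε * b0 * ((herm e : L2 n) x * u x)
              + 2 * √ε * (Q x * v x)) ∂(gam n) := by
          refine integral_congr_ae ?_
          filter_upwards [hlin, hherm] with x h1 h2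
          unfold lin herm wt
          rw [h1, h2]
          ring
        have i1 := (integrable_mul_L2 (lin e) u).const_mul lam
        have i2 := (integrable_mul_L2 (herm e) u).const_mul (2 * ε * b0)
        have i3 := (integrable_mul_L2 Q v).const_mul (2 * √ε)
        have i12 : Integrable (fun x => lam * ((lin e : L2 n) x * u x)
          - 2 * ε * b0 * ((herm e : L2 n) x * u x)) (gam n) := i1.sub i2
        rw [e3, integral_add i12 i3, integral_sub i1 i2, integral_const_mul, integral_const_mul,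
          integral_const_mul, ← inner_L2, ← inner_L2, ← inner_L2]
      rw [e1, e2, ← integral_add hwi.abs hmax]
      refine integral_mono_ae ?_ (hwi.abs.add hmax) ?_
      · have i1 := (integrable_mul_L2 (lin e) u).const_mul lam
        have i2 := (integrable_mul_L2 (herm e) u).const_mul (2 * ε * b0)
        have i3 := (integrable_mul_L2 Q v).const_mul (2 * √ε)
        refine ((i1.sub i2).add i3).congr ?_
        filter_upwards [hlin, hherm] with x h1 h2
        simp only [Pi.add_apply, Pi.sub_apply]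
        unfold lin herm wt
        rw [h1, h2]
        ring
      · filter_upwards [huv] with x hx
        set a := wt ε lam b0 (inner ℝ e x)
        have h1 : a * u x ≤ |a| * |u x| := by
          rw [← abs_mul]
          exact le_abs_self _
        have h2 : Q x * v x ≤ |Q x| * |v x| := by
          rw [← abs_mul]
          exact le_abs_self _
        have h3 : |a| ≤ |a| + max (2 * √ε * |Q x| - |a|) 0 := by
          linarith [le_max_right (2 * √ε * |Q x| - |a|) 0]
        have h4 : 2 * √ε * |Q x| ≤ |a| + max (2 * √ε * |Q x| - |a|) 0 := by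
          linarith [le_max_left (2 * √ε * |Q x| - |a|) 0]
        have h5 : 0 ≤ |a| + max (2 * √ε * |Q x| - |a|) 0 := (abs_nonneg a).trans h3
        have h6 := mul_le_mul_of_nonneg_right h3 (abs_nonneg (u x))
        have h7 := mul_le_mul_of_nonneg_right h4 (abs_nonneg (v x))
        have h8 := mul_le_mul_of_nonneg_left h2 (by positivity : 0 ≤ 2 * √ε)
        have h9 := mul_le_mul_of_nonneg_left hx h5
        change a * u x + 2 * √ε * (Q x * v x) ≤ |a| + max (2 * √ε * |Q x| - |a|) 0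
        nlinarith
    rw [hB]
    nlinarith [sq_nonneg ‖bar v‖]
  · intro lam
    have hw : Integrable (fun x : Ev n => max (|lam * inner ℝ e x|) ε) (gam n) := by
      refine integrable_inner e (f := fun t => max (|lam * t|) ε) (by fun_prop) ?_
      have h1 : Integrable (fun t : ℝ => |lam * t|) g1 := by
        have : Integrable (fun t : ℝ => t) g1 := by simpa using integrable_pow_g1 1
        exact (this.const_mul lam).abs
      have h2 : Integrable (fun t : ℝ => max (|lam * t|) ε) g1 := h1.sup (integrable_const ε)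
      simp only [he, one_mul]
      exact h2
    have h1 : ε * ‖P3 n v‖ ^ 2 ≤ ε * ∫ x, |v x| ∂(gam n) := by
      refine mul_le_mul_of_nonneg_left ?_ hε.le
      refine (pow_le_pow_left₀ (norm_nonneg _) (norm_P3_le v) 2).trans ?_
      rw [norm_sq_L2]
      refine integral_mono_ae ?_ (integrable_L2 v).abs ?_
      · refine (integrable_mul_L2 v v).congr (Filter.Eventually.of_forall fun x => ?_)
        simp [sq]
      · filter_upwards [huv] with x hx
        have h2 : |v x| ≤ 1 := by linarith [abs_nonneg (u x)]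
        change v x ^ 2 ≤ |v x|
        rw [← sq_abs]
        nlinarith [abs_nonneg (v x)]
    have h2 : lam * ‖bar u‖ + ε * ∫ x, |v x| ∂(gam n) ≤ ∫ t, max (|lam * t|) ε ∂g1 := by
      have e1 : ∫ t, max (|lam * t|) ε ∂g1 = ∫ x, max (|lam * inner ℝ e x|) ε ∂(gam n) := by
        rw [integral_inner e (f := fun t => max (|lam * t|) ε) (by fun_prop), he]
        simp
      rw [e1, hα, inner_L2, ← integral_const_mul, ← integral_const_mul,
        ← integral_add ((integrable_mul_L2 _ _).const_mul _) ((integrable_L2 v).abs.const_mul _)]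
      refine integral_mono_ae (((integrable_mul_L2 _ _).const_mul _).add
        ((integrable_L2 v).abs.const_mul _)) hw ?_
      filter_upwards [(memLp_lin e).coeFn_toLp, huv] with x h1 hx
      unfold lin
      rw [h1]
      set a := lam * (inner ℝ e x : ℝ) with ha
      have h3 : lam * ((inner ℝ e x : ℝ) * u x) ≤ |a| * |u x| := by
        rw [← mul_assoc, ← ha, ← abs_mul]
        exact le_abs_self _
      have h4 := mul_le_mul_of_nonneg_right (le_max_left (|a|) ε) (abs_nonneg (u x))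
      have h5 := mul_le_mul_of_nonneg_right (le_max_right (|a|) ε) (abs_nonneg (v x))
      have h6 : 0 ≤ max (|a|) ε := (abs_nonneg a).trans (le_max_left _ _)
      have h7 := mul_le_mul_of_nonneg_left hx h6
      nlinarith
    have h3 : 0 ≤ ε * ‖P3 n u‖ ^ 2 := by positivity
    rw [hB]
    nlinarith [sq_nonneg ‖bar v‖]

end Pool.Agent.KG
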