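import Pool.Agent.KG.Trap

/-! A kernel-checkable certificate for the one-dimensional inequality with a piecewise weight. -/

open MeasureTheory ProbabilityTheory Real Filter Topology Set

namespace Pool.Agent.KG

/-- data of a cell: right end `b`, weight `nu`, parameters `kap, z, gam, x1, x3` of the pointwise
inequality, the bound `T` for the calibration at `b`, and `lo ≤ e^{-b²/2} ≤ hi` -/
structure Cell where
  b : ℚ
  nu : ℚ
  kap : ℚ
  z : ℚ
  gam : ℚ
  x1 : ℚ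
  x3 : ℚ
  T : ℚ
  lo : ℚ
  hi : ℚ

/-- the weight described by a list of cells (and the value on the last, unbounded, cell) -/
noncomputable def wOf : List Cell → ℚ → ℝ → ℝ
  | [], ν, _ => (ν : ℝ)
  | c :: cs, ν, t => if t < (c.b : ℝ) then (c.nu : ℝ) else wOf cs ν t

/-- upper bound for the integral of `e^{-t²/2}` over `(a, b]` -/
def gamB (a ha b hb : ℚ) : ℚ :=
  if 1 ≤ a then (b - a) / 2 * (ha + hb) else
    (b - b ^ 3 / 6 + b ^ 5 / 40 - b ^ 7 / 336 + b ^ 9 / 3456) -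
      (a - a ^ 3 / 6 + a ^ 5 / 40 - a ^ 7 / 336 + a ^ 9 / 3456)

/-- upper bound for the integral of `e^{-t²/2}/t` over `(a, b]` -/
def lB (a ha b hb : ℚ) : ℚ := (b - a) / 2 * (ha / a + hb / b)

/-- conditions on one finite cell -/
def cellOK (m1 m3 a hi T : ℚ) (c : Cell) : Bool :=
  decide (a < c.b) && decide (0 < c.nu) && decide (0 < c.kap) && decide (0 < c.gam) &&
  decide (c.gam ≤ c.nu / 2) && decide (0 ≤ c.z) && decide (0 ≤ 1 - c.z / (2 * c.kap)) &&
  decide ((1 - c.z / (2 * c.kap)) * c.x1 ≤ c.nu * (1 - 1 / (4 * c.kap)) - c.gam) &&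
  decide ((1 - c.z / (2 * c.kap)) * (c.x1 + c.x3) ≤ 2 * c.nu * (1 - 1 / (2 * c.kap))) &&
  decide (T ≤ 2 * m1 * c.x1 * a) &&
  decide (T + (1 - c.z / (2 * c.kap)) * hi * (c.b - a) ≤ 2 * m1 * c.x1 * c.b) &&
  decide (T ≤ 2 * m3 * c.x3 * a) &&
  decide (T + (1 - c.z / (2 * c.kap)) * hi * (c.b - a) ≤ 2 * m3 * c.x3 * c.b) &&
  decide (T + (1 - c.z / (2 * c.kap)) * gamB a hi c.b c.hi ≤ c.T) &&
  (decide (c.z = 0) || decide (0 < a)) && expOK c.b c.lo c.hi

def okB (m1 m3 νl γl : ℚ) : List Cell → ℚ → ℚ → ℚ → ℚ → Bool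
  | [], a, _, _, _ => decide (0 < a) && decide (0 < νl) && decide (0 < γl) && decide (γl ≤ νl / 2)
  | c :: cs, a, _, hi, T => cellOK m1 m3 a hi T c && okB m1 m3 νl γl cs c.b c.lo c.hi c.T

/-- accumulated coefficients -/
structure Acc where
  sA : ℚ
  p : ℚ
  sB : ℚ
  s0 : ℚ
  s1 : ℚ
  s2 : ℚ

def acc (νl γl : ℚ) : List Cell → ℚ → ℚ → ℚ → Acc
  | [], a, lo, hi =>
    ⟨1 / (2 * νl) * (hi / a ^ 2), 1 / νl * lo, 1 / (2 * νl) * ((a ^ 2 + 2) * hi),
      1 / (4 * γl) * hi, 1 / (4 * γl) * ((a ^ 2 + 2) * lo),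
      1 / (4 * γl) * ((a ^ 4 + 4 * a ^ 2 + 8) * hi)⟩
  | c :: cs, a, lo, hi =>
    let r := acc νl γl cs c.b c.lo c.hi
    ⟨c.z ^ 2 / (4 * c.kap * c.nu) * lB a hi c.b c.hi + r.sA,
      c.z / c.nu * (lo - c.hi) + r.p,
      c.kap / c.nu * ((a ^ 2 + 2) * hi - (c.b ^ 2 + 2) * c.lo) + r.sB,
      1 / (4 * c.gam) * (hi - c.lo) + r.s0,
      1 / (4 * c.gam) * ((a ^ 2 + 2) * lo - (c.b ^ 2 + 2) * c.hi) + r.s1,
      1 / (4 * c.gam) * ((a ^ 4 + 4 * a ^ 2 + 8) * hi - (c.b ^ 4 + 4 * c.b ^ 2 + 8) * c.lo)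
        + r.s2⟩

lemma measurable_wOf (cs : List Cell) (ν : ℚ) : Measurable (wOf cs ν) := by
  induction cs with
  | nil => exact measurable_const
  | cons c cs ih => exact Measurable.ite measurableSet_Iio measurable_const ih

/-- the bound for the part of the integral over `(a, ∞)` -/
theorem tail_bound (m1 m3 νl γl : ℚ) (hm1 : 0 < m1) (hm3 : 0 < m3) (cs : List Cell) :
    ∀ a lo hi T : ℚ, 0 ≤ a → (lo : ℝ) ≤ ee a → ee a ≤ hi → okB m1 m3 νl γl cs a lo hi T = true →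
    ∃ p s1 : ℝ, ((acc νl γl cs a lo hi).p : ℝ) ≤ p ∧ ((acc νl γl cs a lo hi).s1 : ℝ) ≤ s1 ∧
      ∀ A B C D : ℝ, IntegrableOn (fun t => cellF (wOf cs νl t) A B C D t) (Ioi (a : ℝ)) ∧
        ∫ t in Ioi (a : ℝ), cellF (wOf cs νl t) A B C D t ≤
          (acc νl γl cs a lo hi).sA * A ^ 2 +
          m1 * (max (|A| - a0 / (2 * m1) * T) 0) ^ 2 + m3 * (max (|A| - a0 / (2 * m3) * T) 0) ^ 2 +
          p * (A * B) + (acc νl γl cs a lo hi).sB * B ^ 2 + (acc νl γl cs a lo hi).s0 * C ^ 2 +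
          2 * s1 * (C * D) + (acc νl γl cs a lo hi).s2 * D ^ 2 := by
  have hm1' : (0 : ℝ) < m1 := by exact_mod_cast hm1
  have hm3' : (0 : ℝ) < m3 := by exact_mod_cast hm3
  induction cs with
  | nil =>
    intro a lo hi T ha hlo hhi hok
    simp only [okB, Bool.and_eq_true, decide_eq_true_eq] at hok
    obtain ⟨⟨⟨h1, h2⟩, h3⟩, h4⟩ := hok
    have h1' : (0 : ℝ) < a := by exact_mod_cast h1
    have h2' : (0 : ℝ) < νl := by exact_mod_cast h2
    have h3' : (0 : ℝ) < γl := by exact_mod_cast h3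
    have h4' : (γl : ℝ) ≤ νl / 2 := by exact_mod_cast h4
    refine ⟨1 / νl * ee a, 1 / (4 * γl) * ((a ^ 2 + 2) * ee a), ?_, ?_, ?_⟩
    · simp only [acc]
      push_cast
      exact mul_le_mul_of_nonneg_left hlo (by positivity)
    · simp only [acc]
      push_cast
      refine mul_le_mul_of_nonneg_left ?_ (by positivity)
      exact mul_le_mul_of_nonneg_left hlo (by positivity)
    · intro A B C D
      obtain ⟨hi1, hi2⟩ := cell_last A B C D h1' h2' h3' h4'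
      simp only [wOf]
      refine ⟨hi1, hi2.trans ?_⟩
      simp only [acc]
      push_cast
      have e1 : 1 / (2 * (νl : ℝ)) * (ee a / a ^ 2) * A ^ 2 ≤ 1 / (2 * νl) * (hi / a ^ 2) * A ^ 2 := by
        gcongr
      have e2 : C ^ 2 / (4 * (γl : ℝ)) * ee a ≤ 1 / (4 * γl) * hi * C ^ 2 := by
        rw [div_mul_eq_mul_div, div_le_iff₀ (by positivity)]
        have := mul_le_mul_of_nonneg_left hhi (sq_nonneg C)
        refine this.trans (le_of_eq ?_)
        field_simp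
      have e3 : 1 / (2 * (νl : ℝ)) * B ^ 2 * ((a ^ 2 + 2) * ee a) ≤
          1 / (2 * νl) * ((a ^ 2 + 2) * hi) * B ^ 2 := by
        have : 1 / (2 * (νl : ℝ)) * B ^ 2 * ((a ^ 2 + 2) * ee a) =
          1 / (2 * νl) * ((a ^ 2 + 2) * ee a) * B ^ 2 := by ring
        rw [this]
        gcongr
      have e4 : D ^ 2 / (4 * (γl : ℝ)) * ((a ^ 4 + 4 * a ^ 2 + 8) * ee a) ≤
          1 / (4 * γl) * ((a ^ 4 + 4 * a ^ 2 + 8) * hi) * D ^ 2 := by
        have : D ^ 2 / (4 * (γl : ℝ)) * ((a ^ 4 + 4 * a ^ 2 + 8) * ee a) =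
          1 / (4 * γl) * ((a ^ 4 + 4 * a ^ 2 + 8) * ee a) * D ^ 2 := by ring
        rw [this]
        gcongr
      have n1 : 0 ≤ (m1 : ℝ) * (max (|A| - a0 / (2 * m1) * T) 0) ^ 2 := by positivity
      have n3 : 0 ≤ (m3 : ℝ) * (max (|A| - a0 / (2 * m3) * T) 0) ^ 2 := by positivity
      have e5 : 2 * (C * D) / (4 * (γl : ℝ)) * ((a ^ 2 + 2) * ee a) =
          2 * (1 / (4 * γl) * ((a ^ 2 + 2) * ee a)) * (C * D) := by ring
      have e6 : 1 / (νl : ℝ) * (A * B) * ee a = 1 / νl * ee a * (A * B) := by ring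
      calc 1 / (2 * (νl : ℝ)) * (ee a / a ^ 2) * A ^ 2 +
          ((1 / νl * (A * B) + C ^ 2 / (4 * γl)) * ee a +
          (1 / (2 * νl) * B ^ 2 + 2 * (C * D) / (4 * γl)) * ((a ^ 2 + 2) * ee a) +
          D ^ 2 / (4 * γl) * ((a ^ 4 + 4 * a ^ 2 + 8) * ee a))
          = 1 / (2 * (νl : ℝ)) * (ee a / a ^ 2) * A ^ 2 + 1 / νl * (A * B) * ee a +
            C ^ 2 / (4 * (γl : ℝ)) * ee a + 1 / (2 * (νl : ℝ)) * B ^ 2 * ((a ^ 2 + 2) * ee a) +
            2 * (C * D) / (4 * (γl : ℝ)) * ((a ^ 2 + 2) * ee a) +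
            D ^ 2 / (4 * (γl : ℝ)) * ((a ^ 4 + 4 * a ^ 2 + 8) * ee a) := by ring
        _ ≤ _ := by
          rw [e5, e6]
          linarith
  | cons c cs ih =>
    intro a lo hi T ha hlo hhi hok
    simp only [okB, Bool.and_eq_true] at hok
    obtain ⟨hc, hrest⟩ := hok
    simp only [cellOK, Bool.and_eq_true, Bool.or_eq_true, decide_eq_true_eq] at hc
    obtain ⟨⟨⟨⟨⟨⟨⟨⟨⟨⟨⟨⟨⟨⟨⟨h1, h2⟩, h3⟩, h4⟩, h5⟩, h6⟩, h7⟩, h8⟩, h9⟩, h10⟩, h11⟩, h12⟩, h13⟩, h14⟩,
      h15⟩, h16⟩ := hc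
    obtain ⟨hlo', hhi'⟩ := expOK_sound h16
    have hb0 : (0 : ℚ) ≤ c.b := ha.trans h1.le
    obtain ⟨p, s1, hp, hs1, hA⟩ := ih c.b c.lo c.hi c.T hb0 hlo' hhi' hrest
    have ha' : (0 : ℝ) ≤ a := by exact_mod_cast ha
    have h1' : (a : ℝ) < c.b := by exact_mod_cast h1
    have hb0' : (0 : ℝ) < c.b := lt_of_le_of_lt ha' h1'
    have h2' : (0 : ℝ) < c.nu := by exact_mod_cast h2
    have h3' : (0 : ℝ) < c.kap := by exact_mod_cast h3
    have h4' : (0 : ℝ) < c.gam := by exact_mod_cast h4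
    have h5' : (c.gam : ℝ) ≤ c.nu / 2 := by exact_mod_cast h5
    have h6' : (0 : ℝ) ≤ c.z := by exact_mod_cast h6
    have h7' : (0 : ℝ) ≤ 1 - c.z / (2 * c.kap) := by exact_mod_cast h7
    have h8' : (1 - (c.z : ℝ) / (2 * c.kap)) * c.x1 ≤ c.nu * (1 - 1 / (4 * c.kap)) - c.gam := by
      exact_mod_cast h8
    have h9' : (1 - (c.z : ℝ) / (2 * c.kap)) * (c.x1 + c.x3) ≤ 2 * c.nu * (1 - 1 / (2 * c.kap)) := by
      exact_mod_cast h9
    have h10' : (T : ℝ) ≤ 2 * m1 * c.x1 * a := by exact_mod_cast h10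
    have h11' : (T : ℝ) + (1 - c.z / (2 * c.kap)) * ee a * (c.b - a) ≤ 2 * m1 * c.x1 * c.b := by
      have k : (T : ℝ) + (1 - c.z / (2 * c.kap)) * hi * (c.b - a) ≤ 2 * m1 * c.x1 * c.b := by
        exact_mod_cast h11
      have k2 : (1 - (c.z : ℝ) / (2 * c.kap)) * ee a * (c.b - a) ≤
          (1 - c.z / (2 * c.kap)) * hi * (c.b - a) := by
        refine mul_le_mul_of_nonneg_right (mul_le_mul_of_nonneg_left hhi h7') ?_
        linarith
      linarith
    have h12' : (T : ℝ) ≤ 2 * m3 * c.x3 * a := by exact_mod_cast h12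
    have h13' : (T : ℝ) + (1 - c.z / (2 * c.kap)) * ee a * (c.b - a) ≤ 2 * m3 * c.x3 * c.b := by
      have k : (T : ℝ) + (1 - c.z / (2 * c.kap)) * hi * (c.b - a) ≤ 2 * m3 * c.x3 * c.b := by
        exact_mod_cast h13
      have k2 : (1 - (c.z : ℝ) / (2 * c.kap)) * ee a * (c.b - a) ≤
          (1 - c.z / (2 * c.kap)) * hi * (c.b - a) := by
        refine mul_le_mul_of_nonneg_right (mul_le_mul_of_nonneg_left hhi h7') ?_
        linarith
      linarith
    have h14' : (T : ℝ) + (1 - c.z / (2 * c.kap)) * (gamB a hi c.b c.hi : ℚ) ≤ c.T := by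
      exact_mod_cast h14
    have hΓ : ∫ t in Ioc (a : ℝ) c.b, ee t ≤ ((gamB a hi c.b c.hi : ℚ) : ℝ) := by
      unfold gamB
      split_ifs with h
      · have h' : (1 : ℝ) ≤ a := by exact_mod_cast h
        refine (int_ee_trap h' h1').trans ?_
        push_cast
        have : 0 ≤ ((c.b : ℝ) - a) / 2 := by linarith
        exact mul_le_mul_of_nonneg_left (add_le_add hhi hhi') this
      · refine (int_ee_taylor h1'.le).trans (le_of_eq ?_)
        push_cast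
        ring
    have hL : (c.z : ℝ) = 0 ∨ ((0 : ℝ) < a ∧ ∫ t in Ioc (a : ℝ) c.b, ee t / t ≤
        ((lB a hi c.b c.hi : ℚ) : ℝ)) := by
      rcases h15 with h | h
      · left
        exact_mod_cast h
      · right
        have h' : (0 : ℝ) < a := by exact_mod_cast h
        refine ⟨h', (int_ee_div_trap h' h1').trans ?_⟩
        unfold lB
        push_cast
        have : 0 ≤ ((c.b : ℝ) - a) / 2 := by linarith
        refine mul_le_mul_of_nonneg_left ?_ this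
        gcongr
    have J1lo : ((lo : ℝ) - c.hi) ≤ ee a - ee c.b := by linarith
    have J1hi : ee a - ee c.b ≤ (hi : ℝ) - c.lo := by linarith
    have J3lo : ((a : ℝ) ^ 2 + 2) * lo - (c.b ^ 2 + 2) * c.hi ≤
        (a ^ 2 + 2) * ee a - (c.b ^ 2 + 2) * ee c.b :=
      sub_le_sub (mul_le_mul_of_nonneg_left hlo (by positivity))
        (mul_le_mul_of_nonneg_left hhi' (by positivity))
    have J3hi : ((a : ℝ) ^ 2 + 2) * ee a - (c.b ^ 2 + 2) * ee c.b ≤
        (a ^ 2 + 2) * hi - (c.b ^ 2 + 2) * c.lo :=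
      sub_le_sub (mul_le_mul_of_nonneg_left hhi (by positivity))
        (mul_le_mul_of_nonneg_left hlo' (by positivity))
    have J5hi : ((a : ℝ) ^ 4 + 4 * a ^ 2 + 8) * ee a - (c.b ^ 4 + 4 * c.b ^ 2 + 8) * ee c.b ≤
        (a ^ 4 + 4 * a ^ 2 + 8) * hi - (c.b ^ 4 + 4 * c.b ^ 2 + 8) * c.lo :=
      sub_le_sub (mul_le_mul_of_nonneg_left hhi (by positivity))
        (mul_le_mul_of_nonneg_left hlo' (by positivity))
    refine ⟨c.z / c.nu * (ee a - ee c.b) + p,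
      1 / (4 * c.gam) * ((a ^ 2 + 2) * ee a - (c.b ^ 2 + 2) * ee c.b) + s1, ?_, ?_, ?_⟩
    · simp only [acc]
      push_cast
      exact add_le_add (mul_le_mul_of_nonneg_left J1lo (by positivity)) hp
    · simp only [acc]
      push_cast
      exact add_le_add (mul_le_mul_of_nonneg_left J3lo (by positivity)) hs1
    · intro A B C D
      obtain ⟨hi1, hi2⟩ := hA A B C D
      have hcell := cell_fin A B C D ha' h1' h2' h3' h4' h5' h7' h8' h9' hm1' hm3' h10' h11' h12'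
        h13' h14' hΓ hL
      have hcellint : IntegrableOn (cellF c.nu A B C D) (Ioc (a : ℝ) c.b) :=
        ((continuous_cellF c.nu A B C D).integrableOn_Icc (a := (a : ℝ)) (b := c.b)).mono_set
          Ioc_subset_Icc_self
      have hae1 : (fun t => cellF (wOf (c :: cs) νl t) A B C D t) =ᵐ[volume.restrict
          (Ioc (a : ℝ) c.b)] cellF c.nu A B C D := by
        have hne : ∀ᵐ t ∂(volume.restrict (Ioc (a : ℝ) c.b)), t ≠ (c.b : ℝ) :=
          ae_restrict_of_ae (Measure.ae_ne volume _)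
        filter_upwards [ae_restrict_mem measurableSet_Ioc, hne] with t ht hne'
        have : t < (c.b : ℝ) := lt_of_le_of_ne ht.2 hne'
        simp only [wOf, if_pos this]
      have heq2 : ∀ t ∈ Ioi (c.b : ℝ), cellF (wOf (c :: cs) νl t) A B C D t =
          cellF (wOf cs νl t) A B C D t := by
        intro t ht
        have : ¬ t < (c.b : ℝ) := not_lt.2 (le_of_lt ht)
        simp only [wOf, if_neg this]
      have hint1 : IntegrableOn (fun t => cellF (wOf (c :: cs) νl t) A B C D t)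
          (Ioc (a : ℝ) c.b) := hcellint.congr hae1.symm
      have hint2 : IntegrableOn (fun t => cellF (wOf (c :: cs) νl t) A B C D t)
          (Ioi (c.b : ℝ)) := hi1.congr_fun (fun t ht => (heq2 t ht).symm) measurableSet_Ioi
      have hunion : Ioi (a : ℝ) = Ioc (a : ℝ) c.b ∪ Ioi (c.b : ℝ) :=
        (Ioc_union_Ioi_eq_Ioi h1'.le).symm
      have hdisj : Disjoint (Ioc (a : ℝ) c.b) (Ioi (c.b : ℝ)) := Ioc_disjoint_Ioi le_rfl
      refine ⟨?_, ?_⟩
      · rw [hunion]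
        exact hint1.union hint2
      · rw [hunion, setIntegral_union hdisj measurableSet_Ioi hint1 hint2,
          integral_congr_ae hae1, setIntegral_congr_fun measurableSet_Ioi heq2]
        refine (add_le_add hcell hi2).trans ?_
        simp only [acc]
        push_cast
        have e2 : C ^ 2 / (4 * (c.gam : ℝ)) * (ee a - ee c.b) ≤
            1 / (4 * c.gam) * (hi - c.lo) * C ^ 2 := by
          have : C ^ 2 / (4 * (c.gam : ℝ)) * (ee a - ee c.b) =
            1 / (4 * c.gam) * (ee a - ee c.b) * C ^ 2 := by ring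
          rw [this]
          gcongr
        have e3 : (c.kap : ℝ) / c.nu * B ^ 2 * ((a ^ 2 + 2) * ee a - (c.b ^ 2 + 2) * ee c.b) ≤
            c.kap / c.nu * ((a ^ 2 + 2) * hi - (c.b ^ 2 + 2) * c.lo) * B ^ 2 := by
          have : (c.kap : ℝ) / c.nu * B ^ 2 * ((a ^ 2 + 2) * ee a - (c.b ^ 2 + 2) * ee c.b) =
            c.kap / c.nu * ((a ^ 2 + 2) * ee a - (c.b ^ 2 + 2) * ee c.b) * B ^ 2 := by ring
          rw [this]
          gcongr
        have e4 : D ^ 2 / (4 * (c.gam : ℝ)) * ((a ^ 4 + 4 * a ^ 2 + 8) * ee a -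
            (c.b ^ 4 + 4 * c.b ^ 2 + 8) * ee c.b) ≤
            1 / (4 * c.gam) * ((a ^ 4 + 4 * a ^ 2 + 8) * hi - (c.b ^ 4 + 4 * c.b ^ 2 + 8) * c.lo)
              * D ^ 2 := by
          have : D ^ 2 / (4 * (c.gam : ℝ)) * ((a ^ 4 + 4 * a ^ 2 + 8) * ee a -
            (c.b ^ 4 + 4 * c.b ^ 2 + 8) * ee c.b) = 1 / (4 * c.gam) * ((a ^ 4 + 4 * a ^ 2 + 8) *
            ee a - (c.b ^ 4 + 4 * c.b ^ 2 + 8) * ee c.b) * D ^ 2 := by ring
          rw [this]
          gcongr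
        have e5 : 2 * (C * D) / (4 * (c.gam : ℝ)) * ((a ^ 2 + 2) * ee a - (c.b ^ 2 + 2) * ee c.b) =
            2 * (1 / (4 * c.gam) * ((a ^ 2 + 2) * ee a - (c.b ^ 2 + 2) * ee c.b)) * (C * D) := by
          ring
        have e6 : (c.z : ℝ) / c.nu * (A * B) * (ee a - ee c.b) =
            c.z / c.nu * (ee a - ee c.b) * (A * B) := by ring
        rw [add_mul (c.z / c.nu * (A * B) : ℝ), add_mul (c.kap / c.nu * B ^ 2 : ℝ), e5, e6]
        linarith

end Pool.Agent.KG
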