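import Pool.Agent.KG.Cub

/-! The one-dimensional inequality behind the bound `K_G^ℝ ≥ 6π/11`. -/

open MeasureTheory ProbabilityTheory Real Filter Topology Set

namespace Pool.Agent.KG

lemma hasDerivAt_max_sq (y : ℝ) :
    HasDerivAt (fun y : ℝ => (max y 0) ^ 2) (2 * max y 0) y := by
  rcases lt_trichotomy y 0 with h | h | h
  · have h1 : (fun y : ℝ => (max y 0) ^ 2) =ᶠ[𝓝 y] fun _ => 0 := by
      filter_upwards [Iio_mem_nhds h] with z hz
      rw [max_eq_right (le_of_lt hz)]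
      simp
    rw [max_eq_right h.le, mul_zero]
    exact (hasDerivAt_const y (0 : ℝ)).congr_of_eventuallyEq h1
  · subst h
    rw [hasDerivAt_iff_isLittleO_nhds_zero]
    simp only [zero_add, max_self, mul_zero, smul_zero, sub_zero, ne_eq, OfNat.ofNat_ne_zero,
      not_false_eq_true, zero_pow]
    have h1 : (fun h : ℝ => (max h 0) ^ 2) =O[𝓝 0] fun h : ℝ => h ^ 2 := by
      refine Asymptotics.IsBigO.of_bound 1 (Eventually.of_forall fun h => ?_)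
      rw [one_mul, norm_pow, norm_pow]
      refine pow_le_pow_left₀ (norm_nonneg _) ?_ 2
      rw [Real.norm_eq_abs, Real.norm_eq_abs, abs_of_nonneg (le_max_right _ _)]
      exact max_le (le_abs_self h) (abs_nonneg h)
    exact h1.trans_isLittleO (Asymptotics.isLittleO_pow_id one_lt_two)
  · have h1 : (fun y : ℝ => (max y 0) ^ 2) =ᶠ[𝓝 y] fun y => y ^ 2 := by
      filter_upwards [Ioi_mem_nhds h] with z hz
      rw [max_eq_left (le_of_lt hz)]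
    rw [max_eq_left h.le]
    have := hasDerivAt_pow 2 y
    refine (this.congr_of_eventuallyEq h1).congr_deriv ?_
    norm_num

/-- the truncated Taylor polynomial of `∫_0^t e^{-s²/2} ds` -/
noncomputable def gh (t : ℝ) : ℝ := t - t ^ 3 / 6 + t ^ 5 / 40

noncomputable def gh' (t : ℝ) : ℝ := 1 - t ^ 2 / 2 + t ^ 4 / 8

lemma hasDerivAt_gh (t : ℝ) : HasDerivAt gh (gh' t) t := by
  unfold gh gh'
  have := ((hasDerivAt_id t).sub ((hasDerivAt_pow 3 t).div_const 6)).add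
    ((hasDerivAt_pow 5 t).div_const 40)
  refine this.congr_deriv ?_
  norm_num
  ring

lemma exp_neg_le_quadratic {z : ℝ} (hz : 0 ≤ z) : rexp (-z) ≤ 1 - z + z ^ 2 / 2 := by
  -- the function g z = 1 - z + z^2/2 - exp(-z) is monotone on [0,∞)
  have hmono : MonotoneOn (fun z : ℝ => 1 - z + z ^ 2 / 2 - rexp (-z)) (Ici 0) := by
    refine monotoneOn_of_deriv_nonneg (convex_Ici 0) (by fun_prop) (by fun_prop) ?_
    intro x hx
    have hd : HasDerivAt (fun z : ℝ => 1 - z + z ^ 2 / 2 - rexp (-z))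
        (-1 + x + rexp (-x)) x := by
      have h1 := (((hasDerivAt_const x (1 : ℝ)).sub (hasDerivAt_id x)).add
        ((hasDerivAt_pow 2 x).div_const 2)).sub ((hasDerivAt_neg x).exp)
      refine h1.congr_deriv ?_
      norm_num
    rw [hd.deriv]
    have := Real.add_one_le_exp (-x)
    linarith
  have := hmono (mem_Ici.2 le_rfl) (mem_Ici.2 hz) hz
  simp at this
  linarith

lemma exp_le_gh' (t : ℝ) : rexp (-t ^ 2 / 2) ≤ gh' t := by
  have := exp_neg_le_quadratic (z := t ^ 2 / 2) (by positivity)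
  rw [show -t ^ 2 / 2 = -(t ^ 2 / 2) by ring]
  unfold gh'
  refine this.trans (le_of_eq (by ring))

/-- the `A`-part -/
lemma A_part (X a : ℝ) (hX : 0 ≤ X) (ha : 0 < a) :
    ∫ t in (0 : ℝ)..√2, max (X - a * gh t) 0 * gh' t ≤ X ^ 2 / (2 * a) := by
  have hd : ∀ t ∈ uIcc (0 : ℝ) (√2), HasDerivAt
      (fun t => -(1 / (2 * a)) * (max (X - a * gh t) 0) ^ 2)
      (max (X - a * gh t) 0 * gh' t) t := by
    intro t _
    have h1 : HasDerivAt (fun t => X - a * gh t) (-(a * gh' t)) t := by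
      have := ((hasDerivAt_gh t).const_mul a).const_sub X
      exact this
    have h2 := ((hasDerivAt_max_sq (X - a * gh t)).comp t h1).const_mul (-(1 / (2 * a)))
    refine h2.congr_deriv ?_
    field_simp
  have hc : Continuous fun t => max (X - a * gh t) 0 * gh' t := by
    unfold gh gh'
    fun_prop
  rw [intervalIntegral.integral_eq_sub_of_hasDerivAt hd (hc.intervalIntegrable _ _)]
  have h0 : gh 0 = 0 := by simp [gh]
  rw [h0, mul_zero, sub_zero, max_eq_left hX]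
  have : 0 ≤ 1 / (2 * a) * (max (X - a * gh (√2)) 0) ^ 2 := by positivity
  have e : X ^ 2 / (2 * a) = 1 / (2 * a) * X ^ 2 := by ring
  rw [e]
  linarith

/-- polynomial in `z` of degree at most four -/
noncomputable def P4 (p0 p1 p2 p3 p4 z : ℝ) : ℝ := p0 + p1 * z + p2 * z ^ 2 + p3 * z ^ 3 + p4 * z ^ 4

/-- antiderivative -/
noncomputable def AP4 (p0 p1 p2 p3 p4 t : ℝ) : ℝ :=
  -(rexp (-t ^ 2 / 2) * (p0 + p1 * (t ^ 2 / 2 + 1) + p2 * ((t ^ 2 / 2) ^ 2 + 2 * (t ^ 2 / 2) + 2)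
    + p3 * ((t ^ 2 / 2) ^ 3 + 3 * (t ^ 2 / 2) ^ 2 + 6 * (t ^ 2 / 2) + 6)
    + p4 * ((t ^ 2 / 2) ^ 4 + 4 * (t ^ 2 / 2) ^ 3 + 12 * (t ^ 2 / 2) ^ 2 + 24 * (t ^ 2 / 2) + 24)))

lemma hasDerivAt_AP4 (p0 p1 p2 p3 p4 t : ℝ) :
    HasDerivAt (AP4 p0 p1 p2 p3 p4)
      (t * rexp (-t ^ 2 / 2) * P4 p0 p1 p2 p3 p4 (t ^ 2 / 2)) t := by
  have hz : HasDerivAt (fun t : ℝ => t ^ 2 / 2) t t := by
    refine ((hasDerivAt_pow 2 t).div_const 2).congr_deriv ?_
    norm_num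
  have he : HasDerivAt (fun t : ℝ => rexp (-t ^ 2 / 2)) (rexp (-t ^ 2 / 2) * -t) t := by
    have h1 : HasDerivAt (fun t : ℝ => -t ^ 2 / 2) (-t) t := by
      have := ((hasDerivAt_pow 2 t).neg).div_const 2
      exact this.congr_deriv (by norm_num; ring)
    exact h1.exp
  have hp : HasDerivAt (fun t : ℝ => p0 + p1 * (t ^ 2 / 2 + 1)
      + p2 * ((t ^ 2 / 2) ^ 2 + 2 * (t ^ 2 / 2) + 2)
      + p3 * ((t ^ 2 / 2) ^ 3 + 3 * (t ^ 2 / 2) ^ 2 + 6 * (t ^ 2 / 2) + 6)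
      + p4 * ((t ^ 2 / 2) ^ 4 + 4 * (t ^ 2 / 2) ^ 3 + 12 * (t ^ 2 / 2) ^ 2 + 24 * (t ^ 2 / 2) + 24))
      (t * (p1 + p2 * (2 * (t ^ 2 / 2) + 2) + p3 * (3 * (t ^ 2 / 2) ^ 2 + 6 * (t ^ 2 / 2) + 6)
        + p4 * (4 * (t ^ 2 / 2) ^ 3 + 12 * (t ^ 2 / 2) ^ 2 + 24 * (t ^ 2 / 2) + 24))) t := by
    have h2 := hz.pow 2
    have h3 := hz.pow 3
    have h4 := hz.pow 4
    have := (((((hz.add_const 1).const_mul p1).const_add p0).add
      (((h2.add (hz.const_mul 2)).add_const 2).const_mul p2)).add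
      ((((h3.add (h2.const_mul 3)).add (hz.const_mul 6)).add_const 6).const_mul p3)).add
      (((((h4.add (h3.const_mul 4)).add (h2.const_mul 12)).add (hz.const_mul 24)).add_const
        24).const_mul p4)
    refine this.congr_deriv ?_
    norm_num
    ring
  have := (he.mul hp).neg
  refine this.congr_deriv ?_
  unfold P4
  ring

lemma sqrt_two_sq_half : √2 ^ 2 / 2 = (1 : ℝ) := by
  rw [Real.sq_sqrt (by norm_num)]
  norm_num

lemma int_lo (p0 p1 p2 p3 p4 : ℝ) :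
    ∫ t in (0 : ℝ)..√2, t * rexp (-t ^ 2 / 2) * P4 p0 p1 p2 p3 p4 (t ^ 2 / 2) =
      p0 * (1 - rexp (-1)) + p1 * (1 - 2 * rexp (-1)) + p2 * (2 - 5 * rexp (-1))
        + p3 * (6 - 16 * rexp (-1)) + p4 * (24 - 65 * rexp (-1)) := by
  have hc : Continuous fun t : ℝ => t * rexp (-t ^ 2 / 2) * P4 p0 p1 p2 p3 p4 (t ^ 2 / 2) := by
    unfold P4
    fun_prop
  rw [intervalIntegral.integral_eq_sub_of_hasDerivAt
    (fun t _ => hasDerivAt_AP4 p0 p1 p2 p3 p4 t) (hc.intervalIntegrable _ _)]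
  have e : -√2 ^ 2 / 2 = (-1 : ℝ) := by
    have := sqrt_two_sq_half
    linarith
  unfold AP4
  rw [e, sqrt_two_sq_half]
  norm_num
  ring

lemma integrable_wP4 (p0 p1 p2 p3 p4 : ℝ) :
    Integrable fun t : ℝ => t * rexp (-t ^ 2 / 2) * P4 p0 p1 p2 p3 p4 (t ^ 2 / 2) := by
  have h : (fun t : ℝ => t * rexp (-t ^ 2 / 2) * P4 p0 p1 p2 p3 p4 (t ^ 2 / 2)) =
      fun t => (2 / a0 * p0) * (phi t * t ^ 1) + (2 / a0 * (p1 / 2)) * (phi t * t ^ 3)
        + (2 / a0 * (p2 / 4)) * (phi t * t ^ 5) + (2 / a0 * (p3 / 8)) * (phi t * t ^ 7)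
        + (2 / a0 * (p4 / 16)) * (phi t * t ^ 9) := by
    funext t
    have := a0_pos
    rw [phi_eq]
    unfold P4
    field_simp
    ring
  rw [h]
  exact (((((integrable_phi_pow 1).const_mul _).add ((integrable_phi_pow 3).const_mul _)).add
    ((integrable_phi_pow 5).const_mul _)).add ((integrable_phi_pow 7).const_mul _)).add
    ((integrable_phi_pow 9).const_mul _)

lemma tendsto_AP4 (p0 p1 p2 p3 p4 : ℝ) : Tendsto (AP4 p0 p1 p2 p3 p4) atTop (𝓝 0) := by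
  have h : (AP4 p0 p1 p2 p3 p4) =
      fun t => (-(2 / a0) * (p0 + p1 + 2 * p2 + 6 * p3 + 24 * p4)) * (phi t * t ^ 0)
        + (-(2 / a0) * ((p1 + 2 * p2 + 6 * p3 + 24 * p4) / 2)) * (phi t * t ^ 2)
        + (-(2 / a0) * ((p2 + 3 * p3 + 12 * p4) / 4)) * (phi t * t ^ 4)
        + (-(2 / a0) * ((p3 + 4 * p4) / 8)) * (phi t * t ^ 6)
        + (-(2 / a0) * (p4 / 16)) * (phi t * t ^ 8) := by
    funext t
    have := a0_pos
    rw [phi_eq]
    unfold AP4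
    field_simp
    ring
  rw [h]
  have := (((((tendsto_phi_mul_pow 0).const_mul
      (-(2 / a0) * (p0 + p1 + 2 * p2 + 6 * p3 + 24 * p4))).add
    ((tendsto_phi_mul_pow 2).const_mul (-(2 / a0) * ((p1 + 2 * p2 + 6 * p3 + 24 * p4) / 2)))).add
    ((tendsto_phi_mul_pow 4).const_mul (-(2 / a0) * ((p2 + 3 * p3 + 12 * p4) / 4)))).add
    ((tendsto_phi_mul_pow 6).const_mul (-(2 / a0) * ((p3 + 4 * p4) / 8)))).add
    ((tendsto_phi_mul_pow 8).const_mul (-(2 / a0) * (p4 / 16)))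
  simpa using this

lemma int_hi (p0 p1 p2 p3 p4 : ℝ) :
    ∫ t in Ioi (√2 : ℝ), t * rexp (-t ^ 2 / 2) * P4 p0 p1 p2 p3 p4 (t ^ 2 / 2) =
      p0 * rexp (-1) + p1 * (2 * rexp (-1)) + p2 * (5 * rexp (-1))
        + p3 * (16 * rexp (-1)) + p4 * (65 * rexp (-1)) := by
  rw [integral_Ioi_of_hasDerivAt_of_tendsto' (fun t _ => hasDerivAt_AP4 p0 p1 p2 p3 p4 t)
    (integrable_wP4 p0 p1 p2 p3 p4).integrableOn (tendsto_AP4 p0 p1 p2 p3 p4)]
  have e : -√2 ^ 2 / 2 = (-1 : ℝ) := by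
    have := sqrt_two_sq_half
    linarith
  unfold AP4
  rw [e, sqrt_two_sq_half]
  ring

lemma pos_part_split (X Y s1 s2 : ℝ) :
    max (X + Y - (s1 + s2)) 0 ≤ max (X - s1) 0 + max (Y - s2) 0 := by
  refine max_le ?_ (add_nonneg (le_max_right _ _) (le_max_right _ _))
  have h1 := le_max_left (X - s1) 0
  have h2 := le_max_left (Y - s2) 0
  linarith

lemma pos_part_sq (Y : ℝ) {s : ℝ} (hs : 0 < s) : max (Y - s) 0 ≤ Y ^ 2 / (4 * s) := by
  refine max_le ?_ (by positivity)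
  rw [le_div_iff₀ (by positivity)]
  nlinarith [sq_nonneg (Y - 2 * s)]

/-- the cubic in simplified coordinates -/
noncomputable def cb (c0 c1 k2 k3 t : ℝ) : ℝ := c0 + c1 * t + k2 * (t ^ 2 - 1) + k3 * (t ^ 3 - 3 * t)

/-- the integrand -/
noncomputable def FF (c0 c1 k2 k3 t : ℝ) : ℝ :=
  max (√2 * |cb c0 c1 k2 k3 t| - 11 / 8 * a0 * |t|) 0

lemma two_sq (r : ℝ) : (√2 * |r|) ^ 2 = 2 * r ^ 2 := by
  rw [mul_pow, Real.sq_sqrt (by norm_num), sq_abs]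

lemma FF_hi (c0 c1 k2 k3 t : ℝ) (ht : √2 ≤ t) :
    phi t * (FF c0 c1 k2 k3 t + FF c0 c1 k2 k3 (-t)) ≤
      t * rexp (-t ^ 2 / 2) * P4
        (4 / 11 * (1 / 2 * (c0 - k2) ^ 2 + 2 * (c0 - k2) * k2 + (c1 - 3 * k3) ^ 2))
        (4 / 11 * (2 * k2 ^ 2 + 4 * k3 * (c1 - 3 * k3))) (4 / 11 * (4 * k3 ^ 2)) 0 0 (t ^ 2 / 2) := by
  have hs2 : (0 : ℝ) < √2 := by positivity
  have ht0 : 0 < t := lt_of_lt_of_le hs2 ht
  have ht2 : 2 ≤ t ^ 2 := by
    have := Real.sq_sqrt (show (0 : ℝ) ≤ 2 by norm_num)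
    nlinarith
  have ha := a0_pos
  have hs : 0 < 11 / 8 * a0 * t := by positivity
  have h1 : FF c0 c1 k2 k3 t ≤ 2 * (cb c0 c1 k2 k3 t) ^ 2 / (4 * (11 / 8 * a0 * t)) := by
    unfold FF
    rw [abs_of_pos ht0, ← two_sq]
    exact pos_part_sq _ hs
  have h2 : FF c0 c1 k2 k3 (-t) ≤ 2 * (cb c0 c1 k2 k3 (-t)) ^ 2 / (4 * (11 / 8 * a0 * t)) := by
    unfold FF
    rw [abs_neg, abs_of_pos ht0, ← two_sq]
    exact pos_part_sq _ hs
  have hphi := phi_pos t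
  calc phi t * (FF c0 c1 k2 k3 t + FF c0 c1 k2 k3 (-t))
      ≤ phi t * (2 * (cb c0 c1 k2 k3 t) ^ 2 / (4 * (11 / 8 * a0 * t))
        + 2 * (cb c0 c1 k2 k3 (-t)) ^ 2 / (4 * (11 / 8 * a0 * t))) :=
        mul_le_mul_of_nonneg_left (add_le_add h1 h2) hphi.le
    _ = rexp (-t ^ 2 / 2) * (4 / 11) * (((c0 - k2 + k2 * t ^ 2) ^ 2) / t
        + t * (c1 + k3 * (t ^ 2 - 3)) ^ 2) := by
        rw [phi_eq]
        unfold cb
        field_simp
        ring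
    _ ≤ rexp (-t ^ 2 / 2) * (4 / 11) * (t * (1 / 2 * (c0 - k2) ^ 2 + 2 * (c0 - k2) * k2
        + k2 ^ 2 * t ^ 2) + t * (c1 + k3 * (t ^ 2 - 3)) ^ 2) := by
        refine mul_le_mul_of_nonneg_left ?_ (by positivity)
        refine add_le_add ?_ le_rfl
        rw [div_le_iff₀ ht0]
        have : 0 ≤ (c0 - k2) ^ 2 * (t ^ 2 - 2) := mul_nonneg (sq_nonneg _) (by linarith)
        nlinarith
    _ = _ := by
        unfold P4
        ring

lemma FF_lo (c0 c1 k2 k3 t : ℝ) (ht0 : 0 < t) (ht : t ≤ √2) :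
    phi t * (FF c0 c1 k2 k3 t + FF c0 c1 k2 k3 (-t)) ≤
      a0 * (max (√2 * |c0 - k2| - 11 / 10 * a0 * gh t) 0 * gh' t) +
      t * rexp (-t ^ 2 / 2) * P4
        (300 / 11 * ((c1 - 3 * k3) ^ 2 / 15))
        (300 / 11 * ((2 * k2 ^ 2 + 4 * k3 * (c1 - 3 * k3)) / 15 - 8 * (c1 - 3 * k3) ^ 2 / 125))
        (300 / 11 * (4 * k3 ^ 2 / 15 - 8 * (2 * k2 ^ 2 + 4 * k3 * (c1 - 3 * k3)) / 125
          + 17 * (c1 - 3 * k3) ^ 2 / 500))
        (300 / 11 * (-(8 * (4 * k3 ^ 2) / 125) + 17 * (2 * k2 ^ 2 + 4 * k3 * (c1 - 3 * k3)) / 500))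
        (300 / 11 * (17 * (4 * k3 ^ 2) / 500)) (t ^ 2 / 2) := by
  have ht2 : t ^ 2 ≤ 2 := by
    have := Real.sq_sqrt (show (0 : ℝ) ≤ 2 by norm_num)
    nlinarith [Real.sqrt_nonneg 2]
  have ha := a0_pos
  set z : ℝ := t ^ 2 / 2 with hz
  have hz0 : 0 ≤ z := by positivity
  have hz1 : z ≤ 1 := by rw [hz]; linarith
  have ht2z : t ^ 2 = 2 * z := by rw [hz]; ring
  set d : ℝ := 11 / 600 * (15 + 20 * z - 6 * z ^ 2) with hd
  have hd0 : 0 < d := by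
    have : 0 < 15 + 20 * z - 6 * z ^ 2 := by nlinarith
    positivity
  -- s = s1 + s2
  have hsum : 11 / 8 * a0 * t = 11 / 10 * a0 * gh t + a0 * t * d := by
    rw [hd, hz]
    unfold gh
    ring
  have hs2 : 0 < a0 * t * d := by positivity
  have hF : ∀ r : ℝ, max (√2 * |c0 - k2 + r| - 11 / 8 * a0 * t) 0 ≤
      max (√2 * |c0 - k2| - 11 / 10 * a0 * gh t) 0 + 2 * r ^ 2 / (4 * (a0 * t * d)) := by
    intro r
    have h1 : √2 * |c0 - k2 + r| - 11 / 8 * a0 * t ≤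
        √2 * |c0 - k2| + √2 * |r| - (11 / 10 * a0 * gh t + a0 * t * d) := by
      rw [hsum]
      have := abs_add_le (c0 - k2) r
      have h2 : (0 : ℝ) ≤ √2 := Real.sqrt_nonneg 2
      nlinarith
    refine (max_le_max_right 0 h1).trans ((pos_part_split _ _ _ _).trans ?_)
    refine add_le_add le_rfl ?_
    rw [← two_sq]
    exact pos_part_sq _ hs2
  have h1 : FF c0 c1 k2 k3 t ≤ max (√2 * |c0 - k2| - 11 / 10 * a0 * gh t) 0
      + 2 * (k2 * t ^ 2 + t * (c1 + k3 * (t ^ 2 - 3))) ^ 2 / (4 * (a0 * t * d)) := by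
    have := hF (k2 * t ^ 2 + t * (c1 + k3 * (t ^ 2 - 3)))
    unfold FF
    rw [abs_of_pos ht0]
    have e : cb c0 c1 k2 k3 t = c0 - k2 + (k2 * t ^ 2 + t * (c1 + k3 * (t ^ 2 - 3))) := by
      unfold cb
      ring
    rw [e]
    exact this
  have h2 : FF c0 c1 k2 k3 (-t) ≤ max (√2 * |c0 - k2| - 11 / 10 * a0 * gh t) 0
      + 2 * (k2 * t ^ 2 - t * (c1 + k3 * (t ^ 2 - 3))) ^ 2 / (4 * (a0 * t * d)) := by
    have := hF (k2 * t ^ 2 - t * (c1 + k3 * (t ^ 2 - 3)))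
    unfold FF
    rw [abs_neg, abs_of_pos ht0]
    have e : cb c0 c1 k2 k3 (-t) = c0 - k2 + (k2 * t ^ 2 - t * (c1 + k3 * (t ^ 2 - 3))) := by
      unfold cb
      ring
    rw [e]
    exact this
  have hphi := phi_pos t
  have hexp := exp_le_gh' t
  have hexp0 := Real.exp_pos (-t ^ 2 / 2)
  set M := max (√2 * |c0 - k2| - 11 / 10 * a0 * gh t) 0 with hM
  have hM0 : 0 ≤ M := le_max_right _ _
  set R : ℝ := 2 * k2 ^ 2 * z + (c1 + k3 * (2 * z - 3)) ^ 2 with hR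
  have hR0 : 0 ≤ R := by positivity
  have hD : 1 / d ≤ 600 / 11 * (1 / 15 - 8 * z / 125 + 17 * z ^ 2 / 500) := by
    rw [div_le_iff₀ hd0, hd]
    have : 1 ≤ (1 / 15 - 8 * z / 125 + 17 * z ^ 2 / 500) * (15 + 20 * z - 6 * z ^ 2) := by
      -- polynomial inequality on [0,1]
      nlinarith [mul_nonneg hz0 (sub_nonneg.2 hz1), sq_nonneg (z - 7 / 10),
        mul_nonneg hz0 (sq_nonneg (z - 7 / 10)), mul_nonneg (sub_nonneg.2 hz1) (sq_nonneg (z - 7 / 10)),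
        mul_nonneg (mul_nonneg hz0 (sub_nonneg.2 hz1)) (sq_nonneg (z - 7 / 10))]
    nlinarith
  calc phi t * (FF c0 c1 k2 k3 t + FF c0 c1 k2 k3 (-t))
      ≤ phi t * ((M + 2 * (k2 * t ^ 2 + t * (c1 + k3 * (t ^ 2 - 3))) ^ 2 / (4 * (a0 * t * d)))
        + (M + 2 * (k2 * t ^ 2 - t * (c1 + k3 * (t ^ 2 - 3))) ^ 2 / (4 * (a0 * t * d)))) :=
        mul_le_mul_of_nonneg_left (add_le_add h1 h2) hphi.le
    _ = a0 * (M * rexp (-t ^ 2 / 2)) + t * rexp (-t ^ 2 / 2) * (1 / 2 * R * (1 / d)) := by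
        rw [phi_eq, hR, ← ht2z, show 2 * k2 ^ 2 * z = k2 ^ 2 * t ^ 2 by rw [ht2z]; ring]
        field_simp
        ring
    _ ≤ a0 * (M * gh' t) + t * rexp (-t ^ 2 / 2) *
        (1 / 2 * R * (600 / 11 * (1 / 15 - 8 * z / 125 + 17 * z ^ 2 / 500))) := by
        refine add_le_add ?_ ?_
        · exact mul_le_mul_of_nonneg_left (mul_le_mul_of_nonneg_left hexp hM0) ha.le
        · refine mul_le_mul_of_nonneg_left ?_ (by positivity)
          exact mul_le_mul_of_nonneg_left hD (by positivity)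
    _ = _ := by
        rw [hR]
        unfold P4
        ring

lemma integral_eq_Ioi {f : ℝ → ℝ} (hf : Integrable f) :
    ∫ t, f t = ∫ t in Ioi (0 : ℝ), (f t + f (-t)) := by
  have h1 : IntegrableOn (fun t => f (-t)) (Ioi 0) := (hf.comp_neg).integrableOn
  rw [integral_add hf.integrableOn h1, integral_comp_neg_Ioi 0 f, neg_zero, add_comm,
    intervalIntegral.integral_Iic_add_Ioi hf.integrableOn hf.integrableOn]

lemma continuous_cb (c0 c1 k2 k3 : ℝ) : Continuous (cb c0 c1 k2 k3) := by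
  unfold cb
  fun_prop

lemma continuous_FF (c0 c1 k2 k3 : ℝ) : Continuous (FF c0 c1 k2 k3) := by
  have := continuous_cb c0 c1 k2 k3
  unfold FF
  fun_prop

lemma integrable_cb (c0 c1 k2 k3 : ℝ) : Integrable (cb c0 c1 k2 k3) g1 := by
  have h : cb c0 c1 k2 k3 = fun t => (c0 - k2) * t ^ 0 + (c1 - 3 * k3) * t ^ 1 + k2 * t ^ 2
      + k3 * t ^ 3 := by
    funext t
    unfold cb
    ring
  rw [h]
  exact ((((integrable_pow_g1 0).const_mul _).add ((integrable_pow_g1 1).const_mul _)).add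
    ((integrable_pow_g1 2).const_mul _)).add ((integrable_pow_g1 3).const_mul _)

lemma integrable_FF (c0 c1 k2 k3 : ℝ) : Integrable (FF c0 c1 k2 k3) g1 := by
  refine ((integrable_cb c0 c1 k2 k3).abs.const_mul (√2)).mono'
    (continuous_FF c0 c1 k2 k3).aestronglyMeasurable (Eventually.of_forall fun t => ?_)
  unfold FF
  rw [Real.norm_eq_abs, abs_of_nonneg (le_max_right _ _)]
  refine max_le ?_ (by positivity)
  have := a0_pos
  have h2 : 0 ≤ 11 / 8 * a0 * |t| := by positivity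
  linarith

/-- the one-dimensional bound before the final comparison of coefficients -/
lemma slice_raw (c0 c1 k2 k3 : ℝ) : ∫ t, FF c0 c1 k2 k3 t ∂g1 ≤
    10 / 11 * (c0 - k2) ^ 2 +
    ((300 / 11 * ((c1 - 3 * k3) ^ 2 / 15)) * (1 - rexp (-1)) +
      (300 / 11 * ((2 * k2 ^ 2 + 4 * k3 * (c1 - 3 * k3)) / 15 - 8 * (c1 - 3 * k3) ^ 2 / 125)) *
        (1 - 2 * rexp (-1)) +
      (300 / 11 * (4 * k3 ^ 2 / 15 - 8 * (2 * k2 ^ 2 + 4 * k3 * (c1 - 3 * k3)) / 125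
          + 17 * (c1 - 3 * k3) ^ 2 / 500)) * (2 - 5 * rexp (-1)) +
      (300 / 11 * (-(8 * (4 * k3 ^ 2) / 125) + 17 * (2 * k2 ^ 2 + 4 * k3 * (c1 - 3 * k3)) / 500)) *
        (6 - 16 * rexp (-1)) +
      (300 / 11 * (17 * (4 * k3 ^ 2) / 500)) * (24 - 65 * rexp (-1))) +
    ((4 / 11 * (1 / 2 * (c0 - k2) ^ 2 + 2 * (c0 - k2) * k2 + (c1 - 3 * k3) ^ 2)) * rexp (-1) +
      (4 / 11 * (2 * k2 ^ 2 + 4 * k3 * (c1 - 3 * k3))) * (2 * rexp (-1)) +
      (4 / 11 * (4 * k3 ^ 2)) * (5 * rexp (-1)) + 0 * (16 * rexp (-1)) + 0 * (65 * rexp (-1))) := by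
  have hs2 : (0 : ℝ) ≤ √2 := Real.sqrt_nonneg 2
  have ha := a0_pos
  have hint : Integrable (fun t => phi t * FF c0 c1 k2 k3 t) :=
    integrable_g1_iff.1 (integrable_FF c0 c1 k2 k3)
  rw [integral_g1, integral_eq_Ioi hint]
  simp_rw [phi_even, ← mul_add]
  have hint2 : Integrable (fun t => phi t * (FF c0 c1 k2 k3 t + FF c0 c1 k2 k3 (-t))) := by
    have h2 := hint.add hint.comp_neg
    refine h2.congr (Eventually.of_forall fun t => ?_)
    simp only [Pi.add_apply, phi_even]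
    ring
  rw [← Ioc_union_Ioi_eq_Ioi hs2, setIntegral_union (by
      rw [Set.disjoint_left]
      intro x hx hx2
      exact absurd hx.2 (not_le.2 hx2)) measurableSet_Ioi hint2.integrableOn hint2.integrableOn]
  refine add_le_add ?_ ?_
  · -- the low part
    have hc1 : Continuous fun t => a0 * (max (√2 * |c0 - k2| - 11 / 10 * a0 * gh t) 0 * gh' t) := by
      unfold gh gh'
      fun_prop
    have hi1 : IntervalIntegrable
        (fun t => a0 * (max (√2 * |c0 - k2| - 11 / 10 * a0 * gh t) 0 * gh' t)) volume 0 (√2) :=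
      hc1.intervalIntegrable _ _
    have hle := setIntegral_mono_on (s := Ioc (0 : ℝ) (√2)) (μ := volume)
      (hint2.integrableOn) ((hi1.1).add ((integrable_wP4
        (300 / 11 * ((c1 - 3 * k3) ^ 2 / 15))
        (300 / 11 * ((2 * k2 ^ 2 + 4 * k3 * (c1 - 3 * k3)) / 15 - 8 * (c1 - 3 * k3) ^ 2 / 125))
        (300 / 11 * (4 * k3 ^ 2 / 15 - 8 * (2 * k2 ^ 2 + 4 * k3 * (c1 - 3 * k3)) / 125
          + 17 * (c1 - 3 * k3) ^ 2 / 500))
        (300 / 11 * (-(8 * (4 * k3 ^ 2) / 125) + 17 * (2 * k2 ^ 2 + 4 * k3 * (c1 - 3 * k3)) / 500))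
        (300 / 11 * (17 * (4 * k3 ^ 2) / 500))).integrableOn)) measurableSet_Ioc
      (fun t ht => FF_lo c0 c1 k2 k3 t ht.1 ht.2)
    refine hle.trans ?_
    rw [integral_add' hi1.1 (integrable_wP4 _ _ _ _ _).integrableOn,
      ← intervalIntegral.integral_of_le hs2, ← intervalIntegral.integral_of_le hs2, int_lo,
      intervalIntegral.integral_const_mul]
    refine add_le_add ?_ le_rfl
    have h1 := A_part (√2 * |c0 - k2|) (11 / 10 * a0) (by positivity) (by positivity)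
    rw [two_sq] at h1
    have h2 := mul_le_mul_of_nonneg_left h1 ha.le
    refine h2.trans (le_of_eq ?_)
    field_simp
  · have hle := setIntegral_mono_on (s := Ioi (√2)) (μ := volume)
      (hint2.integrableOn) ((integrable_wP4
        (4 / 11 * (1 / 2 * (c0 - k2) ^ 2 + 2 * (c0 - k2) * k2 + (c1 - 3 * k3) ^ 2))
        (4 / 11 * (2 * k2 ^ 2 + 4 * k3 * (c1 - 3 * k3))) (4 / 11 * (4 * k3 ^ 2)) 0
          0).integrableOn) measurableSet_Ioi
      (fun t ht => FF_hi c0 c1 k2 k3 t (le_of_lt ht))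
    rw [int_hi] at hle
    exact hle

lemma slice_k (c0 c1 k2 k3 : ℝ) : ∫ t, FF c0 c1 k2 k3 t ∂g1 ≤
    c0 ^ 2 + c1 ^ 2 + 2 * k2 ^ 2 + 6 * k3 ^ 2 + (-20 / 11 + 4 / 11 * rexp (-1)) * (c0 * k2) +
      (300 / 11 * (-6 / 15 * (1 - rexp (-1)) + (4 / 15 + 48 / 125) * (1 - 2 * rexp (-1))
        + (-32 / 125 - 102 / 500) * (2 - 5 * rexp (-1)) + 68 / 500 * (6 - 16 * rexp (-1)))
        + 8 / 11 * rexp (-1)) * (c1 * k3) := by
  refine (slice_raw c0 c1 k2 k3).trans ?_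
  have hE1 : rexp (-1) < 0.36788 := by
    rw [Real.exp_neg, inv_lt_comm₀ (Real.exp_pos 1) (by norm_num)]
    refine lt_trans ?_ Real.exp_one_gt_d9
    norm_num
  have hE2 : 0.3678 < rexp (-1) := by
    rw [Real.exp_neg, lt_inv_comm₀ (by norm_num) (Real.exp_pos 1)]
    refine lt_trans Real.exp_one_lt_d9 ?_
    norm_num
  set E := rexp (-1) with hE
  have h0 : 0 ≤ 1 / 11 - 2 / 11 * E := by linarith
  have h1 : 0 ≤ 1 - 300 / 11 * (1 / 15 * (1 - E) - 8 / 125 * (1 - 2 * E) + 17 / 500 * (2 - 5 * E))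
      - 4 / 11 * E := by linarith
  have h2 : 0 ≤ 2 - 10 / 11 - 300 / 11 * (2 / 15 * (1 - 2 * E) - 16 / 125 * (2 - 5 * E)
      + 34 / 500 * (6 - 16 * E)) - 4 / 11 * ((1 / 2 - 2) * E + 4 * E) := by linarith
  have h3 : 0 ≤ 6 - 300 / 11 * (9 / 15 * (1 - E) + (-12 / 15 - 72 / 125) * (1 - 2 * E)
      + (4 / 15 + 96 / 125 + 153 / 500) * (2 - 5 * E) + (-32 / 125 - 204 / 500) * (6 - 16 * E)
      + 68 / 500 * (24 - 65 * E)) - 4 / 11 * (9 * E - 24 * E + 20 * E) := by linarith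
  have g0 := mul_nonneg h0 (sq_nonneg c0)
  have g1' := mul_nonneg h1 (sq_nonneg c1)
  have g2 := mul_nonneg h2 (sq_nonneg k2)
  have g3 := mul_nonneg h3 (sq_nonneg k3)
  nlinarith [g0, g1', g2, g3]

/-- **The one-dimensional inequality.** -/
theorem slice : ∃ n02 n13 : ℝ, ∀ c0 c1 c2 c3 : ℝ,
    ∫ t, max (√2 * |cub c0 c1 c2 c3 t| - 11 / 8 * a0 * |t|) 0 ∂g1 ≤
      c0 ^ 2 + c1 ^ 2 + c2 ^ 2 + c3 ^ 2 + n02 * (c0 * c2) + n13 * (c1 * c3) := by
  refine ⟨(-20 / 11 + 4 / 11 * rexp (-1)) / √2,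
      (300 / 11 * (-6 / 15 * (1 - rexp (-1)) + (4 / 15 + 48 / 125) * (1 - 2 * rexp (-1))
        + (-32 / 125 - 102 / 500) * (2 - 5 * rexp (-1)) + 68 / 500 * (6 - 16 * rexp (-1)))
        + 8 / 11 * rexp (-1)) / √6, fun c0 c1 c2 c3 => ?_⟩
  have h := slice_k c0 c1 (c2 / √2) (c3 / √6)
  have e : ∀ t, cub c0 c1 c2 c3 t = cb c0 c1 (c2 / √2) (c3 / √6) t := by
    intro t
    unfold cub cb
    ring
  simp_rw [e]
  refine h.trans (le_of_eq ?_)
  have e2 : 2 * (c2 / √2) ^ 2 = c2 ^ 2 := by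
    rw [div_pow, Real.sq_sqrt (by norm_num)]
    ring
  have e3 : 6 * (c3 / √6) ^ 2 = c3 ^ 2 := by
    rw [div_pow, Real.sq_sqrt (by norm_num)]
    ring
  rw [e2, e3]
  ring

end Pool.Agent.KG
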