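import Pool.Agent.KG.PI
import Pool.Agent.KG.Slice

/-! One cell of the piecewise weight. -/

open MeasureTheory ProbabilityTheory Real Filter Topology Set

namespace Pool.Agent.KG

noncomputable def ee (t : ℝ) : ℝ := rexp (-t ^ 2 / 2)

lemma ee_pos (t : ℝ) : 0 < ee t := Real.exp_pos _

lemma continuous_ee : Continuous ee := by
  unfold ee
  fun_prop

lemma hasDerivAt_ee (t : ℝ) : HasDerivAt ee (-(t * ee t)) t := by
  unfold ee
  have h1 : HasDerivAt (fun t : ℝ => -t ^ 2 / 2) (-t) t := by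
    have := ((hasDerivAt_pow 2 t).neg).div_const 2
    exact this.congr_deriv (by norm_num; ring)
  exact h1.exp.congr_deriv (by ring)

lemma ee_anti {a b : ℝ} (ha : 0 ≤ a) (hab : a ≤ b) : ee b ≤ ee a := by
  unfold ee
  refine Real.exp_le_exp.2 ?_
  nlinarith

lemma ee_eq_phi (t : ℝ) : ee t = 2 / a0 * phi t := by
  have := a0_pos
  rw [phi_eq, ee]
  field_simp

lemma tendsto_ee_mul_pow (k : ℕ) : Tendsto (fun t : ℝ => ee t * t ^ k) atTop (𝓝 0) := by
  have h := (tendsto_phi_mul_pow k).const_mul (2 / a0)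
  rw [mul_zero] at h
  refine h.congr fun t => ?_
  rw [ee_eq_phi]
  ring

lemma integrable_ee_pow (k : ℕ) : Integrable (fun t : ℝ => ee t * t ^ k) := by
  refine ((integrable_phi_pow k).const_mul (2 / a0)).congr (Eventually.of_forall fun t => ?_)
  simp only
  rw [ee_eq_phi]
  ring

/-- antiderivative of `ee t * (p1 t + p3 t³ + p5 t⁵)` -/
noncomputable def AD (p1 p3 p5 t : ℝ) : ℝ :=
  -(ee t * (p1 + p3 * (t ^ 2 + 2) + p5 * (t ^ 4 + 4 * t ^ 2 + 8)))

lemma hasDerivAt_AD (p1 p3 p5 t : ℝ) :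
    HasDerivAt (AD p1 p3 p5) (ee t * (p1 * t + p3 * t ^ 3 + p5 * t ^ 5)) t := by
  unfold AD
  have h := ((hasDerivAt_ee t).mul (((((hasDerivAt_pow 2 t).add_const 2).const_mul p3).const_add
    p1).add ((((hasDerivAt_pow 4 t).add ((hasDerivAt_pow 2 t).const_mul 4)).add_const
    8).const_mul p5))).neg
  refine h.congr_deriv ?_
  simp only [Pi.add_apply]
  push_cast
  ring

lemma tendsto_AD (p1 p3 p5 : ℝ) : Tendsto (AD p1 p3 p5) atTop (𝓝 0) := by
  have h0 := (tendsto_ee_mul_pow 0).const_mul (-(p1 + 2 * p3 + 8 * p5))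
  have h2 := (tendsto_ee_mul_pow 2).const_mul (-(p3 + 4 * p5))
  have h4 := (tendsto_ee_mul_pow 4).const_mul (-p5)
  have h := (h0.add h2).add h4
  simp only [mul_zero, add_zero] at h
  refine h.congr fun t => ?_
  unfold AD
  ring

lemma integrable_odd (p1 p3 p5 : ℝ) :
    Integrable (fun t : ℝ => ee t * (p1 * t + p3 * t ^ 3 + p5 * t ^ 5)) := by
  have h1 := (integrable_ee_pow 1).const_mul p1
  have h3 := (integrable_ee_pow 3).const_mul p3
  have h5 := (integrable_ee_pow 5).const_mul p5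
  refine ((h1.add h3).add h5).congr (Eventually.of_forall fun t => ?_)
  simp only [Pi.add_apply]
  ring

lemma int_tail (p1 p3 p5 a : ℝ) :
    ∫ t in Ioi a, ee t * (p1 * t + p3 * t ^ 3 + p5 * t ^ 5) =
      ee a * (p1 + p3 * (a ^ 2 + 2) + p5 * (a ^ 4 + 4 * a ^ 2 + 8)) := by
  rw [integral_Ioi_of_hasDerivAt_of_tendsto' (fun t _ => hasDerivAt_AD p1 p3 p5 t)
    (integrable_odd p1 p3 p5).integrableOn (tendsto_AD p1 p3 p5)]
  unfold AD
  ring

lemma int_cell (p1 p3 p5 : ℝ) {a b : ℝ} (hab : a ≤ b) :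
    ∫ t in Ioc a b, ee t * (p1 * t + p3 * t ^ 3 + p5 * t ^ 5) =
      p1 * (ee a - ee b) + p3 * ((a ^ 2 + 2) * ee a - (b ^ 2 + 2) * ee b) +
      p5 * ((a ^ 4 + 4 * a ^ 2 + 8) * ee a - (b ^ 4 + 4 * b ^ 2 + 8) * ee b) := by
  rw [← intervalIntegral.integral_of_le hab,
    intervalIntegral.integral_eq_sub_of_hasDerivAt (fun t _ => hasDerivAt_AD p1 p3 p5 t)
    (integrable_odd p1 p3 p5).intervalIntegrable]
  unfold AD
  ring

/-- the part of a cell which is calibrated by the Gaussian integral -/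
lemma theta_part {a b θ x m T T' Γ M : ℝ} (ha : 0 ≤ a) (hab : a < b) (hθ : 0 ≤ θ) (hm : 0 < m)
    (hTa : T ≤ 2 * m * x * a) (hTb : T + θ * ee a * (b - a) ≤ 2 * m * x * b)
    (hT' : T + θ * Γ ≤ T') (hΓ : ∫ t in Ioc a b, ee t ≤ Γ) :
    ∫ t in Ioc a b, a0 * θ * (ee t * max (M - a0 * x * t) 0) ≤
      m * ((max (M - a0 / (2 * m) * T) 0) ^ 2 - (max (M - a0 / (2 * m) * T') 0) ^ 2) := by
  have ha0 := a0_pos
  set c := a0 / (2 * m) with hc
  have hc0 : 0 < c := by positivity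
  have hcm : 2 * m * c = a0 := by rw [hc]; field_simp
  set Tt : ℝ → ℝ := fun t => T + θ * ∫ s in a..t, ee s with hTt
  have hTd : ∀ t, HasDerivAt Tt (θ * ee t) t := by
    intro t
    have h := intervalIntegral.integral_hasDerivAt_right
      (continuous_ee.intervalIntegrable (μ := volume) a t)
      (continuous_ee.stronglyMeasurableAtFilter _ _) continuous_ee.continuousAt
    exact (h.const_mul θ).const_add T
  have hTc : Continuous Tt := continuous_iff_continuousAt.2 fun t => (hTd t).continuousAt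
  have hd : ∀ t, HasDerivAt (fun t => -(m * (max (M - c * Tt t) 0) ^ 2))
      (a0 * θ * (ee t * max (M - c * Tt t) 0)) t := by
    intro t
    have h1 : HasDerivAt (fun t => M - c * Tt t) (-(c * (θ * ee t))) t :=
      ((hTd t).const_mul c).const_sub M
    have h2 := (hasDerivAt_max_sq (M - c * Tt t)).comp t h1
    have h3 := (h2.const_mul m).neg
    refine h3.congr_deriv ?_
    rw [← hcm]
    ring
  have hcont : Continuous fun t => a0 * θ * (ee t * max (M - c * Tt t) 0) := by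
    have := continuous_ee
    fun_prop
  have hcont2 : Continuous fun t => a0 * θ * (ee t * max (M - a0 * x * t) 0) := by
    have := continuous_ee
    fun_prop
  have hle : ∀ t ∈ Ioc a b, Tt t ≤ 2 * m * x * t := by
    intro t ht
    have h1 : ∫ s in a..t, ee s ≤ ee a * (t - a) := by
      have h2 : ∫ s in a..t, ee s ≤ ∫ _ in a..t, ee a := by
        refine intervalIntegral.integral_mono_on ht.1.le
          (continuous_ee.intervalIntegrable _ _) (by simp) ?_
        intro s hs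
        exact ee_anti ha hs.1
      rw [intervalIntegral.integral_const, smul_eq_mul, mul_comm] at h2
      exact h2
    have h2 : Tt t ≤ T + θ * ee a * (t - a) := by
      have := mul_le_mul_of_nonneg_left h1 hθ
      simp only [hTt]
      linarith
    refine h2.trans ?_
    -- linear interpolation
    have h3 : 0 < b - a := sub_pos.2 hab
    have h4 : 0 ≤ t - a := by linarith [ht.1]
    have h5 : 0 ≤ b - t := by linarith [ht.2]
    have e : (b - a) * (2 * m * x * t - (T + θ * ee a * (t - a))) =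
        (b - t) * (2 * m * x * a - T) + (t - a) * (2 * m * x * b - (T + θ * ee a * (b - a))) := by
      ring
    have h6 : 0 ≤ (b - a) * (2 * m * x * t - (T + θ * ee a * (t - a))) := by
      rw [e]
      exact add_nonneg (mul_nonneg h5 (sub_nonneg.2 hTa)) (mul_nonneg h4 (sub_nonneg.2 hTb))
    have h7 := nonneg_of_mul_nonneg_right h6 h3
    linarith
  have step1 : ∫ t in Ioc a b, a0 * θ * (ee t * max (M - a0 * x * t) 0) ≤
      ∫ t in Ioc a b, a0 * θ * (ee t * max (M - c * Tt t) 0) := by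
    refine setIntegral_mono_on ?_ ?_ measurableSet_Ioc ?_
    · exact (hcont2.integrableOn_Icc (a := a) (b := b)).mono_set Ioc_subset_Icc_self
    · exact (hcont.integrableOn_Icc (a := a) (b := b)).mono_set Ioc_subset_Icc_self
    · intro t ht
      refine mul_le_mul_of_nonneg_left ?_ (by positivity)
      refine mul_le_mul_of_nonneg_left ?_ (ee_pos t).le
      refine max_le_max_right 0 ?_
      have h8 := mul_le_mul_of_nonneg_left (hle t ht) hc0.le
      have h9 : c * (2 * m * x * t) = a0 * x * t := by rw [← hcm]; ring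
      linarith
  refine step1.trans ?_
  rw [← intervalIntegral.integral_of_le hab.le,
    intervalIntegral.integral_eq_sub_of_hasDerivAt (fun t _ => hd t)
    (hcont.intervalIntegrable _ _)]
  have hTa' : Tt a = T := by simp [hTt]
  have hTb' : Tt b ≤ T' := by
    simp only [hTt]
    rw [intervalIntegral.integral_of_le hab.le]
    have := mul_le_mul_of_nonneg_left hΓ hθ
    linarith
  rw [hTa']
  have h10 : (max (M - c * T') 0) ^ 2 ≤ (max (M - c * Tt b) 0) ^ 2 := by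
    refine pow_le_pow_left₀ (le_max_right _ _) ?_ 2
    refine max_le_max_right 0 ?_
    have := mul_le_mul_of_nonneg_left hTb' hc0.le
    linarith
  have := mul_le_mul_of_nonneg_left h10 hm.le
  linarith

/-- the integrand on the half line for the weight `w` -/
noncomputable def cellF (w A B C D t : ℝ) : ℝ :=
  a0 * (ee t * (max (|A + B * t ^ 2 + (C * t + D * t ^ 3)| - a0 * w * t) 0 +
    max (|A + B * t ^ 2 - (C * t + D * t ^ 3)| - a0 * w * t) 0))

lemma continuous_cellF (w A B C D : ℝ) : Continuous (cellF w A B C D) := by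
  have := continuous_ee
  unfold cellF
  fun_prop

lemma cellF_le {ν κ z γ x1 x3 t : ℝ} (A B C D : ℝ) (ht : 0 < t) (hν : 0 < ν) (hκ : 0 < κ)
    (hγ : 0 < γ) (hγν : γ ≤ ν / 2) (hθ : 0 ≤ 1 - z / (2 * κ))
    (h1 : (1 - z / (2 * κ)) * x1 ≤ ν * (1 - 1 / (4 * κ)) - γ)
    (h3 : (1 - z / (2 * κ)) * (x1 + x3) ≤ 2 * ν * (1 - 1 / (2 * κ))) :
    cellF ν A B C D t ≤ z ^ 2 / (4 * κ * ν) * A ^ 2 * (ee t / t) +
      a0 * (1 - z / (2 * κ)) * (ee t * max (|A| - a0 * x1 * t) 0) +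
      a0 * (1 - z / (2 * κ)) * (ee t * max (|A| - a0 * x3 * t) 0) +
      ee t * ((z / ν * (A * B) + C ^ 2 / (4 * γ)) * t +
        (κ / ν * B ^ 2 + 2 * (C * D) / (4 * γ)) * t ^ 3 + D ^ 2 / (4 * γ) * t ^ 5) := by
  have ha0 := a0_pos
  have h := pointwise (s := a0 * ν * t) (g := a0 * γ * t) (κ := κ) (z := z) (σ1 := a0 * x1 * t)
    (σ3 := a0 * x3 * t) (A := A) (r := B * t ^ 2) (O := C * t + D * t ^ 3) (by positivity)
    (by positivity) (by nlinarith [mul_pos ha0 ht]) hκ hθ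
    (by nlinarith [mul_pos ha0 ht]) (by nlinarith [mul_pos ha0 ht])
  have h4 := mul_le_mul_of_nonneg_left h (mul_pos ha0 (ee_pos t)).le
  have e1 : cellF ν A B C D t = a0 * ee t * (max (|A + B * t ^ 2 + (C * t + D * t ^ 3)|
      - a0 * ν * t) 0 + max (|A + B * t ^ 2 - (C * t + D * t ^ 3)| - a0 * ν * t) 0) := by
    unfold cellF
    ring
  rw [e1]
  refine h4.trans (le_of_eq ?_)
  field_simp
  ring

/-- **one finite cell** -/
theorem cell_fin {a b ν κ z γ x1 x3 m1 m3 T T' Γ L : ℝ} (A B C D : ℝ) (ha : 0 ≤ a) (hab : a < b)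
    (hν : 0 < ν) (hκ : 0 < κ) (hγ : 0 < γ) (hγν : γ ≤ ν / 2) (hθ : 0 ≤ 1 - z / (2 * κ))
    (h1 : (1 - z / (2 * κ)) * x1 ≤ ν * (1 - 1 / (4 * κ)) - γ)
    (h3 : (1 - z / (2 * κ)) * (x1 + x3) ≤ 2 * ν * (1 - 1 / (2 * κ)))
    (hm1 : 0 < m1) (hm3 : 0 < m3)
    (hTa1 : T ≤ 2 * m1 * x1 * a)
    (hTb1 : T + (1 - z / (2 * κ)) * ee a * (b - a) ≤ 2 * m1 * x1 * b)
    (hTa3 : T ≤ 2 * m3 * x3 * a)
    (hTb3 : T + (1 - z / (2 * κ)) * ee a * (b - a) ≤ 2 * m3 * x3 * b)
    (hT' : T + (1 - z / (2 * κ)) * Γ ≤ T') (hΓ : ∫ t in Ioc a b, ee t ≤ Γ)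
    (hL : z = 0 ∨ (0 < a ∧ ∫ t in Ioc a b, ee t / t ≤ L)) :
    ∫ t in Ioc a b, cellF ν A B C D t ≤ z ^ 2 / (4 * κ * ν) * L * A ^ 2 +
      m1 * ((max (|A| - a0 / (2 * m1) * T) 0) ^ 2 - (max (|A| - a0 / (2 * m1) * T') 0) ^ 2) +
      m3 * ((max (|A| - a0 / (2 * m3) * T) 0) ^ 2 - (max (|A| - a0 / (2 * m3) * T') 0) ^ 2) +
      ((z / ν * (A * B) + C ^ 2 / (4 * γ)) * (ee a - ee b) +
      (κ / ν * B ^ 2 + 2 * (C * D) / (4 * γ)) * ((a ^ 2 + 2) * ee a - (b ^ 2 + 2) * ee b) +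
      D ^ 2 / (4 * γ) * ((a ^ 4 + 4 * a ^ 2 + 8) * ee a - (b ^ 4 + 4 * b ^ 2 + 8) * ee b)) := by
  have hL2 : IntegrableOn (fun t => z ^ 2 / (4 * κ * ν) * A ^ 2 * (ee t / t)) (Ioc a b) ∧
      ∫ t in Ioc a b, z ^ 2 / (4 * κ * ν) * A ^ 2 * (ee t / t) ≤
        z ^ 2 / (4 * κ * ν) * L * A ^ 2 := by
    rcases hL with rfl | ⟨ha', hL⟩
    · simp
    · constructor
      · have hc : ContinuousOn (fun t => z ^ 2 / (4 * κ * ν) * A ^ 2 * (ee t / t)) (Icc a b) := by
          refine continuousOn_const.mul (continuous_ee.continuousOn.div continuousOn_id ?_)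
          intro t ht
          exact (lt_of_lt_of_le ha' ht.1).ne'
        exact (hc.integrableOn_Icc).mono_set Ioc_subset_Icc_self
      · rw [integral_const_mul]
        have : 0 ≤ z ^ 2 / (4 * κ * ν) * A ^ 2 := by positivity
        calc z ^ 2 / (4 * κ * ν) * A ^ 2 * ∫ t in Ioc a b, ee t / t
            ≤ z ^ 2 / (4 * κ * ν) * A ^ 2 * L := mul_le_mul_of_nonneg_left hL this
          _ = _ := by ring
  have hth := theta_part (M := |A|) ha hab hθ hm1 hTa1 hTb1 hT' hΓ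
  have hth3 := theta_part (M := |A|) ha hab hθ hm3 hTa3 hTb3 hT' hΓ
  have hi1 : ∀ x : ℝ, IntegrableOn (fun t => a0 * (1 - z / (2 * κ)) *
      (ee t * max (|A| - a0 * x * t) 0)) (Ioc a b) := by
    intro x
    have hc : Continuous (fun t => a0 * (1 - z / (2 * κ)) * (ee t * max (|A| - a0 * x * t) 0)) := by
      have := continuous_ee
      fun_prop
    exact (hc.integrableOn_Icc (a := a) (b := b)).mono_set Ioc_subset_Icc_self
  have hodd := (integrable_odd (z / ν * (A * B) + C ^ 2 / (4 * γ))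
    (κ / ν * B ^ 2 + 2 * (C * D) / (4 * γ)) (D ^ 2 / (4 * γ))).integrableOn (s := Ioc a b)
  have hle : ∫ t in Ioc a b, cellF ν A B C D t ≤
      ∫ t in Ioc a b, (z ^ 2 / (4 * κ * ν) * A ^ 2 * (ee t / t) +
      a0 * (1 - z / (2 * κ)) * (ee t * max (|A| - a0 * x1 * t) 0) +
      a0 * (1 - z / (2 * κ)) * (ee t * max (|A| - a0 * x3 * t) 0) +
      ee t * ((z / ν * (A * B) + C ^ 2 / (4 * γ)) * t +
        (κ / ν * B ^ 2 + 2 * (C * D) / (4 * γ)) * t ^ 3 + D ^ 2 / (4 * γ) * t ^ 5)) := by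
    refine setIntegral_mono_on ?_ ?_ measurableSet_Ioc ?_
    · exact ((continuous_cellF ν A B C D).integrableOn_Icc (a := a) (b := b)).mono_set
        Ioc_subset_Icc_self
    · exact ((hL2.1.add (hi1 x1)).add (hi1 x3)).add hodd
    · intro t ht
      exact cellF_le A B C D (lt_of_le_of_lt ha ht.1) hν hκ hγ hγν hθ h1 h3
  refine hle.trans ?_
  have i12 : IntegrableOn (fun t => z ^ 2 / (4 * κ * ν) * A ^ 2 * (ee t / t) +
      a0 * (1 - z / (2 * κ)) * (ee t * max (|A| - a0 * x1 * t) 0)) (Ioc a b) :=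
    hL2.1.add (hi1 x1)
  have i123 : IntegrableOn (fun t => z ^ 2 / (4 * κ * ν) * A ^ 2 * (ee t / t) +
      a0 * (1 - z / (2 * κ)) * (ee t * max (|A| - a0 * x1 * t) 0) +
      a0 * (1 - z / (2 * κ)) * (ee t * max (|A| - a0 * x3 * t) 0)) (Ioc a b) :=
    i12.add (hi1 x3)
  rw [integral_add i123 hodd, integral_add i12 (hi1 x3), integral_add hL2.1 (hi1 x1),
    int_cell _ _ _ hab.le]
  linarith [hL2.2]

/-- **the last cell** -/
theorem cell_last {a ν γ : ℝ} (A B C D : ℝ) (ha : 0 < a) (hν : 0 < ν) (hγ : 0 < γ)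
    (hγν : γ ≤ ν / 2) :
    IntegrableOn (cellF ν A B C D) (Ioi a) ∧
    ∫ t in Ioi a, cellF ν A B C D t ≤ 1 / (2 * ν) * (ee a / a ^ 2) * A ^ 2 +
      ((1 / ν * (A * B) + C ^ 2 / (4 * γ)) * ee a +
      (1 / (2 * ν) * B ^ 2 + 2 * (C * D) / (4 * γ)) * ((a ^ 2 + 2) * ee a) +
      D ^ 2 / (4 * γ) * ((a ^ 4 + 4 * a ^ 2 + 8) * ee a)) := by
  have ha0 := a0_pos
  set p1 := (1 / ν * (A * B) + C ^ 2 / (4 * γ)) + 1 / (2 * ν) * A ^ 2 / a ^ 2 with hp1
  set p3 := 1 / (2 * ν) * B ^ 2 + 2 * (C * D) / (4 * γ) with hp3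
  set p5 := D ^ 2 / (4 * γ) with hp5
  have hle : ∀ t ∈ Ioi a, cellF ν A B C D t ≤ ee t * (p1 * t + p3 * t ^ 3 + p5 * t ^ 5) := by
    intro t ht
    have ht' : a < t := ht
    have ht0 : 0 < t := ha.trans ht'
    have h := cellF_le (κ := 1 / 2) (z := 1) (x1 := 0) (x3 := 0) (ν := ν) (γ := γ) A B C D ht0 hν
      (by norm_num) hγ hγν (by norm_num) (by norm_num; linarith) (by norm_num)
    have e0 : (1 : ℝ) - 1 / (2 * (1 / 2)) = 0 := by norm_num
    rw [e0] at h
    have e1 : (1 : ℝ) ^ 2 / (4 * (1 / 2) * ν) * A ^ 2 * (ee t / t) ≤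
        ee t * (1 / (2 * ν) * A ^ 2 / a ^ 2 * t) := by
      have h1 : ee t / t ≤ ee t * t / a ^ 2 := by
        rw [div_le_div_iff₀ ht0 (by positivity)]
        have : a ^ 2 ≤ t * t := by nlinarith
        have := mul_le_mul_of_nonneg_left this (ee_pos t).le
        linarith
      have h2 : (0 : ℝ) ≤ 1 ^ 2 / (4 * (1 / 2) * ν) * A ^ 2 := by positivity
      refine (mul_le_mul_of_nonneg_left h1 h2).trans (le_of_eq ?_)
      field_simp
      ring
    have e2 : (1 : ℝ) / 2 / ν = 1 / (2 * ν) := by field_simp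
    rw [e2] at h
    rw [hp1, hp3, hp5]
    linarith
  have hodd := (integrable_odd p1 p3 p5).integrableOn (s := Ioi a)
  have hint : IntegrableOn (cellF ν A B C D) (Ioi a) := by
    refine hodd.mono' ((continuous_cellF ν A B C D).aestronglyMeasurable) ?_
    filter_upwards [ae_restrict_mem measurableSet_Ioi] with t ht
    rw [Real.norm_eq_abs, abs_of_nonneg]
    · exact hle t ht
    · unfold cellF
      have := ee_pos t
      positivity
  refine ⟨hint, ?_⟩
  refine (setIntegral_mono_on hint hodd measurableSet_Ioi hle).trans (le_of_eq ?_)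
  rw [int_tail, hp1, hp3, hp5]
  field_simp
  ring

end Pool.Agent.KG
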