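import Pool.Agent.KG.Defs

/-! The elements `lin a` and `herm e` of the Wiener chaos. -/

open MeasureTheory ProbabilityTheory Real

namespace Pool.Agent.KG

variable {n : ℕ}

/-- the function `f` is (square integrable and) an element of `V n k` -/
def InV (k : ℕ) (f : Ev n → ℝ) : Prop := ∃ hf : MemLp f 2 (gam n), hf.toLp f ∈ V n k

lemma InV.add {k : ℕ} {f g : Ev n → ℝ} (hf : InV k f) (hg : InV k g) :
    InV k (fun x => f x + g x) := by
  obtain ⟨hf1, hf2⟩ := hf
  obtain ⟨hg1, hg2⟩ := hg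
  refine ⟨hf1.add hg1, ?_⟩
  have h := MemLp.toLp_add hf1 hg1
  change (hf1.add hg1).toLp (f + g) ∈ V n k
  rw [h]
  exact (V n k).add_mem hf2 hg2

lemma InV.smul {k : ℕ} {f : Ev n → ℝ} (c : ℝ) (hf : InV k f) : InV k (fun x => c * f x) := by
  obtain ⟨hf1, hf2⟩ := hf
  refine ⟨hf1.const_mul c, ?_⟩
  have h := MemLp.toLp_const_smul c hf1
  change (hf1.const_smul c).toLp (c • f) ∈ V n k
  rw [h]
  exact (V n k).smul_mem c hf2

lemma InV.congr {k : ℕ} {f g : Ev n → ℝ} (hf : InV k f) (h : ∀ x, g x = f x) : InV k g := by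
  have : g = f := funext h
  rw [this]
  exact hf

lemma InV.zero {k : ℕ} : InV k (fun _ : Ev n => (0 : ℝ)) := by
  refine ⟨MemLp.zero, ?_⟩
  change (MemLp.zero : MemLp (0 : Ev n → ℝ) 2 (gam n)).toLp 0 ∈ V n k
  rw [MemLp.toLp_zero]
  exact (V n k).zero_mem

lemma InV.sum {k : ℕ} {ι : Type*} (s : Finset ι) {f : ι → Ev n → ℝ} (h : ∀ i ∈ s, InV k (f i)) :
    InV k (fun x => ∑ i ∈ s, f i x) := by
  classical
  induction s using Finset.induction_on with
  | empty => simpa using InV.zero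
  | insert a s ha ih =>
    have h1 := (h a (Finset.mem_insert_self a s)).add (ih fun i hi => h i
      (Finset.mem_insert_of_mem hi))
    exact h1.congr fun x => Finset.sum_insert ha

lemma InV.mono {k : ℕ} (m : Fin k → Option (Fin n)) : InV k (mono m : Ev n → ℝ) :=
  ⟨memLp_mono m, Submodule.subset_span ⟨m, rfl⟩⟩

lemma inner_eq_sum (a x : Ev n) : (inner ℝ a x : ℝ) = ∑ i, a i * x i := by
  rw [PiLp.inner_apply]
  exact Finset.sum_congr rfl fun i _ => by simp [mul_comm]

theorem lin_mem (a : Ev n) : lin a ∈ V n 2 := by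
  have h : InV 2 (fun x : Ev n => (inner ℝ a x : ℝ)) := by
    have h1 : InV 2 (fun x : Ev n => ∑ i ∈ Finset.univ, a i *
        Pool.Agent.KG.mono (![some i, none] : Fin 2 → Option (Fin n)) x) :=
      InV.sum _ fun i _ => (InV.mono _).smul _
    refine h1.congr fun x => ?_
    rw [inner_eq_sum]
    refine Finset.sum_congr rfl fun i _ => ?_
    simp [Pool.Agent.KG.mono, coord, Fin.prod_univ_two]
  obtain ⟨_, h2⟩ := h
  exact h2

theorem herm_mem_V (e : Ev n) : herm e ∈ V n 3 := by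
  have h : InV 3 (fun x : Ev n => h3 (inner ℝ e x)) := by
    have h1 : InV 3 (fun x : Ev n => ∑ i ∈ Finset.univ, ∑ j ∈ Finset.univ, ∑ k ∈ Finset.univ,
        (e i * e j * e k) *
        Pool.Agent.KG.mono (![some i, some j, some k] : Fin 3 → Option (Fin n)) x) :=
      InV.sum _ fun i _ => InV.sum _ fun j _ => InV.sum _ fun k _ => (InV.mono _).smul _
    have h2 : InV 3 (fun x : Ev n => ∑ i ∈ Finset.univ, (-3 * e i) *
        Pool.Agent.KG.mono (![some i, none, none] : Fin 3 → Option (Fin n)) x) :=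
      InV.sum _ fun i _ => (InV.mono _).smul _
    refine ((h1.add h2).smul (1 / √6)).congr fun x => ?_
    have e1 : ∑ i, ∑ j, ∑ k, (e i * e j * e k) *
        Pool.Agent.KG.mono (![some i, some j, some k] : Fin 3 → Option (Fin n)) x =
        (inner ℝ e x) ^ 3 := by
      have e2 : (inner ℝ e x : ℝ) ^ 3 = (∑ i, e i * x i) * ((∑ j, e j * x j) *
        (∑ k, e k * x k)) := by
        rw [inner_eq_sum]; ring
      rw [e2, Finset.sum_mul]
      refine Finset.sum_congr rfl fun i _ => ?_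
      rw [Finset.sum_mul, Finset.mul_sum]
      refine Finset.sum_congr rfl fun j _ => ?_
      rw [Finset.mul_sum, Finset.mul_sum]
      refine Finset.sum_congr rfl fun k _ => ?_
      simp [Pool.Agent.KG.mono, coord, Fin.prod_univ_three]
      ring
    have e3 : ∑ i, (-3 * e i) *
        Pool.Agent.KG.mono (![some i, none, none] : Fin 3 → Option (Fin n)) x =
        -3 * inner ℝ e x := by
      rw [inner_eq_sum, Finset.mul_sum]
      refine Finset.sum_congr rfl fun i _ => ?_
      simp [Pool.Agent.KG.mono, coord, Fin.prod_univ_three]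
      ring
    rw [e1, e3]
    unfold h3
    ring
  obtain ⟨_, h2⟩ := h
  exact h2

lemma map_neg_gam : (gam n).map (fun x => -x) = gam n :=
  stdGaussian_map (LinearIsometryEquiv.neg ℝ)

lemma integral_neg_gam (f : Ev n → ℝ) : ∫ x, f (-x) ∂(gam n) = ∫ x, f x ∂(gam n) := by
  have h : MeasurableEmbedding (fun x : Ev n => -x) := (MeasurableEquiv.neg (Ev n)).measurableEmbedding
  conv_rhs => rw [← map_neg_gam (n := n)]
  rw [h.integral_map]

lemma integral_odd (f : Ev n → ℝ) (h : ∀ x, f (-x) = -f x) : ∫ x, f x ∂(gam n) = 0 := by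
  have h1 := integral_neg_gam f
  simp_rw [h] at h1
  rw [integral_neg] at h1
  linarith

lemma integral_inner_mul (e a : Ev n) :
    ∫ x, (inner ℝ e x : ℝ) * inner ℝ a x ∂(gam n) = inner ℝ e a := by
  have h : ∀ x : Ev n, (inner ℝ e x : ℝ) * inner ℝ a x =
      (1 / 4) * (inner ℝ (e + a) x) ^ 2 - (1 / 4) * (inner ℝ (e - a) x) ^ 2 := by
    intro x
    rw [inner_add_left, inner_sub_left]
    ring
  simp_rw [h]
  rw [integral_sub ((integrable_inner_pow _ 2).const_mul _)
    ((integrable_inner_pow _ 2).const_mul _), integral_const_mul, integral_const_mul,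
    integral_inner_pow, integral_inner_pow, moment_two, norm_add_sq_real, norm_sub_sq_real]
  ring

lemma integral_inner_cube_mul (e a : Ev n) :
    ∫ x, (inner ℝ e x : ℝ) ^ 3 * inner ℝ a x ∂(gam n) = 3 * ‖e‖ ^ 2 * inner ℝ e a := by
  have h : ∀ x : Ev n, (inner ℝ e x : ℝ) ^ 3 * inner ℝ a x =
      (((1 / 6) * (inner ℝ (e + a) x) ^ 4 - (1 / 6) * (inner ℝ (e - a) x) ^ 4)
        - (1 / 48) * (inner ℝ (e + (2 : ℝ) • a) x) ^ 4)
        + (1 / 48) * (inner ℝ (e - (2 : ℝ) • a) x) ^ 4 := by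
    intro x
    rw [inner_add_left, inner_sub_left, inner_add_left, inner_sub_left, inner_smul_left]
    simp only [conj_trivial]
    ring
  simp_rw [h]
  have i1 := (integrable_inner_pow (e + a) 4).const_mul (1 / 6)
  have i2 := (integrable_inner_pow (e - a) 4).const_mul (1 / 6)
  have i3 := (integrable_inner_pow (e + (2 : ℝ) • a) 4).const_mul (1 / 48)
  have i4 := (integrable_inner_pow (e - (2 : ℝ) • a) 4).const_mul (1 / 48)
  have i12 : Integrable (fun x => (1 / 6) * (inner ℝ (e + a) x) ^ 4 -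
      (1 / 6) * (inner ℝ (e - a) x) ^ 4) (gam n) := i1.sub i2
  have i123 : Integrable (fun x => ((1 / 6) * (inner ℝ (e + a) x) ^ 4 -
      (1 / 6) * (inner ℝ (e - a) x) ^ 4) - (1 / 48) * (inner ℝ (e + (2 : ℝ) • a) x) ^ 4)
      (gam n) := i12.sub i3
  rw [integral_add i123 i4, integral_sub i12 i3, integral_sub i1 i2]
  simp only [integral_const_mul, integral_inner_pow, moment_four]
  have n1 : ‖e + a‖ ^ 4 = (‖e‖ ^ 2 + 2 * inner ℝ e a + ‖a‖ ^ 2) ^ 2 := by
    rw [← norm_add_sq_real]; ring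
  have n2 : ‖e - a‖ ^ 4 = (‖e‖ ^ 2 - 2 * inner ℝ e a + ‖a‖ ^ 2) ^ 2 := by
    rw [← norm_sub_sq_real]; ring
  have ns : ‖(2 : ℝ) • a‖ ^ 2 = 4 * ‖a‖ ^ 2 := by
    rw [norm_smul]; norm_num; ring
  have n3 : ‖e + (2 : ℝ) • a‖ ^ 4 = (‖e‖ ^ 2 + 4 * inner ℝ e a + 4 * ‖a‖ ^ 2) ^ 2 := by
    have := norm_add_sq_real e ((2 : ℝ) • a)
    rw [inner_smul_right, ns] at this
    have h4 : ‖e + (2 : ℝ) • a‖ ^ 4 = (‖e + (2 : ℝ) • a‖ ^ 2) ^ 2 := by ring
    rw [h4, this]; ring
  have n4 : ‖e - (2 : ℝ) • a‖ ^ 4 = (‖e‖ ^ 2 - 4 * inner ℝ e a + 4 * ‖a‖ ^ 2) ^ 2 := by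
    have := norm_sub_sq_real e ((2 : ℝ) • a)
    rw [inner_smul_right, ns] at this
    have h4 : ‖e - (2 : ℝ) • a‖ ^ 4 = (‖e - (2 : ℝ) • a‖ ^ 2) ^ 2 := by ring
    rw [h4, this]; ring
  rw [n1, n2, n3, n4]
  ring

lemma integrable_inner_cube_mul (e a : Ev n) :
    Integrable (fun x => (inner ℝ e x : ℝ) ^ 3 * inner ℝ a x) (gam n) := by
  have h : ∀ x : Ev n, (inner ℝ e x : ℝ) ^ 3 * inner ℝ a x =
      (((1 / 6) * (inner ℝ (e + a) x) ^ 4 - (1 / 6) * (inner ℝ (e - a) x) ^ 4)
        - (1 / 48) * (inner ℝ (e + (2 : ℝ) • a) x) ^ 4)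
        + (1 / 48) * (inner ℝ (e - (2 : ℝ) • a) x) ^ 4 := by
    intro x
    rw [inner_add_left, inner_sub_left, inner_add_left, inner_sub_left, inner_smul_left]
    simp only [conj_trivial]
    ring
  simp_rw [h]
  exact ((((integrable_inner_pow (e + a) 4).const_mul (1 / 6)).sub
    ((integrable_inner_pow (e - a) 4).const_mul (1 / 6))).sub
    ((integrable_inner_pow (e + (2 : ℝ) • a) 4).const_mul (1 / 48))).add
    ((integrable_inner_pow (e - (2 : ℝ) • a) 4).const_mul (1 / 48))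

lemma integrable_inner_mul (e a : Ev n) :
    Integrable (fun x => (inner ℝ e x : ℝ) * inner ℝ a x) (gam n) := by
  have h : ∀ x : Ev n, (inner ℝ e x : ℝ) * inner ℝ a x =
      (1 / 4) * (inner ℝ (e + a) x) ^ 2 - (1 / 4) * (inner ℝ (e - a) x) ^ 2 := by
    intro x
    rw [inner_add_left, inner_sub_left]
    ring
  simp_rw [h]
  exact ((integrable_inner_pow _ 2).const_mul _).sub ((integrable_inner_pow _ 2).const_mul _)

lemma integral_h3_mul (e a : Ev n) (he : ‖e‖ = 1) :
    ∫ x, h3 (inner ℝ e x) * inner ℝ a x ∂(gam n) = 0 := by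
  have h : ∀ x : Ev n, h3 (inner ℝ e x) * inner ℝ a x =
      (1 / √6) * ((inner ℝ e x : ℝ) ^ 3 * inner ℝ a x) -
        (3 / √6) * ((inner ℝ e x : ℝ) * inner ℝ a x) := by
    intro x
    unfold h3
    ring
  simp_rw [h]
  rw [integral_sub ((integrable_inner_cube_mul e a).const_mul _)
    ((integrable_inner_mul e a).const_mul _), integral_const_mul, integral_const_mul,
    integral_inner_cube_mul, integral_inner_mul, he]
  ring

lemma h3_neg (t : ℝ) : h3 (-t) = -h3 t := by
  unfold h3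
  ring

theorem integral_mono_mul_h3 (e : Ev n) (he : ‖e‖ = 1) (m : Fin 2 → Option (Fin n)) :
    ∫ x, h3 (inner ℝ e x) * Pool.Agent.KG.mono m x ∂(gam n) = 0 := by
  have hm : ∀ x : Ev n, Pool.Agent.KG.mono m x = coord (m 0) x * coord (m 1) x := by
    intro x
    simp [Pool.Agent.KG.mono, Fin.prod_univ_two]
  simp_rw [hm]
  rcases h0 : m 0 with _ | i <;> rcases h1 : m 1 with _ | j
  · refine integral_odd _ fun x => ?_
    simp [coord, inner_neg_right, h3_neg]
  · have h2 := integral_h3_mul e (EuclideanSpace.single j (1 : ℝ)) he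
    simpa [coord, EuclideanSpace.inner_single_left] using h2
  · have h2 := integral_h3_mul e (EuclideanSpace.single i (1 : ℝ)) he
    simpa [coord, EuclideanSpace.inner_single_left] using h2
  · refine integral_odd _ fun x => ?_
    simp [coord, inner_neg_right, h3_neg]

theorem herm_mem (e : Ev n) (he : ‖e‖ = 1) : herm e ∈ H3 n := by
  refine Submodule.mem_inf.2 ⟨herm_mem_V e, ?_⟩
  rw [Submodule.mem_orthogonal]
  intro u hu
  refine Submodule.span_induction (p := fun u _ => (inner ℝ u (herm e) : ℝ) = 0) ?_ ?_ ?_ ?_ hu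
  · rintro _ ⟨m, rfl⟩
    rw [L2.inner_def]
    rw [← integral_mono_mul_h3 e he m]
    refine integral_congr_ae ?_
    filter_upwards [(memLp_mono m).coeFn_toLp, (memLp_herm e).coeFn_toLp] with x hx1 hx2
    unfold herm
    rw [hx1, hx2]
    simp
  · simp
  · intro x y _ _ hx hy
    rw [inner_add_left, hx, hy, add_zero]
  · intro c x _ hx
    rw [inner_smul_left, hx, mul_zero]

theorem norm_herm (e : Ev n) (he : ‖e‖ = 1) : ‖herm e‖ = 1 := by
  have h1 : ‖herm e‖ ^ 2 = 1 := by
    rw [← real_inner_self_eq_norm_sq, L2.inner_def]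
    have h2 : ∫ x, (inner ℝ ((herm e : L2 n) x) ((herm e : L2 n) x) : ℝ) ∂(gam n) =
        ∫ x, (h3 (inner ℝ e x)) ^ 2 ∂(gam n) := by
      refine integral_congr_ae ?_
      filter_upwards [(memLp_herm e).coeFn_toLp] with x hx
      unfold herm
      rw [hx]
      simp [sq]
    rw [h2]
    have h3' : ∀ x : Ev n, (h3 (inner ℝ e x)) ^ 2 =
        ((1 / 6) * (inner ℝ e x) ^ 6 - (inner ℝ e x) ^ 4) + (3 / 2) * (inner ℝ e x) ^ 2 := by
      intro x
      unfold h3
      rw [div_pow, Real.sq_sqrt (by norm_num)]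
      ring
    simp_rw [h3']
    have j1 : Integrable (fun x => (1 / 6) * (inner ℝ e x) ^ 6 - (inner ℝ e x) ^ 4) (gam n) :=
      ((integrable_inner_pow e 6).const_mul _).sub (integrable_inner_pow e 4)
    rw [integral_add j1 ((integrable_inner_pow e 2).const_mul _), integral_sub
      ((integrable_inner_pow e 6).const_mul _) (integrable_inner_pow e 4), integral_const_mul,
      integral_const_mul, integral_inner_pow, integral_inner_pow, integral_inner_pow, moment_six,
      moment_four, moment_two, he]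
    norm_num
  have h2 := norm_nonneg (herm e)
  nlinarith [h1, h2]

end Pool.Agent.KG
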