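import Mathlib

/-! The real Grothendieck constant: definitions. -/

namespace Pool.Agent.KG

/-- the supremum of `|∑ a_ij p_i q_j|` over scalars in the unit ball -/
noncomputable def beta {m n : ℕ} (A : Matrix (Fin m) (Fin n) ℝ) : ℝ :=
  sSup {r : ℝ | ∃ (p : Fin m → ℝ) (q : Fin n → ℝ), (∀ i, |p i| ≤ 1) ∧ (∀ j, |q j| ≤ 1) ∧
    r = |∑ i, ∑ j, A i j * p i * q j|}

/-- `K` is a constant for which Grothendieck's inequality holds -/
def IsGrothendieckBound (K : ℝ) : Prop :=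
  ∀ (m n : ℕ) (A : Matrix (Fin m) (Fin n) ℝ) (H : Type) [NormedAddCommGroup H]
    [InnerProductSpace ℝ H] [CompleteSpace H] (u : Fin m → H) (v : Fin n → H),
    (∀ i, ‖u i‖ ≤ 1) → (∀ j, ‖v j‖ ≤ 1) →
    |∑ i, ∑ j, A i j * (inner ℝ (u i) (v j) : ℝ)| ≤ K * beta A

/-- the real Grothendieck constant -/
noncomputable def KG : ℝ := sInf {K : ℝ | 0 < K ∧ IsGrothendieckBound K}

end Pool.Agent.KG
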