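import Pool.Agent.KG.L2
import Pool.Agent.KG.Cub
import Pool.Agent.KG.GDefs

/-! Definitions for the lower bound of the real Grothendieck constant (`beta`,
`IsGrothendieckBound` and `KG` are in `GDefs.lean`). -/

open MeasureTheory ProbabilityTheory Real

namespace Pool.Agent.KG

/-- the barycentre `E[f(x) x]` -/
noncomputable def bar {n : ℕ} (f : L2 n) : Ev n := ∫ x, f x • x ∂(gam n)

/-- the bilinear form `⟨f,P₁g⟩ - ε ⟨f,P₃g⟩` -/
noncomputable def B {n : ℕ} (ε : ℝ) (f g : L2 n) : ℝ :=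
  inner ℝ (bar f) (bar g) - ε * inner ℝ (P3 n f) (P3 n g)

end Pool.Agent.KG
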