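import Pool.Agent.KG.Weights
import Pool.Agent.KG.Data58

/-! The bound for the form at `ε = 5/8`, given a bound for the third chaos of bounded functions. -/

open MeasureTheory ProbabilityTheory Real

namespace Pool.Agent.KG

/-- the weights of the certificates -/
lemma sliceOK_of {ν : ℝ → ℝ} (hm : Measurable ν) (h0 : ∀ t, 0 ≤ ν t)
    (h : ∃ n02 n13 : ℝ, ∀ c0 c1 c2 c3 : ℝ,
      ∫ t, max (2 * |cub c0 c1 c2 c3 t| - 2 * a0 * ν |t| * |t|) 0 ∂g1 ≤
        c0 ^ 2 + c1 ^ 2 + c2 ^ 2 + c3 ^ 2 + n02 * (c0 * c2) + n13 * (c1 * c3)) :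
    SliceOK (fun t => 2 * a0 * ν |t| * |t|) := by
  have ha := a0_pos
  refine ⟨((hm.comp measurable_norm).const_mul _).mul measurable_norm, fun t => ?_, h⟩
  exact mul_nonneg (mul_nonneg (by positivity) (h0 _)) (abs_nonneg _)

lemma caseB_data {ε l q : ℝ} (hε : 0 < ε) {ν : ℝ → ℝ} (hm : Measurable ν) (h0 : ∀ t, 0 ≤ ν t)
    (hI : ∫ t, a0 * max l (2 * ε * ν |t|) * |t| ∂g1 ≤ a0 ^ 2 * q)
    (hi : Integrable (fun t => a0 * max l (2 * ε * ν |t|) * |t|) g1) :
    Integrable (fun t => 2 * a0 * ν |t| * |t|) g1 ∧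
      ∫ t, max (l * a0 * |t|) (ε * (2 * a0 * ν |t| * |t|)) ∂g1 ≤ q * a0 ^ 2 := by
  have ha := a0_pos
  have e1 : ∀ t : ℝ, max (l * a0 * |t|) (ε * (2 * a0 * ν |t| * |t|)) =
      a0 * max l (2 * ε * ν |t|) * |t| := by
    intro t
    rw [mul_max_of_nonneg _ _ ha.le, max_mul_of_nonneg _ _ (abs_nonneg t)]
    congr 1 <;> ring
  constructor
  · have hmeas : Measurable (fun t : ℝ => 2 * a0 * ν |t| * |t|) :=
      ((hm.comp measurable_norm).const_mul _).mul measurable_norm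
    refine (hi.const_mul (1 / ε)).mono' hmeas.aestronglyMeasurable
      (Filter.Eventually.of_forall fun t => ?_)
    have hnn : 0 ≤ 2 * a0 * ν |t| * |t| :=
      mul_nonneg (mul_nonneg (by positivity) (h0 _)) (abs_nonneg _)
    rw [Real.norm_eq_abs, abs_of_nonneg hnn, ← e1 t]
    have h2 := le_max_right (l * a0 * |t|) (ε * (2 * a0 * ν |t| * |t|))
    rw [one_div, ← div_eq_inv_mul, le_div_iff₀ hε]
    linarith
  · simp_rw [e1]
    linarith

theorem B_le_five_eighths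
    (hM : ∀ (n : ℕ) (v : L2 n), (∀ᵐ x ∂(gam n), |v x| ≤ 1) → ‖P3 n v‖ ^ 2 ≤ 4 / 5)
    (n : ℕ) (hn : 0 < n) (f g : L2 n) (hf : ∀ᵐ x ∂(gam n), |f x| ≤ 1)
    (hg : ∀ᵐ x ∂(gam n), |g x| ≤ 1) : B (5 / 8) f g ≤ (1 - 5 / 8 / 6) * a0 ^ 2 := by
  have ha := a0_pos
  refine B_le_of_weights (5 / 8) (7 / 25) (1661 / 5000) (4 / 5) (by norm_num) (by norm_num)
    (by norm_num) (by norm_num) (by norm_num) hM ?_ ?_ ?_ n hn f g hf hg
  · -- case C
    have hpi := Real.pi_pos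
    have hpi4 := Real.pi_lt_d4
    rw [a0_sq]
    have e : (1 - 5 / 8 / 6) * (2 / π) - ((1661 / 5000) ^ 2 * (2 / π) + 5 / 8 * (4 / 5)) =
        (2 * (43 / 48 - (1661 / 5000) ^ 2) - π / 2) / π := by
      field_simp
      ring
    have h : 0 ≤ (2 * (43 / 48 - (1661 / 5000) ^ 2) - π / 2) / π := by
      apply div_nonneg _ hpi.le
      norm_num
      linarith
    linarith
  · -- case A
    obtain ⟨ν, hm, h0, hle, hs⟩ := weightA
    refine ⟨_, sliceOK_of hm h0 hs, fun t => ?_⟩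
    have h1 := hle |t| (abs_nonneg t)
    have h2 := mul_le_mul_of_nonneg_left h1 (mul_nonneg ha.le (abs_nonneg t))
    nlinarith
  · intro a h1 h2
    rcases le_total a (2 / 5) with h3 | h3
    · obtain ⟨ν, hm, h0, hI, hi, hs⟩ := weightB1
      rw [show (5 : ℝ) / 4 = 2 * (5 / 8) by norm_num] at hI hi
      have hd := caseB_data (by norm_num) hm h0 hI hi
      exact ⟨8681 / 10000, 53573 / 50000, 1661 / 5000, 2 / 5, _, by norm_num,
        sliceOK_of hm h0 hs, hd.1, hd.2, by norm_num, by norm_num, h1, h3⟩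
    rcases le_total a (3 / 5) with h4 | h4
    · obtain ⟨ν, hm, h0, hI, hi, hs⟩ := weightB2
      rw [show (5 : ℝ) / 4 = 2 * (5 / 8) by norm_num] at hI hi
      have hd := caseB_data (by norm_num) hm h0 hI hi
      exact ⟨10001 / 10000, 112697 / 100000, 2 / 5, 3 / 5, _, by norm_num,
        sliceOK_of hm h0 hs, hd.1, hd.2, by norm_num, by norm_num, h3, h4⟩
    · obtain ⟨ν, hm, h0, hI, hi, hs⟩ := weightB3
      rw [show (5 : ℝ) / 4 = 2 * (5 / 8) by norm_num] at hI hi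
      have hd := caseB_data (by norm_num) hm h0 hI hi
      exact ⟨12467 / 10000, 126689 / 100000, 3 / 5, 18 / 25, _, by norm_num,
        sliceOK_of hm h0 hs, hd.1, hd.2, by norm_num, by norm_num, h4, by linarith⟩

end Pool.Agent.KG
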