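import Mathlib

/-! One-dimensional standard Gaussian measure: density, moments, absolute moments. -/

open MeasureTheory ProbabilityTheory Real Filter Topology

namespace Pool.Agent.KG

/-- the standard Gaussian measure on the line -/
noncomputable abbrev g1 : Measure ℝ := gaussianReal 0 1

/-- the standard Gaussian density -/
noncomputable def phi (t : ℝ) : ℝ := (√(2 * π))⁻¹ * rexp (-t ^ 2 / 2)

lemma gaussianPDFReal_eq (t : ℝ) : gaussianPDFReal 0 1 t = phi t := by
  simp [gaussianPDFReal, phi]

lemma phi_pos (t : ℝ) : 0 < phi t := by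
  unfold phi
  positivity

lemma phi_even (t : ℝ) : phi (-t) = phi t := by
  simp [phi]

lemma continuous_phi : Continuous phi := by
  unfold phi
  fun_prop

lemma integral_g1 (f : ℝ → ℝ) : ∫ t, f t ∂g1 = ∫ t, phi t * f t := by
  rw [integral_gaussianReal_eq_integral_smul one_ne_zero]
  simp [gaussianPDFReal_eq]

lemma integrable_g1_iff {f : ℝ → ℝ} :
    Integrable f g1 ↔ Integrable (fun t => phi t * f t) := by
  have h : g1 = volume.withDensity (gaussianPDF 0 1) :=
    gaussianReal_of_var_ne_zero 0 one_ne_zero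
  rw [h, integrable_withDensity_iff_integrable_smul' (measurable_gaussianPDF 0 1)
    (ae_of_all _ fun _ => gaussianPDF_lt_top)]
  simp [toReal_gaussianPDF, gaussianPDFReal_eq]

lemma hasDerivAt_phi (t : ℝ) : HasDerivAt phi (-(t * phi t)) t := by
  unfold phi
  have h1 : HasDerivAt (fun t : ℝ => -t ^ 2 / 2) (-t) t := by
    have := ((hasDerivAt_pow 2 t).neg).div_const 2
    exact this.congr_deriv (by norm_num; ring)
  have h2 := (h1.exp).const_mul ((√(2 * π))⁻¹)
  exact h2.congr_deriv (by ring)

lemma integrable_pow_g1 (k : ℕ) : Integrable (fun t : ℝ => t ^ k) g1 := by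
  have h := (memLp_id_gaussianReal' (μ := 0) (v := 1) (k : ENNReal)
    (ENNReal.natCast_ne_top k)).integrable_norm_pow'
  refine h.mono (by fun_prop) (Eventually.of_forall fun t => ?_)
  simp

lemma integrable_phi_pow (k : ℕ) : Integrable (fun t : ℝ => phi t * t ^ k) :=
  integrable_g1_iff.1 (integrable_pow_g1 k)

/-- moment recursion -/
lemma moment_succ (k : ℕ) : ∫ t, t ^ (k + 2) ∂g1 = (k + 1) * ∫ t, t ^ k ∂g1 := by
  have hd : ∀ t : ℝ, HasDerivAt (fun t : ℝ => phi t * t ^ (k + 1))
      ((k + 1) * (phi t * t ^ k) - phi t * t ^ (k + 2)) t := by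
    intro t
    have := (hasDerivAt_phi t).mul (hasDerivAt_pow (k + 1) t)
    exact this.congr_deriv (by push_cast; ring)
  have h0 := integral_eq_zero_of_hasDerivAt_of_integrable hd
    (((integrable_phi_pow k).const_mul _).sub (integrable_phi_pow (k + 2)))
    (integrable_phi_pow (k + 1))
  rw [integral_sub ((integrable_phi_pow k).const_mul _) (integrable_phi_pow (k + 2)),
    integral_const_mul] at h0
  rw [integral_g1, integral_g1]
  linarith

lemma moment_zero : ∫ t : ℝ, t ^ 0 ∂g1 = 1 := by simp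

lemma moment_one : ∫ t : ℝ, t ^ 1 ∂g1 = 0 := by
  simp [integral_id_gaussianReal]

lemma moment_two : ∫ t : ℝ, t ^ 2 ∂g1 = 1 := by
  have := moment_succ 0
  simpa using this

lemma moment_three : ∫ t : ℝ, t ^ 3 ∂g1 = 0 := by
  have := moment_succ 1
  rw [moment_one] at this
  simpa using this

lemma moment_four : ∫ t : ℝ, t ^ 4 ∂g1 = 3 := by
  have := moment_succ 2
  rw [moment_two] at this
  norm_num at this
  exact this

lemma moment_five : ∫ t : ℝ, t ^ 5 ∂g1 = 0 := by
  have := moment_succ 3
  rw [moment_three] at this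
  norm_num at this
  exact this

lemma moment_six : ∫ t : ℝ, t ^ 6 ∂g1 = 15 := by
  have := moment_succ 4
  rw [moment_four] at this
  norm_num at this
  exact this

/-- the constant `√(2/π) = E|t|` -/
noncomputable def a0 : ℝ := √(2 / π)

lemma a0_pos : 0 < a0 := by unfold a0; positivity

lemma a0_sq : a0 ^ 2 = 2 / π := by
  unfold a0
  rw [Real.sq_sqrt (by positivity)]

lemma two_phi_zero : 2 * (√(2 * π))⁻¹ = a0 := by
  unfold a0
  rw [eq_comm, Real.sqrt_eq_iff_mul_self_eq (by positivity) (by positivity)]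
  have h : √(2 * π) ^ 2 = 2 * π := Real.sq_sqrt (by positivity)
  have hp : (0 : ℝ) < √(2 * π) := by positivity
  field_simp
  nlinarith [h]

lemma phi_eq (t : ℝ) : phi t = a0 / 2 * rexp (-t ^ 2 / 2) := by
  unfold phi
  rw [← two_phi_zero]
  ring

lemma tendsto_phi_mul_pow (k : ℕ) : Tendsto (fun t : ℝ => phi t * t ^ k) atTop (𝓝 0) := by
  have h := tendsto_zero_of_hasDerivAt_of_integrableOn_Ioi (a := 0)
    (f := fun t : ℝ => phi t * t ^ (k + 1))
    (f' := fun t => (k + 1) * (phi t * t ^ k) - phi t * t ^ (k + 2)) ?_ ?_ ?_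
  · -- compare
    refine squeeze_zero' (g := fun t : ℝ => phi t * t ^ (k + 1)) ?_ ?_ h
    · filter_upwards [eventually_ge_atTop 0] with t ht
      have := (phi_pos t).le
      positivity
    · filter_upwards [eventually_ge_atTop 1] with t ht
      rw [pow_succ, ← mul_assoc]
      have h1 : 0 ≤ phi t * t ^ k := by
        have := (phi_pos t).le
        positivity
      nlinarith
  · intro t _
    have := (hasDerivAt_phi t).mul (hasDerivAt_pow (k + 1) t)
    exact this.congr_deriv (by push_cast; ring)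
  · exact (((integrable_phi_pow k).const_mul _).sub (integrable_phi_pow (k + 2))).integrableOn
  · exact (integrable_phi_pow (k + 1)).integrableOn

/-- `∫_0^∞ t φ(t) dt = a0/2` -/
lemma half_moment_one : ∫ t in Set.Ioi (0 : ℝ), phi t * t = a0 / 2 := by
  have hd : ∀ t ∈ Set.Ici (0 : ℝ), HasDerivAt (fun t => -phi t) (phi t * t) t := by
    intro t _
    have := (hasDerivAt_phi t).neg
    exact this.congr_deriv (by ring)
  have hi : IntegrableOn (fun t => phi t * t) (Set.Ioi (0 : ℝ)) := by
    have := (integrable_phi_pow 1).integrableOn (s := Set.Ioi (0 : ℝ))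
    simpa using this
  have hl : Tendsto (fun t => -phi t) atTop (𝓝 0) := by
    have := (tendsto_phi_mul_pow 0).neg
    simpa using this
  rw [integral_Ioi_of_hasDerivAt_of_tendsto' hd hi hl]
  simp [phi_eq]

/-- `∫_0^∞ t³ φ(t) dt = a0` -/
lemma half_moment_three : ∫ t in Set.Ioi (0 : ℝ), phi t * t ^ 3 = a0 := by
  have hd : ∀ t ∈ Set.Ici (0 : ℝ), HasDerivAt (fun t => -(phi t * (t ^ 2 + 2))) (phi t * t ^ 3) t := by
    intro t _
    have := ((hasDerivAt_phi t).mul ((hasDerivAt_pow 2 t).add_const 2)).neg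
    exact this.congr_deriv (by push_cast; ring)
  have hi : IntegrableOn (fun t => phi t * t ^ 3) (Set.Ioi (0 : ℝ)) :=
    (integrable_phi_pow 3).integrableOn (s := Set.Ioi (0 : ℝ))
  have hl : Tendsto (fun t => -(phi t * (t ^ 2 + 2))) atTop (𝓝 0) := by
    have := ((tendsto_phi_mul_pow 2).add ((tendsto_phi_mul_pow 0).const_mul 2)).neg
    simp only [mul_zero, add_zero, neg_zero] at this
    refine this.congr fun t => ?_
    ring
  rw [integral_Ioi_of_hasDerivAt_of_tendsto' hd hi hl]
  simp [phi_eq]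

lemma abs_moment_one : ∫ t, |t| ∂g1 = a0 := by
  rw [integral_g1]
  have h : ∀ t : ℝ, phi t * |t| = phi |t| * |t| := by
    intro t
    rcases abs_cases t with ⟨h1, _⟩ | ⟨h1, _⟩ <;> rw [h1]
    rw [phi_even]
  simp_rw [h]
  rw [integral_comp_abs (f := fun t => phi t * t), half_moment_one]
  ring

lemma abs_moment_three : ∫ t, |t| ^ 3 ∂g1 = 2 * a0 := by
  rw [integral_g1]
  have h : ∀ t : ℝ, phi t * |t| ^ 3 = phi |t| * |t| ^ 3 := by
    intro t
    rcases abs_cases t with ⟨h1, _⟩ | ⟨h1, _⟩ <;> rw [h1]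
    rw [phi_even]
  simp_rw [h]
  rw [integral_comp_abs (f := fun t => phi t * t ^ 3), half_moment_three]

end Pool.Agent.KG
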