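import Pool.Agent.KG.Gauss1D

/-! The standard Gaussian measure of a Euclidean space: one-dimensional marginals and the
expected norm. -/

open MeasureTheory ProbabilityTheory Real

namespace Pool.Agent.KG

section general

variable {E : Type*} [NormedAddCommGroup E] [InnerProductSpace ℝ E] [FiniteDimensional ℝ E]
  [MeasurableSpace E] [BorelSpace E]

/-- the marginal of the standard Gaussian in direction `e` is `‖e‖ * g1` -/
lemma map_inner (e : E) :
    (stdGaussian E).map (fun x => (inner ℝ e x : ℝ)) = g1.map (fun t => ‖e‖ * t) := by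
  have hG : HasGaussianLaw (fun g => innerSL ℝ e g) (stdGaussian E) :=
    IsGaussian.hasGaussianLaw_id.map (innerSL ℝ e)
  have h := hG.map_eq_gaussianReal
  have h1 : ∫ g, innerSL ℝ e g ∂(stdGaussian E) = 0 :=
    integral_strongDual_stdGaussian _
  have h2 : Var[fun g => innerSL ℝ e g; stdGaussian E] = ‖e‖ ^ 2 := by
    have := variance_dual_stdGaussian (E := E) (innerSL ℝ e)
    rw [innerSL_apply_norm] at this
    exact this
  rw [h1, h2] at h
  rw [show g1 = gaussianReal 0 1 from rfl, gaussianReal_map_const_mul, mul_zero, mul_one]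
  have h3 : NNReal.mk (‖e‖ ^ 2) (sq_nonneg _) = (‖e‖ ^ 2).toNNReal := by
    ext
    rw [Real.coe_toNNReal _ (sq_nonneg _)]
    rfl
  rw [h3, ← h]
  rfl

lemma integral_inner (e : E) {f : ℝ → ℝ} (hf : Measurable f) :
    ∫ x, f (inner ℝ e x) ∂(stdGaussian E) = ∫ t, f (‖e‖ * t) ∂g1 := by
  have hm : Measurable (fun x : E => (inner ℝ e x : ℝ)) := by fun_prop
  have hm2 : Measurable (fun t : ℝ => ‖e‖ * t) := by fun_prop
  rw [← integral_map (φ := fun x : E => (inner ℝ e x : ℝ)) hm.aemeasurable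
    hf.aestronglyMeasurable, map_inner, integral_map hm2.aemeasurable hf.aestronglyMeasurable]

lemma integrable_inner (e : E) {f : ℝ → ℝ} (hf : Measurable f)
    (h : Integrable (fun t => f (‖e‖ * t)) g1) :
    Integrable (fun x => f (inner ℝ e x)) (stdGaussian E) := by
  have hm : Measurable (fun x : E => (inner ℝ e x : ℝ)) := by fun_prop
  have hm2 : Measurable (fun t : ℝ => ‖e‖ * t) := by fun_prop
  have := (integrable_map_measure (μ := g1) (f := fun t => ‖e‖ * t) (g := f)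
    hf.aestronglyMeasurable hm2.aemeasurable).2 h
  rw [← map_inner e] at this
  exact (integrable_map_measure hf.aestronglyMeasurable hm.aemeasurable).1 this

lemma integrable_inner_pow (e : E) (k : ℕ) :
    Integrable (fun x => (inner ℝ e x : ℝ) ^ k) (stdGaussian E) := by
  refine integrable_inner e (f := fun t => t ^ k) (by fun_prop) ?_
  simp only [mul_pow]
  exact (integrable_pow_g1 k).const_mul _

lemma integral_inner_pow (e : E) (k : ℕ) :
    ∫ x, (inner ℝ e x : ℝ) ^ k ∂(stdGaussian E) = ‖e‖ ^ k * ∫ t, t ^ k ∂g1 := by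
  rw [integral_inner e (f := fun t => t ^ k) (by fun_prop)]
  simp only [mul_pow]
  rw [integral_const_mul]

/-- `E |⟨e,x⟩| = √(2/π) ‖e‖` -/
lemma integral_abs_inner (e : E) :
    ∫ x, |(inner ℝ e x : ℝ)| ∂(stdGaussian E) = a0 * ‖e‖ := by
  rw [integral_inner e (f := fun t => |t|) (by fun_prop)]
  simp only [abs_mul, abs_norm]
  rw [integral_const_mul, abs_moment_one, mul_comm]

lemma integrable_norm_pow (k : ℕ) : Integrable (fun x : E => ‖x‖ ^ k) (stdGaussian E) := by
  have h := (IsGaussian.memLp_id (stdGaussian E) (k : ENNReal)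
    (ENNReal.natCast_ne_top k)).integrable_norm_pow'
  simpa using h

end general

lemma integral_comb4 {α : Type*} [MeasurableSpace α] {μ : Measure α} {f1 f2 f3 f4 : α → ℝ}
    (i1 : Integrable f1 μ) (i2 : Integrable f2 μ) (i3 : Integrable f3 μ) (i4 : Integrable f4 μ) :
    ∫ x, (f1 x + f2 x - f3 x - f4 x) ∂μ =
      ∫ x, f1 x ∂μ + ∫ x, f2 x ∂μ - ∫ x, f3 x ∂μ - ∫ x, f4 x ∂μ := by
  have h12 : Integrable (fun x => f1 x + f2 x) μ := i1.add i2
  have h123 : Integrable (fun x => f1 x + f2 x - f3 x) μ := h12.sub i3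
  rw [integral_sub h123 i4, integral_sub h12 i3, integral_add i1 i2]

variable {ι : Type*} [Fintype ι]

lemma coord_eq_inner [DecidableEq ι] (i : ι) (x : EuclideanSpace ℝ ι) :
    x i = inner ℝ (EuclideanSpace.single i (1 : ℝ)) x := by
  simp [EuclideanSpace.inner_single_left]

lemma integral_coord_sq (i : ι) :
    ∫ x : EuclideanSpace ℝ ι, x i ^ 2 ∂(stdGaussian (EuclideanSpace ℝ ι)) = 1 := by
  classical
  simp_rw [coord_eq_inner i]
  rw [integral_inner_pow, moment_two]
  simp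

lemma integrable_coord_pow (i : ι) (k : ℕ) :
    Integrable (fun x : EuclideanSpace ℝ ι => x i ^ k) (stdGaussian (EuclideanSpace ℝ ι)) := by
  classical
  simp_rw [coord_eq_inner i]
  exact integrable_inner_pow _ _

lemma integral_coord_four (i : ι) :
    ∫ x : EuclideanSpace ℝ ι, x i ^ 4 ∂(stdGaussian (EuclideanSpace ℝ ι)) = 3 := by
  classical
  simp_rw [coord_eq_inner i]
  rw [integral_inner_pow, moment_four]
  simp

lemma sq_mul_sq_eq (a b : ℝ) :
    a ^ 2 * b ^ 2 = (1 / 12) * (a + b) ^ 4 + (1 / 12) * (a - b) ^ 4 - (1 / 6) * a ^ 4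
      - (1 / 6) * b ^ 4 := by
  ring

lemma norm_single_add [DecidableEq ι] {i j : ι} (hij : i ≠ j) (s : ℝ) (hs : s ^ 2 = 1) :
    ‖EuclideanSpace.single i (1 : ℝ) + s • EuclideanSpace.single j (1 : ℝ)‖ ^ 2 = 2 := by
  rw [norm_add_sq_real, norm_smul, mul_pow, inner_smul_right]
  have h : inner ℝ (EuclideanSpace.single i (1 : ℝ)) (EuclideanSpace.single j (1 : ℝ)) = 0 := by
    rw [EuclideanSpace.inner_single_left]
    simp [hij]
  rw [h]
  simp [hs]
  norm_num

lemma integral_coord_sq_mul {i j : ι} (hij : i ≠ j) :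
    ∫ x : EuclideanSpace ℝ ι, x i ^ 2 * x j ^ 2 ∂(stdGaussian (EuclideanSpace ℝ ι)) = 1 := by
  classical
  have key : ∀ x : EuclideanSpace ℝ ι, x i ^ 2 * x j ^ 2 =
      (1 / 12) * (inner ℝ (EuclideanSpace.single i (1 : ℝ) + (1 : ℝ) • EuclideanSpace.single j
        (1 : ℝ)) x) ^ 4 +
      (1 / 12) * (inner ℝ (EuclideanSpace.single i (1 : ℝ) + (-1 : ℝ) • EuclideanSpace.single j
        (1 : ℝ)) x) ^ 4 - (1 / 6) * x i ^ 4 - (1 / 6) * x j ^ 4 := by
    intro x
    rw [sq_mul_sq_eq, inner_add_left, inner_add_left, inner_smul_left, inner_smul_left,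
      ← coord_eq_inner, ← coord_eq_inner]
    simp only [map_one, map_neg]
    ring
  simp_rw [key]
  have i1 := (integrable_inner_pow (EuclideanSpace.single i (1 : ℝ) + (1 : ℝ) •
    EuclideanSpace.single j (1 : ℝ)) 4).const_mul (1 / 12 : ℝ)
  have i2 := (integrable_inner_pow (EuclideanSpace.single i (1 : ℝ) + (-1 : ℝ) •
    EuclideanSpace.single j (1 : ℝ)) 4).const_mul (1 / 12 : ℝ)
  have i3 := (integrable_coord_pow i 4).const_mul (1 / 6 : ℝ)
  have i4 := (integrable_coord_pow j 4).const_mul (1 / 6 : ℝ)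
  rw [integral_comb4 i1 i2 i3 i4,
    integral_const_mul, integral_const_mul, integral_const_mul, integral_const_mul,
    integral_coord_four, integral_coord_four, integral_inner_pow, integral_inner_pow, moment_four]
  have e1 := norm_single_add hij 1 (by norm_num)
  have e2 := norm_single_add hij (-1) (by norm_num)
  rw [show ‖EuclideanSpace.single i (1 : ℝ) + (1 : ℝ) • EuclideanSpace.single j (1 : ℝ)‖ ^ 4 =
    (‖EuclideanSpace.single i (1 : ℝ) + (1 : ℝ) • EuclideanSpace.single j (1 : ℝ)‖ ^ 2) ^ 2 by ring,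
    show ‖EuclideanSpace.single i (1 : ℝ) + (-1 : ℝ) • EuclideanSpace.single j (1 : ℝ)‖ ^ 4 =
    (‖EuclideanSpace.single i (1 : ℝ) + (-1 : ℝ) • EuclideanSpace.single j (1 : ℝ)‖ ^ 2) ^ 2
      by ring, e1, e2]
  norm_num

lemma integrable_coord_sq_mul (i j : ι) :
    Integrable (fun x : EuclideanSpace ℝ ι => x i ^ 2 * x j ^ 2)
      (stdGaussian (EuclideanSpace ℝ ι)) := by
  refine (((integrable_coord_pow i 4).add (integrable_coord_pow j 4))).mono (by fun_prop)
    (Filter.Eventually.of_forall fun x => ?_)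
  rw [Real.norm_eq_abs, Real.norm_eq_abs, abs_of_nonneg (by positivity), Pi.add_apply,
    abs_of_nonneg (by positivity)]
  nlinarith [sq_nonneg (x i ^ 2 - x j ^ 2), sq_nonneg (x i ^ 2), sq_nonneg (x j ^ 2)]

lemma integral_norm_sq :
    ∫ x : EuclideanSpace ℝ ι, ‖x‖ ^ 2 ∂(stdGaussian (EuclideanSpace ℝ ι)) = Fintype.card ι := by
  simp_rw [EuclideanSpace.real_norm_sq_eq]
  rw [integral_finsetSum _ fun i _ => integrable_coord_pow i 2]
  simp [integral_coord_sq]

lemma integral_norm_four :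
    ∫ x : EuclideanSpace ℝ ι, ‖x‖ ^ 4 ∂(stdGaussian (EuclideanSpace ℝ ι)) =
      (Fintype.card ι : ℝ) ^ 2 + 2 * Fintype.card ι := by
  classical
  have h : ∀ x : EuclideanSpace ℝ ι, ‖x‖ ^ 4 = ∑ i, ∑ j, x i ^ 2 * x j ^ 2 := by
    intro x
    rw [show ‖x‖ ^ 4 = (‖x‖ ^ 2) * (‖x‖ ^ 2) by ring, EuclideanSpace.real_norm_sq_eq,
      Finset.sum_mul_sum]
  simp_rw [h]
  rw [integral_finsetSum _ fun i _ => integrable_finsetSum _ fun j _ =>
    integrable_coord_sq_mul i j]
  have h2 : ∀ i : ι, ∫ x : EuclideanSpace ℝ ι, ∑ j, x i ^ 2 * x j ^ 2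
      ∂(stdGaussian (EuclideanSpace ℝ ι)) = (Fintype.card ι : ℝ) + 2 := by
    intro i
    rw [integral_finsetSum _ fun j _ => integrable_coord_sq_mul i j]
    have h3 : ∀ j : ι, ∫ x : EuclideanSpace ℝ ι, x i ^ 2 * x j ^ 2
        ∂(stdGaussian (EuclideanSpace ℝ ι)) = 1 + if j = i then 2 else 0 := by
      intro j
      split_ifs with hji
      · subst hji
        have : ∀ x : EuclideanSpace ℝ ι, x j ^ 2 * x j ^ 2 = x j ^ 4 := fun x => by ring
        simp_rw [this]
        rw [integral_coord_four]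
        norm_num
      · rw [integral_coord_sq_mul (Ne.symm hji)]
        norm_num
    simp_rw [h3]
    rw [Finset.sum_add_distrib]
    simp
  simp_rw [h2]
  simp
  ring

/-- `E‖x‖ ≥ √N (1 - 1/N)` -/
lemma integral_norm_ge (hN : 0 < Fintype.card ι) :
    √(Fintype.card ι) * (1 - 1 / Fintype.card ι) ≤
      ∫ x : EuclideanSpace ℝ ι, ‖x‖ ∂(stdGaussian (EuclideanSpace ℝ ι)) := by
  set N : ℝ := (Fintype.card ι : ℝ) with hNdef
  have hN0 : (0 : ℝ) < N := by
    rw [hNdef]
    exact_mod_cast hN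
  have hs : √N ^ 2 = N := Real.sq_sqrt hN0.le
  have hs0 : 0 < √N := Real.sqrt_pos.2 hN0
  have key : ∀ x : EuclideanSpace ℝ ι,
      (3 / (2 * √N)) * ‖x‖ ^ 2 - (1 / (2 * √N ^ 3)) * ‖x‖ ^ 4 ≤ ‖x‖ := by
    intro x
    have h1 : 0 ≤ ‖x‖ := norm_nonneg x
    set s := √N
    have h2 : ‖x‖ - ((3 / (2 * s)) * ‖x‖ ^ 2 - (1 / (2 * s ^ 3)) * ‖x‖ ^ 4) =
        ‖x‖ * (‖x‖ - s) ^ 2 * (‖x‖ + 2 * s) / (2 * s ^ 3) := by
      field_simp
      ring
    have h3 : 0 ≤ ‖x‖ * (‖x‖ - s) ^ 2 * (‖x‖ + 2 * s) / (2 * s ^ 3) := by positivity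
    linarith
  have i1 := (integrable_norm_pow (E := EuclideanSpace ℝ ι) 2).const_mul (3 / (2 * √N))
  have i2 := (integrable_norm_pow (E := EuclideanSpace ℝ ι) 4).const_mul (1 / (2 * √N ^ 3))
  have i3 : Integrable (fun x : EuclideanSpace ℝ ι => ‖x‖) (stdGaussian (EuclideanSpace ℝ ι)) := by
    simpa using integrable_norm_pow (E := EuclideanSpace ℝ ι) 1
  have h : ∫ x : EuclideanSpace ℝ ι, ((3 / (2 * √N)) * ‖x‖ ^ 2 - (1 / (2 * √N ^ 3)) * ‖x‖ ^ 4)
      ∂(stdGaussian (EuclideanSpace ℝ ι)) ≤ _ := integral_mono (i1.sub i2) i3 key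
  rw [integral_sub i1 i2, integral_const_mul, integral_const_mul, integral_norm_sq,
    integral_norm_four, ← hNdef] at h
  refine le_trans (le_of_eq ?_) h
  have h4 : N = √N ^ 2 := hs.symm
  set s := √N
  rw [h4]
  field_simp
  ring

end Pool.Agent.KG
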