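import Pool.Agent.KG.Numer
import Pool.Agent.KG.Slice

/-! The case `ε = 1/2`. -/

open MeasureTheory ProbabilityTheory Real

namespace Pool.Agent.KG

variable {n : ℕ}

lemma integrable_cub (c0 c1 c2 c3 : ℝ) : Integrable (fun t => cub c0 c1 c2 c3 t) g1 := by
  have h : (fun t => cub c0 c1 c2 c3 t) = fun t => (c0 - c2 / √2) * t ^ 0
      + (c1 - 3 * c3 / √6) * t ^ 1 + (c2 / √2) * t ^ 2 + (c3 / √6) * t ^ 3 := by
    funext t
    unfold cub
    ring
  rw [h]
  exact ((((integrable_pow_g1 0).const_mul _).add ((integrable_pow_g1 1).const_mul _)).add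
    ((integrable_pow_g1 2).const_mul _)).add ((integrable_pow_g1 3).const_mul _)

lemma integrable_max (s : ℝ) (hs : 0 ≤ s) (W : ℝ → ℝ) (hWm : Measurable W) (hW0 : ∀ t, 0 ≤ W t)
    (c0 c1 c2 c3 : ℝ) : Integrable (fun t => max (s * |cub c0 c1 c2 c3 t| - W t) 0) g1 := by
  have hc := integrable_cub c0 c1 c2 c3
  refine (hc.abs.const_mul s).mono' ?_ (Filter.Eventually.of_forall fun t => ?_)
  · have h1 : AEStronglyMeasurable (fun t => s * |cub c0 c1 c2 c3 t| - W t) g1 :=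
      (hc.abs.const_mul s).aestronglyMeasurable.sub hWm.aestronglyMeasurable
    exact h1.sup aestronglyMeasurable_const
  · rw [Real.norm_eq_abs, abs_of_nonneg (le_max_right _ _)]
    refine max_le ?_ (by positivity)
    linarith [hW0 t]

/-- use of a one-dimensional certificate -/
lemma star_mono (s : ℝ) (hs : 0 ≤ s) (W w : ℝ → ℝ) (hWm : Measurable W) (hW0 : ∀ t, 0 ≤ W t)
    (hwm : Measurable w) (hle : ∀ t, W t ≤ |w t|) (n02 n13 : ℝ)
    (h : ∀ c0 c1 c2 c3 : ℝ, ∫ t, max (s * |cub c0 c1 c2 c3 t| - W t) 0 ∂g1 ≤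
      c0 ^ 2 + c1 ^ 2 + c2 ^ 2 + c3 ^ 2 + n02 * (c0 * c2) + n13 * (c1 * c3))
    (e : Ev n) (he : ‖e‖ = 1) (Q : L2 n) (hQ : Q ∈ H3 n) :
    ∫ x, max (s * |Q x| - |w (inner ℝ e x)|) 0 ∂(gam n) ≤ ‖Q‖ ^ 2 := by
  refine star s hs (fun t => |w t|) hwm.norm (fun t => abs_nonneg _) n02 n13 ?_ e he Q hQ
  intro c0 c1 c2 c3
  refine le_trans (integral_mono (integrable_max s hs (fun t => |w t|) hwm.norm
    (fun t => abs_nonneg _) c0 c1 c2 c3) (integrable_max s hs W hWm hW0 c0 c1 c2 c3) ?_)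
    (h c0 c1 c2 c3)
  intro t
  exact max_le_max_right 0 (by linarith [hle t])

/-- the test function for `b0 = -κ a0/√6` -/
lemma wt_eq (ε σ κ t : ℝ) : wt ε ((σ + ε * κ) * a0) (-κ * a0 / √6) t =
    a0 * (σ * t + ε * κ * t ^ 3 / 3) := by
  have h6 : √6 ^ 2 = 6 := Real.sq_sqrt (by norm_num)
  have h6p : 0 < √6 := by positivity
  unfold wt h3
  have : (-κ * a0 / √6) * ((t ^ 3 - 3 * t) / √6) = -κ * a0 * (t ^ 3 - 3 * t) / 6 := by
    rw [div_mul_div_comm, ← sq, h6]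
  calc (σ + ε * κ) * a0 * t - 2 * ε * (-κ * a0 / √6) * ((t ^ 3 - 3 * t) / √6)
      = (σ + ε * κ) * a0 * t - 2 * ε * ((-κ * a0 / √6) * ((t ^ 3 - 3 * t) / √6)) := by ring
    _ = _ := by rw [this]; ring

lemma abs_wt_eq (ε σ κ t : ℝ) (hε : 0 ≤ ε) (hσ : 0 ≤ σ) (hκ : 0 ≤ κ) :
    |wt ε ((σ + ε * κ) * a0) (-κ * a0 / √6) t| =
      a0 * σ * |t| + a0 * (ε * κ / 3) * |t| ^ 3 := by
  have ha := a0_pos
  rw [wt_eq, abs_mul, abs_of_pos ha, show σ * t + ε * κ * t ^ 3 / 3 =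
    t * (σ + ε * κ / 3 * t ^ 2) by ring, abs_mul,
    abs_of_nonneg (by positivity : 0 ≤ σ + ε * κ / 3 * t ^ 2), ← sq_abs t]
  ring

lemma integral_abs_wt (ε σ κ : ℝ) (hε : 0 ≤ ε) (hσ : 0 ≤ σ) (hκ : 0 ≤ κ) :
    ∫ t, |wt ε ((σ + ε * κ) * a0) (-κ * a0 / √6) t| ∂g1 = a0 ^ 2 * (σ + 2 * ε * κ / 3) := by
  simp_rw [abs_wt_eq ε σ κ _ hε hσ hκ]
  have i1 : Integrable (fun t : ℝ => |t|) g1 := by
    have : Integrable (fun t : ℝ => t) g1 := by simpa using integrable_pow_g1 1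
    exact this.abs
  have i3 : Integrable (fun t : ℝ => |t| ^ 3) g1 := by
    refine (integrable_pow_g1 3).abs.congr (Filter.Eventually.of_forall fun t => ?_)
    simp
  rw [integral_add (i1.const_mul _) (i3.const_mul _), integral_const_mul, integral_const_mul,
    abs_moment_one, abs_moment_three]
  ring

/-- the bound obtained from the parameters `σ, κ` -/
lemma cert_bound (ε σ κ α q : ℝ) (hε : 0 ≤ ε) (hσ : 0 ≤ σ) (hκ : 0 ≤ κ) (b : ℝ) (I : ℝ)
    (hI : I ≤ q)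
    (h : b ≤ α ^ 2 - ((σ + ε * κ) * a0) * α + ε * (-κ * a0 / √6) ^ 2 +
      ∫ t, |wt ε ((σ + ε * κ) * a0) (-κ * a0 / √6) t| ∂g1 + I - q) :
    b ≤ α ^ 2 - (σ + ε * κ) * a0 * α + a0 ^ 2 * (σ + 2 * ε * κ / 3 + ε * κ ^ 2 / 6) := by
  have h6 : √6 ^ 2 = 6 := Real.sq_sqrt (by norm_num)
  rw [integral_abs_wt ε σ κ hε hσ hκ] at h
  have e : (-κ * a0 / √6) ^ 2 = κ ^ 2 * a0 ^ 2 / 6 := by
    rw [div_pow, h6]
    ring
  rw [e] at h
  linarith

/-- the bound for large deviation from the linear sign function -/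
lemma integral_max_le (ε lam : ℝ) (hε : 0 < ε) (hlam : 0 < lam) :
    ∫ t, max (|lam * t|) ε ∂g1 ≤ lam * a0 +
      a0 * ε * ((ε / lam) / 2 - (ε / lam) ^ 3 / 24 + (ε / lam) ^ 5 / 240) := by
  have ha := a0_pos
  have i1 : Integrable (fun t : ℝ => |lam * t|) g1 := by
    have : Integrable (fun t : ℝ => t) g1 := by simpa using integrable_pow_g1 1
    exact (this.const_mul lam).abs
  have i2 : Integrable (fun t : ℝ => max (ε - lam * |t|) 0) g1 := by
    have : Integrable (fun t : ℝ => ε - lam * |t|) g1 := by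
      refine (integrable_const ε).sub (i1.congr (Filter.Eventually.of_forall fun t => ?_))
      simp only
      rw [abs_mul, abs_of_pos hlam]
    exact this.pos_part
  have e1 : ∫ t, max (|lam * t|) ε ∂g1 = ∫ t, (|lam * t| + max (ε - lam * |t|) 0) ∂g1 := by
    refine integral_congr_ae (Filter.Eventually.of_forall fun t => ?_)
    simp only
    rw [abs_mul, abs_of_pos hlam]
    rcases le_total (lam * |t|) ε with h | h
    · rw [max_eq_right h, max_eq_left (by linarith)]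
      ring
    · rw [max_eq_left h, max_eq_right (by linarith)]
      ring
  have e2 : ∫ t, |lam * t| ∂g1 = lam * a0 := by
    simp_rw [abs_mul, abs_of_pos hlam]
    rw [integral_const_mul, abs_moment_one]
  rw [e1, integral_add i1 i2, e2]
  refine add_le_add le_rfl ?_
  -- the half line
  have hint : Integrable (fun t => phi t * max (ε - lam * |t|) 0) := integrable_g1_iff.1 i2
  rw [integral_g1, integral_eq_Ioi hint]
  set τ := ε / lam with hτ
  have hτ0 : 0 < τ := div_pos hε hlam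
  have hlτ : lam * τ = ε := by rw [hτ]; field_simp
  have hint2 : IntegrableOn (fun t => phi t * max (ε - lam * |t|) 0 +
      phi (-t) * max (ε - lam * |(-t)|) 0) (Set.Ioi 0) :=
    (hint.add hint.comp_neg).integrableOn
  have hc : Continuous fun t : ℝ => a0 * (gh' t * (ε - lam * t)) := by
    unfold gh'
    fun_prop
  have hle : ∫ t in Set.Ioi (0 : ℝ), (phi t * max (ε - lam * |t|) 0 +
      phi (-t) * max (ε - lam * |(-t)|) 0) ≤
      ∫ t in Set.Ioi (0 : ℝ), (Set.Ioc 0 τ).indicator (fun t => a0 * (gh' t * (ε - lam * t))) t := by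
    refine setIntegral_mono_on hint2 ?_ measurableSet_Ioi ?_
    · have h1 : IntegrableOn (fun t : ℝ => a0 * (gh' t * (ε - lam * t))) (Set.Ioc 0 τ) :=
        (hc.integrableOn_Icc (a := 0) (b := τ)).mono_set Set.Ioc_subset_Icc_self
      exact (h1.integrable_indicator measurableSet_Ioc).integrableOn
    · intro t ht
      have ht0 : 0 < t := ht
      rw [abs_neg, phi_even, abs_of_pos ht0]
      by_cases h : t ≤ τ
      · rw [Set.indicator_of_mem (Set.mem_Ioc.2 ⟨ht0, h⟩)]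
        have h2 : 0 ≤ ε - lam * t := by
          have := mul_le_mul_of_nonneg_left h hlam.le
          linarith
        rw [max_eq_left h2, phi_eq]
        have h3 := mul_le_mul_of_nonneg_right (exp_le_gh' t) h2
        have h4 := mul_le_mul_of_nonneg_left h3 ha.le
        calc a0 / 2 * rexp (-t ^ 2 / 2) * (ε - lam * t) + a0 / 2 * rexp (-t ^ 2 / 2) * (ε - lam * t)
            = a0 * (rexp (-t ^ 2 / 2) * (ε - lam * t)) := by ring
          _ ≤ _ := h4
      · rw [Set.indicator_of_notMem (fun hm => h hm.2)]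
        have h2 : ε - lam * t ≤ 0 := by
          have := mul_le_mul_of_nonneg_left (not_le.1 h).le hlam.le
          linarith
        rw [max_eq_right h2]
        simp
  refine hle.trans (le_of_eq ?_)
  rw [setIntegral_indicator measurableSet_Ioc]
  have hinter : Set.Ioi (0 : ℝ) ∩ Set.Ioc 0 τ = Set.Ioc 0 τ := by
    ext x
    simp only [Set.mem_inter_iff, Set.mem_Ioi, Set.mem_Ioc]
    tauto
  rw [hinter, ← intervalIntegral.integral_of_le hτ0.le]
  have hd : ∀ t ∈ Set.uIcc (0 : ℝ) τ, HasDerivAt (fun t : ℝ => a0 * (ε * t - lam * t ^ 2 / 2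
      - ε * t ^ 3 / 6 + lam * t ^ 4 / 8 + ε * t ^ 5 / 40 - lam * t ^ 6 / 48))
      (a0 * (gh' t * (ε - lam * t))) t := by
    intro t _
    have := (((((((hasDerivAt_id t).const_mul ε).sub
      (((hasDerivAt_pow 2 t).const_mul lam).div_const 2)).sub
      (((hasDerivAt_pow 3 t).const_mul ε).div_const 6)).add
      (((hasDerivAt_pow 4 t).const_mul lam).div_const 8)).add
      (((hasDerivAt_pow 5 t).const_mul ε).div_const 40)).sub
      (((hasDerivAt_pow 6 t).const_mul lam).div_const 48)).const_mul a0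
    refine this.congr_deriv ?_
    unfold gh'
    simp only [Nat.cast_ofNat, Nat.reduceSub]
    ring
  rw [intervalIntegral.integral_eq_sub_of_hasDerivAt hd (hc.intervalIntegrable _ _), ← hlτ]
  ring

/-- **Bound for the form at `ε = 1/2`.** -/
theorem B_le_half (n : ℕ) (hn : 0 < n) (f g : L2 n) (hf : ∀ᵐ x ∂(gam n), |f x| ≤ 1)
    (hg : ∀ᵐ x ∂(gam n), |g x| ≤ 1) : B (1 / 2) f g ≤ 11 / (6 * π) := by
  obtain ⟨α, e, Q, hα0, hαa, he, hQ, h1, h2⟩ := reduce hn (1 / 2) (by norm_num) f g hf hg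
  obtain ⟨n02, n13, hs⟩ := slice
  have ha := a0_pos
  have hpi := Real.pi_pos
  have hgoal : (11 : ℝ) / (6 * π) = 11 / 12 * a0 ^ 2 := by
    rw [a0_sq]
    field_simp
    norm_num
  rw [hgoal]
  have hsq : 2 * √(1 / 2 : ℝ) = √2 := by
    have h3 : (2 : ℝ) = √4 := by
      rw [show (4 : ℝ) = 2 ^ 2 by norm_num, Real.sqrt_sq (by norm_num)]
    nth_rewrite 1 [h3]
    rw [← Real.sqrt_mul (by norm_num)]
    norm_num
  have cert : ∀ κ : ℝ, 0 ≤ κ → B (1 / 2) f g ≤ α ^ 2 - (11 / 8 + 1 / 2 * κ) * a0 * α +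
      a0 ^ 2 * (11 / 8 + 2 * (1 / 2) * κ / 3 + 1 / 2 * κ ^ 2 / 6) := by
    intro κ hκ
    refine cert_bound (1 / 2) (11 / 8) κ α (‖Q‖ ^ 2) (by norm_num) (by norm_num) hκ _ _ ?_
      (h1 ((11 / 8 + 1 / 2 * κ) * a0) (-κ * a0 / √6))
    rw [hsq]
    refine star_mono (√2) (Real.sqrt_nonneg 2) (fun t => 11 / 8 * a0 * |t|)
      (wt (1 / 2) ((11 / 8 + 1 / 2 * κ) * a0) (-κ * a0 / √6)) (by fun_prop)
      (fun t => by positivity) (continuous_wt _ _ _).measurable ?_ n02 n13 hs e he Q hQ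
    intro t
    rw [abs_wt_eq (1 / 2) (11 / 8) κ t (by norm_num) (by norm_num) hκ]
    have : 0 ≤ a0 * (1 / 2 * κ / 3) * |t| ^ 3 := by positivity
    nlinarith
  by_cases c1 : 7 / 8 * a0 ≤ α
  · have := cert 1 (by norm_num)
    nlinarith [mul_nonneg (sub_nonneg.2 c1) (sub_nonneg.2 hαa)]
  by_cases c2 : 3 / 4 * a0 ≤ α
  · have := cert (1 / 2) (by norm_num)
    push Not at c1
    nlinarith [mul_nonneg (sub_nonneg.2 c2) (sub_nonneg.2 c1.le)]
  by_cases c3 : 3 / 5 * a0 ≤ α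
  · have := cert 0 (by norm_num)
    push Not at c2
    nlinarith [mul_nonneg (sub_nonneg.2 c3) (sub_nonneg.2 c2.le)]
  push Not at c3
  have h3 := h2 (3 / 5 * a0)
  have h4 := integral_max_le (1 / 2) (3 / 5 * a0) (by norm_num) (by positivity)
  have h5 : α ^ 2 - 3 / 5 * a0 * α ≤ 0 := by nlinarith
  have hpi1 := Real.pi_gt_d2
  have hpi2 := Real.pi_lt_d2
  have h6 : 3 / 5 * a0 * a0 + a0 * (1 / 2) * ((1 / 2) / (3 / 5 * a0) / 2
      - ((1 / 2) / (3 / 5 * a0)) ^ 3 / 24 + ((1 / 2) / (3 / 5 * a0)) ^ 5 / 240) ≤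
      11 / 12 * a0 ^ 2 := by
    have e1 : 3 / 5 * a0 * a0 + a0 * (1 / 2) * ((1 / 2) / (3 / 5 * a0) / 2
      - ((1 / 2) / (3 / 5 * a0)) ^ 3 / 24 + ((1 / 2) / (3 / 5 * a0)) ^ 5 / 240) =
      3 / 5 * a0 ^ 2 + 5 / 24 - 125 / 10368 * (a0 ^ 2)⁻¹ + 3125 / 3732480 * ((a0 ^ 2)⁻¹) ^ 2 := by
      field_simp
      ring
    rw [e1, a0_sq, inv_div]
    have e2 : 3 / 5 * (2 / π) + 5 / 24 - 125 / 10368 * (π / 2) + 3125 / 3732480 * (π / 2) ^ 2
        ≤ 11 / 12 * (2 / π) ↔ 3 / 5 * 2 + 5 / 24 * π - 125 / 10368 * (π / 2) * π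
          + 3125 / 3732480 * (π / 2) ^ 2 * π ≤ 11 / 12 * 2 := by
      constructor
      · intro h
        have := mul_le_mul_of_nonneg_right h hpi.le
        field_simp at this ⊢
        linarith
      · intro h
        rw [← sub_nonneg] at h ⊢
        have : 11 / 12 * (2 / π) - (3 / 5 * (2 / π) + 5 / 24 - 125 / 10368 * (π / 2)
            + 3125 / 3732480 * (π / 2) ^ 2) = (11 / 12 * 2 - (3 / 5 * 2 + 5 / 24 * π
            - 125 / 10368 * (π / 2) * π + 3125 / 3732480 * (π / 2) ^ 2 * π)) / π := by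
          field_simp
        rw [this]
        exact div_nonneg h hpi.le
    rw [e2]
    nlinarith [mul_pos hpi hpi, mul_pos (mul_pos hpi hpi) hpi]
  linarith

end Pool.Agent.KG
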