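import Mathlib

/-!
# Grothendieck's identity

`E sgn⟨x,g⟩ sgn⟨y,g⟩ = (2/π) arcsin⟨x,y⟩` for unit vectors `x, y` and a standard Gaussian `g`.
-/

open scoped BigOperators
open MeasureTheory ProbabilityTheory Set

namespace Pool.Agent.KG.Kriv

/-- sign with values in `{-1, 1}` -/
noncomputable def sgn (t : ℝ) : ℝ := if 0 ≤ t then 1 else -1

theorem sgn_of_nonneg {t : ℝ} (h : 0 ≤ t) : sgn t = 1 := if_pos h

theorem sgn_of_neg {t : ℝ} (h : t < 0) : sgn t = -1 := if_neg (not_le.mpr h)

theorem abs_sgn (t : ℝ) : |sgn t| = 1 := by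
  unfold sgn
  split_ifs <;> simp

theorem sgn_mul_pos {r : ℝ} (hr : 0 < r) (t : ℝ) : sgn (r * t) = sgn t := by
  unfold sgn
  simp [mul_nonneg_iff_of_pos_left hr]

theorem measurable_sgn : Measurable sgn := by
  unfold sgn
  exact Measurable.ite measurableSet_Ici measurable_const measurable_const

/-- the angular function -/
noncomputable def angF (φ θ : ℝ) : ℝ := sgn (Real.cos θ) * sgn (Real.cos (θ - φ))

theorem measurable_angF (φ : ℝ) : Measurable (angF φ) := by
  unfold angF
  exact (measurable_sgn.comp Real.measurable_cos).mul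
    (measurable_sgn.comp (Real.measurable_cos.comp (measurable_id.sub_const φ)))

theorem periodic_angF (φ : ℝ) : Function.Periodic (angF φ) (2 * Real.pi) := by
  intro θ
  unfold angF
  have h : θ + 2 * Real.pi - φ = (θ - φ) + 2 * Real.pi := by ring
  rw [h, Real.cos_add_two_pi, Real.cos_add_two_pi]

theorem intervalIntegrable_angF (φ a b : ℝ) : IntervalIntegrable (angF φ) volume a b := by
  rw [intervalIntegrable_iff]
  refine Measure.integrableOn_of_bounded (M := 1) ?_ (measurable_angF φ).aestronglyMeasurable ?_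
  · simp
  · refine Filter.Eventually.of_forall fun x => ?_
    rw [Real.norm_eq_abs, angF, abs_mul, abs_sgn, abs_sgn, mul_one]

theorem integral_const_Ioo {f : ℝ → ℝ} {a b c : ℝ} (hab : a ≤ b)
    (h : ∀ x ∈ Ioo a b, f x = c) : ∫ x in a..b, f x = (b - a) * c := by
  rw [intervalIntegral.integral_of_le hab, integral_Ioc_eq_integral_Ioo,
    setIntegral_congr_fun measurableSet_Ioo h]
  simp [hab]

theorem integral_angF {φ : ℝ} (h0 : 0 ≤ φ) (h1 : φ ≤ Real.pi) :
    ∫ θ in (-Real.pi)..Real.pi, angF φ θ = 2 * Real.pi - 4 * φ := by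
  have hpi := Real.pi_pos
  have e1 : ∫ θ in (-Real.pi)..Real.pi, angF φ θ =
      ∫ θ in (-(Real.pi / 2))..(-(Real.pi / 2) + 2 * Real.pi), angF φ θ := by
    have := (periodic_angF φ).intervalIntegral_add_eq (-Real.pi) (-(Real.pi / 2))
    rw [← this]
    congr 1
    ring
  have i1 : ∫ θ in (-(Real.pi / 2))..(φ - Real.pi / 2), angF φ θ = φ * (-1) := by
    rw [integral_const_Ioo (c := -1) (by linarith)]
    · ring
    · intro θ hθ
      obtain ⟨hθ1, hθ2⟩ := hθ
      unfold angF
      have hc1 : 0 ≤ Real.cos θ :=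
        Real.cos_nonneg_of_neg_pi_div_two_le_of_le (by linarith) (by linarith)
      have hc2 : Real.cos (θ - φ) < 0 := by
        rw [← Real.cos_neg]
        exact Real.cos_neg_of_pi_div_two_lt_of_lt (by linarith) (by linarith)
      rw [sgn_of_nonneg hc1, sgn_of_neg hc2]
      norm_num
  have i2 : ∫ θ in (φ - Real.pi / 2)..(Real.pi / 2), angF φ θ = (Real.pi - φ) * 1 := by
    rw [integral_const_Ioo (c := 1) (by linarith)]
    · ring
    · intro θ hθ
      obtain ⟨hθ1, hθ2⟩ := hθ
      unfold angF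
      have hc1 : 0 ≤ Real.cos θ :=
        Real.cos_nonneg_of_neg_pi_div_two_le_of_le (by linarith) (by linarith)
      have hc2 : 0 ≤ Real.cos (θ - φ) :=
        Real.cos_nonneg_of_neg_pi_div_two_le_of_le (by linarith) (by linarith)
      rw [sgn_of_nonneg hc1, sgn_of_nonneg hc2]
      norm_num
  have i3 : ∫ θ in (Real.pi / 2)..(φ + Real.pi / 2), angF φ θ = φ * (-1) := by
    rw [integral_const_Ioo (c := -1) (by linarith)]
    · ring
    · intro θ hθ
      obtain ⟨hθ1, hθ2⟩ := hθ
      unfold angF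
      have hc1 : Real.cos θ < 0 :=
        Real.cos_neg_of_pi_div_two_lt_of_lt (by linarith) (by linarith)
      have hc2 : 0 ≤ Real.cos (θ - φ) :=
        Real.cos_nonneg_of_neg_pi_div_two_le_of_le (by linarith) (by linarith)
      rw [sgn_of_neg hc1, sgn_of_nonneg hc2]
      norm_num
  have i4 : ∫ θ in (φ + Real.pi / 2)..(-(Real.pi / 2) + 2 * Real.pi), angF φ θ =
      (Real.pi - φ) * 1 := by
    rw [integral_const_Ioo (c := 1) (by linarith)]
    · ring
    · intro θ hθ
      obtain ⟨hθ1, hθ2⟩ := hθ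
      unfold angF
      have hc1 : Real.cos θ < 0 :=
        Real.cos_neg_of_pi_div_two_lt_of_lt (by linarith) (by linarith)
      have hc2 : Real.cos (θ - φ) < 0 :=
        Real.cos_neg_of_pi_div_two_lt_of_lt (by linarith) (by linarith)
      rw [sgn_of_neg hc1, sgn_of_neg hc2]
      norm_num
  have hI := intervalIntegrable_angF φ
  rw [e1, ← intervalIntegral.integral_add_adjacent_intervals (hI _ (φ + Real.pi / 2)) (hI _ _),
    ← intervalIntegral.integral_add_adjacent_intervals (hI _ (Real.pi / 2)) (hI _ _),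
    ← intervalIntegral.integral_add_adjacent_intervals (hI _ (φ - Real.pi / 2)) (hI _ _),
    i1, i2, i3, i4]
  ring

theorem integral_radial : ∫ r in Ioi (0 : ℝ), r * Real.exp (-r ^ 2 / 2) = 1 := by
  have h := integral_rpow_mul_exp_neg_mul_rpow (p := 2) (q := 1) (b := 1 / 2) (by norm_num)
    (by norm_num) (by norm_num)
  have h2 : ∫ r in Ioi (0 : ℝ), r * Real.exp (-r ^ 2 / 2) =
      ∫ x in Ioi (0 : ℝ), x ^ (1 : ℝ) * Real.exp (-(1 / 2) * x ^ (2 : ℝ)) := by
    refine setIntegral_congr_fun measurableSet_Ioi fun r _ => ?_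
    simp only [Real.rpow_one, Real.rpow_two]
    congr 2
    ring
  rw [h2, h]
  norm_num [Real.Gamma_one, Real.rpow_neg_one]

theorem pdf_mul (u v : ℝ) : gaussianPDFReal 0 1 u * gaussianPDFReal 0 1 v =
    (2 * Real.pi)⁻¹ * Real.exp (-(u ^ 2 + v ^ 2) / 2) := by
  unfold gaussianPDFReal
  simp only [NNReal.coe_one, mul_one, sub_zero]
  have h : (2 * Real.pi) = Real.sqrt (2 * Real.pi) * Real.sqrt (2 * Real.pi) :=
    (Real.mul_self_sqrt (by positivity)).symm
  have h2 : (2 * Real.pi)⁻¹ = (Real.sqrt (2 * Real.pi))⁻¹ * (Real.sqrt (2 * Real.pi))⁻¹ := by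
    rw [← mul_inv, ← h]
  rw [h2]
  have h3 : Real.exp (-(u ^ 2 + v ^ 2) / 2) = Real.exp (-u ^ 2 / 2) * Real.exp (-v ^ 2 / 2) := by
    rw [← Real.exp_add]
    congr 1
    ring
  rw [h3]
  ring

theorem integral_planar (f : ℝ × ℝ → ℝ) :
    ∫ p, f p ∂((gaussianReal 0 1).prod (gaussianReal 0 1)) =
      ∫ p : ℝ × ℝ, (2 * Real.pi)⁻¹ * Real.exp (-(p.1 ^ 2 + p.2 ^ 2) / 2) * f p := by
  rw [gaussianReal_of_var_ne_zero 0 one_ne_zero,
    prod_withDensity (measurable_gaussianPDF 0 1) (measurable_gaussianPDF 0 1),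
    integral_withDensity_eq_integral_toReal_smul]
  · refine integral_congr_ae (Filter.Eventually.of_forall fun p => ?_)
    simp only [ENNReal.toReal_mul, toReal_gaussianPDF, smul_eq_mul]
    rw [pdf_mul]
  · exact ((measurable_gaussianPDF 0 1).comp measurable_fst).mul
      ((measurable_gaussianPDF 0 1).comp measurable_snd)
  · refine Filter.Eventually.of_forall fun p => ?_
    exact ENNReal.mul_lt_top gaussianPDF_lt_top gaussianPDF_lt_top

theorem planar_identity {φ : ℝ} (h0 : 0 ≤ φ) (h1 : φ ≤ Real.pi) :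
    ∫ p, sgn p.1 * sgn (Real.cos φ * p.1 + Real.sin φ * p.2)
      ∂((gaussianReal 0 1).prod (gaussianReal 0 1)) = 1 - 2 * φ / Real.pi := by
  rw [integral_planar, ← integral_comp_polarCoord_symm]
  have e : ∀ q ∈ polarCoord.target, q.1 • ((2 * Real.pi)⁻¹ *
      Real.exp (-((polarCoord.symm q).1 ^ 2 + (polarCoord.symm q).2 ^ 2) / 2) *
      (sgn (polarCoord.symm q).1 *
        sgn (Real.cos φ * (polarCoord.symm q).1 + Real.sin φ * (polarCoord.symm q).2))) =
      (q.1 * Real.exp (-q.1 ^ 2 / 2)) * ((2 * Real.pi)⁻¹ * angF φ q.2) := by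
    intro q hq
    rw [polarCoord_target] at hq
    have hr : 0 < q.1 := hq.1
    rw [polarCoord_symm_apply]
    simp only [smul_eq_mul]
    have e1 : (q.1 * Real.cos q.2) ^ 2 + (q.1 * Real.sin q.2) ^ 2 = q.1 ^ 2 := by
      have := Real.cos_sq_add_sin_sq q.2
      linear_combination q.1 ^ 2 * this
    have e2 : Real.cos φ * (q.1 * Real.cos q.2) + Real.sin φ * (q.1 * Real.sin q.2) =
        q.1 * Real.cos (q.2 - φ) := by
      rw [Real.cos_sub]
      ring
    rw [e1, e2, sgn_mul_pos hr, sgn_mul_pos hr]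
    unfold angF
    ring
  rw [setIntegral_congr_fun polarCoord.open_target.measurableSet e, polarCoord_target,
    Measure.volume_eq_prod,
    setIntegral_prod_mul (fun r => r * Real.exp (-r ^ 2 / 2))
      (fun θ => (2 * Real.pi)⁻¹ * angF φ θ), integral_radial, one_mul, integral_const_mul,
    ← integral_Ioc_eq_integral_Ioo, ← intervalIntegral.integral_of_le (by linarith [Real.pi_pos]),
    integral_angF h0 h1]
  have := Real.pi_pos
  field_simp
  ring

variable {N : ℕ}

theorem map_inner_stdGaussian (x : EuclideanSpace ℝ (Fin N)) (hx : ‖x‖ = 1) :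
    (stdGaussian (EuclideanSpace ℝ (Fin N))).map (fun g => inner ℝ x g) = gaussianReal 0 1 := by
  have hG : HasGaussianLaw (fun g => innerSL ℝ x g) (stdGaussian (EuclideanSpace ℝ (Fin N))) :=
    IsGaussian.hasGaussianLaw_id.map (innerSL ℝ x)
  have h := hG.map_eq_gaussianReal
  have h1 : ∫ g, innerSL ℝ x g ∂(stdGaussian (EuclideanSpace ℝ (Fin N))) = 0 :=
    integral_strongDual_stdGaussian _
  have h2 : Var[fun g => innerSL ℝ x g; stdGaussian (EuclideanSpace ℝ (Fin N))] = 1 := by
    have := variance_dual_stdGaussian (E := EuclideanSpace ℝ (Fin N)) (innerSL ℝ x)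
    rw [innerSL_apply_norm, hx, one_pow] at this
    exact this
  rw [h1, h2] at h
  simpa using h

theorem map_pair_stdGaussian (x x' : EuclideanSpace ℝ (Fin N)) (hx : ‖x‖ = 1) (hx' : ‖x'‖ = 1)
    (h : inner ℝ x x' = 0) :
    (stdGaussian (EuclideanSpace ℝ (Fin N))).map (fun g => ((inner ℝ x g : ℝ), (inner ℝ x' g : ℝ)))
      = (gaussianReal 0 1).prod (gaussianReal 0 1) := by
  have hG : HasGaussianLaw (fun g => ((inner ℝ x g : ℝ), (inner ℝ x' g : ℝ)))
      (stdGaussian (EuclideanSpace ℝ (Fin N))) :=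
    IsGaussian.hasGaussianLaw_id.map ((innerSL ℝ x).prod (innerSL ℝ x'))
  have hcov : cov[fun g => (inner ℝ x g : ℝ), fun g => (inner ℝ x' g : ℝ);
      stdGaussian (EuclideanSpace ℝ (Fin N))] = 0 := by
    rw [← covarianceBilin_apply_eq_cov, covarianceBilin_stdGaussian]
    · exact h
    · exact IsGaussian.memLp_two_id
  have hind := hG.indepFun_of_covariance_eq_zero hcov
  have hm1 : Measurable (fun g : EuclideanSpace ℝ (Fin N) => (inner ℝ x g : ℝ)) := by fun_prop
  have hm2 : Measurable (fun g : EuclideanSpace ℝ (Fin N) => (inner ℝ x' g : ℝ)) := by fun_prop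
  rw [(indepFun_iff_map_prod_eq_prod_map_map hm1.aemeasurable hm2.aemeasurable).mp hind,
    map_inner_stdGaussian x hx, map_inner_stdGaussian x' hx']

/-- Grothendieck's identity. -/
theorem grothendieck_identity {N : ℕ} (x y : EuclideanSpace ℝ (Fin N)) (hx : ‖x‖ = 1)
    (hy : ‖y‖ = 1) :
    ∫ g, sgn (inner ℝ x g) * sgn (inner ℝ y g) ∂(stdGaussian (EuclideanSpace ℝ (Fin N))) =
      2 / Real.pi * Real.arcsin (inner ℝ x y) := by
  set ρ : ℝ := inner ℝ x y with hρ
  have hρ1 : |ρ| ≤ 1 := by
    have := abs_real_inner_le_norm x y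
    rw [hx, hy, mul_one] at this
    exact this
  have hρa : -1 ≤ ρ := (abs_le.mp hρ1).1
  have hρb : ρ ≤ 1 := (abs_le.mp hρ1).2
  set φ : ℝ := Real.arccos ρ with hφ
  have hcos : Real.cos φ = ρ := Real.cos_arccos hρa hρb
  have hsin : Real.sin φ ^ 2 = 1 - ρ ^ 2 := by
    rw [Real.sin_sq, hcos]
  have hsin0 : 0 ≤ Real.sin φ := Real.sin_nonneg_of_nonneg_of_le_pi (Real.arccos_nonneg _)
    (Real.arccos_le_pi _)
  have hfin : 2 / Real.pi * Real.arcsin ρ = 1 - 2 * φ / Real.pi := by
    have h1 : Real.arcsin ρ = Real.pi / 2 - φ := by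
      rw [hφ, Real.arccos]
      ring
    rw [h1]
    have := Real.pi_pos
    field_simp
  rw [hfin, ← planar_identity (Real.arccos_nonneg ρ) (Real.arccos_le_pi ρ), ← hφ]
  have hyy : inner ℝ y y = (1 : ℝ) := by rw [real_inner_self_eq_norm_sq, hy, one_pow]
  have hxx : inner ℝ x x = (1 : ℝ) := by rw [real_inner_self_eq_norm_sq, hx, one_pow]
  have hyx : inner ℝ y x = ρ := by rw [real_inner_comm]
  have hmeas : Measurable (fun p : ℝ × ℝ => sgn p.1 *
      sgn (Real.cos φ * p.1 + Real.sin φ * p.2)) :=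
    (measurable_sgn.comp measurable_fst).mul (measurable_sgn.comp
      ((measurable_fst.const_mul _).add (measurable_snd.const_mul _)))
  by_cases hs : Real.sin φ = 0
  · -- degenerate case
    have hy' : y = ρ • x := by
      have h1 : ‖y - ρ • x‖ ^ 2 = 0 := by
        rw [← real_inner_self_eq_norm_sq, inner_sub_left, inner_sub_right, inner_sub_right,
          real_inner_smul_left, real_inner_smul_left, real_inner_smul_right,
          real_inner_smul_right, hyy, hyx, ← hρ, hxx]
        rw [hs] at hsin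
        linear_combination -hsin
      have h2 : y - ρ • x = 0 := by
        rw [← norm_eq_zero]
        exact pow_eq_zero_iff (two_ne_zero) |>.mp h1
      exact sub_eq_zero.mp h2
    have h3 : ∀ g, sgn (inner ℝ x g) * sgn (inner ℝ y g) =
        (fun u : ℝ => sgn u * sgn (ρ * u)) (inner ℝ x g) := by
      intro g
      have : inner ℝ y g = ρ * inner ℝ x g := by
        conv_lhs => rw [hy', real_inner_smul_left]
      rw [this]
    have hmu : Measurable (fun u : ℝ => sgn u * sgn (ρ * u)) :=
      measurable_sgn.mul (measurable_sgn.comp (measurable_id.const_mul ρ))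
    have hm1 : Measurable (fun g : EuclideanSpace ℝ (Fin N) => (inner ℝ x g : ℝ)) := by fun_prop
    rw [integral_congr_ae (Filter.Eventually.of_forall h3),
      ← integral_map (φ := fun g => (inner ℝ x g : ℝ)) (f := fun u : ℝ => sgn u * sgn (ρ * u))
        hm1.aemeasurable hmu.aestronglyMeasurable, map_inner_stdGaussian x hx]
    have h4 : ∀ p : ℝ × ℝ, sgn p.1 * sgn (Real.cos φ * p.1 + Real.sin φ * p.2) =
        (fun u : ℝ => sgn u * sgn (ρ * u)) p.1 := by
      intro p
      rw [hs, hcos, zero_mul, add_zero]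
    rw [integral_congr_ae (Filter.Eventually.of_forall h4)]
    have h5 := integral_map (μ := (gaussianReal 0 1).prod (gaussianReal 0 1))
      (φ := (Prod.fst : ℝ × ℝ → ℝ)) (f := fun u : ℝ => sgn u * sgn (ρ * u))
      measurable_fst.aemeasurable hmu.aestronglyMeasurable
    rw [← h5, measurePreserving_fst.map_eq]
  · set x' : EuclideanSpace ℝ (Fin N) := (Real.sin φ)⁻¹ • (y - ρ • x) with hx'def
    have hxx' : inner ℝ x x' = 0 := by
      rw [hx'def, real_inner_smul_right, inner_sub_right, real_inner_smul_right, ← hρ, hxx]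
      ring
    have hnx' : ‖x'‖ = 1 := by
      have h1 : ‖x'‖ ^ 2 = 1 := by
        rw [← real_inner_self_eq_norm_sq, hx'def, real_inner_smul_left, real_inner_smul_right,
          inner_sub_left, inner_sub_right, inner_sub_right,
          real_inner_smul_left, real_inner_smul_left, real_inner_smul_right,
          real_inner_smul_right, hyy, hyx, ← hρ, hxx]
        field_simp
        linear_combination -hsin
      have h2 := norm_nonneg x'
      nlinarith [sq_nonneg (‖x'‖ - 1)]
    have hy' : y = Real.cos φ • x + Real.sin φ • x' := by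
      rw [hx'def, smul_smul, mul_inv_cancel₀ hs, one_smul, hcos]
      abel
    have hm : Measurable (fun g : EuclideanSpace ℝ (Fin N) =>
        ((inner ℝ x g : ℝ), (inner ℝ x' g : ℝ))) := by fun_prop
    have h3 : ∀ g, sgn (inner ℝ x g) * sgn (inner ℝ y g) =
        (fun p : ℝ × ℝ => sgn p.1 * sgn (Real.cos φ * p.1 + Real.sin φ * p.2))
          ((inner ℝ x g : ℝ), (inner ℝ x' g : ℝ)) := by
      intro g
      have : inner ℝ y g = Real.cos φ * inner ℝ x g + Real.sin φ * inner ℝ x' g := by
        conv_lhs => rw [hy', inner_add_left, real_inner_smul_left, real_inner_smul_left]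
      rw [this]
    rw [integral_congr_ae (Filter.Eventually.of_forall h3),
      ← integral_map (φ := fun g => ((inner ℝ x g : ℝ), (inner ℝ x' g : ℝ)))
        (f := fun p : ℝ × ℝ => sgn p.1 * sgn (Real.cos φ * p.1 + Real.sin φ * p.2))
        hm.aemeasurable hmeas.aestronglyMeasurable, map_pair_stdGaussian x x' hx hnx' hxx']

end Pool.Agent.KG.Kriv
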