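import Pool.Agent.KG.Identity
import Pool.Agent.KG.GDefs

/-! Krivine's bound `π / (2 arsinh 1)` for the real Grothendieck constant: the constant is finite. -/

open scoped BigOperators InnerProductSpace ComplexOrder
open MeasureTheory ProbabilityTheory

namespace Pool.Agent.KG.Kriv

lemma sgn_abs (t : ℝ) : ‖sgn t‖ = 1 := by
  unfold sgn; split_ifs <;> simp

/-- the value of a bilinear form on scalars in the unit ball is at most `beta` -/
lemma le_beta {m n : ℕ} (A : Matrix (Fin m) (Fin n) ℝ)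
    (p : Fin m → ℝ) (q : Fin n → ℝ) (hp : ∀ i, |p i| ≤ 1) (hq : ∀ j, |q j| ≤ 1) :
    |∑ i, ∑ j, A i j * p i * q j| ≤ beta A := by
  unfold beta
  apply le_csSup
  · refine ⟨∑ i, ∑ j, |A i j|, ?_⟩
    rintro r ⟨p, q, hp, hq, rfl⟩
    refine (Finset.abs_sum_le_sum_abs _ _).trans (Finset.sum_le_sum fun i _ => ?_)
    refine (Finset.abs_sum_le_sum_abs _ _).trans (Finset.sum_le_sum fun j _ => ?_)
    rw [abs_mul, abs_mul]
    calc |A i j| * |p i| * |q j| ≤ |A i j| * 1 * 1 := by
          gcongr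
          · exact hp i
          · exact hq j
      _ = |A i j| := by ring
  · exact ⟨p, q, hp, hq, rfl⟩

/-- powers of a Gram matrix (entrywise) are positive semidefinite -/
lemma posSemidef_pow {ι : Type} [Fintype ι] (G : Matrix ι ι ℝ) (hG : G.PosSemidef) (k : ℕ) :
    (Matrix.of fun i j => G i j ^ k : Matrix ι ι ℝ).PosSemidef := by
  induction k with
  | zero =>
    have : (Matrix.of fun i j => G i j ^ 0 : Matrix ι ι ℝ) =
        Matrix.vecMulVec (fun _ => (1 : ℝ)) (star (fun _ => (1 : ℝ))) := by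
      ext i j
      simp [Matrix.vecMulVec]
    rw [this]
    exact Matrix.posSemidef_vecMulVec_self_star _
  | succ k ih =>
    have : (Matrix.of fun i j => G i j ^ (k + 1) : Matrix ι ι ℝ) =
        Matrix.hadamard (Matrix.of fun i j => G i j ^ k) G := by
      ext i j
      simp [Matrix.hadamard, pow_succ]
    rw [this]
    exact ih.hadamard hG

/-- quadratic form of a real positive semidefinite matrix -/
lemma quad_nonneg {ι : Type} [Fintype ι] (G : Matrix ι ι ℝ) (hG : G.PosSemidef) (x : ι → ℝ) :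
    0 ≤ ∑ i, ∑ j, x i * x j * G i j := by
  classical
  have h := hG.dotProduct_mulVec_nonneg x
  have e : star x ⬝ᵥ G.mulVec x = ∑ i, ∑ j, x i * x j * G i j := by
    simp only [dotProduct, Matrix.mulVec, Finset.mul_sum, Pi.star_apply, star_trivial]
    refine Finset.sum_congr rfl fun i _ => Finset.sum_congr rfl fun j _ => by ring
  rw [e] at h
  exact h

lemma posSemidef_of_quad {ι : Type} [Fintype ι] (G : Matrix ι ι ℝ) (hs : ∀ i j, G i j = G j i)
    (h : ∀ x : ι → ℝ, 0 ≤ ∑ i, ∑ j, x i * x j * G i j) : G.PosSemidef := by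
  classical
  refine Matrix.PosSemidef.of_dotProduct_mulVec_nonneg ?_ fun x => ?_
  · ext i j
    simp [Matrix.conjTranspose_apply, hs j i]
  · have e : star x ⬝ᵥ G.mulVec x = ∑ i, ∑ j, x i * x j * G i j := by
      simp only [dotProduct, Matrix.mulVec, Finset.mul_sum, Pi.star_apply, star_trivial]
      refine Finset.sum_congr rfl fun i _ => Finset.sum_congr rfl fun j _ => by ring
    rw [e]
    exact h x

/-- A positive semidefinite real matrix is a Gram matrix of vectors in a Euclidean space. -/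
lemma exists_vectors {ι : Type} [Fintype ι] (G : Matrix ι ι ℝ) (hG : G.PosSemidef) :
    ∃ (N : ℕ) (F : ι → EuclideanSpace ℝ (Fin N)), ∀ i j, ⟪F i, F j⟫_ℝ = G i j := by
  obtain ⟨N, v, hv⟩ := Matrix.posSemidef_iff_eq_sum_vecMulVec.1 hG
  refine ⟨N, fun s => WithLp.toLp 2 fun i => v i s, fun s t => ?_⟩
  rw [hv]
  simp only [PiLp.inner_apply, Matrix.sum_apply, Matrix.vecMulVec_apply, star_trivial]
  refine Finset.sum_congr rfl fun i _ => ?_
  simp [mul_comm]

/-- Krivine's trick: vectors `F i, G j` with prescribed inner products. -/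
lemma krivine_vectors {m n : ℕ} {H : Type} [NormedAddCommGroup H] [InnerProductSpace ℝ H]
    (u : Fin m → H) (v : Fin n → H) (hu : ∀ i, ‖u i‖ = 1) (hv : ∀ j, ‖v j‖ = 1) :
    ∃ (N : ℕ) (F : Fin m → EuclideanSpace ℝ (Fin N)) (G : Fin n → EuclideanSpace ℝ (Fin N)),
      (∀ i, ‖F i‖ = 1) ∧ (∀ j, ‖G j‖ = 1) ∧
      ∀ i j, ⟪F i, G j⟫_ℝ = Real.sin (Real.arsinh 1 * ⟪u i, v j⟫_ℝ) := by
  classical
  set c := Real.arsinh 1 with hc
  have hc0 : 0 < c := Real.arsinh_pos_iff.2 one_pos
  set w : Fin m ⊕ Fin n → H := Sum.elim u v with hw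
  set Gm : Matrix (Fin m ⊕ Fin n) (Fin m ⊕ Fin n) ℝ := Matrix.gram ℝ w with hGm
  have hGpsd : Gm.PosSemidef := Matrix.posSemidef_gram ℝ w
  have hGap : ∀ s t, Gm s t = ⟪w s, w t⟫_ℝ := fun s t => rfl
  have hGs : ∀ s t, Gm s t = Gm t s := fun s t => by rw [hGap, hGap, real_inner_comm]
  -- signs
  let sg : ℕ → (Fin m ⊕ Fin n) → ℝ := fun k s => if s.isLeft then 1 else (-1) ^ k
  let M : Matrix (Fin m ⊕ Fin n) (Fin m ⊕ Fin n) ℝ := fun s t =>
    if s.isLeft = t.isLeft then Real.sinh (c * Gm s t) else Real.sin (c * Gm s t)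
  have hMs : ∀ s t, M s t = M t s := fun s t => by
    simp only [M, hGs s t, eq_comm]
  have hsum : ∀ s t, HasSum (fun k : ℕ => c ^ (2 * k + 1) / ((2 * k + 1).factorial : ℝ) *
      (sg k s * sg k t * Gm s t ^ (2 * k + 1))) (M s t) := by
    intro s t
    by_cases hst : s.isLeft = t.isLeft
    · have h1 := Real.hasSum_sinh (c * Gm s t)
      have h2 : M s t = Real.sinh (c * Gm s t) := if_pos hst
      rw [h2]
      convert h1 using 2 with k
      have : sg k s * sg k t = 1 := by
        simp only [sg, hst]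
        split_ifs
        · norm_num
        · rw [← pow_add, ← two_mul, pow_mul]; norm_num
      rw [this, mul_pow]
      ring
    · have h1 := Real.hasSum_sin (c * Gm s t)
      have h2 : M s t = Real.sin (c * Gm s t) := if_neg hst
      rw [h2]
      convert h1 using 2 with k
      have : sg k s * sg k t = (-1) ^ k := by
        simp only [sg]
        rcases hs : s.isLeft with _ | _ <;> rcases ht : t.isLeft with _ | _ <;>
          simp [hs, ht] at hst ⊢
      rw [this, mul_pow]
      ring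
  have hMpsd : M.PosSemidef := by
    refine posSemidef_of_quad M hMs fun x => ?_
    have h1 : HasSum (fun k : ℕ => ∑ s, ∑ t, x s * x t *
        (c ^ (2 * k + 1) / ((2 * k + 1).factorial : ℝ) *
        (sg k s * sg k t * Gm s t ^ (2 * k + 1)))) (∑ s, ∑ t, x s * x t * M s t) := by
      refine hasSum_sum fun s _ => hasSum_sum fun t _ => ?_
      exact (hsum s t).mul_left _
    refine h1.nonneg fun k => ?_
    have h2 := quad_nonneg _ (posSemidef_pow Gm hGpsd (2 * k + 1)) (fun s => x s * sg k s)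
    have h3 : ∑ s, ∑ t, x s * x t * (c ^ (2 * k + 1) / ((2 * k + 1).factorial : ℝ) *
        (sg k s * sg k t * Gm s t ^ (2 * k + 1))) =
        c ^ (2 * k + 1) / ((2 * k + 1).factorial : ℝ) *
        ∑ s, ∑ t, (x s * sg k s) * (x t * sg k t) *
          (Matrix.of fun i j => Gm i j ^ (2 * k + 1)) s t := by
      rw [Finset.mul_sum]
      refine Finset.sum_congr rfl fun s _ => ?_
      rw [Finset.mul_sum]
      refine Finset.sum_congr rfl fun t _ => ?_
      simp only [Matrix.of_apply]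
      ring
    rw [h3]
    exact mul_nonneg (by positivity) h2
  obtain ⟨N, F, hF⟩ := exists_vectors M hMpsd
  have hdiag : ∀ s, M s s = 1 := by
    intro s
    have h1 : M s s = Real.sinh (c * Gm s s) := if_pos rfl
    have h2 : Gm s s = 1 := by
      rw [hGap, real_inner_self_eq_norm_sq]
      rcases s with i | j
      · simp [w, hu]
      · simp [w, hv]
    rw [h1, h2, mul_one, hc, Real.sinh_arsinh]
  have hnorm : ∀ s, ‖F s‖ = 1 := by
    intro s
    have := hF s s
    rw [hdiag, real_inner_self_eq_norm_sq] at this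
    nlinarith [norm_nonneg (F s)]
  refine ⟨N, fun i => F (Sum.inl i), fun j => F (Sum.inr j), fun i => hnorm _, fun j => hnorm _,
    fun i j => ?_⟩
  rw [hF]
  have : M (Sum.inl i) (Sum.inr j) = Real.sin (c * Gm (Sum.inl i) (Sum.inr j)) := by
    simp [M]
  rw [this, hGap]
  simp [w]

/-- Grothendieck's identity, as a hypothesis. -/
def Identity : Prop :=
  ∀ (N : ℕ) (x y : EuclideanSpace ℝ (Fin N)), ‖x‖ = 1 → ‖y‖ = 1 →
    ∫ g, sgn (inner ℝ x g) * sgn (inner ℝ y g) ∂(stdGaussian (EuclideanSpace ℝ (Fin N))) =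
      2 / Real.pi * Real.arcsin (inner ℝ x y)

theorem krivine_of_identity (hid : Identity) {m n : ℕ} (A : Matrix (Fin m) (Fin n) ℝ) {H : Type}
    [NormedAddCommGroup H] [InnerProductSpace ℝ H] (u : Fin m → H) (v : Fin n → H)
    (hu : ∀ i, ‖u i‖ = 1) (hv : ∀ j, ‖v j‖ = 1) :
    |∑ i, ∑ j, A i j * ⟪u i, v j⟫_ℝ| ≤ Real.pi / (2 * Real.arsinh 1) * beta A := by
  obtain ⟨N, F, G, hF, hG, hFG⟩ := krivine_vectors u v hu hv
  set c := Real.arsinh 1 with hc
  have hc0 : 0 < c := Real.arsinh_pos_iff.2 one_pos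
  have hc1 : c ≤ 1 := by
    have h1 : (1 : ℝ) ≤ Real.sinh 1 := Real.self_le_sinh_iff.2 zero_le_one
    rw [hc]
    calc Real.arsinh 1 ≤ Real.arsinh (Real.sinh 1) := Real.arsinh_le_arsinh.2 h1
      _ = 1 := Real.arsinh_sinh 1
  have hpi := Real.pi_gt_three
  set γ := stdGaussian (EuclideanSpace ℝ (Fin N)) with hγ
  -- the pointwise bound
  have hmeas : ∀ x : EuclideanSpace ℝ (Fin N),
      Measurable fun g : EuclideanSpace ℝ (Fin N) => sgn (inner ℝ x g) := fun x =>
    measurable_sgn.comp (by fun_prop)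
  have hint : ∀ i j, Integrable (fun g => sgn (inner ℝ (F i) g) * sgn (inner ℝ (G j) g)) γ := by
    intro i j
    refine Integrable.of_bound ((hmeas _).mul (hmeas _)).aestronglyMeasurable 1 ?_
    filter_upwards with g
    rw [norm_mul, sgn_abs, sgn_abs, mul_one]
  have hval : ∀ i j, ⟪u i, v j⟫_ℝ = Real.pi / (2 * c) *
      ∫ g, sgn (inner ℝ (F i) g) * sgn (inner ℝ (G j) g) ∂γ := by
    intro i j
    rw [hid N (F i) (G j) (hF i) (hG j), hFG]
    have hz : |⟪u i, v j⟫_ℝ| ≤ 1 := by
      have := abs_real_inner_le_norm (u i) (v j)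
      rwa [hu, hv, mul_one] at this
    have hz' := abs_le.1 hz
    rw [Real.arcsin_sin (by nlinarith) (by nlinarith)]
    field_simp
  have hsum : ∑ i, ∑ j, A i j * ⟪u i, v j⟫_ℝ = Real.pi / (2 * c) *
      ∫ g, ∑ i, ∑ j, A i j * sgn (inner ℝ (F i) g) * sgn (inner ℝ (G j) g) ∂γ := by
    rw [integral_finsetSum]
    · rw [Finset.mul_sum]
      refine Finset.sum_congr rfl fun i _ => ?_
      rw [integral_finsetSum]
      · rw [Finset.mul_sum]
        refine Finset.sum_congr rfl fun j _ => ?_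
        rw [hval i j]
        simp_rw [mul_assoc (A i j)]
        rw [integral_const_mul]
        ring
      · intro j _
        simp_rw [mul_assoc (A i j)]
        exact (hint i j).const_mul _
    · intro i _
      refine integrable_finsetSum _ fun j _ => ?_
      simp_rw [mul_assoc (A i j)]
      exact (hint i j).const_mul _
  have hmain : |∫ g, ∑ i, ∑ j, A i j * sgn (inner ℝ (F i) g) * sgn (inner ℝ (G j) g) ∂γ| ≤
      beta A := by
    rw [← Real.norm_eq_abs]
    refine (norm_integral_le_integral_norm _).trans ?_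
    calc ∫ g, ‖∑ i, ∑ j, A i j * sgn (inner ℝ (F i) g) * sgn (inner ℝ (G j) g)‖ ∂γ
        ≤ ∫ _g, beta A ∂γ := by
          refine integral_mono_of_nonneg (Filter.Eventually.of_forall fun _ => norm_nonneg _)
            (integrable_const _) (Filter.Eventually.of_forall fun g => ?_)
          exact le_beta A (fun i => sgn (inner ℝ (F i) g)) (fun j => sgn (inner ℝ (G j) g))
            (fun i => (sgn_abs _).le) (fun j => (sgn_abs _).le)
      _ = beta A := by simp
  rw [hsum, abs_mul, abs_of_nonneg (by positivity)]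
  exact mul_le_mul_of_nonneg_left hmain (by positivity)

/-- Krivine's bound for unit vectors. -/
theorem krivine_unit {m n : ℕ} (A : Matrix (Fin m) (Fin n) ℝ) {H : Type}
    [NormedAddCommGroup H] [InnerProductSpace ℝ H] (u : Fin m → H) (v : Fin n → H)
    (hu : ∀ i, ‖u i‖ = 1) (hv : ∀ j, ‖v j‖ = 1) :
    |∑ i, ∑ j, A i j * ⟪u i, v j⟫_ℝ| ≤ Real.pi / (2 * Real.arsinh 1) * beta A :=
  krivine_of_identity (fun _ x y hx hy => grothendieck_identity x y hx hy) A u v hu hv

end Pool.Agent.KG.Kriv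

namespace Pool.Agent.KG

/-- **Krivine's bound** for the real Grothendieck constant. -/
theorem krivine : IsGrothendieckBound (Real.pi / (2 * Real.arsinh 1)) := by
  intro m n A H _ _ _ u v hu hv
  let u' : Fin m → WithLp 2 (H × EuclideanSpace ℝ (Fin 2)) := fun i => WithLp.toLp 2 (u i, !₂[√(1 - ‖u i‖ ^ 2), 0])
  let v' : Fin n → WithLp 2 (H × EuclideanSpace ℝ (Fin 2)) := fun j => WithLp.toLp 2 (v j, !₂[0, √(1 - ‖v j‖ ^ 2)])
  have hin : ∀ i j, inner ℝ (u' i) (v' j) = inner ℝ (u i) (v j) := by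
    intro i j
    simp [u', v', WithLp.prod_inner_apply, PiLp.inner_apply]
  have hu' : ∀ i, ‖u' i‖ = 1 := by
    intro i
    have h1 : (0 : ℝ) ≤ 1 - ‖u i‖ ^ 2 := by nlinarith [hu i, norm_nonneg (u i)]
    have h2 : ‖u' i‖ ^ 2 = 1 := by
      rw [← real_inner_self_eq_norm_sq, WithLp.prod_inner_apply]
      simp [u', EuclideanSpace.norm_sq_eq, Real.sq_sqrt h1]
    nlinarith [norm_nonneg (u' i)]
  have hv' : ∀ j, ‖v' j‖ = 1 := by
    intro j
    have h1 : (0 : ℝ) ≤ 1 - ‖v j‖ ^ 2 := by nlinarith [hv j, norm_nonneg (v j)]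
    have h2 : ‖v' j‖ ^ 2 = 1 := by
      rw [← real_inner_self_eq_norm_sq, WithLp.prod_inner_apply]
      simp [v', EuclideanSpace.norm_sq_eq, Real.sq_sqrt h1]
    nlinarith [norm_nonneg (v' j)]
  have h := Kriv.krivine_unit A u' v' hu' hv'
  simpa only [hin] using h

theorem exists_bound : ∃ K : ℝ, 0 < K ∧ IsGrothendieckBound K :=
  ⟨Real.pi / (2 * Real.arsinh 1),
    div_pos Real.pi_pos (mul_pos two_pos (Real.arsinh_pos_iff.2 one_pos)), krivine⟩

end Pool.Agent.KG
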