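import Pool.Agent.KG.GaussN

/-! The Hilbert space `L²(γ_n)`, polynomials of bounded degree in it, the third Wiener chaos
`H3` and the orthogonal projection `P3` on it. -/

open MeasureTheory ProbabilityTheory Real

namespace Pool.Agent.KG

/-- the Euclidean space `ℝ^n` -/
abbrev Ev (n : ℕ) := EuclideanSpace ℝ (Fin n)

/-- the standard Gaussian measure of `ℝ^n` -/
noncomputable abbrev gam (n : ℕ) : Measure (Ev n) := stdGaussian (Ev n)

/-- `L²(γ_n)` -/
noncomputable abbrev L2 (n : ℕ) := Lp ℝ 2 (gam n)

variable {n : ℕ}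

/-- coordinates, extended by the constant function `1` -/
noncomputable def coord (m : Option (Fin n)) (x : Ev n) : ℝ :=
  match m with
  | none => 1
  | some i => x i

/-- monomials of degree at most `k` -/
noncomputable def mono {k : ℕ} (m : Fin k → Option (Fin n)) (x : Ev n) : ℝ := ∏ i, coord (m i) x

lemma continuous_coord (m : Option (Fin n)) : Continuous (coord m : Ev n → ℝ) := by
  cases m with
  | none => exact continuous_const
  | some i =>
    have : (coord (some i) : Ev n → ℝ) = fun x => x i := rfl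
    rw [this]
    fun_prop

lemma continuous_mono {k : ℕ} (m : Fin k → Option (Fin n)) : Continuous (mono m : Ev n → ℝ) := by
  unfold mono
  exact continuous_finsetProd _ fun i _ => continuous_coord _

/-- polynomial growth implies integrability -/
lemma integrable_of_growth {f : Ev n → ℝ} (hf : AEStronglyMeasurable f (gam n)) {C : ℝ} {k : ℕ}
    (h : ∀ x, |f x| ≤ C * (1 + ‖x‖) ^ k) : Integrable f (gam n) := by
  have hi : Integrable (fun x : Ev n => C * (1 + ‖x‖) ^ k) (gam n) := by
    refine Integrable.const_mul ?_ C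
    simp_rw [add_pow, one_pow, one_mul]
    refine integrable_finsetSum _ fun i _ => ?_
    exact (integrable_norm_pow (E := Ev n) _).mul_const _
  exact hi.mono' hf (Filter.Eventually.of_forall fun x => by simpa using h x)

lemma memLp_of_growth {f : Ev n → ℝ} (hf : AEStronglyMeasurable f (gam n)) {C : ℝ} {k : ℕ}
    (h : ∀ x, |f x| ≤ C * (1 + ‖x‖) ^ k) : MemLp f 2 (gam n) := by
  rw [memLp_two_iff_integrable_sq hf]
  refine integrable_of_growth (C := C ^ 2) (k := k * 2) (hf.pow 2) fun x => ?_
  rw [abs_pow, pow_mul, ← mul_pow]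
  exact pow_le_pow_left₀ (abs_nonneg _) (h x) 2

lemma abs_coord_le (m : Option (Fin n)) (x : Ev n) : |coord m x| ≤ 1 + ‖x‖ := by
  cases m with
  | none => simp [coord]
  | some i =>
    have : |x i| ≤ ‖x‖ := by
      simpa using PiLp.norm_apply_le x i
    simp only [coord]
    linarith

lemma abs_mono_le {k : ℕ} (m : Fin k → Option (Fin n)) (x : Ev n) :
    |mono m x| ≤ 1 * (1 + ‖x‖) ^ k := by
  unfold mono
  rw [Finset.abs_prod, one_mul]
  calc ∏ i, |coord (m i) x| ≤ ∏ _i : Fin k, (1 + ‖x‖) :=
        Finset.prod_le_prod (fun i _ => abs_nonneg _) fun i _ => abs_coord_le _ _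
    _ = (1 + ‖x‖) ^ k := by simp

lemma memLp_mono {k : ℕ} (m : Fin k → Option (Fin n)) : MemLp (mono m) 2 (gam n) :=
  memLp_of_growth (continuous_mono m).aestronglyMeasurable (abs_mono_le m)

/-- polynomials of degree at most `k`, as a subspace of `L²(γ_n)` -/
noncomputable def V (n k : ℕ) : Submodule ℝ (L2 n) :=
  Submodule.span ℝ (Set.range fun m : Fin k → Option (Fin n) => (memLp_mono m).toLp (mono m))

instance finiteDimensional_V (n k : ℕ) : FiniteDimensional ℝ (V n k) :=
  FiniteDimensional.span_of_finite ℝ (Set.finite_range _)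

/-- the third Wiener chaos -/
noncomputable def H3 (n : ℕ) : Submodule ℝ (L2 n) := V n 3 ⊓ (V n 2)ᗮ

instance finiteDimensional_H3 (n : ℕ) : FiniteDimensional ℝ (H3 n) :=
  Submodule.finiteDimensional_inf_left _ _

/-- orthogonal projection of `L²(γ_n)` onto the third Wiener chaos -/
noncomputable def P3 (n : ℕ) : L2 n →L[ℝ] L2 n := (H3 n).starProjection

/-- the linear functional `⟨a,·⟩` as an element of `L²(γ_n)` -/
lemma memLp_lin (a : Ev n) : MemLp (fun x => (inner ℝ a x : ℝ)) 2 (gam n) := by
  refine memLp_of_growth (C := ‖a‖) (k := 1) (by fun_prop) fun x => ?_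
  rw [pow_one]
  refine (abs_real_inner_le_norm a x).trans ?_
  exact mul_le_mul_of_nonneg_left (by linarith [norm_nonneg x]) (norm_nonneg a)

/-- the linear functional `⟨a,·⟩` as an element of `L²(γ_n)` -/
noncomputable def lin (a : Ev n) : L2 n := (memLp_lin a).toLp _

/-- one dimensional normalised Hermite polynomial of degree 3 -/
noncomputable def h3 (t : ℝ) : ℝ := (t ^ 3 - 3 * t) / √6

lemma memLp_herm (e : Ev n) : MemLp (fun x => h3 (inner ℝ e x)) 2 (gam n) := by
  rw [memLp_two_iff_integrable_sq (by unfold h3; fun_prop)]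
  unfold h3
  have h : ∀ x : Ev n, (((inner ℝ e x : ℝ) ^ 3 - 3 * inner ℝ e x) / √6) ^ 2 =
      (1 / √6 ^ 2) * (inner ℝ e x) ^ 6 - (6 / √6 ^ 2) * (inner ℝ e x) ^ 4
        + (9 / √6 ^ 2) * (inner ℝ e x) ^ 2 := by
    intro x
    field_simp
    ring
  simp_rw [h]
  exact (((integrable_inner_pow e 6).const_mul _).sub ((integrable_inner_pow e 4).const_mul _)).add
    ((integrable_inner_pow e 2).const_mul _)

/-- `h3(⟨e,·⟩)` as an element of `L²(γ_n)` -/
noncomputable def herm (e : Ev n) : L2 n := (memLp_herm e).toLp _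

end Pool.Agent.KG
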