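import Pool.Agent.KG.Bound

open MeasureTheory ProbabilityTheory Real

namespace Pool.Agent.KG

variable {n : ℕ}

lemma norm_P3_sq_le (F : L2 n) : ‖P3 n F‖ ^ 2 ≤ ‖F‖ ^ 2 - ‖bar F‖ ^ 2 := by
  have h1 : P3 n F = P3 n (F - lin (bar F)) := by
    rw [map_sub, P3_lin, sub_zero]
  rw [h1]
  refine (pow_le_pow_left₀ (norm_nonneg _) (norm_P3_le _) 2).trans (le_of_eq ?_)
  rw [norm_sub_sq_real, norm_lin, real_inner_comm, ← inner_bar, real_inner_self_eq_norm_sq]
  ring

/-- M4a: lower bound for the numerator. -/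
theorem numer (ε : ℝ) (hε : 0 ≤ ε) (n : ℕ) (F : Fin n → L2 n)
    (hF : ∀ᵐ x ∂(gam n), ∑ i, F i x ^ 2 ≤ 1) (hn : 0 < n) (τ : ℝ) (hτ0 : 0 ≤ τ)
    (hτ : τ ≤ ∫ x, ∑ i, F i x * x i ∂(gam n)) :
    (1 + ε) * (τ ^ 2 / n) - ε ≤ ∑ i, B ε (F i) (F i) := by
  classical
  have hn0 : (0 : ℝ) < n := by exact_mod_cast hn
  have h1 : ∀ i, (1 + ε) * ‖bar (F i)‖ ^ 2 - ε * ‖F i‖ ^ 2 ≤ B ε (F i) (F i) := by
    intro i
    unfold B
    rw [real_inner_self_eq_norm_sq, real_inner_self_eq_norm_sq]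
    have := mul_le_mul_of_nonneg_left (norm_P3_sq_le (F i)) hε
    linarith
  have h2 : ∑ i, ‖F i‖ ^ 2 ≤ 1 := by
    have hi : ∀ i ∈ Finset.univ, Integrable (fun x => F i x ^ 2) (gam n) := by
      intro i _
      refine (integrable_mul_L2 (F i) (F i)).congr (Filter.Eventually.of_forall fun x => ?_)
      simp [sq]
    simp_rw [norm_sq_L2]
    rw [← integral_finsetSum _ hi]
    calc ∫ x, ∑ i, F i x ^ 2 ∂(gam n) ≤ ∫ _x, (1 : ℝ) ∂(gam n) :=
          integral_mono_ae (integrable_finsetSum _ hi) (integrable_const 1) hF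
      _ = 1 := by simp
  have hbi : ∀ i, bar (F i) i = ∫ x, F i x * x i ∂(gam n) := by
    intro i
    have h3 : bar (F i) i = inner ℝ (EuclideanSpace.single i (1 : ℝ)) (bar (F i)) := by
      simp [EuclideanSpace.inner_single_left]
    rw [h3, inner_bar, inner_L2]
    refine integral_congr_ae ?_
    filter_upwards [(memLp_lin (EuclideanSpace.single i (1 : ℝ))).coeFn_toLp] with x hx
    unfold lin
    rw [hx, EuclideanSpace.inner_single_left, mul_comm]
    simp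
  have hii : ∀ i ∈ Finset.univ, Integrable (fun x => F i x * x i) (gam n) := by
    intro i _
    refine (integrable_mul_L2 (F i) (lin (EuclideanSpace.single i (1 : ℝ)))).congr ?_
    filter_upwards [(memLp_lin (EuclideanSpace.single i (1 : ℝ))).coeFn_toLp] with x hx
    unfold lin
    rw [hx, EuclideanSpace.inner_single_left]
    simp
  have h4 : τ ≤ ∑ i, bar (F i) i := by
    simp_rw [hbi]
    rw [← integral_finsetSum _ hii]
    exact hτ
  have h5 : τ ^ 2 / n ≤ ∑ i, ‖bar (F i)‖ ^ 2 := by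
    rw [div_le_iff₀ hn0]
    have h6 : (∑ i, bar (F i) i) ^ 2 ≤ (Finset.univ : Finset (Fin n)).card *
        ∑ i, (bar (F i) i) ^ 2 := sq_sum_le_card_mul_sum_sq
    rw [Finset.card_univ, Fintype.card_fin] at h6
    have h7 : ∑ i, (bar (F i) i) ^ 2 ≤ ∑ i, ‖bar (F i)‖ ^ 2 := by
      refine Finset.sum_le_sum fun i _ => ?_
      have h8 : |bar (F i) i| ≤ ‖bar (F i)‖ := by
        simpa using PiLp.norm_apply_le (bar (F i)) i
      rw [← sq_abs]
      exact pow_le_pow_left₀ (abs_nonneg _) h8 2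
    have h9 : τ ^ 2 ≤ (∑ i, bar (F i) i) ^ 2 := pow_le_pow_left₀ hτ0 h4 2
    nlinarith
  have h10 := Finset.sum_le_sum fun i (_ : i ∈ Finset.univ) => h1 i
  rw [Finset.sum_sub_distrib, ← Finset.mul_sum, ← Finset.mul_sum] at h10
  have h11 := mul_le_mul_of_nonneg_left h5 (by linarith : (0 : ℝ) ≤ 1 + ε)
  have h12 := mul_le_mul_of_nonneg_left h2 hε
  linarith

end Pool.Agent.KG
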