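import Mathlib

/-! The pointwise splitting inequality behind the improved bounds for the real Grothendieck
constant. -/

namespace Pool.Agent.KG

/-- positive parts of `|E ± O| - s` -/
lemma pm_split {s g E O : ℝ} (hg : 0 < g) (hgs : g ≤ s / 2) {R : ℝ} (h0 : 0 ≤ R)
    (h1 : |E| - s + g ≤ R) (h2 : 2 * (|E| - s) ≤ R) :
    max (|E + O| - s) 0 + max (|E - O| - s) 0 ≤ R + O ^ 2 / (4 * g) := by
  have k1 : |O| - g ≤ O ^ 2 / (4 * g) := by
    rw [le_div_iff₀ (by positivity), ← sq_abs O]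
    nlinarith [sq_nonneg (|O| - 2 * g)]
  have k2 : 2 * |O| - 4 * g ≤ O ^ 2 / (4 * g) := by
    rw [le_div_iff₀ (by positivity), ← sq_abs O]
    nlinarith [sq_nonneg (|O| - 4 * g)]
  have k0 : 0 ≤ O ^ 2 / (4 * g) := by positivity
  have a1 : |E + O| ≤ |E| + |O| := abs_add_le E O
  have a2 : |E - O| ≤ |E| + |O| := abs_sub E O
  have a3 : |E + O| + |E - O| ≤ 2 * max (|E|) (|O|) := by
    rcases abs_cases (E + O) with ⟨h3, _⟩ | ⟨h3, _⟩ <;>
    rcases abs_cases (E - O) with ⟨h4, _⟩ | ⟨h4, _⟩ <;> rw [h3, h4]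
    · have := le_max_left (|E|) (|O|)
      linarith [le_abs_self E]
    · have := le_max_right (|E|) (|O|)
      linarith [le_abs_self O]
    · have := le_max_right (|E|) (|O|)
      linarith [neg_abs_le O]
    · have := le_max_left (|E|) (|O|)
      linarith [neg_abs_le E]
  rcases le_total (|E + O| - s) 0 with h3 | h3 <;> rcases le_total (|E - O| - s) 0 with h4 | h4
  · rw [max_eq_right h3, max_eq_right h4]
    linarith
  · rw [max_eq_right h3, max_eq_left h4]
    linarith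
  · rw [max_eq_left h3, max_eq_right h4]
    linarith
  · rw [max_eq_left h3, max_eq_left h4]
    rcases le_total (|E|) (|O|) with h5 | h5
    · rw [max_eq_right h5] at a3
      linarith
    · rw [max_eq_left h5] at a3
      linarith

/-- **the pointwise inequality** -/
theorem pointwise {s g κ z σ1 σ3 A r O : ℝ} (hs : 0 < s) (hg : 0 < g) (hgs : g ≤ s / 2)
    (hκ : 0 < κ) (hθ : 0 ≤ 1 - z / (2 * κ))
    (h1 : (1 - z / (2 * κ)) * σ1 ≤ s * (1 - 1 / (4 * κ)) - g)
    (h3 : (1 - z / (2 * κ)) * (σ1 + σ3) ≤ 2 * s * (1 - 1 / (2 * κ))) :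
    max (|A + r + O| - s) 0 + max (|A + r - O| - s) 0 ≤
      z ^ 2 / (4 * κ * s) * A ^ 2 + (1 - z / (2 * κ)) * max (|A| - σ1) 0
        + (1 - z / (2 * κ)) * max (|A| - σ3) 0 + z / s * (A * r) + κ / s * r ^ 2
        + O ^ 2 / (4 * g) := by
  set θ := 1 - z / (2 * κ) with hθd
  have hz : z / (2 * κ) = 1 - θ := by rw [hθd]; ring
  set y := r + z / (2 * κ) * A with hy
  have hE : A + r = θ * A + y := by rw [hy, hθd]; ring
  have hQ : z ^ 2 / (4 * κ * s) * A ^ 2 + z / s * (A * r) + κ / s * r ^ 2 = κ / s * y ^ 2 := by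
    rw [hy]
    field_simp
    ring
  have hE2 : |A + r| ≤ θ * |A| + |y| := by
    rw [hE]
    refine (abs_add_le _ _).trans ?_
    rw [abs_mul, abs_of_nonneg hθ]
  have m1 := le_max_left (|A| - σ1) 0
  have m3 := le_max_left (|A| - σ3) 0
  have n1 := le_max_right (|A| - σ1) 0
  have n3 := le_max_right (|A| - σ3) 0
  have p1 := mul_le_mul_of_nonneg_left m1 hθ
  have p3 := mul_le_mul_of_nonneg_left m3 hθ
  have q1 := mul_nonneg hθ n1
  have q3 := mul_nonneg hθ n3
  have hy1 : |y| - s / (4 * κ) ≤ κ / s * y ^ 2 := by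
    rw [← sq_abs y, sub_le_iff_le_add, div_mul_eq_mul_div, div_add_div _ _ hs.ne' (by positivity),
      le_div_iff₀ (by positivity)]
    nlinarith [sq_nonneg (2 * κ * |y| - s)]
  have hy2 : 2 * |y| - s / κ ≤ κ / s * y ^ 2 := by
    rw [← sq_abs y, sub_le_iff_le_add, div_mul_eq_mul_div, div_add_div _ _ hs.ne' (by positivity),
      le_div_iff₀ (by positivity)]
    nlinarith [sq_nonneg (κ * |y| - s)]
  have hy0 : 0 ≤ κ / s * y ^ 2 := by positivity
  have e1 : s * (1 - 1 / (4 * κ)) = s - s / (4 * κ) := by ring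
  have e2 : 2 * s * (1 - 1 / (2 * κ)) = 2 * s - s / κ := by
    field_simp
  have key := pm_split (s := s) (g := g) (E := A + r) (O := O) hg hgs
    (R := κ / s * y ^ 2 + θ * max (|A| - σ1) 0 + θ * max (|A| - σ3) 0)
    (by linarith) (by rw [e1] at h1; nlinarith) (by rw [e2] at h3; nlinarith)
  refine key.trans (le_of_eq ?_)
  rw [← hQ]
  ring

end Pool.Agent.KG
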