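import Pool.Agent.KG.Bound

/-! The projection of a bounded function on the third chaos: `‖P₃ v‖² ≤ 4/5` if `|v| ≤ 1`.

Five Gaussian vectors forming a regular pentagon, and the positivity of the noise operators. -/

open MeasureTheory ProbabilityTheory Real

namespace Pool.Agent.KG

variable {n : ℕ}

/-! ### four independent Gaussian vectors -/

/-- four independent standard Gaussian vectors -/
noncomputable abbrev gam4 (n : ℕ) : Measure ((Ev n × Ev n) × (Ev n × Ev n)) :=
  ((gam n).prod (gam n)).prod ((gam n).prod (gam n))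

/-- linear combinations of the four vectors -/
noncomputable def pt (c : Fin 4 → ℝ) (ω : (Ev n × Ev n) × (Ev n × Ev n)) : Ev n :=
  c 0 • ω.1.1 + c 1 • ω.1.2 + c 2 • ω.2.1 + c 3 • ω.2.2

lemma continuous_pt (c : Fin 4 → ℝ) : Continuous (pt c : _ → Ev n) := by
  unfold pt
  fun_prop

lemma measurable_pt (c : Fin 4 → ℝ) : Measurable (pt c : _ → Ev n) := (continuous_pt c).measurable

lemma char_one (u : Ev n) : ∫ x, Complex.exp (((inner ℝ u x : ℝ) : ℂ) * Complex.I) ∂(gam n) =
    Complex.exp (-(‖u‖ ^ 2 : ℝ) / 2) := by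
  have h := charFun_stdGaussian (E := Ev n) u
  rw [charFun_apply] at h
  have h2 : ∀ x : Ev n, (inner ℝ x u : ℝ) = inner ℝ u x := fun x => real_inner_comm _ _
  simp_rw [h2] at h
  rw [h]
  push_cast
  rfl

lemma char4 (u0 u1 u2 u3 : Ev n) :
    ∫ ω, Complex.exp (((inner ℝ u0 ω.1.1 + inner ℝ u1 ω.1.2 + inner ℝ u2 ω.2.1 +
      inner ℝ u3 ω.2.2 : ℝ) : ℂ) * Complex.I) ∂(gam4 n) =
    Complex.exp (-(‖u0‖ ^ 2 + ‖u1‖ ^ 2 + ‖u2‖ ^ 2 + ‖u3‖ ^ 2 : ℝ) / 2) := by
  have h1 : ∀ ω : (Ev n × Ev n) × (Ev n × Ev n),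
      Complex.exp (((inner ℝ u0 ω.1.1 + inner ℝ u1 ω.1.2 + inner ℝ u2 ω.2.1 +
      inner ℝ u3 ω.2.2 : ℝ) : ℂ) * Complex.I) =
      (Complex.exp (((inner ℝ u0 ω.1.1 : ℝ) : ℂ) * Complex.I) *
        Complex.exp (((inner ℝ u1 ω.1.2 : ℝ) : ℂ) * Complex.I)) *
      (Complex.exp (((inner ℝ u2 ω.2.1 : ℝ) : ℂ) * Complex.I) *
        Complex.exp (((inner ℝ u3 ω.2.2 : ℝ) : ℂ) * Complex.I)) := by
    intro ω
    rw [← Complex.exp_add, ← Complex.exp_add, ← Complex.exp_add]
    congr 1
    push_cast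
    ring
  simp_rw [h1]
  rw [integral_prod_mul (μ := (gam n).prod (gam n)) (ν := (gam n).prod (gam n))
    (fun p : Ev n × Ev n => Complex.exp (((inner ℝ u0 p.1 : ℝ) : ℂ) * Complex.I) *
        Complex.exp (((inner ℝ u1 p.2 : ℝ) : ℂ) * Complex.I))
    (fun p : Ev n × Ev n => Complex.exp (((inner ℝ u2 p.1 : ℝ) : ℂ) * Complex.I) *
        Complex.exp (((inner ℝ u3 p.2 : ℝ) : ℂ) * Complex.I)),
    integral_prod_mul (μ := gam n) (ν := gam n)
      (fun x : Ev n => Complex.exp (((inner ℝ u0 x : ℝ) : ℂ) * Complex.I))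
      (fun x : Ev n => Complex.exp (((inner ℝ u1 x : ℝ) : ℂ) * Complex.I)),
    integral_prod_mul (μ := gam n) (ν := gam n)
      (fun x : Ev n => Complex.exp (((inner ℝ u2 x : ℝ) : ℂ) * Complex.I))
      (fun x : Ev n => Complex.exp (((inner ℝ u3 x : ℝ) : ℂ) * Complex.I)),
    char_one, char_one, char_one, char_one, ← Complex.exp_add, ← Complex.exp_add,
    ← Complex.exp_add]
  congr 1
  push_cast
  ring

lemma char_pair (c d : Fin 4 → ℝ) (a b : Ev n) (hc : ∑ i, c i ^ 2 = 1) (hd : ∑ i, d i ^ 2 = 1) :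
    ∫ ω, Complex.exp (((inner ℝ a (pt c ω) + inner ℝ b (pt d ω) : ℝ) : ℂ) * Complex.I) ∂(gam4 n) =
    Complex.exp (-(‖a‖ ^ 2 + ‖b‖ ^ 2 + 2 * (∑ i, c i * d i) * inner ℝ a b : ℝ) / 2) := by
  have h1 : ∀ ω : (Ev n × Ev n) × (Ev n × Ev n), (inner ℝ a (pt c ω) + inner ℝ b (pt d ω) : ℝ) =
      inner ℝ (c 0 • a + d 0 • b) ω.1.1 + inner ℝ (c 1 • a + d 1 • b) ω.1.2 +
      inner ℝ (c 2 • a + d 2 • b) ω.2.1 + inner ℝ (c 3 • a + d 3 • b) ω.2.2 := by
    intro ω
    unfold pt
    simp only [inner_add_left, inner_add_right, inner_smul_left, inner_smul_right, conj_trivial]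
    ring
  simp_rw [h1]
  rw [char4]
  congr 1
  have h2 : ∀ r s : ℝ, ‖r • a + s • b‖ ^ 2 = r ^ 2 * ‖a‖ ^ 2 + 2 * (r * s) * inner ℝ a b +
      s ^ 2 * ‖b‖ ^ 2 := by
    intro r s
    rw [norm_add_sq_real, norm_smul, norm_smul, inner_smul_left, inner_smul_right, mul_pow,
      mul_pow, Real.norm_eq_abs, Real.norm_eq_abs, sq_abs, sq_abs]
    simp only [conj_trivial]
    ring
  rw [h2, h2, h2, h2]
  rw [Fin.sum_univ_four] at hc hd
  rw [Fin.sum_univ_four]
  have h3 : (c 0 ^ 2 * ‖a‖ ^ 2 + 2 * (c 0 * d 0) * inner ℝ a b + d 0 ^ 2 * ‖b‖ ^ 2 +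
      (c 1 ^ 2 * ‖a‖ ^ 2 + 2 * (c 1 * d 1) * inner ℝ a b + d 1 ^ 2 * ‖b‖ ^ 2) +
      (c 2 ^ 2 * ‖a‖ ^ 2 + 2 * (c 2 * d 2) * inner ℝ a b + d 2 ^ 2 * ‖b‖ ^ 2) +
      (c 3 ^ 2 * ‖a‖ ^ 2 + 2 * (c 3 * d 3) * inner ℝ a b + d 3 ^ 2 * ‖b‖ ^ 2) : ℝ) =
      ‖a‖ ^ 2 + ‖b‖ ^ 2 + 2 * (c 0 * d 0 + c 1 * d 1 + c 2 * d 2 + c 3 * d 3) * inner ℝ a b := by
    linear_combination ‖a‖ ^ 2 * hc + ‖b‖ ^ 2 * hd
  rw [h3]

instance : IsProbabilityMeasure (gam4 n) := by
  unfold gam4
  infer_instance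

/-- the joint law of two unit combinations depends only on their inner product -/
lemma map_pair {c d c' d' : Fin 4 → ℝ} (hc : ∑ i, c i ^ 2 = 1) (hd : ∑ i, d i ^ 2 = 1)
    (hc' : ∑ i, c' i ^ 2 = 1) (hd' : ∑ i, d' i ^ 2 = 1)
    (h : ∑ i, c i * d i = ∑ i, c' i * d' i) :
    (gam4 n).map (fun ω => (pt c ω, pt d ω)) = (gam4 n).map (fun ω => (pt c' ω, pt d' ω)) := by
  have hm : ∀ c d : Fin 4 → ℝ, Measurable (fun ω => ((pt c ω : Ev n), (pt d ω : Ev n))) :=
    fun c d => (measurable_pt c).prodMk (measurable_pt d)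
  have : IsProbabilityMeasure ((gam4 n).map (fun ω => ((pt c ω : Ev n), (pt d ω : Ev n)))) :=
    Measure.isProbabilityMeasure_map (hm c d).aemeasurable
  have : IsProbabilityMeasure ((gam4 n).map (fun ω => ((pt c' ω : Ev n), (pt d' ω : Ev n)))) :=
    Measure.isProbabilityMeasure_map (hm c' d').aemeasurable
  refine Measure.ext_of_charFunDual ?_
  ext L
  set a : Ev n := (InnerProductSpace.toDual ℝ (Ev n)).symm (L.comp (ContinuousLinearMap.inl ℝ _ _))
    with ha
  set b : Ev n := (InnerProductSpace.toDual ℝ (Ev n)).symm (L.comp (ContinuousLinearMap.inr ℝ _ _))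
    with hb
  have hL : ∀ x y : Ev n, L (x, y) = inner ℝ a x + inner ℝ b y := by
    intro x y
    rw [ha, hb, InnerProductSpace.toDual_symm_apply, InnerProductSpace.toDual_symm_apply]
    simp only [ContinuousLinearMap.comp_apply, ContinuousLinearMap.inl_apply,
      ContinuousLinearMap.inr_apply]
    rw [← map_add]
    simp
  have hLc : Continuous (fun v : Ev n × Ev n => Complex.exp ((L v : ℂ) * Complex.I)) := by
    have := L.continuous
    fun_prop
  rw [charFunDual_apply, charFunDual_apply, integral_map (hm c d).aemeasurable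
    hLc.aestronglyMeasurable, integral_map (hm c' d').aemeasurable hLc.aestronglyMeasurable]
  simp only [hL]
  rw [char_pair c d a b hc hd, char_pair c' d' a b hc' hd', h]

lemma map_pt {c : Fin 4 → ℝ} (hc : ∑ i, c i ^ 2 = 1) : (gam4 n).map (pt c) = gam n := by
  have : IsProbabilityMeasure ((gam4 n).map (pt c)) :=
    Measure.isProbabilityMeasure_map (measurable_pt c).aemeasurable
  refine Measure.ext_of_charFun ?_
  ext s
  rw [charFun_stdGaussian, charFun_apply, integral_map (measurable_pt c).aemeasurable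
    (by fun_prop)]
  have h := char_pair c c s (0 : Ev n) hc hc
  have h1 : ∀ ω : (Ev n × Ev n) × (Ev n × Ev n), (inner ℝ (pt c ω) s : ℝ) =
      inner ℝ s (pt c ω) + inner ℝ (0 : Ev n) (pt c ω) := by
    intro ω
    rw [real_inner_comm]
    simp
  simp_rw [h1]
  rw [h]
  congr 1
  simp

lemma mp_pt {c : Fin 4 → ℝ} (hc : ∑ i, c i ^ 2 = 1) :
    MeasurePreserving (pt c) (gam4 n) (gam n) := ⟨measurable_pt c, map_pt hc⟩

/-- the correlation of `w` at two unit combinations -/
noncomputable def cor (w : Ev n → ℝ) (c d : Fin 4 → ℝ) : ℝ :=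
  ∫ ω, w (pt c ω) * w (pt d ω) ∂(gam4 n)

lemma cor_congr {w : Ev n → ℝ} (hw : Measurable w) {c d c' d' : Fin 4 → ℝ}
    (hc : ∑ i, c i ^ 2 = 1) (hd : ∑ i, d i ^ 2 = 1)
    (hc' : ∑ i, c' i ^ 2 = 1) (hd' : ∑ i, d' i ^ 2 = 1)
    (h : ∑ i, c i * d i = ∑ i, c' i * d' i) : cor w c d = cor w c' d' := by
  have hm : ∀ c d : Fin 4 → ℝ, Measurable (fun ω => ((pt c ω : Ev n), (pt d ω : Ev n))) :=
    fun c d => (measurable_pt c).prodMk (measurable_pt d)
  have hF : Measurable (fun p : Ev n × Ev n => w p.1 * w p.2) := by fun_prop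
  have h1 : ∀ c d : Fin 4 → ℝ, cor w c d =
      ∫ p, w p.1 * w p.2 ∂((gam4 n).map (fun ω => (pt c ω, pt d ω))) := by
    intro c d
    rw [integral_map (hm c d).aemeasurable hF.aestronglyMeasurable]
    rfl
  rw [h1, h1, map_pair hc hd hc' hd' h]

lemma memLp_pt {w : Ev n → ℝ} (hw : MemLp w 2 (gam n)) {c : Fin 4 → ℝ}
    (hc : ∑ i, c i ^ 2 = 1) : MemLp (fun ω => w (pt c ω)) 2 (gam4 n) :=
  hw.comp_measurePreserving (mp_pt hc)

lemma integrable_pt {w : Ev n → ℝ} (hw : MemLp w 2 (gam n)) {c d : Fin 4 → ℝ}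
    (hc : ∑ i, c i ^ 2 = 1) (hd : ∑ i, d i ^ 2 = 1) :
    Integrable (fun ω => w (pt c ω) * w (pt d ω)) (gam4 n) :=
  (memLp_pt hw hc).integrable_mul (memLp_pt hw hd)

lemma cor_self {w : Ev n → ℝ} (hw : Measurable w) {c : Fin 4 → ℝ} (hc : ∑ i, c i ^ 2 = 1) :
    cor w c c = ∫ x, w x ^ 2 ∂(gam n) := by
  unfold cor
  rw [← map_pt hc, integral_map (measurable_pt c).aemeasurable
    (hw.pow_const 2).aestronglyMeasurable]
  simp_rw [sq]

lemma cor_neg {w : Ev n → ℝ} (hodd : ∀ x, w (-x) = -w x) (c d : Fin 4 → ℝ) :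
    cor w c (-d) = -cor w c d := by
  unfold cor
  rw [← integral_neg]
  refine integral_congr_ae (Filter.Eventually.of_forall fun ω => ?_)
  have h : (pt (-d) ω : Ev n) = -pt d ω := by
    unfold pt
    simp only [Pi.neg_apply, neg_smul]
    abel
  simp only [h, hodd]
  ring

/-- positivity of the noise operators -/
lemma cor_mono {w : Ev n → ℝ} (hw : Measurable w) (hw2 : MemLp w 2 (gam n)) {s s' r r' : ℝ}
    (hs : s ^ 2 + s' ^ 2 = 1) (hr : r ^ 2 + r' ^ 2 = 1) :
    cor w ![s, 0, s', 0] ![s * r, s * r', 0, s'] ≤ cor w ![s, 0, s', 0] ![s, 0, 0, s'] := by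
  have u1 : ∑ i, (![s, 0, s', 0] : Fin 4 → ℝ) i ^ 2 = 1 := by
    simp [Fin.sum_univ_four, hs]
  have u2 : ∑ i, (![s * r, s * r', s', 0] : Fin 4 → ℝ) i ^ 2 = 1 := by
    simp [Fin.sum_univ_four]
    linear_combination hs + s ^ 2 * hr
  have u3 : ∑ i, (![s, 0, 0, s'] : Fin 4 → ℝ) i ^ 2 = 1 := by
    simp [Fin.sum_univ_four, hs]
  have u4 : ∑ i, (![s * r, s * r', 0, s'] : Fin 4 → ℝ) i ^ 2 = 1 := by
    simp [Fin.sum_univ_four]
    linear_combination hs + s ^ 2 * hr
  have e1 : cor w ![s * r, s * r', s', 0] ![s * r, s * r', 0, s'] =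
      cor w ![s, 0, s', 0] ![s, 0, 0, s'] := by
    refine cor_congr hw u2 u4 u1 u3 ?_
    simp [Fin.sum_univ_four]
    linear_combination s ^ 2 * hr
  have e2 : cor w ![s * r, s * r', s', 0] ![s, 0, 0, s'] =
      cor w ![s, 0, s', 0] ![s * r, s * r', 0, s'] := by
    refine cor_congr hw u2 u3 u1 u4 ?_
    simp [Fin.sum_univ_four]
    ring
  have key : 0 ≤ ∫ ω, (w (pt ![s, 0, s', 0] ω) - w (pt ![s * r, s * r', s', 0] ω)) *
      (w (pt ![s, 0, 0, s'] ω) - w (pt ![s * r, s * r', 0, s'] ω)) ∂(gam4 n) := by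
    have hint : Integrable (fun ω => (w (pt ![s, 0, s', 0] ω) -
        w (pt ![s * r, s * r', s', 0] ω)) *
      (w (pt ![s, 0, 0, s'] ω) - w (pt ![s * r, s * r', 0, s'] ω))) (gam4 n) :=
      ((memLp_pt hw2 u1).sub (memLp_pt hw2 u2)).integrable_mul
        ((memLp_pt hw2 u3).sub (memLp_pt hw2 u4))
    rw [integral_prod _ hint]
    refine integral_nonneg fun g => ?_
    have h1 : ∀ p : Ev n × Ev n, (w (pt ![s, 0, s', 0] (g, p)) -
        w (pt ![s * r, s * r', s', 0] (g, p))) *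
      (w (pt ![s, 0, 0, s'] (g, p)) - w (pt ![s * r, s * r', 0, s'] (g, p))) =
      (w (s • g.1 + s' • p.1) - w ((s * r) • g.1 + (s * r') • g.2 + s' • p.1)) *
      (w (s • g.1 + s' • p.2) - w ((s * r) • g.1 + (s * r') • g.2 + s' • p.2)) := by
      intro p
      simp [pt]
    simp only [h1]
    rw [integral_prod_mul (μ := gam n) (ν := gam n)
      (fun y : Ev n => w (s • g.1 + s' • y) - w ((s * r) • g.1 + (s * r') • g.2 + s' • y))
      (fun y : Ev n => w (s • g.1 + s' • y) - w ((s * r) • g.1 + (s * r') • g.2 + s' • y))]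
    exact mul_self_nonneg _
  have hex : ∫ ω, (w (pt ![s, 0, s', 0] ω) - w (pt ![s * r, s * r', s', 0] ω)) *
      (w (pt ![s, 0, 0, s'] ω) - w (pt ![s * r, s * r', 0, s'] ω)) ∂(gam4 n) =
      cor w ![s, 0, s', 0] ![s, 0, 0, s'] + cor w ![s * r, s * r', s', 0] ![s * r, s * r', 0, s']
      - cor w ![s, 0, s', 0] ![s * r, s * r', 0, s'] -
      cor w ![s * r, s * r', s', 0] ![s, 0, 0, s'] := by
    unfold cor
    rw [← integral_comb4 (integrable_pt hw2 u1 u3) (integrable_pt hw2 u2 u4)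
      (integrable_pt hw2 u1 u4) (integrable_pt hw2 u2 u3)]
    refine integral_congr_ae (Filter.Eventually.of_forall fun ω => ?_)
    simp only
    ring
  rw [hex, e1, e2] at key
  linarith

/-! ### the pentagon -/

/-- `cos (π/5)` -/
noncomputable def pA : ℝ := (1 + √5) / 4

/-- `cos (2π/5)` -/
noncomputable def pB : ℝ := (√5 - 1) / 4

/-- `sin (2π/5)` -/
noncomputable def pS : ℝ := √(1 - pB ^ 2)

/-- `sin (π/5)` -/
noncomputable def pT : ℝ := √(1 - pA ^ 2)

lemma sqrt5_sq : √5 ^ 2 = 5 := Real.sq_sqrt (by norm_num)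

lemma sqrt5_gt : 2 < √5 := by
  rw [Real.lt_sqrt (by norm_num)]
  norm_num

lemma sqrt5_lt : √5 < 3 := by
  rw [Real.sqrt_lt' (by norm_num)]
  norm_num

lemma pAB : pA = pB + 1 / 2 := by
  unfold pA pB
  ring

lemma pA_sq : pA ^ 2 = (1 + pB) / 2 := by
  unfold pA pB
  linear_combination (1 / 16) * sqrt5_sq

lemma pB_sq : pB ^ 2 = (1 - pA) / 2 := by
  unfold pA pB
  linear_combination (1 / 16) * sqrt5_sq

lemma pA_mul_pB : pA * pB = 1 / 4 := by
  unfold pA pB
  linear_combination (1 / 16) * sqrt5_sq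

lemma pB_pos : 0 < pB := by
  unfold pB
  linarith [sqrt5_gt]

lemma pA_pos : 0 < pA := by
  unfold pA
  linarith [sqrt5_gt]

lemma pA_lt : pA < 1 := by
  unfold pA
  linarith [sqrt5_lt]

lemma pB_lt : pB < 1 := by
  unfold pB
  linarith [sqrt5_lt]

lemma pS_sq : pS ^ 2 = (1 + pA) / 2 := by
  unfold pS
  rw [Real.sq_sqrt (by nlinarith [pB_pos, pB_lt]), pB_sq]
  ring

lemma pT_sq : pT ^ 2 = (1 - pB) / 2 := by
  unfold pT
  rw [Real.sq_sqrt (by nlinarith [pA_pos, pA_lt]), pA_sq]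
  ring

lemma pS_mul_pT : pS * pT = (pA + pB) / 2 := by
  have h1 : 0 ≤ pS := Real.sqrt_nonneg _
  have h2 : 0 ≤ pT := Real.sqrt_nonneg _
  have h3 : (pS * pT) ^ 2 = ((pA + pB) / 2) ^ 2 := by
    rw [mul_pow, pS_sq, pT_sq]
    have := pA_mul_pB
    have h4 := pA_sq
    have h5 := pB_sq
    have h6 := pAB
    nlinarith
  have h4 : 0 ≤ (pA + pB) / 2 := by linarith [pA_pos, pB_pos]
  exact (pow_left_inj₀ (mul_nonneg h1 h2) h4 two_ne_zero).1 h3

/-- the vertices of the pentagon -/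
noncomputable def pcos : Fin 5 → ℝ := ![1, pB, -pA, -pA, pB]

/-- the vertices of the pentagon -/
noncomputable def psin : Fin 5 → ℝ := ![0, pS, pT, -pT, -pS]

/-- the vertices of the pentagon as unit combinations -/
noncomputable def pv (j : Fin 5) : Fin 4 → ℝ := ![pcos j, psin j, 0, 0]

lemma pv_unit (j : Fin 5) : ∑ i, pv j i ^ 2 = 1 := by
  have h1 := pA_sq
  have h2 := pB_sq
  have h3 := pS_sq
  have h4 := pT_sq
  fin_cases j <;> simp [Fin.sum_univ_four, pv, pcos, psin] <;> linarith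

lemma pent_le {w : Ev n → ℝ} (hw : Measurable w) (hw2 : MemLp w 2 (gam n))
    (hodd : ∀ x, w (-x) = -w x) :
    ∫ ω, (∑ j, w (pt (pv j) ω)) ^ 2 ∂(gam4 n) ≤ 5 * ∫ x, w x ^ 2 ∂(gam n) := by
  have h1 : ∫ ω, (∑ j, w (pt (pv j) ω)) ^ 2 ∂(gam4 n) = ∑ j, ∑ k, cor w (pv j) (pv k) := by
    have h2 : ∀ ω : (Ev n × Ev n) × (Ev n × Ev n), (∑ j, w (pt (pv j) ω)) ^ 2 =
        ∑ j, ∑ k, w (pt (pv j) ω) * w (pt (pv k) ω) := by
      intro ω
      rw [sq, Finset.sum_mul_sum]
    simp_rw [h2]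
    rw [integral_finsetSum _ fun j _ => integrable_finsetSum _ fun k _ =>
      integrable_pt hw2 (pv_unit j) (pv_unit k)]
    refine Finset.sum_congr rfl fun j _ => ?_
    rw [integral_finsetSum _ fun k _ => integrable_pt hw2 (pv_unit j) (pv_unit k)]
    rfl
  have q1 := pA_sq
  have q2 := pB_sq
  have q3 := pS_sq
  have q4 := pT_sq
  have q5 := pAB
  have q6 := pA_mul_pB
  have q7 := pS_mul_pT
  set R0 := ∫ x, w x ^ 2 ∂(gam n) with hR0
  set R1 := cor w (pv 0) (pv 1) with hR1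
  set R2 := cor w (pv 0) (pv 2) with hR2
  have t0 : ∀ j, cor w (pv j) (pv j) = R0 := fun j => cor_self hw (pv_unit j)
  have t1 : ∀ j k, ∑ i, pv j i * pv k i = pB → cor w (pv j) (pv k) = R1 := by
    intro j k h
    refine cor_congr hw (pv_unit j) (pv_unit k) (pv_unit 0) (pv_unit 1) ?_
    rw [h]
    simp [Fin.sum_univ_four, pv, pcos, psin]
  have t2 : ∀ j k, ∑ i, pv j i * pv k i = -pA → cor w (pv j) (pv k) = R2 := by
    intro j k h
    refine cor_congr hw (pv_unit j) (pv_unit k) (pv_unit 0) (pv_unit 2) ?_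
    rw [h]
    simp [Fin.sum_univ_four, pv, pcos, psin]
  have hsum : ∑ j, ∑ k, cor w (pv j) (pv k) = 5 * R0 + 10 * R1 + 10 * R2 := by
    simp only [Fin.sum_univ_five]
    rw [t0, t0, t0, t0, t0, t1 0 1, t1 1 0, t1 1 2, t1 2 1, t1 2 3, t1 3 2, t1 3 4, t1 4 3,
      t1 4 0, t1 0 4, t2 0 2, t2 2 0, t2 1 3, t2 3 1, t2 2 4, t2 4 2, t2 3 0, t2 0 3, t2 4 1,
      t2 1 4]
    · ring
    all_goals simp [Fin.sum_univ_four, pv, pcos, psin]
    all_goals nlinarith
  have hR2' : R2 = -cor w (pv 0) ![pA, -pT, 0, 0] := by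
    have h2 : pv 2 = -![pA, -pT, 0, 0] := by
      ext i
      fin_cases i <;> simp [pv, pcos, psin]
    rw [← cor_neg hodd, ← h2]
  have hmono : R1 ≤ cor w (pv 0) ![pA, -pT, 0, 0] := by
    set s := √pA with hs
    set s' := √(1 - pA) with hs'
    set r := pB / pA with hr
    set r' := √(1 - r ^ 2) with hr'
    have hs2 : s ^ 2 = pA := Real.sq_sqrt pA_pos.le
    have hs2' : s' ^ 2 = 1 - pA := Real.sq_sqrt (by linarith [pA_lt])
    have hr1 : 0 ≤ r := div_nonneg pB_pos.le pA_pos.le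
    have hr2 : r ≤ 1 := by
      rw [hr, div_le_one pA_pos]
      linarith
    have hr2' : r' ^ 2 = 1 - r ^ 2 := Real.sq_sqrt (by nlinarith)
    have hrA : pA * r = pB := by
      rw [hr]
      field_simp [pA_pos.ne']
    have h := cor_mono hw hw2 (s := s) (s' := s') (r := r) (r' := r') (by linarith)
      (by linarith)
    have u1 : ∑ i, (![s, 0, s', 0] : Fin 4 → ℝ) i ^ 2 = 1 := by
      simp [Fin.sum_univ_four]
      linarith
    have u3 : ∑ i, (![s, 0, 0, s'] : Fin 4 → ℝ) i ^ 2 = 1 := by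
      simp [Fin.sum_univ_four]
      linarith
    have u4 : ∑ i, (![s * r, s * r', 0, s'] : Fin 4 → ℝ) i ^ 2 = 1 := by
      simp [Fin.sum_univ_four]
      linear_combination hs2 + hs2' + s ^ 2 * hr2'
    have u5 : ∑ i, (![pA, -pT, 0, 0] : Fin 4 → ℝ) i ^ 2 = 1 := by
      simp [Fin.sum_univ_four]
      linarith
    have e1 : cor w ![s, 0, s', 0] ![s * r, s * r', 0, s'] = R1 := by
      refine cor_congr hw u1 u4 (pv_unit 0) (pv_unit 1) ?_
      simp [Fin.sum_univ_four, pv, pcos, psin]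
      linear_combination r * hs2 + hrA
    have e2 : cor w ![s, 0, s', 0] ![s, 0, 0, s'] = cor w (pv 0) ![pA, -pT, 0, 0] := by
      refine cor_congr hw u1 u3 (pv_unit 0) u5 ?_
      simp [Fin.sum_univ_four, pv, pcos, psin]
      linear_combination hs2
    rw [e1, e2] at h
    exact h
  rw [h1, hsum]
  linarith

/-! ### odd representatives of elements of the third chaos -/

lemma coord_neg (m : Option (Fin n)) (x : Ev n) :
    coord m (-x) = match m with
      | none => 1
      | some i => -x i := by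
  cases m with
  | none => rfl
  | some i => simp [coord]

lemma even_mem {f : Ev n → ℝ} (hf : f ∈ VF n 3) : (fun x => f x + f (-x)) ∈ VF n 2 := by
  unfold VF at hf
  induction hf using Submodule.span_induction with
  | mem x h =>
    obtain ⟨m, rfl⟩ := h
    have h2 : ∀ (c : ℝ) (m' : Fin 2 → Option (Fin n)),
        (∀ x : Ev n, mono m x + mono m (-x) = c * mono m' x) →
        (fun x : Ev n => mono m x + mono m (-x)) ∈ VF n 2 := by
      intro c m' h
      have h3 : (fun x : Ev n => mono m x + mono m (-x)) = c • mono m' := by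
        ext x
        simp [h]
      rw [h3]
      exact Submodule.smul_mem _ _ (Submodule.subset_span ⟨m', rfl⟩)
    rcases h0 : m 0 with _ | i <;> rcases h1 : m 1 with _ | j <;> rcases h2' : m 2 with _ | k
    · refine h2 2 ![none, none] fun x => ?_
      simp [mono, coord, Fin.prod_univ_three, Fin.prod_univ_two, h0, h1, h2']
      norm_num
    · refine h2 0 ![none, none] fun x => ?_
      simp [mono, coord, Fin.prod_univ_three, Fin.prod_univ_two, h0, h1, h2']
    · refine h2 0 ![none, none] fun x => ?_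
      simp [mono, coord, Fin.prod_univ_three, Fin.prod_univ_two, h0, h1, h2']
    · refine h2 2 ![some j, some k] fun x => ?_
      simp [mono, coord, Fin.prod_univ_three, Fin.prod_univ_two, h0, h1, h2']
      ring
    · refine h2 0 ![none, none] fun x => ?_
      simp [mono, coord, Fin.prod_univ_three, Fin.prod_univ_two, h0, h1, h2']
    · refine h2 2 ![some i, some k] fun x => ?_
      simp [mono, coord, Fin.prod_univ_three, Fin.prod_univ_two, h0, h1, h2']
      ring
    · refine h2 2 ![some i, some j] fun x => ?_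
      simp [mono, coord, Fin.prod_univ_three, Fin.prod_univ_two, h0, h1, h2']
      ring
    · refine h2 0 ![none, none] fun x => ?_
      simp [mono, coord, Fin.prod_univ_three, Fin.prod_univ_two, h0, h1, h2']
  | zero =>
    have h : (fun x : Ev n => (0 : Ev n → ℝ) x + (0 : Ev n → ℝ) (-x)) = 0 := by
      ext x
      simp
    rw [h]
    exact Submodule.zero_mem (VF n 2)
  | add f g _ _ hf hg =>
    have h := Submodule.add_mem _ hf hg
    have h2 : (fun x => (f + g) x + (f + g) (-x)) =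
        (fun x => f x + f (-x)) + fun x => g x + g (-x) := by
      ext x
      simp only [Pi.add_apply]
      ring
    rw [h2]
    exact h
  | smul c f _ hf =>
    have h := Submodule.smul_mem _ c hf
    have h2 : (fun x => (c • f) x + (c • f) (-x)) = c • fun x => f x + f (-x) := by
      ext x
      simp only [Pi.smul_apply, smul_eq_mul]
      ring
    rw [h2]
    exact h

lemma sum_mono_three (a0 a1 a2 b0 b1 b2 : ℝ) :
    ∑ j, (pcos j * a0 + psin j * b0) * ((pcos j * a1 + psin j * b1) *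
      (pcos j * a2 + psin j * b2)) = 0 := by
  have q1 := pA_sq
  have q2 := pB_sq
  have q3 := pS_sq
  have q4 := pT_sq
  have q5 := pAB
  have q6 := pA_mul_pB
  simp only [Fin.sum_univ_five]
  simp only [pcos, psin, Matrix.cons_val_zero, Matrix.cons_val_one, Matrix.cons_val]
  have e1 : pA ^ 3 = pB ^ 3 + 1 / 2 := by
    linear_combination pA * q1 - pB * q2 + q6 + (1 / 2) * q5
  have e2 : pB * pS ^ 2 = pA * pT ^ 2 := by
    rw [q3, q4]
    linear_combination (-1 / 2) * q5 + q6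
  linear_combination (-2 * (a0 * a1 * a2)) * e1 +
    2 * (a0 * b1 * b2 + a1 * b0 * b2 + a2 * b0 * b1) * e2

lemma sum_mono_one (a b : ℝ) : ∑ j, (pcos j * a + psin j * b) = 0 := by
  have q5 := pAB
  simp only [Fin.sum_univ_five]
  simp only [pcos, psin, Matrix.cons_val_zero, Matrix.cons_val_one, Matrix.cons_val]
  linear_combination (-2 * a) * q5

lemma pent_sum {f : Ev n → ℝ} (hf : f ∈ VF n 3) (x y : Ev n) :
    ∑ j, (f (pcos j • x + psin j • y) - f (-(pcos j • x + psin j • y))) = 0 := by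
  unfold VF at hf
  induction hf using Submodule.span_induction with
  | mem f h =>
    obtain ⟨m, rfl⟩ := h
    rcases h0 : m 0 with _ | i <;> rcases h1 : m 1 with _ | j <;> rcases h2' : m 2 with _ | k
    · refine Finset.sum_eq_zero fun l _ => ?_
      simp [mono, coord, Fin.prod_univ_three, h0, h1, h2']
    · have h := sum_mono_one (x k) (y k)
      have h3 : ∀ l, mono m (pcos l • x + psin l • y) - mono m (-(pcos l • x + psin l • y)) =
          2 * (pcos l * x k + psin l * y k) := by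
        intro l
        simp [mono, coord, Fin.prod_univ_three, h0, h1, h2']
        ring
      simp_rw [h3]
      rw [← Finset.mul_sum, h, mul_zero]
    · have h := sum_mono_one (x j) (y j)
      have h3 : ∀ l, mono m (pcos l • x + psin l • y) - mono m (-(pcos l • x + psin l • y)) =
          2 * (pcos l * x j + psin l * y j) := by
        intro l
        simp [mono, coord, Fin.prod_univ_three, h0, h1, h2']
        ring
      simp_rw [h3]
      rw [← Finset.mul_sum, h, mul_zero]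
    · refine Finset.sum_eq_zero fun l _ => ?_
      simp [mono, coord, Fin.prod_univ_three, h0, h1, h2']
      ring
    · have h := sum_mono_one (x i) (y i)
      have h3 : ∀ l, mono m (pcos l • x + psin l • y) - mono m (-(pcos l • x + psin l • y)) =
          2 * (pcos l * x i + psin l * y i) := by
        intro l
        simp [mono, coord, Fin.prod_univ_three, h0, h1, h2']
        ring
      simp_rw [h3]
      rw [← Finset.mul_sum, h, mul_zero]
    · refine Finset.sum_eq_zero fun l _ => ?_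
      simp [mono, coord, Fin.prod_univ_three, h0, h1, h2']
      ring
    · refine Finset.sum_eq_zero fun l _ => ?_
      simp [mono, coord, Fin.prod_univ_three, h0, h1, h2']
      ring
    · have h := sum_mono_three (x i) (x j) (x k) (y i) (y j) (y k)
      have h3 : ∀ l, mono m (pcos l • x + psin l • y) - mono m (-(pcos l • x + psin l • y)) =
          2 * ((pcos l * x i + psin l * y i) * ((pcos l * x j + psin l * y j) *
            (pcos l * x k + psin l * y k))) := by
        intro l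
        simp [mono, coord, Fin.prod_univ_three, h0, h1, h2']
        ring
      simp_rw [h3]
      rw [← Finset.mul_sum, h, mul_zero]
  | zero => simp
  | add f g _ _ hf hg =>
    have h2 : ∀ j, (f + g) (pcos j • x + psin j • y) - (f + g) (-(pcos j • x + psin j • y)) =
        (f (pcos j • x + psin j • y) - f (-(pcos j • x + psin j • y))) +
        (g (pcos j • x + psin j • y) - g (-(pcos j • x + psin j • y))) := by
      intro j
      simp only [Pi.add_apply]
      ring
    simp_rw [h2]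
    rw [Finset.sum_add_distrib, hf, hg, add_zero]
  | smul c f _ hf =>
    have h2 : ∀ j, (c • f) (pcos j • x + psin j • y) - (c • f) (-(pcos j • x + psin j • y)) =
        c * (f (pcos j • x + psin j • y) - f (-(pcos j • x + psin j • y))) := by
      intro j
      simp only [Pi.smul_apply, smul_eq_mul]
      ring
    simp_rw [h2]
    rw [← Finset.mul_sum, hf, mul_zero]

lemma exists_odd_rep {h : L2 n} (hh : h ∈ H3 n) : ∃ q : Ev n → ℝ, PG q ∧
    (∀ x, q (-x) = -q x) ∧ h =ᵐ[gam n] q ∧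
    ∀ x y : Ev n, ∑ j, q (pcos j • x + psin j • y) = 0 := by
  obtain ⟨hV, hO⟩ := hh
  obtain ⟨f, hf, hfh⟩ := exists_rep hV
  have hpf := pg_of_mem hf
  have hpn : PG (fun x => f (-x)) := by
    obtain ⟨hc, C, k, hk⟩ := hpf
    exact ⟨hc.comp continuous_neg, C, k, fun x => by simpa using hk (-x)⟩
  set o : Ev n → ℝ := fun x => (1 / 2) * (f x + -1 * f (-x)) with ho
  set e : Ev n → ℝ := fun x => f x + f (-x) with he
  have po : PG o := (PG.const _).mul (hpf.add ((PG.const (-1)).mul hpn))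
  have pe : PG e := hpf.add hpn
  have hodd : ∀ x, o (-x) = -o x := by
    intro x
    simp only [ho, neg_neg]
    ring
  have heven : ∀ x, e (-x) = e x := by
    intro x
    simp only [he, neg_neg]
    ring
  have hfo : ∀ x, f x = o x + (1 / 2) * e x := by
    intro x
    simp only [ho, he]
    ring
  have hint : ∫ x, f x * e x ∂(gam n) = 0 := by
    have hm := toLp_mem (even_mem hf) pe.memLp
    have h0 : (inner ℝ (pe.memLp.toLp e) h : ℝ) = 0 := (Submodule.mem_orthogonal _ _).1 hO _ hm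
    rw [inner_L2] at h0
    rw [← h0]
    refine integral_congr_ae ?_
    filter_upwards [hfh, pe.memLp.coeFn_toLp] with x hx hx'
    rw [hx, hx']
    ring
  have hoe : ∫ x, o x * e x ∂(gam n) = 0 := integral_odd _ fun x => by
    rw [hodd, heven]
    ring
  have hee : ∫ x, e x ^ 2 ∂(gam n) = 0 := by
    have h1 : ∀ x, f x * e x = o x * e x + (1 / 2) * e x ^ 2 := by
      intro x
      rw [hfo]
      ring
    simp_rw [h1] at hint
    have i2 : Integrable (fun x => e x ^ 2) (gam n) := by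
      have := (pe.mul pe).integrable
      refine this.congr (Filter.Eventually.of_forall fun x => ?_)
      simp only
      ring
    rw [integral_add (po.mul pe).integrable (i2.const_mul _), integral_const_mul, hoe] at hint
    linarith
  have he0 : ∀ᵐ x ∂(gam n), e x = 0 := by
    have i2 : Integrable (fun x => e x ^ 2) (gam n) := by
      have := (pe.mul pe).integrable
      refine this.congr (Filter.Eventually.of_forall fun x => ?_)
      simp only
      ring
    have := (integral_eq_zero_iff_of_nonneg (fun x => sq_nonneg (e x)) i2).1 hee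
    filter_upwards [this] with x hx
    simpa using hx
  refine ⟨o, po, hodd, ?_, fun x y => ?_⟩
  · filter_upwards [hfh, he0] with x hx hx'
    rw [hx, hfo, hx']
    ring
  · have h := pent_sum hf x y
    have h2 : ∀ j, o (pcos j • x + psin j • y) =
        (1 / 2) * (f (pcos j • x + psin j • y) - f (-(pcos j • x + psin j • y))) := by
      intro j
      simp only [ho]
      ring
    simp_rw [h2]
    rw [← Finset.mul_sum, h, mul_zero]

/-- an affine function on `[-1,1]` is at least its values at the end points -/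
lemma aff {F : ℝ → ℝ} {c : ℝ} (hF : ∀ t, F t = (F 1 + F (-1)) / 2 + (F 1 - F (-1)) / 2 * t)
    (h1 : c ≤ F 1) (h2 : c ≤ F (-1)) {t : ℝ} (ht : |t| ≤ 1) : c ≤ F t := by
  rw [abs_le] at ht
  rw [hF]
  nlinarith [mul_nonneg (sub_nonneg.2 h1) (by linarith : 0 ≤ 1 + t),
    mul_nonneg (sub_nonneg.2 h2) (by linarith : 0 ≤ 1 - t)]

/-- the sum of products of pairs -/
def e2s (a b c d e : ℝ) : ℝ :=
  a * b + a * c + a * d + a * e + b * c + b * d + b * e + c * d + c * e + d * e

/-- the pointwise inequality -/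
lemma pent_pointwise (v : Fin 5 → ℝ) (hv : ∀ j, |v j| ≤ 1) :
    ∑ j, v j ^ 2 - 4 ≤ (∑ j, v j) ^ 2 := by
  have s0 : ∀ a b c d e : ℝ, (a = 1 ∨ a = -1) → (b = 1 ∨ b = -1) → (c = 1 ∨ c = -1) →
      (d = 1 ∨ d = -1) → (e = 1 ∨ e = -1) → -2 ≤ e2s a b c d e := by
    intro a b c d e ha hb hc hd he
    unfold e2s
    rcases ha with rfl | rfl <;> rcases hb with rfl | rfl <;> rcases hc with rfl | rfl <;>
      rcases hd with rfl | rfl <;> rcases he with rfl | rfl <;> norm_num
  have s1 : ∀ a b c d e : ℝ, |a| ≤ 1 → (b = 1 ∨ b = -1) → (c = 1 ∨ c = -1) →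
      (d = 1 ∨ d = -1) → (e = 1 ∨ e = -1) → -2 ≤ e2s a b c d e := by
    intro a b c d e ha hb hc hd he
    exact aff (F := fun t => e2s t b c d e) (fun t => by unfold e2s; ring)
      (s0 _ _ _ _ _ (Or.inl rfl) hb hc hd he) (s0 _ _ _ _ _ (Or.inr rfl) hb hc hd he) ha
  have s2 : ∀ a b c d e : ℝ, |a| ≤ 1 → |b| ≤ 1 → (c = 1 ∨ c = -1) →
      (d = 1 ∨ d = -1) → (e = 1 ∨ e = -1) → -2 ≤ e2s a b c d e := by
    intro a b c d e ha hb hc hd he
    exact aff (F := fun t => e2s a t c d e) (fun t => by unfold e2s; ring)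
      (s1 _ _ _ _ _ ha (Or.inl rfl) hc hd he) (s1 _ _ _ _ _ ha (Or.inr rfl) hc hd he) hb
  have s3 : ∀ a b c d e : ℝ, |a| ≤ 1 → |b| ≤ 1 → |c| ≤ 1 →
      (d = 1 ∨ d = -1) → (e = 1 ∨ e = -1) → -2 ≤ e2s a b c d e := by
    intro a b c d e ha hb hc hd he
    exact aff (F := fun t => e2s a b t d e) (fun t => by unfold e2s; ring)
      (s2 _ _ _ _ _ ha hb (Or.inl rfl) hd he) (s2 _ _ _ _ _ ha hb (Or.inr rfl) hd he) hc
  have s4 : ∀ a b c d e : ℝ, |a| ≤ 1 → |b| ≤ 1 → |c| ≤ 1 → |d| ≤ 1 →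
      (e = 1 ∨ e = -1) → -2 ≤ e2s a b c d e := by
    intro a b c d e ha hb hc hd he
    exact aff (F := fun t => e2s a b c t e) (fun t => by unfold e2s; ring)
      (s3 _ _ _ _ _ ha hb hc (Or.inl rfl) he) (s3 _ _ _ _ _ ha hb hc (Or.inr rfl) he) hd
  have s5 : ∀ a b c d e : ℝ, |a| ≤ 1 → |b| ≤ 1 → |c| ≤ 1 → |d| ≤ 1 → |e| ≤ 1 →
      -2 ≤ e2s a b c d e := by
    intro a b c d e ha hb hc hd he
    exact aff (F := fun t => e2s a b c d t) (fun t => by unfold e2s; ring)
      (s4 _ _ _ _ _ ha hb hc hd (Or.inl rfl)) (s4 _ _ _ _ _ ha hb hc hd (Or.inr rfl)) he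
  have h := s5 (v 0) (v 1) (v 2) (v 3) (v 4) (hv 0) (hv 1) (hv 2) (hv 3) (hv 4)
  unfold e2s at h
  simp only [Fin.sum_univ_five]
  nlinarith [h]

/-- bounded functions have small third chaos -/
theorem pent (v : L2 n) (hv : ∀ᵐ x ∂(gam n), |v x| ≤ 1) : ‖P3 n v‖ ^ 2 ≤ 4 / 5 := by
  obtain ⟨q, pq, hodd, hq, hsum⟩ := exists_odd_rep (P3_mem v)
  have hvm : Measurable (v : Ev n → ℝ) := (Lp.stronglyMeasurable v).measurable
  set f : Ev n → ℝ := fun x => (1 / 2) * (v x - v (-x)) with hf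
  have hfm : Measurable f := by
    have : Measurable (fun x : Ev n => v (-x)) := hvm.comp measurable_neg
    fun_prop
  have hfodd : ∀ x, f (-x) = -f x := by
    intro x
    simp only [hf, neg_neg]
    ring
  have hneg : MeasurePreserving (fun x : Ev n => -x) (gam n) (gam n) :=
    ⟨measurable_neg, map_neg_gam⟩
  have hfb : ∀ᵐ x ∂(gam n), |f x| ≤ 1 := by
    filter_upwards [hv, hneg.quasiMeasurePreserving.ae hv] with x h1 h2
    rw [abs_le] at h1 h2 ⊢
    simp only [hf]
    constructor <;> linarith [h1.1, h1.2, h2.1, h2.2]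
  have hf2 : MemLp f 2 (gam n) := MemLp.of_bound hfm.aestronglyMeasurable 1 hfb
  have hqm : Measurable q := pq.continuous.measurable
  set w : Ev n → ℝ := fun x => f x - q x with hw
  have hwm : Measurable w := hfm.sub hqm
  have hw2 : MemLp w 2 (gam n) := hf2.sub pq.memLp
  have hwodd : ∀ x, w (-x) = -w x := by
    intro x
    simp only [hw, hfodd, hodd]
    ring
  -- the norm of `w`
  have iff' : Integrable (fun x => f x ^ 2) (gam n) :=
    (memLp_two_iff_integrable_sq hfm.aestronglyMeasurable).1 hf2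
  have iqq : Integrable (fun x => q x ^ 2) (gam n) :=
    (memLp_two_iff_integrable_sq hqm.aestronglyMeasurable).1 pq.memLp
  have ifq : Integrable (fun x => f x * q x) (gam n) := hf2.integrable_mul pq.memLp
  have hqq : ∫ x, q x ^ 2 ∂(gam n) = ‖P3 n v‖ ^ 2 := by
    rw [norm_sq_L2]
    refine integral_congr_ae ?_
    filter_upwards [hq] with x hx
    rw [hx]
  have hfq : ∫ x, f x * q x ∂(gam n) = ‖P3 n v‖ ^ 2 := by
    rw [← inner_P3_self, inner_L2]
    have h1 : ∫ x, v x * P3 n v x ∂(gam n) = ∫ x, v x * q x ∂(gam n) := by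
      refine integral_congr_ae ?_
      filter_upwards [hq] with x hx
      rw [hx]
    rw [h1]
    have ivq : Integrable (fun x => v x * q x) (gam n) :=
      (Lp.memLp v).integrable_mul pq.memLp
    have ivq' : Integrable (fun x => v (-x) * q x) (gam n) := by
      have h2 := (hneg.integrable_comp ivq.aestronglyMeasurable).2 ivq
      refine h2.neg.congr (Filter.Eventually.of_forall fun x => ?_)
      simp only [Function.comp, Pi.neg_apply, hodd]
      ring
    have h2 : ∫ x, v (-x) * q x ∂(gam n) = -∫ x, v x * q x ∂(gam n) := by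
      have h3 := integral_neg_gam (fun x : Ev n => v x * q x)
      rw [← h3, ← integral_neg]
      refine integral_congr_ae (Filter.Eventually.of_forall fun x => ?_)
      simp only [hodd]
      ring
    have h3 : ∀ x, f x * q x = (1 / 2) * (v x * q x) - (1 / 2) * (v (-x) * q x) := by
      intro x
      simp only [hf]
      ring
    simp_rw [h3]
    rw [integral_sub (ivq.const_mul _) (ivq'.const_mul _), integral_const_mul,
      integral_const_mul, h2]
    ring
  have hww : ∫ x, w x ^ 2 ∂(gam n) = ∫ x, f x ^ 2 ∂(gam n) - ‖P3 n v‖ ^ 2 := by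
    have h1 : ∀ x, w x ^ 2 = f x ^ 2 - 2 * (f x * q x) + q x ^ 2 := by
      intro x
      simp only [hw]
      ring
    simp_rw [h1]
    have i1 : Integrable (fun x => f x ^ 2 - 2 * (f x * q x)) (gam n) := iff'.sub (ifq.const_mul _)
    rw [integral_add i1 iqq, integral_sub iff' (ifq.const_mul _), integral_const_mul, hqq, hfq]
    ring
  -- the pentagon
  have hpt : ∀ j (ω : (Ev n × Ev n) × (Ev n × Ev n)),
      pt (pv j) ω = pcos j • ω.1.1 + psin j • ω.1.2 := by
    intro j ω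
    simp [pt, pv]
  have hle := pent_le hwm hw2 hwodd
  have h1 : ∀ ω : (Ev n × Ev n) × (Ev n × Ev n), ∑ j, w (pt (pv j) ω) = ∑ j, f (pt (pv j) ω) := by
    intro ω
    simp only [hw]
    rw [Finset.sum_sub_distrib]
    have := hsum ω.1.1 ω.1.2
    simp only [hpt]
    rw [this, sub_zero]
  simp_rw [h1] at hle
  have hae : ∀ᵐ ω ∂(gam4 n), ∀ j, |f (pt (pv j) ω)| ≤ 1 := by
    rw [ae_all_iff]
    intro j
    exact (mp_pt (pv_unit j)).quasiMeasurePreserving.ae hfb
  have isq : ∀ j, Integrable (fun ω => f (pt (pv j) ω) ^ 2) (gam4 n) := by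
    intro j
    refine (integrable_pt hf2 (pv_unit j) (pv_unit j)).congr
      (Filter.Eventually.of_forall fun ω => ?_)
    simp only
    ring
  have hjs : ∀ j, ∫ ω, f (pt (pv j) ω) ^ 2 ∂(gam4 n) = ∫ x, f x ^ 2 ∂(gam n) := by
    intro j
    rw [← cor_self hfm (pv_unit j)]
    unfold cor
    refine integral_congr_ae (Filter.Eventually.of_forall fun ω => ?_)
    simp only
    ring
  have isum : Integrable (fun ω => (∑ j, f (pt (pv j) ω)) ^ 2) (gam4 n) := by
    have h2 : ∀ ω : (Ev n × Ev n) × (Ev n × Ev n), (∑ j, f (pt (pv j) ω)) ^ 2 =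
        ∑ j, ∑ k, f (pt (pv j) ω) * f (pt (pv k) ω) := by
      intro ω
      rw [sq, Finset.sum_mul_sum]
    simp_rw [h2]
    exact integrable_finsetSum _ fun j _ => integrable_finsetSum _ fun k _ =>
      integrable_pt hf2 (pv_unit j) (pv_unit k)
  have hlow : 5 * ∫ x, f x ^ 2 ∂(gam n) - 4 ≤ ∫ ω, (∑ j, f (pt (pv j) ω)) ^ 2 ∂(gam4 n) := by
    have h2 : ∫ ω, (∑ j, f (pt (pv j) ω) ^ 2 - 4) ∂(gam4 n) = 5 * ∫ x, f x ^ 2 ∂(gam n) - 4 := by
      have i1 : Integrable (fun ω => ∑ j, f (pt (pv j) ω) ^ 2) (gam4 n) :=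
        integrable_finsetSum _ fun j _ => isq j
      rw [integral_sub i1 (integrable_const _), integral_finsetSum _ fun j _ => isq j]
      simp_rw [hjs]
      simp
    rw [← h2]
    refine integral_mono_ae ?_ isum ?_
    · exact (integrable_finsetSum _ fun j _ => isq j).sub (integrable_const _)
    · filter_upwards [hae] with ω hω
      exact pent_pointwise _ hω
  rw [hww] at hle
  linarith

end Pool.Agent.KG
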