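import Pool.Agent.KG.L2

/-! Rotation invariance of the Gaussian measure: slicing in the direction of a unit vector. -/

open MeasureTheory ProbabilityTheory Real

namespace Pool.Agent.KG

variable {n : ℕ}

/-- the point `t e + (y - ⟨e,y⟩ e)` -/
noncomputable def slp (e : Ev n) (p : ℝ × Ev n) : Ev n :=
  p.1 • e + (p.2 - (inner ℝ e p.2 : ℝ) • e)

lemma continuous_slp (e : Ev n) : Continuous (slp e) := by
  unfold slp
  fun_prop

lemma measurable_slp (e : Ev n) : Measurable (slp e) := (continuous_slp e).measurable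

/-- M2a: rotation invariance, slicing in direction `e`. -/
theorem map_slice (e : Ev n) (he : ‖e‖ = 1) :
    (g1.prod (gam n)).map (fun p : ℝ × Ev n => p.1 • e + (p.2 - (inner ℝ e p.2 : ℝ) • e)) =
      gam n := by
  have hm : Measurable (fun p : ℝ × Ev n => p.1 • e + (p.2 - (inner ℝ e p.2 : ℝ) • e)) :=
    measurable_slp e
  have : IsProbabilityMeasure ((g1.prod (gam n)).map
      (fun p : ℝ × Ev n => p.1 • e + (p.2 - (inner ℝ e p.2 : ℝ) • e))) :=
    Measure.isProbabilityMeasure_map hm.aemeasurable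
  apply Measure.ext_of_charFun
  ext s
  rw [charFun_stdGaussian, charFun_apply, integral_map hm.aemeasurable
    (by fun_prop)]
  have h1 : ∀ p : ℝ × Ev n,
      Complex.exp (((inner ℝ (p.1 • e + (p.2 - (inner ℝ e p.2 : ℝ) • e)) s : ℝ) : ℂ) * Complex.I) =
      Complex.exp (((inner ℝ p.1 (inner ℝ e s : ℝ) : ℝ) : ℂ) * Complex.I) *
      Complex.exp (((inner ℝ p.2 (s - (inner ℝ e s : ℝ) • e) : ℝ) : ℂ) * Complex.I) := by
    intro p
    rw [← Complex.exp_add, ← add_mul, ← Complex.ofReal_add]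
    congr 3
    rw [inner_add_left, inner_smul_left, inner_sub_left, inner_smul_left, inner_sub_right,
      inner_smul_right, real_inner_comm e p.2]
    simp only [conj_trivial]
    simp [RCLike.inner_apply]
    ring
  simp_rw [h1]
  rw [integral_prod_mul (μ := g1) (ν := gam n)
    (fun t : ℝ => Complex.exp (((inner ℝ t (inner ℝ e s : ℝ) : ℝ) : ℂ) * Complex.I))
    (fun y : Ev n => Complex.exp (((inner ℝ y (s - (inner ℝ e s : ℝ) • e) : ℝ) : ℂ) * Complex.I)),
    ← charFun_apply, ← charFun_apply, charFun_stdGaussian, charFun_gaussianReal]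
  rw [← Complex.exp_add]
  congr 1
  have h2 : ‖s - (inner ℝ e s : ℝ) • e‖ ^ 2 = ‖s‖ ^ 2 - (inner ℝ e s : ℝ) ^ 2 := by
    rw [norm_sub_sq_real, inner_smul_right, norm_smul, he, real_inner_comm, Real.norm_eq_abs,
      mul_one, sq_abs]
    ring
  have h3 : ((‖s - (inner ℝ e s : ℝ) • e‖ : ℂ)) ^ 2 = (‖s‖ : ℂ) ^ 2 - ((inner ℝ e s : ℝ) : ℂ) ^ 2 := by
    exact_mod_cast congrArg (fun r : ℝ => (r : ℂ)) h2
  rw [h3]
  simp
  ring

/-- Slicing as a measure preserving map. -/
lemma measurePreserving_slp (e : Ev n) (he : ‖e‖ = 1) :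
    MeasurePreserving (slp e) (g1.prod (gam n)) (gam n) :=
  ⟨measurable_slp e, map_slice e he⟩

end Pool.Agent.KG
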