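import Pool.Agent.KG.CellList
import Pool.Agent.KG.Half

/-! From a certificate to the one-dimensional inequality. -/

open MeasureTheory ProbabilityTheory Real Filter Topology Set

namespace Pool.Agent.KG

/-- the complete check of a certificate -/
def certOK (m1 m3 νl γl : ℚ) (cs : List Cell) : Bool :=
  decide (0 < m1) && decide (0 < m3) && okB m1 m3 νl γl cs 0 1 1 0 &&
  decide (m1 + m3 + (acc νl γl cs 0 1 1).sA ≤ 1) &&
  decide ((acc νl γl cs 0 1 1).sB ≤ 1 + (acc νl γl cs 0 1 1).p) &&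
  decide ((acc νl γl cs 0 1 1).s0 ≤ 1) &&
  decide ((acc νl γl cs 0 1 1).s2 ≤ 6 * (acc νl γl cs 0 1 1).s1 - 3)

lemma ee_zero : ee 0 = 1 := by simp [ee]

lemma wOf_nonneg (m1 m3 νl γl : ℚ) (cs : List Cell) : ∀ a lo hi T : ℚ,
    okB m1 m3 νl γl cs a lo hi T = true → ∀ t : ℝ, 0 ≤ wOf cs νl t := by
  induction cs with
  | nil =>
    intro a lo hi T h t
    simp only [okB, Bool.and_eq_true, decide_eq_true_eq] at h
    simp only [wOf]
    exact_mod_cast h.1.1.2.le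
  | cons c cs ih =>
    intro a lo hi T h t
    simp only [okB, Bool.and_eq_true] at h
    obtain ⟨hc, hrest⟩ := h
    simp only [cellOK, Bool.and_eq_true, Bool.or_eq_true, decide_eq_true_eq] at hc
    obtain ⟨⟨⟨⟨⟨⟨⟨⟨⟨⟨⟨⟨⟨⟨⟨h1, h2⟩, h3⟩, h4⟩, h5⟩, h6⟩, h7⟩, h8⟩, h9⟩, h10⟩, h11⟩, h12⟩, h13⟩, h14⟩,
      h15⟩, h16⟩ := hc
    simp only [wOf]
    split_ifs
    · exact_mod_cast h2.le
    · exact ih _ _ _ _ hrest t

/-- the half-line form of the integral -/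
lemma integral_cub_eq (ν : ℝ → ℝ) (hν : Measurable ν) (hν0 : ∀ t, 0 ≤ ν t)
    (c0 c1 c2 c3 : ℝ) :
    ∫ t, max (2 * |cub c0 c1 c2 c3 t| - 2 * a0 * ν |t| * |t|) 0 ∂g1 =
      ∫ t in Ioi (0 : ℝ), cellF (ν t) (c0 - c2 / √2) (c2 / √2) (c1 - 3 * (c3 / √6)) (c3 / √6) t := by
  have ha := a0_pos
  have hint : Integrable (fun t => max (2 * |cub c0 c1 c2 c3 t| - 2 * a0 * ν |t| * |t|) 0) g1 :=
    integrable_max 2 (by norm_num) (fun t => 2 * a0 * ν |t| * |t|)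
      (((hν.comp measurable_norm).const_mul _).mul measurable_norm)
      (fun t => mul_nonneg (mul_nonneg (by positivity) (hν0 _)) (abs_nonneg _)) c0 c1 c2 c3
  rw [integral_g1, integral_eq_Ioi (integrable_g1_iff.1 hint)]
  refine setIntegral_congr_fun measurableSet_Ioi ?_
  intro t ht
  have ht0 : 0 < t := ht
  have hphi : phi t = a0 / 2 * ee t := phi_eq t
  have q1 : cub c0 c1 c2 c3 t = (c0 - c2 / √2) + (c2 / √2) * t ^ 2 +
      ((c1 - 3 * (c3 / √6)) * t + (c3 / √6) * t ^ 3) := by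
    unfold cub
    ring
  have q2 : cub c0 c1 c2 c3 (-t) = (c0 - c2 / √2) + (c2 / √2) * t ^ 2 -
      ((c1 - 3 * (c3 / √6)) * t + (c3 / √6) * t ^ 3) := by
    unfold cub
    ring
  have hm : ∀ y w : ℝ, max (2 * y - 2 * a0 * w * t) 0 = 2 * max (y - a0 * w * t) 0 := by
    intro y w
    rw [show 2 * y - 2 * a0 * w * t = 2 * (y - a0 * w * t) by ring,
      show (0 : ℝ) = 2 * 0 by ring, ← mul_max_of_nonneg _ _ (by norm_num : (0 : ℝ) ≤ 2), mul_zero]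
  simp only
  rw [phi_even, abs_neg, abs_of_pos ht0, hm, hm, hphi, q1, q2]
  unfold cellF
  ring

/-- **the one-dimensional inequality from a certificate** -/
theorem slice_of_cert (m1 m3 νl γl : ℚ) (cs : List Cell) (h : certOK m1 m3 νl γl cs = true) :
    ∃ n02 n13 : ℝ, ∀ c0 c1 c2 c3 : ℝ,
      ∫ t, max (2 * |cub c0 c1 c2 c3 t| - 2 * a0 * wOf cs νl |t| * |t|) 0 ∂g1 ≤
        c0 ^ 2 + c1 ^ 2 + c2 ^ 2 + c3 ^ 2 + n02 * (c0 * c2) + n13 * (c1 * c3) := by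
  simp only [certOK, Bool.and_eq_true, decide_eq_true_eq] at h
  obtain ⟨⟨⟨⟨⟨⟨hm1, hm3⟩, hok⟩, hA⟩, hB⟩, h0⟩, h2⟩ := h
  obtain ⟨p, s1, hp, hs1, H⟩ := tail_bound m1 m3 νl γl hm1 hm3 cs 0 1 1 0 le_rfl
    (by simp [ee_zero]) (by simp [ee_zero]) hok
  set r := acc νl γl cs 0 1 1 with hr
  have hA' : (m1 : ℝ) + m3 + r.sA ≤ 1 := by exact_mod_cast hA
  have hB' : (r.sB : ℝ) ≤ 1 + r.p := by exact_mod_cast hB
  have h0' : (r.s0 : ℝ) ≤ 1 := by exact_mod_cast h0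
  have h2' : (r.s2 : ℝ) ≤ 6 * r.s1 - 3 := by exact_mod_cast h2
  refine ⟨(p - 2) / √2, (2 * s1 - 6) / √6, ?_⟩
  intro c0 c1 c2 c3
  rw [integral_cub_eq _ (measurable_wOf cs νl) (wOf_nonneg _ _ _ _ _ _ _ _ _ hok)]
  have hH := (H (c0 - c2 / √2) (c2 / √2) (c1 - 3 * (c3 / √6)) (c3 / √6)).2
  rw [Rat.cast_zero, mul_zero, mul_zero, sub_zero, max_eq_left (abs_nonneg _), sq_abs] at hH
  refine hH.trans ?_
  have s2 : (√2 : ℝ) ^ 2 = 2 := Real.sq_sqrt (by norm_num)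
  have s6 : (√6 : ℝ) ^ 2 = 6 := Real.sq_sqrt (by norm_num)
  have s2p : (0 : ℝ) < √2 := by positivity
  have s6p : (0 : ℝ) < √6 := by positivity
  set B := c2 / √2 with hBd
  set D := c3 / √6 with hDd
  have eB : c2 ^ 2 = 2 * B ^ 2 := by rw [hBd, div_pow, s2]; ring
  have eD : c3 ^ 2 = 6 * D ^ 2 := by rw [hDd, div_pow, s6]; ring
  have eB2 : (p - 2) / √2 * (c0 * c2) = (p - 2) * (c0 * B) := by rw [hBd]; ring
  have eD2 : (2 * s1 - 6) / √6 * (c1 * c3) = (2 * s1 - 6) * (c1 * D) := by rw [hDd]; ring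
  rw [eB, eD, eB2, eD2]
  have k1 : (r.sA : ℝ) * (c0 - B) ^ 2 + m1 * (c0 - B) ^ 2 + m3 * (c0 - B) ^ 2 ≤ (c0 - B) ^ 2 := by
    nlinarith [sq_nonneg (c0 - B)]
  have k2 : (r.sB : ℝ) * B ^ 2 ≤ (1 + p) * B ^ 2 :=
    mul_le_mul_of_nonneg_right (by linarith) (sq_nonneg B)
  have k3 : (r.s0 : ℝ) * (c1 - 3 * D) ^ 2 ≤ 1 * (c1 - 3 * D) ^ 2 :=
    mul_le_mul_of_nonneg_right h0' (sq_nonneg _)
  have k4 : (r.s2 : ℝ) * D ^ 2 ≤ (6 * s1 - 3) * D ^ 2 :=
    mul_le_mul_of_nonneg_right (by linarith) (sq_nonneg D)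
  nlinarith

/-! ### the integral of the weight -/

def sw (l ε νl : ℚ) : List Cell → ℚ → ℚ → ℚ
  | [], _, hi => max l (2 * ε * νl) * hi
  | c :: cs, _, hi => max l (2 * ε * c.nu) * (hi - c.lo) + sw l ε νl cs c.lo c.hi

lemma sw_bound (l ε m1 m3 νl γl : ℚ) (hl : 0 ≤ l) (cs : List Cell) : ∀ a lo hi T : ℚ,
    0 ≤ a → (lo : ℝ) ≤ ee a → ee a ≤ hi → okB m1 m3 νl γl cs a lo hi T = true →
    IntegrableOn (fun t => ee t * (max (l : ℝ) (2 * ε * wOf cs νl t) * t)) (Ioi (a : ℝ)) ∧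
    ∫ t in Ioi (a : ℝ), ee t * (max (l : ℝ) (2 * ε * wOf cs νl t) * t) ≤ sw l ε νl cs lo hi := by
  have hl' : (0 : ℝ) ≤ l := by exact_mod_cast hl
  induction cs with
  | nil =>
    intro a lo hi T ha hlo hhi _
    simp only [wOf, sw]
    have hfun : (fun t => ee t * (max (l : ℝ) (2 * ε * νl) * t)) = fun t =>
        ee t * (max (l : ℝ) (2 * ε * νl) * t + 0 * t ^ 3 + 0 * t ^ 5) := by
      funext t
      ring
    rw [hfun]
    refine ⟨(integrable_odd _ _ _).integrableOn, ?_⟩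
    rw [int_tail]
    push_cast
    have := mul_le_mul_of_nonneg_left hhi (hl'.trans (le_max_left (l : ℝ) (2 * ε * νl)))
    refine le_trans (le_of_eq ?_) this
    ring
  | cons c cs ih =>
    intro a lo hi T ha hlo hhi hok
    simp only [okB, Bool.and_eq_true] at hok
    obtain ⟨hc, hrest⟩ := hok
    simp only [cellOK, Bool.and_eq_true, Bool.or_eq_true, decide_eq_true_eq] at hc
    obtain ⟨⟨⟨⟨⟨⟨⟨⟨⟨⟨⟨⟨⟨⟨⟨h1, h2⟩, h3⟩, h4⟩, h5⟩, h6⟩, h7⟩, h8⟩, h9⟩, h10⟩, h11⟩, h12⟩, h13⟩, h14⟩,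
      h15⟩, h16⟩ := hc
    obtain ⟨hlo', hhi'⟩ := expOK_sound h16
    have hb0 : (0 : ℚ) ≤ c.b := ha.trans h1.le
    obtain ⟨hi1, hi2⟩ := ih c.b c.lo c.hi c.T hb0 hlo' hhi' hrest
    have h1' : (a : ℝ) < c.b := by exact_mod_cast h1
    set K : ℝ := max (l : ℝ) (2 * ε * c.nu) with hK
    have hfun : (fun t => ee t * (K * t)) = fun t =>
        ee t * (K * t + 0 * t ^ 3 + 0 * t ^ 5) := by
      funext t
      ring
    have hae1 : (fun t => ee t * (max (l : ℝ) (2 * ε * wOf (c :: cs) νl t) * t)) =ᵐ[volume.restrict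
        (Ioc (a : ℝ) c.b)] fun t => ee t * (K * t) := by
      have hne : ∀ᵐ t ∂(volume.restrict (Ioc (a : ℝ) c.b)), t ≠ (c.b : ℝ) :=
        ae_restrict_of_ae (Measure.ae_ne volume _)
      filter_upwards [ae_restrict_mem measurableSet_Ioc, hne] with t ht hne'
      have : t < (c.b : ℝ) := lt_of_le_of_ne ht.2 hne'
      simp only [wOf, if_pos this, hK]
    have heq2 : ∀ t ∈ Ioi (c.b : ℝ), ee t * (max (l : ℝ) (2 * ε * wOf (c :: cs) νl t) * t) =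
        ee t * (max (l : ℝ) (2 * ε * wOf cs νl t) * t) := by
      intro t ht
      have : ¬ t < (c.b : ℝ) := not_lt.2 (le_of_lt ht)
      simp only [wOf, if_neg this]
    have hcellint : IntegrableOn (fun t => ee t * (K * t)) (Ioc (a : ℝ) c.b) := by
      rw [hfun]
      exact (integrable_odd _ _ _).integrableOn
    have hint1 : IntegrableOn (fun t => ee t * (max (l : ℝ) (2 * ε * wOf (c :: cs) νl t) * t))
        (Ioc (a : ℝ) c.b) := hcellint.congr hae1.symm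
    have hint2 : IntegrableOn (fun t => ee t * (max (l : ℝ) (2 * ε * wOf (c :: cs) νl t) * t))
        (Ioi (c.b : ℝ)) := hi1.congr_fun (fun t ht => (heq2 t ht).symm) measurableSet_Ioi
    have hunion : Ioi (a : ℝ) = Ioc (a : ℝ) c.b ∪ Ioi (c.b : ℝ) :=
      (Ioc_union_Ioi_eq_Ioi h1'.le).symm
    have hdisj : Disjoint (Ioc (a : ℝ) c.b) (Ioi (c.b : ℝ)) := Ioc_disjoint_Ioi le_rfl
    refine ⟨?_, ?_⟩
    · rw [hunion]
      exact hint1.union hint2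
    · rw [hunion, setIntegral_union hdisj measurableSet_Ioi hint1 hint2,
        integral_congr_ae hae1, setIntegral_congr_fun measurableSet_Ioi heq2]
      have h3 : ∫ t in Ioc (a : ℝ) c.b, ee t * (K * t) = K * (ee a - ee c.b) := by
        rw [hfun, int_cell _ _ _ h1'.le]
        ring
      rw [h3]
      simp only [sw]
      push_cast
      have h4 : ee a - ee c.b ≤ (hi : ℝ) - c.lo := by linarith
      have h5 : 0 ≤ K := hl'.trans (le_max_left _ _)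
      exact add_le_add (mul_le_mul_of_nonneg_left h4 h5) hi2

lemma integrable_abs_of {f : ℝ → ℝ} (h : IntegrableOn f (Ioi 0)) :
    Integrable (fun x => f |x|) := by
  have h1 : IntegrableOn (fun x => f |x|) (Ioi 0) :=
    h.congr_fun (fun x hx => by rw [abs_of_pos (show (0:ℝ) < x from hx)]) measurableSet_Ioi
  have h2 : IntegrableOn (fun x ↦ f |x|) (Iic 0) := by
    rw [← Measure.map_neg_eq_self (volume : Measure ℝ)]
    let m : MeasurableEmbedding fun x : ℝ => -x := (Homeomorph.neg ℝ).measurableEmbedding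
    rw [m.integrableOn_map_iff]
    simp_rw [Function.comp_def, abs_neg, neg_preimage, neg_Iic, neg_zero]
    exact Iff.mpr integrableOn_Ici_iff_integrableOn_Ioi h1
  rw [← integrableOn_univ, ← Iic_union_Ioi (a := (0 : ℝ))]
  exact h2.union h1

/-- the integral of the weight of the case B -/
theorem int_weight (l ε m1 m3 νl γl : ℚ) (hl : 0 ≤ l) (cs : List Cell)
    (h : certOK m1 m3 νl γl cs = true) (q : ℚ) (hq : sw l ε νl cs 1 1 ≤ q) :
    Integrable (fun t => a0 * max (l : ℝ) (2 * ε * wOf cs νl |t|) * |t|) g1 ∧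
    ∫ t, a0 * max (l : ℝ) (2 * ε * wOf cs νl |t|) * |t| ∂g1 ≤ a0 ^ 2 * q := by
  simp only [certOK, Bool.and_eq_true, decide_eq_true_eq] at h
  obtain ⟨⟨⟨⟨⟨⟨hm1, hm3⟩, hok⟩, hA⟩, hB⟩, h0⟩, h2⟩ := h
  obtain ⟨hi1, hi2⟩ := sw_bound l ε m1 m3 νl γl hl cs 0 1 1 0 le_rfl
    (by simp [ee_zero]) (by simp [ee_zero]) hok
  rw [Rat.cast_zero] at hi1 hi2
  have ha := a0_pos
  set F : ℝ → ℝ := fun t => max (l : ℝ) (2 * ε * wOf cs νl t) with hF
  have hbase : IntegrableOn (fun t => phi t * (a0 * F t * t)) (Ioi 0) := by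
    refine (hi1.const_mul (a0 ^ 2 / 2)).congr (Eventually.of_forall fun t => ?_)
    have : phi t = a0 / 2 * ee t := phi_eq t
    simp only [hF]
    rw [this]
    ring
  have habs : Integrable (fun t => phi |t| * (a0 * F |t| * |t|)) :=
    integrable_abs_of (f := fun t => phi t * (a0 * F t * t)) hbase
  have hphi : ∀ t : ℝ, phi |t| = phi t := by
    intro t
    rcases abs_cases t with ⟨h1, _⟩ | ⟨h1, _⟩ <;> rw [h1]
    rw [phi_even]
  simp_rw [hphi] at habs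
  refine ⟨integrable_g1_iff.2 habs, ?_⟩
  rw [integral_g1]
  have e1 : ∫ t, phi t * (a0 * F |t| * |t|) = ∫ t, phi |t| * (a0 * F |t| * |t|) := by
    simp_rw [hphi]
  change ∫ t, phi t * (a0 * F |t| * |t|) ≤ _
  rw [e1, integral_comp_abs (f := fun t => phi t * (a0 * F t * t))]
  have e2 : ∫ t in Ioi (0 : ℝ), phi t * (a0 * F t * t) =
      a0 ^ 2 / 2 * ∫ t in Ioi (0 : ℝ), ee t * (F t * t) := by
    rw [← integral_const_mul]
    refine integral_congr_ae (Eventually.of_forall fun t => ?_)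
    have : phi t = a0 / 2 * ee t := phi_eq t
    simp only
    rw [this]
    ring
  rw [e2]
  have hq' : ((sw l ε νl cs 1 1 : ℚ) : ℝ) ≤ q := by exact_mod_cast hq
  have h3 := hi2.trans hq'
  have h4 := mul_le_mul_of_nonneg_left h3 (by positivity : 0 ≤ a0 ^ 2)
  calc 2 * (a0 ^ 2 / 2 * ∫ t in Ioi (0 : ℝ), ee t * (F t * t))
      = a0 ^ 2 * ∫ t in Ioi (0 : ℝ), ee t * (F t * t) := by ring
    _ ≤ _ := h4

/-- comparison with the cubic weight (case A) -/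
def leA (ρ k νl : ℚ) : List Cell → ℚ → Bool
  | [], a => decide (νl ≤ ρ + k * a ^ 2 / 6)
  | c :: cs, a => decide (c.nu ≤ ρ + k * a ^ 2 / 6) && leA ρ k νl cs c.b

lemma leA_sound (ρ k νl : ℚ) (hk : 0 ≤ k) (cs : List Cell) : ∀ a : ℚ, 0 ≤ a → 
    (∀ c ∈ cs, 0 ≤ c.b) → leA ρ k νl cs a = true →
    ∀ t : ℝ, (a : ℝ) ≤ t → wOf cs νl t ≤ ρ + k * t ^ 2 / 6 := by
  have hk' : (0 : ℝ) ≤ k := by exact_mod_cast hk
  induction cs with
  | nil =>
    intro a ha _ h t hat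
    simp only [leA, decide_eq_true_eq] at h
    simp only [wOf]
    have h' : (νl : ℝ) ≤ ρ + k * a ^ 2 / 6 := by exact_mod_cast h
    have ha' : (0 : ℝ) ≤ a := by exact_mod_cast ha
    have : (a : ℝ) ^ 2 ≤ t ^ 2 := pow_le_pow_left₀ ha' hat 2
    have := mul_le_mul_of_nonneg_left this hk'
    linarith
  | cons c cs ih =>
    intro a ha hb h t hat
    simp only [leA, Bool.and_eq_true, decide_eq_true_eq] at h
    simp only [wOf]
    have h' : (c.nu : ℝ) ≤ ρ + k * a ^ 2 / 6 := by exact_mod_cast h.1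
    have ha' : (0 : ℝ) ≤ a := by exact_mod_cast ha
    split_ifs with ht
    · have : (a : ℝ) ^ 2 ≤ t ^ 2 := pow_le_pow_left₀ ha' hat 2
      have := mul_le_mul_of_nonneg_left this hk'
      linarith
    · exact ih c.b (hb c (by simp)) (fun d hd => hb d (by simp [hd])) h.2 t (not_lt.1 ht)

/-- **case A** -/
theorem caseA_of_cert (ρ k m1 m3 νl γl : ℚ) (hk : 0 ≤ k) (cs : List Cell)
    (h : certOK m1 m3 νl γl cs = true) (hb : cs.all (fun c => decide (0 ≤ c.b)) = true)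
    (hA : leA ρ k νl cs 0 = true) :
    ∃ ν : ℝ → ℝ, Measurable ν ∧ (∀ t, 0 ≤ ν t) ∧ (∀ t, 0 ≤ t → ν t ≤ ρ + k * t ^ 2 / 6) ∧
    ∃ n02 n13 : ℝ, ∀ c0 c1 c2 c3 : ℝ,
      ∫ t, max (2 * |cub c0 c1 c2 c3 t| - 2 * a0 * ν |t| * |t|) 0 ∂g1 ≤
        c0 ^ 2 + c1 ^ 2 + c2 ^ 2 + c3 ^ 2 + n02 * (c0 * c2) + n13 * (c1 * c3) := by
  have h' := h
  simp only [certOK, Bool.and_eq_true, decide_eq_true_eq] at h'
  obtain ⟨⟨⟨⟨⟨⟨hm1, hm3⟩, hok⟩, _⟩, _⟩, _⟩, _⟩ := h'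
  refine ⟨wOf cs νl, measurable_wOf cs νl, wOf_nonneg _ _ _ _ _ _ _ _ _ hok, ?_,
    slice_of_cert m1 m3 νl γl cs h⟩
  intro t ht
  refine leA_sound ρ k νl hk cs 0 le_rfl ?_ hA t (by simpa using ht)
  intro c hc
  simpa using List.all_eq_true.1 hb c hc

/-- **case B** -/
theorem caseB_of_cert (l ε m1 m3 νl γl : ℚ) (hl : 0 ≤ l) (cs : List Cell)
    (h : certOK m1 m3 νl γl cs = true) (q : ℚ) (hq : sw l ε νl cs 1 1 ≤ q) :
    ∃ ν : ℝ → ℝ, Measurable ν ∧ (∀ t, 0 ≤ ν t) ∧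
      (∫ t, a0 * max (l : ℝ) (2 * ε * ν |t|) * |t| ∂g1 ≤ a0 ^ 2 * q) ∧
      Integrable (fun t => a0 * max (l : ℝ) (2 * ε * ν |t|) * |t|) g1 ∧
    ∃ n02 n13 : ℝ, ∀ c0 c1 c2 c3 : ℝ,
      ∫ t, max (2 * |cub c0 c1 c2 c3 t| - 2 * a0 * ν |t| * |t|) 0 ∂g1 ≤
        c0 ^ 2 + c1 ^ 2 + c2 ^ 2 + c3 ^ 2 + n02 * (c0 * c2) + n13 * (c1 * c3) := by
  have h' := h
  simp only [certOK, Bool.and_eq_true, decide_eq_true_eq] at h'
  obtain ⟨⟨⟨⟨⟨⟨hm1, hm3⟩, hok⟩, _⟩, _⟩, _⟩, _⟩ := h'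
  have hw := int_weight l ε m1 m3 νl γl hl cs h q hq
  exact ⟨wOf cs νl, measurable_wOf cs νl, wOf_nonneg _ _ _ _ _ _ _ _ _ hok, hw.2, hw.1,
    slice_of_cert m1 m3 νl γl cs h⟩

end Pool.Agent.KG
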