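import Pool.Agent.KG.Cells

/-! Upper bounds for the integrals of `e^{-t²/2}` and `e^{-t²/2}/t` over a cell, and rational
enclosures of `e^{-b²/2}`. -/

open MeasureTheory ProbabilityTheory Real Filter Topology Set

namespace Pool.Agent.KG

/-- trapezoidal rule for a convex function -/
lemma trapezoid {f : ℝ → ℝ} {a b : ℝ} (hab : a < b) (hf : ConvexOn ℝ (Icc a b) f)
    (hc : ContinuousOn f (Icc a b)) :
    ∫ t in Ioc a b, f t ≤ (b - a) / 2 * (f a + f b) := by
  have h0 : 0 < b - a := sub_pos.2 hab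
  have hle : ∀ t ∈ Ioc a b, f t ≤ f a + (t - a) * ((f b - f a) / (b - a)) := by
    intro t ht
    have k1 : 0 ≤ (b - t) / (b - a) := div_nonneg (by linarith [ht.2]) h0.le
    have k2 : 0 ≤ (t - a) / (b - a) := div_nonneg (by linarith [ht.1]) h0.le
    have k3 : (b - t) / (b - a) + (t - a) / (b - a) = 1 := by
      field_simp
      ring
    have h1 := hf.2 (left_mem_Icc.2 hab.le) (right_mem_Icc.2 hab.le) k1 k2 k3
    simp only [smul_eq_mul] at h1
    have e1 : (b - t) / (b - a) * a + (t - a) / (b - a) * b = t := by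
      field_simp
      ring
    rw [e1] at h1
    refine h1.trans (le_of_eq ?_)
    field_simp
    ring
  have hlin : Continuous fun t : ℝ => f a + (t - a) * ((f b - f a) / (b - a)) := by fun_prop
  have h2 : ∫ t in Ioc a b, f t ≤ ∫ t in Ioc a b, (f a + (t - a) * ((f b - f a) / (b - a))) :=
    setIntegral_mono_on ((hc.integrableOn_Icc).mono_set Ioc_subset_Icc_self)
      ((hlin.integrableOn_Icc (a := a) (b := b)).mono_set Ioc_subset_Icc_self)
      measurableSet_Ioc hle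
  refine h2.trans (le_of_eq ?_)
  have hd : ∀ t ∈ uIcc a b, HasDerivAt (fun t : ℝ => f a * t + (t - a) ^ 2 / 2 *
      ((f b - f a) / (b - a))) (f a + (t - a) * ((f b - f a) / (b - a))) t := by
    intro t _
    have h3 := ((hasDerivAt_id t).const_mul (f a)).add
      (((((hasDerivAt_id t).sub_const a).pow 2).div_const 2).mul_const ((f b - f a) / (b - a)))
    refine h3.congr_deriv ?_
    simp only [id, Nat.cast_ofNat]
    ring
  rw [← intervalIntegral.integral_of_le hab.le,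
    intervalIntegral.integral_eq_sub_of_hasDerivAt hd (hlin.intervalIntegrable _ _)]
  field_simp
  ring

lemma convexOn_ee {a b : ℝ} (ha : 1 ≤ a) : ConvexOn ℝ (Icc a b) ee := by
  refine convexOn_of_hasDerivWithinAt2_nonneg (f' := fun t => -(t * ee t))
    (f'' := fun t => (t ^ 2 - 1) * ee t) (convex_Icc a b) continuous_ee.continuousOn ?_ ?_ ?_
  · intro t _
    exact (hasDerivAt_ee t).hasDerivWithinAt
  · intro t _
    have h := ((hasDerivAt_id t).mul (hasDerivAt_ee t)).neg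
    refine (h.congr_deriv ?_).hasDerivWithinAt
    simp only [id]
    ring
  · intro t ht
    rw [interior_Icc] at ht
    have h1 : 1 < t := lt_of_le_of_lt ha ht.1
    have := ee_pos t
    have h2 : 0 ≤ t ^ 2 - 1 := by nlinarith
    exact mul_nonneg h2 this.le

lemma convexOn_ee_div {a b : ℝ} (ha : 0 < a) : ConvexOn ℝ (Icc a b) (fun t => ee t / t) := by
  refine convexOn_of_hasDerivWithinAt2_nonneg (f' := fun t => -ee t - ee t / t ^ 2)
    (f'' := fun t => ee t * (t + 1 / t + 2 / t ^ 3)) (convex_Icc a b) ?_ ?_ ?_ ?_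
  · refine continuous_ee.continuousOn.div continuousOn_id ?_
    intro t ht
    exact (lt_of_lt_of_le ha ht.1).ne'
  · intro t ht
    rw [interior_Icc] at ht
    have ht0 : t ≠ 0 := (ha.trans ht.1).ne'
    have h := (hasDerivAt_ee t).div (hasDerivAt_id t) ht0
    refine (h.congr_deriv ?_).hasDerivWithinAt
    simp only [id]
    field_simp
  · intro t ht
    rw [interior_Icc] at ht
    have ht0 : t ≠ 0 := (ha.trans ht.1).ne'
    have h := (hasDerivAt_ee t).neg.sub ((hasDerivAt_ee t).div (hasDerivAt_pow 2 t)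
      (pow_ne_zero 2 ht0))
    refine (h.congr_deriv ?_).hasDerivWithinAt
    simp only [Nat.cast_ofNat]
    field_simp
    ring
  · intro t ht
    rw [interior_Icc] at ht
    have ht0 : 0 < t := ha.trans ht.1
    have := ee_pos t
    positivity

lemma int_ee_trap {a b : ℝ} (ha : 1 ≤ a) (hab : a < b) :
    ∫ t in Ioc a b, ee t ≤ (b - a) / 2 * (ee a + ee b) :=
  trapezoid hab (convexOn_ee ha) continuous_ee.continuousOn

lemma int_ee_div_trap {a b : ℝ} (ha : 0 < a) (hab : a < b) :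
    ∫ t in Ioc a b, ee t / t ≤ (b - a) / 2 * (ee a / a + ee b / b) := by
  refine trapezoid hab (convexOn_ee_div ha) ?_
  refine continuous_ee.continuousOn.div continuousOn_id ?_
  intro t ht
  exact (lt_of_lt_of_le ha ht.1).ne'

/-- Taylor polynomial bound: `e^{-z} ≤ 1 - z + z²/2 - z³/6 + z⁴/24` -/
lemma exp_neg_le_cubic' {z : ℝ} (hz : 0 ≤ z) :
    1 - z + z ^ 2 / 2 - z ^ 3 / 6 ≤ rexp (-z) := by
  have hmono : MonotoneOn (fun z : ℝ => rexp (-z) - (1 - z + z ^ 2 / 2 - z ^ 3 / 6)) (Ici 0) := by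
    refine monotoneOn_of_deriv_nonneg (convex_Ici 0) (by fun_prop) (by fun_prop) ?_
    intro x hx
    rw [interior_Ici] at hx
    have hx0 : 0 < x := hx
    have hd : HasDerivAt (fun z : ℝ => rexp (-z) - (1 - z + z ^ 2 / 2 - z ^ 3 / 6))
        (-rexp (-x) + (1 - x + x ^ 2 / 2)) x := by
      have h1 := ((hasDerivAt_neg x).exp).sub ((((hasDerivAt_const x (1 : ℝ)).sub
        (hasDerivAt_id x)).add ((hasDerivAt_pow 2 x).div_const 2)).sub
        ((hasDerivAt_pow 3 x).div_const 6))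
      refine h1.congr_deriv ?_
      norm_num
      ring
    rw [hd.deriv]
    linarith [exp_neg_le_quadratic hx0.le]
  have h := hmono (Set.self_mem_Ici) hz hz
  simp only [neg_zero, Real.exp_zero] at h
  norm_num at h
  linarith

lemma exp_neg_le_quartic {z : ℝ} (hz : 0 ≤ z) :
    rexp (-z) ≤ 1 - z + z ^ 2 / 2 - z ^ 3 / 6 + z ^ 4 / 24 := by
  have hmono : MonotoneOn (fun z : ℝ => (1 - z + z ^ 2 / 2 - z ^ 3 / 6 + z ^ 4 / 24)
      - rexp (-z)) (Ici 0) := by
    refine monotoneOn_of_deriv_nonneg (convex_Ici 0) (by fun_prop) (by fun_prop) ?_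
    intro x hx
    rw [interior_Ici] at hx
    have hx0 : 0 < x := hx
    have hd : HasDerivAt (fun z : ℝ => (1 - z + z ^ 2 / 2 - z ^ 3 / 6 + z ^ 4 / 24) - rexp (-z))
        (rexp (-x) - (1 - x + x ^ 2 / 2 - x ^ 3 / 6)) x := by
      have h1 := (((((hasDerivAt_const x (1 : ℝ)).sub
        (hasDerivAt_id x)).add ((hasDerivAt_pow 2 x).div_const 2)).sub
        ((hasDerivAt_pow 3 x).div_const 6)).add ((hasDerivAt_pow 4 x).div_const 24)).sub
        ((hasDerivAt_neg x).exp)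
      refine h1.congr_deriv ?_
      norm_num
      ring
    rw [hd.deriv]
    linarith [exp_neg_le_cubic' hx0.le]
  have h := hmono (Set.self_mem_Ici) hz hz
  simp only [neg_zero, Real.exp_zero] at h
  norm_num at h
  linarith

/-- the polynomial bounding `∫ e^{-t²/2}` -/
lemma int_ee_taylor {a b : ℝ} (hab : a ≤ b) :
    ∫ t in Ioc a b, ee t ≤ (b - b ^ 3 / 6 + b ^ 5 / 40 - b ^ 7 / 336 + b ^ 9 / 3456) -
      (a - a ^ 3 / 6 + a ^ 5 / 40 - a ^ 7 / 336 + a ^ 9 / 3456) := by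
  have hc : Continuous fun t : ℝ => 1 - t ^ 2 / 2 + t ^ 4 / 8 - t ^ 6 / 48 + t ^ 8 / 384 := by
    fun_prop
  have hle : ∀ t ∈ Ioc a b, ee t ≤ 1 - t ^ 2 / 2 + t ^ 4 / 8 - t ^ 6 / 48 + t ^ 8 / 384 := by
    intro t _
    have h := exp_neg_le_quartic (z := t ^ 2 / 2) (by positivity)
    unfold ee
    rw [show -t ^ 2 / 2 = -(t ^ 2 / 2) by ring]
    refine h.trans (le_of_eq ?_)
    ring
  refine (setIntegral_mono_on ((continuous_ee.integrableOn_Icc (a := a) (b := b)).mono_set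
    Ioc_subset_Icc_self) ((hc.integrableOn_Icc (a := a) (b := b)).mono_set Ioc_subset_Icc_self)
    measurableSet_Ioc hle).trans (le_of_eq ?_)
  have hd : ∀ t ∈ uIcc a b, HasDerivAt (fun t : ℝ => t - t ^ 3 / 6 + t ^ 5 / 40 - t ^ 7 / 336
      + t ^ 9 / 3456) (1 - t ^ 2 / 2 + t ^ 4 / 8 - t ^ 6 / 48 + t ^ 8 / 384) t := by
    intro t _
    have h := (((((hasDerivAt_id t).sub ((hasDerivAt_pow 3 t).div_const 6)).add
      ((hasDerivAt_pow 5 t).div_const 40)).sub ((hasDerivAt_pow 7 t).div_const 336)).add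
      ((hasDerivAt_pow 9 t).div_const 3456))
    refine h.congr_deriv ?_
    norm_num
    ring
  rw [← intervalIntegral.integral_of_le hab,
    intervalIntegral.integral_eq_sub_of_hasDerivAt hd (hc.intervalIntegrable _ _)]

/-! ### rational enclosures -/

/-- Taylor sum of `exp w` to order 11 -/
def expS (w : ℚ) : ℚ :=
  1 + w * (1 + w / 2 * (1 + w / 3 * (1 + w / 4 * (1 + w / 5 * (1 + w / 6 * (1 + w / 7 *
    (1 + w / 8 * (1 + w / 9 * (1 + w / 10 * (1 + w / 11))))))))))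

def expU (w : ℚ) : ℚ := expS w + w ^ 12 * 13 / (479001600 * 12)

/-- check of `lo ≤ e^{-b²/2} ≤ hi` -/
def expOK (b lo hi : ℚ) : Bool :=
  decide (0 ≤ lo) && decide (0 ≤ b) && decide (b ^ 2 / 8 ≤ 1) &&
    decide (lo * (expU (b ^ 2 / 8)) ^ 4 ≤ 1) && decide (1 ≤ hi * (expS (b ^ 2 / 8)) ^ 4)

lemma expS_eq (w : ℚ) : ((expS w : ℚ) : ℝ) = ∑ m ∈ Finset.range 12, (w : ℝ) ^ m / m.factorial := by
  simp only [expS, Finset.sum_range_succ, Finset.sum_range_zero, Nat.factorial]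
  push_cast
  ring

lemma expS_le {w : ℚ} (hw : 0 ≤ w) : ((expS w : ℚ) : ℝ) ≤ rexp w := by
  rw [expS_eq]
  exact Real.sum_le_exp_of_nonneg (by exact_mod_cast hw) 12

lemma le_expU {w : ℚ} (hw : 0 ≤ w) (hw1 : w ≤ 1) : rexp w ≤ ((expU w : ℚ) : ℝ) := by
  have h := Real.exp_bound' (x := (w : ℝ)) (by exact_mod_cast hw) (by exact_mod_cast hw1)
    (n := 12) (by norm_num)
  refine h.trans (le_of_eq ?_)
  unfold expU
  push_cast
  rw [expS_eq]
  norm_num [Nat.factorial]

lemma expOK_sound {b lo hi : ℚ} (h : expOK b lo hi = true) :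
    (lo : ℝ) ≤ ee b ∧ ee b ≤ hi := by
  simp only [expOK, Bool.and_eq_true, decide_eq_true_eq] at h
  obtain ⟨⟨⟨⟨h0, hb⟩, h1⟩, h2⟩, h3⟩ := h
  set w : ℚ := b ^ 2 / 8 with hw
  have hw0 : 0 ≤ w := by positivity
  have e : ee b * (rexp w) ^ 4 = 1 := by
    unfold ee
    rw [← Real.exp_nat_mul, ← Real.exp_add, hw]
    push_cast
    rw [show -(b : ℝ) ^ 2 / 2 + 4 * ((b : ℝ) ^ 2 / 8) = 0 by ring, Real.exp_zero]
  have hS := expS_le hw0
  have hU := le_expU hw0 h1
  have hS0 : (0 : ℝ) ≤ ((expS w : ℚ) : ℝ) := by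
    rw [expS_eq]
    have : (0 : ℝ) ≤ (w : ℝ) := by exact_mod_cast hw0
    positivity
  have h2' : (lo : ℝ) * ((expU w : ℚ) : ℝ) ^ 4 ≤ 1 := by exact_mod_cast h2
  have h3' : (1 : ℝ) ≤ hi * ((expS w : ℚ) : ℝ) ^ 4 := by exact_mod_cast h3
  have hlo : (0 : ℝ) ≤ lo := by exact_mod_cast h0
  have hE : 0 < rexp (w : ℝ) ^ 4 := by positivity
  have hS4 : ((expS w : ℚ) : ℝ) ^ 4 ≤ rexp (w : ℝ) ^ 4 := pow_le_pow_left₀ hS0 hS 4
  have hU4 : rexp (w : ℝ) ^ 4 ≤ ((expU w : ℚ) : ℝ) ^ 4 :=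
    pow_le_pow_left₀ (Real.exp_pos _).le hU 4
  have hhi : (0 : ℝ) ≤ hi := by
    by_contra hneg
    push Not at hneg
    have : (hi : ℝ) * ((expS w : ℚ) : ℝ) ^ 4 ≤ 0 :=
      mul_nonpos_of_nonpos_of_nonneg hneg.le (by positivity)
    linarith
  constructor
  · have : (lo : ℝ) * rexp (w : ℝ) ^ 4 ≤ ee b * rexp (w : ℝ) ^ 4 := by
      rw [e]
      exact (mul_le_mul_of_nonneg_left hU4 hlo).trans h2'
    exact le_of_mul_le_mul_right this hE
  · have : ee b * rexp (w : ℝ) ^ 4 ≤ hi * rexp (w : ℝ) ^ 4 := by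
      rw [e]
      exact h3'.trans (mul_le_mul_of_nonneg_left hS4 hhi)
    exact le_of_mul_le_mul_right this hE

end Pool.Agent.KG
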