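import Pool.Agent.KG.Half

/-! Reduction of the bound for the form `B ε` to one-dimensional weights. -/

open MeasureTheory ProbabilityTheory Real

namespace Pool.Agent.KG

variable {n : ℕ}

/-- a weight for which the one-dimensional inequality holds -/
def SliceOK (ψ : ℝ → ℝ) : Prop :=
  Measurable ψ ∧ (∀ t, 0 ≤ ψ t) ∧ ∃ n02 n13 : ℝ, ∀ c0 c1 c2 c3 : ℝ,
    ∫ t, max (2 * |cub c0 c1 c2 c3 t| - ψ t) 0 ∂g1 ≤
      c0 ^ 2 + c1 ^ 2 + c2 ^ 2 + c3 ^ 2 + n02 * (c0 * c2) + n13 * (c1 * c3)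

/-- **main reduction**, with a general majorant `W` of the test function -/
theorem reduceW (hn : 0 < n) (ε : ℝ) (hε : 0 < ε) (f g : L2 n) (hf : ∀ᵐ x ∂(gam n), |f x| ≤ 1)
    (hg : ∀ᵐ x ∂(gam n), |g x| ≤ 1) :
    ∃ (α : ℝ) (e : Ev n) (v : L2 n), 0 ≤ α ∧ α ≤ a0 ∧ ‖e‖ = 1 ∧ (∀ᵐ x ∂(gam n), |v x| ≤ 1) ∧
      (∀ (lam b0 : ℝ) (W : ℝ → ℝ), Measurable W → Integrable W g1 →
        (∀ t, |wt ε lam b0 t| ≤ W t) → B ε f g ≤ α ^ 2 - lam * α + ε * b0 ^ 2 + ∫ t, W t ∂g1 +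
        ∫ x, max (2 * ε * |P3 n v x| - W (inner ℝ e x)) 0 ∂(gam n) - ε * ‖P3 n v‖ ^ 2) ∧
      B ε f g ≤ α ^ 2 + ε * ‖P3 n v‖ ^ 2 := by
  obtain ⟨u, v, huv, hB⟩ := B_le_uv ε f g hf hg
  have hu : ∀ᵐ x ∂(gam n), |u x| ≤ 1 := by
    filter_upwards [huv] with x hx
    linarith [abs_nonneg (v x)]
  have hv1 : ∀ᵐ x ∂(gam n), |v x| ≤ 1 := by
    filter_upwards [huv] with x hx
    linarith [abs_nonneg (u x)]
  obtain ⟨e, he, hα, hαa⟩ := exists_dir hn u hu
  refine ⟨‖bar u‖, e, v, norm_nonneg _, hαa, he, hv1, ?_, ?_⟩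
  · intro lam b0 W hWm hWi hwW
    set Q : L2 n := P3 n v with hQ
    have hv : ε * ‖Q‖ ^ 2 = 2 * ε * inner ℝ Q v - ε * ‖Q‖ ^ 2 := by
      rw [hQ, real_inner_comm, inner_P3_self]
      ring
    have hb := sq_inner_herm_le u e he
    set b : ℝ := inner ℝ (herm e) u with hbdef
    have hw : ‖bar u‖ ^ 2 - ε * ‖P3 n u‖ ^ 2 ≤ ‖bar u‖ ^ 2 - lam * ‖bar u‖ + ε * b0 ^ 2 +
        (lam * inner ℝ (lin e) u - 2 * ε * b0 * b) := by
      rw [← hα]
      nlinarith [sq_nonneg (b - b0), mul_le_mul_of_nonneg_left hb hε.le,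
        mul_nonneg hε.le (sq_nonneg (b - b0))]
    have hlin := (memLp_lin e).coeFn_toLp
    have hherm := (memLp_herm e).coeFn_toLp
    have hW0 : ∀ t, 0 ≤ W t := fun t => (abs_nonneg _).trans (hwW t)
    have hWi' : Integrable (fun x : Ev n => W (inner ℝ e x)) (gam n) := by
      refine integrable_inner e (f := W) hWm ?_
      simpa [he] using hWi
    have hmax : Integrable (fun x => max (2 * ε * |Q x| - W (inner ℝ e x)) 0) (gam n) := by
      have h1 : Integrable (fun x => 2 * ε * |Q x| - W (inner ℝ e x)) (gam n) :=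
        (((integrable_L2 Q).abs).const_mul _).sub hWi'
      exact h1.pos_part
    -- the integral inequality
    have hint : lam * inner ℝ (lin e) u - 2 * ε * b0 * b + 2 * ε * inner ℝ Q v ≤
        ∫ t, W t ∂g1 + ∫ x, max (2 * ε * |Q x| - W (inner ℝ e x)) 0 ∂(gam n) := by
      have e1 : ∫ t, W t ∂g1 = ∫ x, W (inner ℝ e x) ∂(gam n) := by
        rw [integral_inner e (f := W) hWm, he]
        simp
      have e2 : lam * inner ℝ (lin e) u - 2 * ε * b0 * b + 2 * ε * inner ℝ Q v =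
          ∫ x, (wt ε lam b0 (inner ℝ e x) * u x + 2 * ε * (Q x * v x)) ∂(gam n) := by
        have e3 : ∫ x, (wt ε lam b0 (inner ℝ e x) * u x + 2 * ε * (Q x * v x)) ∂(gam n) =
            ∫ x, (lam * ((lin e : L2 n) x * u x) - 2 * ε * b0 * ((herm e : L2 n) x * u x)
              + 2 * ε * (Q x * v x)) ∂(gam n) := by
          refine integral_congr_ae ?_
          filter_upwards [hlin, hherm] with x h1 h2
          unfold lin herm wt
          rw [h1, h2]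
          ring
        have i1 := (integrable_mul_L2 (lin e) u).const_mul lam
        have i2 := (integrable_mul_L2 (herm e) u).const_mul (2 * ε * b0)
        have i3 := (integrable_mul_L2 Q v).const_mul (2 * ε)
        have i12 : Integrable (fun x => lam * ((lin e : L2 n) x * u x)
          - 2 * ε * b0 * ((herm e : L2 n) x * u x)) (gam n) := i1.sub i2
        rw [e3, integral_add i12 i3, integral_sub i1 i2, integral_const_mul, integral_const_mul,
          integral_const_mul, ← inner_L2, ← inner_L2, ← inner_L2]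
      rw [e1, e2, ← integral_add hWi' hmax]
      refine integral_mono_ae ?_ (hWi'.add hmax) ?_
      · have i1 := (integrable_mul_L2 (lin e) u).const_mul lam
        have i2 := (integrable_mul_L2 (herm e) u).const_mul (2 * ε * b0)
        have i3 := (integrable_mul_L2 Q v).const_mul (2 * ε)
        refine ((i1.sub i2).add i3).congr ?_
        filter_upwards [hlin, hherm] with x h1 h2
        simp only [Pi.add_apply, Pi.sub_apply]
        unfold lin herm wt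
        rw [h1, h2]
        ring
      · filter_upwards [huv] with x hx
        have ha := hwW (inner ℝ e x)
        set a := wt ε lam b0 (inner ℝ e x)
        set c := W (inner ℝ e x)
        have h1 : a * u x ≤ |a| * |u x| := by
          rw [← abs_mul]
          exact le_abs_self _
        have h2 : Q x * v x ≤ |Q x| * |v x| := by
          rw [← abs_mul]
          exact le_abs_self _
        have h3 : |a| ≤ c + max (2 * ε * |Q x| - c) 0 := by
          linarith [le_max_right (2 * ε * |Q x| - c) 0]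
        have h4 : 2 * ε * |Q x| ≤ c + max (2 * ε * |Q x| - c) 0 := by
          linarith [le_max_left (2 * ε * |Q x| - c) 0]
        have h5 : 0 ≤ c + max (2 * ε * |Q x| - c) 0 := (abs_nonneg a).trans h3
        have h6 := mul_le_mul_of_nonneg_right h3 (abs_nonneg (u x))
        have h7 := mul_le_mul_of_nonneg_right h4 (abs_nonneg (v x))
        have h8 := mul_le_mul_of_nonneg_left h2 (by positivity : 0 ≤ 2 * ε)
        have h9 := mul_le_mul_of_nonneg_left hx h5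
        change a * u x + 2 * ε * (Q x * v x) ≤ c + max (2 * ε * |Q x| - c) 0
        nlinarith
    rw [hB]
    nlinarith [sq_nonneg ‖bar v‖]
  · rw [hB]
    have h3 : 0 ≤ ε * ‖P3 n u‖ ^ 2 := by positivity
    nlinarith [sq_nonneg ‖bar v‖]

/-- use of a certified weight -/
lemma star_weight {ψ : ℝ → ℝ} (hψ : SliceOK ψ) (ε : ℝ) (hε : 0 < ε) (W : ℝ → ℝ)
    (hWm : Measurable W) (hle : ∀ t, ε * ψ t ≤ W t) (e : Ev n) (he : ‖e‖ = 1) (v : L2 n) :
    ∫ x, max (2 * ε * |P3 n v x| - W (inner ℝ e x)) 0 ∂(gam n) ≤ ε * ‖P3 n v‖ ^ 2 := by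
  obtain ⟨hψm, hψ0, n02, n13, hs⟩ := hψ
  have h := star 2 (by norm_num) ψ hψm hψ0 n02 n13 hs e he (P3 n v) (P3_mem v)
  have hm : Measurable (fun x : Ev n => (inner ℝ e x : ℝ)) := by fun_prop
  have hQ := (integrable_L2 (P3 n v)).abs
  have i0 : Integrable (fun x => max (2 * |P3 n v x| - ψ (inner ℝ e x)) 0) (gam n) := by
    refine (hQ.const_mul 2).mono' ?_ (Filter.Eventually.of_forall fun x => ?_)
    · exact ((hQ.const_mul 2).aestronglyMeasurable.sub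
        (hψm.comp hm).aestronglyMeasurable).sup aestronglyMeasurable_const
    · rw [Real.norm_eq_abs, abs_of_nonneg (le_max_right _ _)]
      refine max_le ?_ (by positivity)
      linarith [hψ0 (inner ℝ e x)]
  have i1 : Integrable (fun x => max (2 * ε * |P3 n v x| - W (inner ℝ e x)) 0) (gam n) := by
    refine (hQ.const_mul (2 * ε)).mono' ?_ (Filter.Eventually.of_forall fun x => ?_)
    · exact ((hQ.const_mul (2 * ε)).aestronglyMeasurable.sub
        (hWm.comp hm).aestronglyMeasurable).sup aestronglyMeasurable_const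
    · rw [Real.norm_eq_abs, abs_of_nonneg (le_max_right _ _)]
      refine max_le ?_ (by positivity)
      have h1 := hle (inner ℝ e x)
      have h2 := mul_nonneg hε.le (hψ0 (inner ℝ e x))
      linarith
  calc ∫ x, max (2 * ε * |P3 n v x| - W (inner ℝ e x)) 0 ∂(gam n)
      ≤ ∫ x, ε * max (2 * |P3 n v x| - ψ (inner ℝ e x)) 0 ∂(gam n) := by
        refine integral_mono i1 (i0.const_mul ε) fun x => ?_
        refine max_le ?_ (mul_nonneg hε.le (le_max_right _ _))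
        have h1 := hle (inner ℝ e x)
        have h2 := mul_le_mul_of_nonneg_left (le_max_left (2 * |P3 n v x| - ψ (inner ℝ e x)) 0)
          hε.le
        linarith
    _ = ε * ∫ x, max (2 * |P3 n v x| - ψ (inner ℝ e x)) 0 ∂(gam n) := integral_const_mul _ _
    _ ≤ _ := mul_le_mul_of_nonneg_left h hε.le

/-- Case A: the direction of `u` is close to the linear sign function. -/
lemma caseA (ε x2 : ℝ) (hε : 0 < ε) (hε2 : ε ≤ 2 / 3) (hx2 : 0 ≤ x2) (hx3 : x2 ≤ 1 / 3)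
    {ψ : ℝ → ℝ} (hψ : SliceOK ψ)
    (hle : ∀ t, ε * ψ t ≤ a0 * ((2 - ε - x2 * (1 - 3 / 2 * ε)) * |t| +
      ε * (1 - 3 * x2) / 3 * |t| ^ 3))
    {n : ℕ} (f g : L2 n) (α x : ℝ) (hx : α = (1 - x) * a0) (h0 : 0 ≤ x) (h1 : x ≤ x2)
    (e : Ev n) (he : ‖e‖ = 1) (v : L2 n)
    (H : ∀ (lam b0 : ℝ) (W : ℝ → ℝ), Measurable W → Integrable W g1 →
        (∀ t, |wt ε lam b0 t| ≤ W t) → B ε f g ≤ α ^ 2 - lam * α + ε * b0 ^ 2 + ∫ t, W t ∂g1 +
        ∫ x, max (2 * ε * |P3 n v x| - W (inner ℝ e x)) 0 ∂(gam n) - ε * ‖P3 n v‖ ^ 2) :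
    B ε f g ≤ (1 - ε / 6) * a0 ^ 2 := by
  have ha := a0_pos
  set σ := 2 - ε - x2 * (1 - 3 / 2 * ε) with hσ
  have hσ0 : 0 ≤ σ := by rw [hσ]; nlinarith
  set κ := 1 - 3 * x with hκ
  have hκ0 : 0 ≤ κ := by rw [hκ]; linarith
  have hW : Measurable fun t => |wt ε ((σ + ε * κ) * a0) (-κ * a0 / √6) t| :=
    (continuous_wt _ _ _).abs.measurable
  have h := H ((σ + ε * κ) * a0) (-κ * a0 / √6)
    (fun t => |wt ε ((σ + ε * κ) * a0) (-κ * a0 / √6) t|) hW (integrable_wt _ _ _).abs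
    (fun t => le_rfl)
  have hs := star_weight hψ ε hε (fun t => |wt ε ((σ + ε * κ) * a0) (-κ * a0 / √6) t|) hW
    (fun t => by
      rw [abs_wt_eq ε σ κ t hε.le hσ0 hκ0]
      refine (hle t).trans ?_
      have h3 : ε * (1 - 3 * x2) / 3 * |t| ^ 3 ≤ ε * κ / 3 * |t| ^ 3 := by
        refine mul_le_mul_of_nonneg_right ?_ (by positivity)
        rw [hκ]
        have := mul_le_mul_of_nonneg_left h1 hε.le
        linarith
      have h4 := mul_le_mul_of_nonneg_left h3 ha.le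
      nlinarith) e he v
  have hb := cert_bound ε σ κ α (ε * ‖P3 n v‖ ^ 2) hε.le hσ0 hκ0 (B ε f g) _ hs h
  refine hb.trans (le_of_sub_nonneg ?_)
  have e1 : (1 - ε / 6) * a0 ^ 2 - (α ^ 2 - (σ + ε * κ) * a0 * α +
      a0 ^ 2 * (σ + 2 * ε * κ / 3 + ε * κ ^ 2 / 6)) =
      a0 ^ 2 * (x * (1 - 3 / 2 * ε) * (x2 - x)) := by
    rw [hx, hκ, hσ]
    ring
  rw [e1]
  have h5 : 0 ≤ 1 - 3 / 2 * ε := by linarith
  have h6 : 0 ≤ x2 - x := by linarith
  positivity

/-- Case B: a weight without cubic term. -/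
lemma caseB (ε l I a1 a2 : ℝ) (hε : 0 < ε) (hl : 0 ≤ l)
    {ψ : ℝ → ℝ} (hψ : SliceOK ψ) (hψi : Integrable ψ g1)
    (hI : ∫ t, max (l * a0 * |t|) (ε * ψ t) ∂g1 ≤ I * a0 ^ 2)
    (h1 : a1 ^ 2 - l * a1 + I ≤ 1 - ε / 6) (h2 : a2 ^ 2 - l * a2 + I ≤ 1 - ε / 6)
    {n : ℕ} (f g : L2 n) (α a : ℝ) (ha : α = a * a0) (ha1 : a1 ≤ a) (ha2 : a ≤ a2)
    (e : Ev n) (he : ‖e‖ = 1) (v : L2 n)
    (H : ∀ (lam b0 : ℝ) (W : ℝ → ℝ), Measurable W → Integrable W g1 →
        (∀ t, |wt ε lam b0 t| ≤ W t) → B ε f g ≤ α ^ 2 - lam * α + ε * b0 ^ 2 + ∫ t, W t ∂g1 +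
        ∫ x, max (2 * ε * |P3 n v x| - W (inner ℝ e x)) 0 ∂(gam n) - ε * ‖P3 n v‖ ^ 2) :
    B ε f g ≤ (1 - ε / 6) * a0 ^ 2 := by
  have ha0 := a0_pos
  have i1 : Integrable (fun t : ℝ => |t|) g1 := by
    have : Integrable (fun t : ℝ => t) g1 := by simpa using integrable_pow_g1 1
    exact this.abs
  have hWm : Measurable fun t => max (l * a0 * |t|) (ε * ψ t) :=
    (by fun_prop : Measurable fun t : ℝ => l * a0 * |t|).max (hψ.1.const_mul ε)
  have hWi : Integrable (fun t => max (l * a0 * |t|) (ε * ψ t)) g1 :=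
    (i1.const_mul (l * a0)).sup (hψi.const_mul ε)
  have h := H (l * a0) 0 (fun t => max (l * a0 * |t|) (ε * ψ t)) hWm hWi (fun t => by
    unfold wt
    simp only [mul_zero, zero_mul, sub_zero]
    rw [abs_mul, abs_of_nonneg (by positivity : 0 ≤ l * a0)]
    exact le_max_left _ _)
  have hs := star_weight hψ ε hε (fun t => max (l * a0 * |t|) (ε * ψ t)) hWm
    (fun t => le_max_right _ _) e he v
  have h3 : B ε f g ≤ a0 ^ 2 * (a ^ 2 - l * a + I) := by
    rw [ha] at h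
    nlinarith
  -- convexity
  have h4 : a ^ 2 - l * a + I ≤ 1 - ε / 6 := by
    rcases eq_or_lt_of_le (ha1.trans ha2) with h5 | h5
    · have : a = a1 := le_antisymm (h5 ▸ ha2) ha1
      rw [this]
      exact h1
    · have e1 : (a2 - a1) * (1 - ε / 6 - (a ^ 2 - l * a + I)) =
          (a2 - a) * (1 - ε / 6 - (a1 ^ 2 - l * a1 + I)) +
          (a - a1) * (1 - ε / 6 - (a2 ^ 2 - l * a2 + I)) + (a2 - a1) * ((a - a1) * (a2 - a)) := by
        ring
      have e2 : 0 ≤ (a2 - a1) * (1 - ε / 6 - (a ^ 2 - l * a + I)) := by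
        rw [e1]
        have g1' := mul_nonneg (sub_nonneg.2 ha2) (sub_nonneg.2 h1)
        have g2 := mul_nonneg (sub_nonneg.2 ha1) (sub_nonneg.2 h2)
        have g3 := mul_nonneg (sub_nonneg.2 h5.le)
          (mul_nonneg (sub_nonneg.2 ha1) (sub_nonneg.2 ha2))
        linarith
      have e3 := nonneg_of_mul_nonneg_right e2 (sub_pos.2 h5)
      linarith
  have := mul_le_mul_of_nonneg_left h4 (sq_nonneg a0)
  linarith

/-- Assembly: Case A near the linear sign function, Case B in the middle, Case C (from a bound `M`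
for the third level) far away. -/
theorem B_le_of_weights (ε x2 a1 M : ℝ) (hε : 0 < ε) (hε2 : ε ≤ 2 / 3) (hx2 : 0 ≤ x2)
    (hx3 : x2 ≤ 1 / 3) (_ha1 : 0 ≤ a1)
    (hM : ∀ (n : ℕ) (v : L2 n), (∀ᵐ x ∂(gam n), |v x| ≤ 1) → ‖P3 n v‖ ^ 2 ≤ M)
    (hC : a1 ^ 2 * a0 ^ 2 + ε * M ≤ (1 - ε / 6) * a0 ^ 2)
    (hA : ∃ ψ : ℝ → ℝ, SliceOK ψ ∧ ∀ t, ε * ψ t ≤ a0 * ((2 - ε - x2 * (1 - 3 / 2 * ε)) * |t| +
      ε * (1 - 3 * x2) / 3 * |t| ^ 3))
    (hB : ∀ a, a1 ≤ a → a ≤ 1 - x2 → ∃ (l I b1 b2 : ℝ) (ψ : ℝ → ℝ), 0 ≤ l ∧ SliceOK ψ ∧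
      Integrable ψ g1 ∧ ∫ t, max (l * a0 * |t|) (ε * ψ t) ∂g1 ≤ I * a0 ^ 2 ∧
      b1 ^ 2 - l * b1 + I ≤ 1 - ε / 6 ∧ b2 ^ 2 - l * b2 + I ≤ 1 - ε / 6 ∧ b1 ≤ a ∧ a ≤ b2)
    (n : ℕ) (hn : 0 < n) (f g : L2 n) (hf : ∀ᵐ x ∂(gam n), |f x| ≤ 1)
    (hg : ∀ᵐ x ∂(gam n), |g x| ≤ 1) : B ε f g ≤ (1 - ε / 6) * a0 ^ 2 := by
  obtain ⟨α, e, v, hα0, hαa, he, hv, H, H2⟩ := reduceW hn ε hε f g hf hg
  have ha0 := a0_pos
  set a := α / a0 with ha
  have haα : α = a * a0 := by rw [ha]; field_simp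
  have ha0' : 0 ≤ a := by rw [ha]; positivity
  have ha1' : a ≤ 1 := by rw [ha, div_le_one ha0]; exact hαa
  by_cases c1 : a ≤ a1
  · have h1 := hM n v hv
    have h2 : α ^ 2 ≤ a1 ^ 2 * a0 ^ 2 := by
      rw [haα, mul_pow]
      exact mul_le_mul_of_nonneg_right (pow_le_pow_left₀ ha0' c1 2) (by positivity)
    have h3 := mul_le_mul_of_nonneg_left h1 hε.le
    linarith
  push Not at c1
  by_cases c2 : a ≤ 1 - x2
  · obtain ⟨l, I, b1, b2, ψ, hl, hψ, hψi, hI, h1, h2, h3, h4⟩ := hB a c1.le c2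
    exact caseB ε l I b1 b2 hε hl hψ hψi hI h1 h2 f g α a haα h3 h4 e he v H
  · push Not at c2
    obtain ⟨ψ, hψ, hle⟩ := hA
    exact caseA ε x2 hε hε2 hx2 hx3 hψ hle f g α (1 - a) (by rw [haα]; ring) (by linarith)
      (by linarith) e he v H

/-- the lower bound for the Grothendieck constant -/
theorem KG_ge_of_B_le (ε : ℝ) (hε : 0 < ε) (hε2 : ε ≤ 2 / 3)
    (hB : ∀ (n : ℕ), 0 < n → ∀ f g : L2 n, (∀ᵐ x ∂(gam n), |f x| ≤ 1) →
      (∀ᵐ x ∂(gam n), |g x| ≤ 1) → B ε f g ≤ (1 - ε / 6) * a0 ^ 2)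
    (K : ℝ) (hK : 0 < K) (h : IsGrothendieckBound K) : 3 * π / (6 - ε) ≤ K := by
  have hpi := Real.pi_pos
  have ha := a0_pos
  have h1 : 0 < (1 - ε / 6) * a0 ^ 2 := by
    have : 0 < 1 - ε / 6 := by linarith
    positivity
  have h2 := lower_of ε ((1 - ε / 6) * a0 ^ 2) h1 hB
    (fun n F hF hn τ h0 h1 => numer ε hε.le n F hF hn τ h0 h1) K hK h
  refine le_trans (le_of_eq ?_) h2
  rw [a0_sq]
  have : (6 - ε) ≠ 0 := by linarith
  have h3 : (1 - ε / 6) ≠ 0 := by linarith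
  rw [div_eq_div_iff this (by positivity)]
  field_simp
  ring

end Pool.Agent.KG
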